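import Pool.Agent.Lib.MP_4354a3_al.Defs

/-!
# Facts on the finite root system
-/

set_option linter.unusedSectionVars false

namespace Pool.Agent.Lib.MP_4354a3_al

open Set Function

namespace SimpleDatum

variable {ι M N : Type*} [Fintype ι] [DecidableEq ι] [AddCommGroup M] [AddCommGroup N]
  (D : SimpleDatum ι M N)

/-- Roots. -/
abbrev r (α : ι) : M := D.P.root α

/-- Coroots as additive functionals. -/
def cv (α : ι) : M →+ ℤ := (D.P.coroot' α).toAddMonoidHom

/-- Reflections. -/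
abbrev sr (α : ι) : M ≃ₗ[ℤ] M := D.P.reflection α

/-- Action of reflections on indices. -/
abbrev pm (β α : ι) : ι := D.P.reflectionPerm β α

/-- The negative root. -/
def ng (α : ι) : ι := D.P.reflectionPerm α α

/-- The canonical invariant form. -/
noncomputable abbrev B (x y : M) : ℤ := D.P.RootForm x y

/-- The positive root cone. -/
abbrev Qp : AddSubmonoid M := AddSubmonoid.closure (D.P.root '' D.b.support)

/-- Positive roots. -/
def pos (α : ι) : Prop := 0 < D.cv α D.rho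

lemma cv_def (α : ι) (x : M) : D.P.coroot' α x = D.cv α x := rfl

@[simp] lemma cv_r_self (α : ι) : D.cv α (D.r α) = 2 := by simp [← cv_def]

lemma sr_apply (α : ι) (x : M) : D.sr α x = x - D.cv α x • D.r α := D.P.reflection_apply α x

@[simp] lemma sr_sr (α : ι) (x : M) : D.sr α (D.sr α x) = x := D.P.reflection_same α x

lemma r_pm (β α : ι) : D.r (D.pm β α) = D.sr β (D.r α) := D.P.root_reflectionPerm β α

lemma cv_pm (β α : ι) (x : M) : D.cv (D.pm β α) x = D.cv α (D.sr β x) :=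
  (D.P.coroot'_reflection x).symm

@[simp] lemma pm_pm (β α : ι) : D.pm β (D.pm β α) = α := D.P.reflectionPerm_self β α

@[simp] lemma cv_sr (α : ι) (x : M) : D.cv α (D.sr α x) = - D.cv α x := by
  rw [sr_apply, map_sub, map_zsmul, cv_r_self, smul_eq_mul]; ring

@[simp] lemma r_ng (α : ι) : D.r (D.ng α) = - D.r α := by simp [ng]

@[simp] lemma cv_ng (α : ι) (x : M) : D.cv (D.ng α) x = - D.cv α x := by
  rw [ng, cv_pm, cv_sr]

@[simp] lemma ng_ng (α : ι) : D.ng (D.ng α) = α := D.P.root.injective (by simp)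

lemma sr_ng (α : ι) (x : M) : D.sr (D.ng α) x = D.sr α x := by simp [sr_apply]

lemma sr_pm (β α : ι) (x : M) : D.sr (D.pm β α) x = D.sr β (D.sr α (D.sr β x)) := by
  rw [sr, D.P.reflection_reflectionPerm]; rfl

lemma B_apply (x y : M) : D.B x y = ∑ α, D.cv α x * D.cv α y := D.P.rootForm_apply_apply x y

lemma B_comm (x y : M) : D.B x y = D.B y x := by simp [B_apply, mul_comm]

lemma B_sr (α : ι) (x y : M) : D.B (D.sr α x) (D.sr α y) = D.B x y :=
  D.P.rootForm_reflection_reflection_apply α x y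

lemma B_root (α : ι) (x : M) : D.B (D.r α) (D.r α) * D.cv α x = 2 * D.B (D.r α) x := by
  have := D.B_sr α (D.r α) x
  rw [D.sr_apply α x, sr, D.P.reflection_apply_self] at this
  simp only [B, map_neg, map_sub, map_zsmul, LinearMap.neg_apply, smul_eq_mul] at this ⊢
  linarith

lemma sq_le_B (α : ι) (x : M) : D.cv α x * D.cv α x ≤ D.B x x := by
  rw [B_apply]
  exact Finset.single_le_sum (f := fun α => D.cv α x * D.cv α x)
    (fun β _ => mul_self_nonneg _) (Finset.mem_univ α)

lemma B_root_pos (α : ι) : 0 < D.B (D.r α) (D.r α) := by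
  have := D.sq_le_B α (D.r α)
  rw [cv_r_self] at this; omega

lemma sep {x : M} (h : ∀ α, D.cv α x = 0) : x = 0 := by
  apply D.P.toLinearMap.toPerfPair.injective
  rw [map_zero]
  exact LinearMap.ext_on_range D.span_coroot fun α => h α

lemma cv_inj : Injective D.cv := by
  intro α β h
  apply D.P.coroot.injective
  apply D.P.toLinearMap.flip.toPerfPair.injective
  ext x
  exact DFunLike.congr_fun h x

lemma B_self_nonneg (x : M) : 0 ≤ D.B x x := by
  rw [B_apply]; exact Finset.sum_nonneg fun β _ => mul_self_nonneg _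

lemma B_self_pos {x : M} (h : x ≠ 0) : 0 < D.B x x := by
  by_contra hc
  refine h (D.sep fun α => ?_)
  have := D.sq_le_B α x
  nlinarith

lemma isDom_iff (x : M) : D.IsDom x ↔ ∀ j : D.b.support, 0 ≤ D.cv j x := Iff.rfl

lemma B_nonneg {x γ : M} (hx : D.IsDom x) (hγ : γ ∈ D.Qp) : 0 ≤ D.B γ x := by
  induction hγ using AddSubmonoid.closure_induction with
  | mem y hy =>
    obtain ⟨j, hj, rfl⟩ := hy
    have h1 := D.B_root j x
    have h2 := D.B_root_pos j
    have h3 : 0 ≤ D.cv j x := hx ⟨j, hj⟩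
    have := mul_nonneg h2.le h3
    simp only [r] at h1 this; omega
  | zero => simp [B]
  | add y z _ _ hy hz => simp only [B, map_add, LinearMap.add_apply] at *; omega

lemma B_pos {x γ : M} (hx : ∀ j : D.b.support, 0 < D.cv j x) (hγ : γ ∈ D.Qp) (h0 : γ ≠ 0) :
    0 < D.B γ x := by
  suffices γ = 0 ∨ 0 < D.B γ x from this.resolve_left h0
  clear h0
  induction hγ using AddSubmonoid.closure_induction with
  | mem y hy =>
    obtain ⟨j, hj, rfl⟩ := hy
    have h1 := D.B_root j x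
    have h2 := D.B_root_pos j
    have h3 : 0 < D.cv j x := hx ⟨j, hj⟩
    have := mul_pos h2 h3
    right; simp only [r] at h1 this; omega
  | zero => simp
  | add y z _ _ hy hz =>
    rcases hy with rfl | hy
    · simpa using hz
    rcases hz with rfl | hz
    · simpa using Or.inr hy
    right; simp only [B, map_add, LinearMap.add_apply] at *; omega

lemma cv_ω (a j : D.b.support) : D.cv j (D.ω a) = if j = a then 1 else 0 := D.coroot_ω a j

@[simp] lemma cv_ω_self (a : D.b.support) : D.cv a (D.ω a) = 1 := by simp [cv_ω]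

lemma cv_ω_ne {a j : D.b.support} (h : j ≠ a) : D.cv j (D.ω a) = 0 := by simp [cv_ω, h]

@[simp] lemma cv_rho (j : D.b.support) : D.cv j D.rho = 1 := by
  simp [rho, map_sum, cv_ω]

lemma rho_sdom (j : D.b.support) : 0 < D.cv j D.rho := by simp

lemma ω_dom (a : D.b.support) : D.IsDom (D.ω a) := fun j => by
  rw [cv_def, cv_ω]; split_ifs <;> simp

lemma Qp_antisymm {γ : M} (h : γ ∈ D.Qp) (h' : -γ ∈ D.Qp) : γ = 0 := by
  by_contra h0
  have h1 := D.B_pos D.rho_sdom h h0
  have h2 := D.B_pos D.rho_sdom h' (neg_ne_zero.2 h0)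
  simp only [B, map_neg, LinearMap.neg_apply] at h1 h2; omega

lemma r_ne_zero (α : ι) : D.r α ≠ 0 := D.P.ne_zero α

lemma dom_cv_of_mem {x : M} (hx : D.IsDom x) {α : ι} (h : D.r α ∈ D.Qp) : 0 ≤ D.cv α x := by
  have h1 := D.B_root α x
  have h2 := D.B_root_pos α
  have h3 := D.B_nonneg hx h
  nlinarith

lemma sdom_cv_of_mem {x : M} (hx : ∀ j : D.b.support, 0 < D.cv j x) {α : ι} (h : D.r α ∈ D.Qp) :
    0 < D.cv α x := by
  have h1 := D.B_root α x
  have h2 := D.B_root_pos α
  have h3 := D.B_pos hx h (D.r_ne_zero α)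
  nlinarith

lemma pos_iff {α : ι} : D.pos α ↔ D.r α ∈ D.Qp := by
  refine ⟨fun h => ?_, fun h => D.sdom_cv_of_mem D.rho_sdom h⟩
  rcases D.b.root_mem_or_neg_mem α with h' | h'
  · exact h'
  · have := D.sdom_cv_of_mem D.rho_sdom (α := D.ng α) (by rwa [r_ng])
    rw [cv_ng] at this
    unfold pos at h; omega

lemma pos_or (α : ι) : D.pos α ∨ D.pos (D.ng α) := by
  rw [pos_iff, pos_iff, r_ng]; exact D.b.root_mem_or_neg_mem α

lemma pos_ng_iff {α : ι} : D.pos (D.ng α) ↔ ¬ D.pos α := by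
  have := D.pos_or α
  unfold pos at *
  rw [cv_ng] at *; omega

lemma cv_rho_ne (α : ι) : D.cv α D.rho ≠ 0 := by
  have := D.pos_or α
  unfold pos at *
  rw [cv_ng] at *; omega

lemma pos_simple (j : D.b.support) : D.pos j := D.rho_sdom j

lemma dom_cv {x : M} (hx : D.IsDom x) {α : ι} (h : D.pos α) : 0 ≤ D.cv α x :=
  D.dom_cv_of_mem hx (D.pos_iff.1 h)

lemma dom_cv' {x : M} (hx : D.IsDom x) {α : ι} (h : ¬ D.pos α) : D.cv α x ≤ 0 := by
  have := D.dom_cv hx (D.pos_ng_iff.2 h)
  rw [cv_ng] at this; omega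

lemma sdom_cv {x : M} (hx : ∀ j : D.b.support, 0 < D.cv j x) {α : ι} (h : D.pos α) :
    0 < D.cv α x := D.sdom_cv_of_mem hx (D.pos_iff.1 h)

lemma sep_simple {x : M} (h : ∀ j : D.b.support, D.cv j x = 0) : x = 0 := by
  refine D.sep fun α => ?_
  have h1 : D.IsDom x := fun j => (h j).ge
  have h2 : D.IsDom (-x) := fun j => by rw [cv_def, map_neg, h j]; simp
  by_cases hp : D.pos α
  · have := D.dom_cv h1 hp
    have := D.dom_cv h2 hp
    rw [map_neg] at this; omega
  · have := D.dom_cv' h1 hp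
    have := D.dom_cv' h2 hp
    rw [map_neg] at this; omega

lemma ext_simple {x y : M} (h : ∀ j : D.b.support, D.cv j x = D.cv j y) : x = y := by
  rw [← sub_eq_zero]; exact D.sep_simple fun j => by rw [map_sub, h j, sub_self]

lemma B_dom_dom {x y : M} (hx : D.IsDom x) (hy : D.IsDom y) : 0 ≤ D.B x y := by
  rw [B_apply]
  refine Finset.sum_nonneg fun α _ => ?_
  by_cases hp : D.pos α
  · exact mul_nonneg (D.dom_cv hx hp) (D.dom_cv hy hp)
  · exact mul_nonneg_of_nonpos_of_nonpos (D.dom_cv' hx hp) (D.dom_cv' hy hp)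

lemma isPos_iff {α : ι} : D.b.IsPos α ↔ D.pos α := by
  have key : ∀ α, D.b.IsPos α → D.pos α := by
    intro α h
    rw [pos_iff]
    refine h.induction_on_add (p := fun α => D.r α ∈ D.Qp)
      (fun i hi => AddSubmonoid.subset_closure ⟨i, hi, rfl⟩) fun i j k hk hi hj => ?_
    rw [r, hk]
    exact add_mem hi (AddSubmonoid.subset_closure ⟨j, hj, rfl⟩)
  refine ⟨key α, fun h => ?_⟩
  rcases RootPairing.Base.IsPos.or_neg D.b α with h' | h'
  · exact h'
  · exact absurd h (D.pos_ng_iff.1 (key _ h'))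

lemma pos_pm {α : ι} (h : D.pos α) (j : D.b.support) (hj : α ≠ j) : D.pos (D.pm j α) := by
  have := D.reduced
  exact D.isPos_iff.1 ((D.isPos_iff.2 h).reflectionPerm j.2 hj)

lemma root_induction {p : ι → Prop} (h₀ : ∀ α, p α → p (D.ng α)) (h₁ : ∀ j : D.b.support, p j)
    (h₂ : ∀ α (j : D.b.support), p α → p (D.pm j α)) (α : ι) : p α := by
  have := D.reduced
  exact D.b.induction_reflect α h₀ (fun i hi => h₁ ⟨i, hi⟩) fun i j hi hj => h₂ i ⟨j, hj⟩ hi

lemma t_pos (α : ι) : (0 : ℤ) < D.t α := by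
  have h1 := D.t_spec α
  have h2 := D.B_root_pos α
  have h3 := D.B_root_pos D.θ
  by_contra h
  have : (D.t α : ℤ) = 0 := by omega
  rw [this] at h1
  simp only [B, r] at h3; omega

@[simp] lemma t_θ : D.t D.θ = 1 := by
  have h1 := D.t_spec D.θ
  have h3 := D.B_root_pos D.θ
  have : (D.t D.θ : ℤ) = 1 := by
    apply mul_right_cancel₀ h3.ne'
    rw [one_mul]; exact h1
  exact_mod_cast this

@[simp] lemma t_pm (β α : ι) : D.t (D.pm β α) = D.t α := by
  have h1 := D.t_spec α
  have h2 := D.t_spec (D.pm β α)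
  have h3 := D.B_root_pos α
  have h4 := D.B_sr β (D.r α) (D.r α)
  rw [← r_pm] at h4
  simp only [B, r] at h3 h4
  rw [h4, ← h1] at h2
  exact_mod_cast mul_right_cancel₀ h3.ne' h2

@[simp] lemma t_ng (α : ι) : D.t (D.ng α) = D.t α := D.t_pm α α

lemma t_sym (α β : ι) : D.t α * D.cv β (D.r α) = D.t β * D.cv α (D.r β) := by
  have h1 := D.t_spec α
  have h2 := D.t_spec β
  have h3 := D.B_root α (D.r β)
  have h4 := D.B_root β (D.r α)
  have h5 := D.B_root_pos D.θ
  rw [D.B_comm (D.r β) (D.r α)] at h4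
  apply mul_left_cancel₀ h5.ne'
  simp only [B, r] at *
  calc _ = (D.t β * D.P.RootForm (D.P.root β) (D.P.root β)) * (D.t α * D.cv β (D.P.root α)) := by
        rw [h2]
    _ = D.t β * D.t α * (D.P.RootForm (D.P.root β) (D.P.root β) * D.cv β (D.P.root α)) := by ring
    _ = D.t β * D.t α * (D.P.RootForm (D.P.root α) (D.P.root α) * D.cv α (D.P.root β)) := by
        rw [h3, h4]
    _ = (D.t α * D.P.RootForm (D.P.root α) (D.P.root α)) * (D.t β * D.cv α (D.P.root β)) := by
        ring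
    _ = _ := by rw [h1]

lemma cv_θ (α : ι) : D.cv α (D.r D.θ) = D.t α * D.cv D.θ (D.r α) := by
  have := D.t_sym D.θ α
  simpa using this

lemma le_t_θ {x : M} (hx : D.IsDom x) (γ : ι) : D.cv γ x ≤ D.t γ * D.cv D.θ x := by
  have h1 := D.B_nonneg hx (D.highest γ)
  have h2 := D.B_root γ x
  have h3 := D.B_root D.θ x
  have h4 := D.t_spec γ
  have h5 := D.B_root_pos γ
  simp only [B, r, map_sub, LinearMap.sub_apply] at *
  apply le_of_mul_le_mul_left _ h5
  rw [← mul_assoc, mul_comm _ (D.t γ : ℤ), h4]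
  linarith

lemma pos_θ : D.pos D.θ := by
  have h := D.le_t_θ (x := D.rho) (fun j => (D.rho_sdom j).le) (D.ng D.θ)
  have := D.cv_rho_ne D.θ
  simp only [cv_ng, t_ng, t_θ, Nat.cast_one, one_mul] at h
  unfold pos; omega

lemma θ_dom_cv {α : ι} (h : D.pos α) : 0 ≤ D.cv D.θ (D.r α) := by
  have h1 := D.highest (D.pm α D.θ)
  rw [← r, ← r, r_pm, sr_apply, sub_sub_cancel] at h1
  have h2 := D.B_nonneg (x := D.rho) (fun j => (D.rho_sdom j).le) h1
  have h3 := D.B_pos D.rho_sdom (D.pos_iff.1 h) (D.r_ne_zero α)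
  simp only [B, map_zsmul, LinearMap.smul_apply, smul_eq_mul] at h2 h3
  have h4 : 0 ≤ D.cv α (D.r D.θ) := by
    by_contra hc
    nlinarith
  rw [cv_θ] at h4
  have := D.t_pos α
  by_contra hc
  nlinarith

lemma θ_neg_cases {α : ι} (h : ¬ D.pos α) :
    D.cv D.θ (D.r α) = 0 ∨ (D.cv D.θ (D.r α) = -1 ∧ D.pos (D.pm D.θ α)) ∨ α = D.ng D.θ := by
  have h1 := D.θ_dom_cv (D.pos_ng_iff.2 h)
  rw [r_ng, map_neg] at h1
  have h2 := D.highest (D.ng α)
  rw [← r, ← r, r_ng, sub_neg_eq_add] at h2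
  have h3 := D.highest (D.pm D.θ α)
  rw [← r, ← r, r_pm, sr_apply] at h3
  by_cases h0 : D.cv D.θ (D.r α) = 0
  · exact Or.inl h0
  by_cases h4 : D.cv D.θ (D.r α) = -1
  · refine Or.inr (Or.inl ⟨h4, ?_⟩)
    rw [pos_iff, r_pm, sr_apply, h4]
    convert h2 using 1
    module
  · right; right
    obtain ⟨p, hp⟩ : ∃ p : ℕ, D.cv D.θ (D.r α) = -(p + 2) := ⟨(-D.cv D.θ (D.r α) - 2).toNat, by omega⟩
    have h5 : -(D.r D.θ + D.r α) ∈ D.Qp := by
      have := add_mem h3 (AddSubmonoid.nsmul_mem _ (D.pos_iff.1 D.pos_θ) p)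
      convert this using 1
      rw [hp]; module
    apply D.P.root.injective
    rw [← r, ← r, r_ng, eq_neg_iff_add_eq_zero, add_comm]
    exact D.Qp_antisymm h2 h5

lemma cv_simple_nonpos {a b : D.b.support} (h : a ≠ b) : D.cv a (D.r b) ≤ 0 := by
  have h1 := D.pos_iff.1 (D.pos_pm (D.pos_simple b) a (fun e => h (Subtype.ext e).symm))
  rw [r_pm, sr_apply] at h1
  have := D.b.pairingIn_le_zero_of_ne (i := b) (j := a) (fun e => h (Subtype.ext e).symm) b.2 a.2
  have e := D.P.algebraMap_pairingIn ℤ (b : ι) (a : ι)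
  simp only [algebraMap_int_eq, eq_intCast, Int.cast_id] at e
  rw [e] at this
  exact this

lemma eq_sum_ω (x : M) : x = ∑ j : D.b.support, D.cv j x • D.ω j := by
  refine D.ext_simple fun i => ?_
  simp [map_sum, cv_ω]

/-- The fundamental weights form a basis. -/
noncomputable def basis : Module.Basis D.b.support ℤ M :=
  Module.Basis.mk (v := D.ω)
    (by
      rw [Fintype.linearIndependent_iff]
      intro g hg i
      have := congrArg (D.cv i) hg
      simpa [map_sum, cv_ω] using this)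
    (by
      intro x _
      rw [D.eq_sum_ω x]
      exact Submodule.sum_mem _ fun j _ =>
        Submodule.smul_mem _ _ (Submodule.subset_span (mem_range_self j)))

include D in
lemma torsionFree : IsAddTorsionFree M where
  nsmul_right_injective n hn x y h := by
    refine D.ext_simple fun j => ?_
    have := congrArg (D.cv j) h
    simp only [map_nsmul, nsmul_eq_mul] at this
    exact mul_left_cancel₀ (by exact_mod_cast hn) this

lemma det_sr (α : ι) : ((LinearEquiv.det (D.sr α) : ℤˣ) : ℤ) = -1 := by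
  rw [LinearEquiv.coe_det, ← LinearMap.det_toMatrix D.basis]
  have : LinearMap.toMatrix D.basis D.basis (D.sr α : M →ₗ[ℤ] M) =
      1 + Matrix.replicateCol Unit (fun i => - D.basis.repr (D.r α) i) *
        Matrix.replicateRow Unit (fun j => D.cv α (D.basis j)) := by
    ext i j
    simp [LinearMap.toMatrix_apply, sr_apply, Matrix.mul_apply, Matrix.one_apply,
      Finsupp.single_apply, eq_comm, mul_comm, sub_eq_add_neg]
  rw [this, Matrix.det_one_add_replicateCol_mul_replicateRow]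
  have h2 := D.cv_r_self α
  rw [← D.basis.sum_repr (D.r α), map_sum] at h2
  simp only [map_zsmul, smul_eq_mul] at h2
  simp only [dotProduct, mul_neg, Finset.sum_neg_distrib]
  simp only [mul_comm (D.cv α _), h2]
  norm_num

lemma mem_Qp_iff {γ : M} : γ ∈ D.Qp ↔ ∃ f : D.b.support → ℤ, (∀ j, 0 ≤ f j) ∧
    γ = ∑ j, f j • D.r j := by
  constructor
  · intro h
    induction h using AddSubmonoid.closure_induction with
    | mem y hy =>
      obtain ⟨j, hj, rfl⟩ := hy
      refine ⟨Pi.single ⟨j, hj⟩ 1, fun i => ?_, ?_⟩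
      · rw [Pi.single_apply]; split_ifs <;> simp
      · simp [Pi.single_apply]
    | zero => exact ⟨0, fun _ => le_rfl, by simp⟩
    | add y z _ _ hy hz =>
      obtain ⟨f, hf, rfl⟩ := hy
      obtain ⟨g, hg, rfl⟩ := hz
      exact ⟨f + g, fun j => add_nonneg (hf j) (hg j), by simp [add_smul, Finset.sum_add_distrib]⟩
  · rintro ⟨f, hf, rfl⟩
    refine AddSubmonoid.sum_mem _ fun j _ => ?_
    obtain ⟨n, hn⟩ := Int.eq_ofNat_of_zero_le (hf j)
    rw [hn, natCast_zsmul]
    exact AddSubmonoid.nsmul_mem _ (D.pos_iff.1 (D.pos_simple j)) n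

/-- The root lattice. -/
abbrev Ql : AddSubgroup M := AddSubgroup.closure (range D.r)

lemma mem_Ql {γ : M} (h : γ ∈ D.Ql) : ∃ f : D.b.support → ℤ, γ = ∑ j, f j • D.r j := by
  induction h using AddSubgroup.closure_induction with
  | mem y hy =>
    obtain ⟨α, rfl⟩ := hy
    rcases D.pos_or α with h | h
    · obtain ⟨f, -, hf⟩ := D.mem_Qp_iff.1 (D.pos_iff.1 h)
      exact ⟨f, hf⟩
    · obtain ⟨f, -, hf⟩ := D.mem_Qp_iff.1 (D.pos_iff.1 h)
      refine ⟨-f, ?_⟩
      rw [r_ng] at hf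
      simp only [Pi.neg_apply, neg_smul, Finset.sum_neg_distrib, ← hf, neg_neg]
  | zero => exact ⟨0, by simp⟩
  | add y z _ _ hy hz =>
    obtain ⟨f, rfl⟩ := hy
    obtain ⟨g, rfl⟩ := hz
    exact ⟨f + g, by simp [add_smul, Finset.sum_add_distrib]⟩
  | neg y _ hy =>
    obtain ⟨f, rfl⟩ := hy
    exact ⟨-f, by simp⟩

lemma Qp_div {n : ℤ} (hn : 0 < n) {z : M} (hz : z ∈ D.Ql) (h : n • z ∈ D.Qp) : z ∈ D.Qp := by
  obtain ⟨f, rfl⟩ := D.mem_Ql hz
  obtain ⟨g, hg, e⟩ := D.mem_Qp_iff.1 h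
  refine D.mem_Qp_iff.2 ⟨f, fun j => ?_, rfl⟩
  have li : LinearIndependent ℤ fun j : D.b.support => D.r j := D.b.linearIndepOn_root
  have := Fintype.linearIndependent_iffₛ.1 li (fun j => n * f j) g
    (by rw [← e, Finset.smul_sum]; simp [mul_smul]) j
  have h2 := hg j
  by_contra hc
  nlinarith

lemma finite_box (K : ℤ) : {x : M | ∀ j : D.b.support, |D.cv j x| ≤ K}.Finite := by
  have : {x : M | ∀ j : D.b.support, |D.cv j x| ≤ K} ⊆
      (fun x (j : D.b.support) => D.cv j x) ⁻¹' (Set.pi univ fun _ => Icc (-K) K) := by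
    intro x hx j _
    exact abs_le.1 (hx j)
  refine Set.Finite.subset (Set.Finite.preimage ?_ (Set.Finite.pi fun _ => finite_Icc _ _)) this
  intro x _ y _ h
  exact D.ext_simple fun j => congrFun h j

end SimpleDatum

end Pool.Agent.Lib.MP_4354a3_al
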