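import Pool.Agent.Lib.MP_4354a3_al.Gen
import Pool.Agent.Lib.MP_4354a3_al.Fin

-- part Pool.Agent.Lib.MP_4354a3_al.Aut
section

/-!
# Automorphisms, descents, orbits
-/

set_option linter.unusedSectionVars false

namespace Pool.Agent.Lib.MP_4354a3_al

open Function

namespace Sys

variable {E R I V : Type*} [AddCommGroup E] [AddCommGroup V] (S : Sys E R I)

/-- Maps roots to roots up to sign. -/
def Cpt1 (a : E ≃+ E) : Prop :=
  ∀ β, ∃ β', ((∀ x, S.co β' (a x) = S.co β x) ∧ S.root β' = a (S.root β)) ∨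
    ((∀ x, S.co β' (a x) = - S.co β x) ∧ S.root β' = - a (S.root β))

/-- Automorphisms of the root system. -/
structure Cpt (a : E ≃+ E) : Prop where
  fwd : S.Cpt1 a
  bwd : S.Cpt1 a.symm
  lev : ∀ x, S.lev (a x) = S.lev x

/-- Maps positive roots to positive roots. -/
def Pos1 (a : E ≃+ E) : Prop :=
  ∀ β, ∃ β', (∀ x, S.co β' (a x) = S.co β x) ∧ S.root β' = a (S.root β)

/-- Automorphisms preserving the positive roots. -/
structure Pos (a : E ≃+ E) : Prop where
  fwd : S.Pos1 a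
  bwd : S.Pos1 a.symm
  lev : ∀ x, S.lev (a x) = S.lev x

/-- Invariance under all reflections. -/
def Inv (f : GA E) : Prop := ∀ β, S.ms β f = f

variable {S}

lemma Cpt1.trans {a b : E ≃+ E} (ha : S.Cpt1 a) (hb : S.Cpt1 b) : S.Cpt1 (a.trans b) := by
  intro β
  obtain ⟨β', h1⟩ := ha β
  obtain ⟨β'', h2⟩ := hb β'
  refine ⟨β'', ?_⟩
  rcases h1 with ⟨h1, h1'⟩ | ⟨h1, h1'⟩ <;> rcases h2 with ⟨h2, h2'⟩ | ⟨h2, h2'⟩
  · left; simp [h1, h2, h1', h2']
  · right; simp [h1, h2, h1', h2']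
  · right; simp [h1, h2, h1', h2']
  · left; simp [h1, h2, h1', h2']

lemma Cpt.trans {a b : E ≃+ E} (ha : S.Cpt a) (hb : S.Cpt b) : S.Cpt (a.trans b) :=
  ⟨ha.fwd.trans hb.fwd, hb.bwd.trans ha.bwd, fun x => by simp [hb.lev, ha.lev]⟩

lemma cpt_refl : S.Cpt (AddEquiv.refl E) :=
  ⟨fun β => ⟨β, Or.inl ⟨fun _ => rfl, rfl⟩⟩, fun β => ⟨β, Or.inl ⟨fun _ => rfl, rfl⟩⟩, fun _ => rfl⟩

lemma cpt_si (i : I) : S.Cpt (S.si i) := by
  have : S.Cpt1 (S.si i) := by
    intro β
    by_cases h : β = S.simp i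
    · subst h; exact ⟨S.simp i, Or.inr ⟨fun x => by simp, by simp⟩⟩
    · exact ⟨S.perm i β, Or.inl ⟨S.co_perm_si h, S.root_perm h⟩⟩
  exact ⟨this, this, fun x => S.lev_s _ _⟩

lemma Cpt1.comm {a : E ≃+ E} (ha : S.Cpt1 a) (β : R) :
    ∃ β', ∀ x, a (S.s β x) = S.s β' (a x) := by
  obtain ⟨β', ⟨h1, h2⟩ | ⟨h1, h2⟩⟩ := ha β
  · exact ⟨β', fun x => by simp [s_apply, h1, h2]⟩
  · exact ⟨β', fun x => by simp [s_apply, h1, h2]⟩

lemma Cpt.pos {a : E ≃+ E} (ha : S.Cpt a) (hd : S.Dom (a S.rho)) : S.Pos a := by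
  refine ⟨fun β => ?_, fun β => ?_, ha.lev⟩
  · obtain ⟨β', h | ⟨h, -⟩⟩ := ha.fwd β
    · exact ⟨β', h⟩
    · have h1 := h S.rho
      have h2 := S.co_rho_pos β
      have h3 := S.dom _ hd β'
      omega
  · obtain ⟨β', h | ⟨h, -⟩⟩ := ha.bwd β
    · exact ⟨β', h⟩
    · have h1 := h (a S.rho)
      rw [AddEquiv.symm_apply_apply] at h1
      have h2 := S.co_rho_pos β'
      have h3 := S.dom _ hd β
      have h4 : S.co β (a S.rho) ≠ 0 := by omega
      omega

lemma Pos.symm {a : E ≃+ E} (ha : S.Pos a) : S.Pos a.symm :=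
  ⟨ha.bwd, ha.fwd, fun x => by rw [← ha.lev, AddEquiv.apply_symm_apply]⟩

lemma Pos.cpt {a : E ≃+ E} (ha : S.Pos a) : S.Cpt a :=
  ⟨fun β => (ha.fwd β).imp fun _ => Or.inl, fun β => (ha.bwd β).imp fun _ => Or.inl, ha.lev⟩

lemma Pos.ex_co {a : E ≃+ E} (ha : S.Pos a) (β' : R) : ∃ β, ∀ x, S.co β' (a x) = S.co β x := by
  obtain ⟨β, h, -⟩ := ha.bwd β'
  exact ⟨β, fun x => by rw [← h, AddEquiv.symm_apply_apply]⟩

lemma Pos.L {a : E ≃+ E} (ha : S.Pos a) (x : E) : S.L (a x) = S.L x := by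
  choose π h1 _ using ha.fwd
  have hinj : Injective π := by
    intro β γ e
    apply S.co_inj
    ext y
    rw [← h1, e, h1]
  have : S.inv (a x) = π '' S.inv x := by
    ext β'
    simp only [inv, Set.mem_ofPred_eq, Set.mem_image]
    constructor
    · intro h
      obtain ⟨β, h2⟩ := ha.ex_co β'
      refine ⟨β, by rwa [← h2], S.co_inj ?_⟩
      ext y
      obtain ⟨z, rfl⟩ := a.surjective y
      rw [h1, h2]
    · rintro ⟨β, h, rfl⟩
      rwa [h1]
  rw [Sys.L, this, Set.ncard_image_of_injective _ hinj, Sys.L]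

lemma Pos.rho {a : E ≃+ E} (ha : S.Pos a) : a S.rho = S.rho := by
  rw [← sub_eq_zero]
  refine S.dom0 _ (by simp [ha.lev]) fun i => ?_
  obtain ⟨β, h⟩ := ha.ex_co (S.simp i)
  have := S.co_rho_pos β
  rw [map_sub, h, S.co_rho]; omega

lemma Pos.dom {a : E ≃+ E} (ha : S.Pos a) {x : E} (h : S.Dom x) : S.Dom (a x) := by
  intro i
  obtain ⟨β, h'⟩ := ha.ex_co (S.simp i)
  rw [h']; exact S.dom _ h β

lemma Pos.sdom {a : E ≃+ E} (ha : S.Pos a) {x : E} (h : ∀ i, 0 < S.c i x) (i : I) :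
    0 < S.c i (a x) := by
  obtain ⟨β, h'⟩ := ha.ex_co (S.simp i)
  rw [h']; exact S.sdom _ h β

lemma simple_of_L_one {x : E} {β : R} (h : S.L x = 1) (hβ : S.co β x < 0) :
    ∃ j, β = S.simp j := by
  obtain ⟨j, hj⟩ := S.ex_neg hβ
  obtain ⟨γ, hγ⟩ := Set.ncard_eq_one.1 h
  have h1 : β ∈ S.inv x := hβ
  have h2 : S.simp j ∈ S.inv x := hj
  rw [hγ] at h1 h2
  exact ⟨j, h1.trans h2.symm⟩

lemma Pos.ex_c {a : E ≃+ E} (ha : S.Pos a) (i : I) : ∃ j, ∀ x, S.c i (a x) = S.c j x := by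
  obtain ⟨β, h⟩ := ha.ex_co (S.simp i)
  have h1 : S.L (S.si i S.rho) = 1 := by
    have := S.L_si S.lev_rho i
    rw [S.L_eq_zero_of_dom (fun j => (S.co_rho_pos _).le), S.co_rho] at this
    simpa using this
  obtain ⟨j, rfl⟩ := simple_of_L_one (x := a.symm (S.si i S.rho)) (β := β)
    (by rw [ha.symm.L, h1]) (by rw [← h, AddEquiv.apply_symm_apply, co_s, S.co_rho]; omega)
  exact ⟨j, h⟩

variable {N : ℤ}

lemma Pos.step {a : E ≃+ E} (ha : S.Pos a) {T : ℤ} {κ κ' : E} (h : S.Step N T κ κ') :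
    S.Step N T (a κ) (a κ') := by
  obtain ⟨β, h1, rfl, h3, h4⟩ := h
  obtain ⟨β', h5, h6⟩ := ha.fwd β
  refine ⟨β', by rwa [h5], by simp [s_apply, h5, h6], by rwa [ha.L, ha.L], by rwa [h5]⟩

lemma Pos.ch {a : E ≃+ E} (ha : S.Pos a) {T : ℤ} {κ κ' : E} (h : S.Ch N T κ κ') :
    S.Ch N T (a κ) (a κ') := by
  induction h with
  | refl => exact Ch.refl _ _
  | tail _ h2 ih => exact ih.trans (ha.step h2).ch

lemma Pos.valid {a : E ≃+ E} (ha : S.Pos a) {ζ : E} (h : S.Valid N ζ) : S.Valid N (a ζ) := by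
  intro κ hκ i hi
  obtain ⟨j, hj⟩ := ha.ex_c i
  have := ha.symm.ch hκ
  rw [AddEquiv.symm_apply_apply] at this
  have e : S.c i κ = S.c j (a.symm κ) := by rw [← hj, AddEquiv.apply_symm_apply]
  rw [e] at hi ⊢
  exact h _ this j hi

lemma Pos.g {a : E ≃+ E} (ha : S.Pos a) (M : ℕ) {ζ : E} (hζ : 0 < S.lev ζ) :
    S.g N M (a ζ) = mp a.toAddMonoidHom (S.g N M ζ) := by
  induction M generalizing ζ with
  | zero => simp
  | succ M ih =>
    have hζ' : 0 < S.lev (a ζ) := by rwa [ha.lev]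
    rw [g_succ, g_succ, map_sum]
    symm
    refine Finset.sum_nbij' a a.symm ?_ ?_ (fun _ _ => a.symm_apply_apply _)
      (fun _ _ => a.apply_symm_apply _) ?_
    · intro κ hκ
      rw [mem_chs hζ] at hκ
      rw [mem_chs hζ']
      exact ha.ch hκ
    · intro κ hκ
      rw [mem_chs hζ'] at hκ
      rw [mem_chs hζ]
      simpa using ha.symm.ch hκ
    · intro κ hκ
      rw [mem_chs hζ] at hκ
      rw [map_mul, mp_ex, ih (by rwa [hκ.lev])]
      rfl

lemma Alt.comp {J : E → V} (hJ : S.Alt J) {a : E ≃+ E} (ha : S.Cpt a) :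
    S.Alt fun x => J (a x) := by
  intro β x
  obtain ⟨β', h⟩ := ha.fwd.comm β
  simp only [h, hJ β']

lemma Alt.map {V' : Type*} [AddCommGroup V'] {J : E → V} (hJ : S.Alt J) (φ : V →+ V') :
    S.Alt fun x => φ (J x) := by
  intro β x
  simp only [hJ β, map_neg]

lemma Alt.mul {J : E → V} (hJ : S.Alt J) {f : GA E} (hf : S.Inv f) :
    S.Alt fun x => ev J (ex x * f) := by
  intro β x
  have : ex (S.s β x) * f = S.ms β (ex x * f) := by rw [map_mul, ms_ex, hf β]
  simp only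
  rw [this, ms, ev_mp, ← ev_neg]
  congr 2
  ext y
  exact hJ _ _

lemma Inv.mul {f f' : GA E} (h : S.Inv f) (h' : S.Inv f') : S.Inv (f * f') :=
  fun β => by rw [map_mul, h β, h' β]

lemma inv_one : S.Inv 1 := fun _ => map_one _

lemma Inv.pow {f : GA E} (h : S.Inv f) (n : ℕ) : S.Inv (f ^ n) :=
  fun β => by rw [map_pow, h β]

variable (S) in
/-- `w` is a product of simple reflections along a descent from `z` to the dominant chamber. -/
inductive Desc : E → (E ≃+ E) → Prop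
  | refl (z : E) : S.Dom z → Desc z (AddEquiv.refl E)
  | step (z : E) (i : I) (w : E ≃+ E) : S.c i z < 0 → Desc (S.si i z) w →
      Desc z ((S.si i).trans w)

lemma exists_desc {z : E} (hz : 0 < S.lev z) : ∃ w, S.Desc z w :=
  S.desc_induction (p := fun z => ∃ w, S.Desc z w) (fun x _ h => ⟨_, Desc.refl x h⟩)
    (fun x i _ h ⟨w, hw⟩ => ⟨_, Desc.step x i w h hw⟩) hz

lemma Desc.dom {z : E} {w : E ≃+ E} (h : S.Desc z w) : S.Dom (w z) := by
  induction h with
  | refl z h => exact h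
  | step z i w _ _ ih => exact ih

lemma Desc.cpt {z : E} {w : E ≃+ E} (h : S.Desc z w) : S.Cpt w := by
  induction h with
  | refl z h => exact cpt_refl
  | step z i w _ _ ih => exact (cpt_si i).trans ih

lemma Desc.inv {z : E} {w : E ≃+ E} (h : S.Desc z w) {f : GA E} (hf : S.Inv f) :
    mp w.toAddMonoidHom f = f := by
  induction h with
  | refl z h => exact mp_eq_self (fun _ => rfl) f
  | step z i w _ _ ih =>
    have : mp ((S.si i).trans w).toAddMonoidHom f = mp w.toAddMonoidHom (S.ms (S.simp i) f) := by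
      rw [ms, mp_mp]; rfl
    rw [this, hf, ih]

lemma drive_step {z : E} {i : I} (hi : S.c i z < 0) {p : ℤ → Prop} {κ : E}
    (h : ∀ β, S.co β z < 0 → p (S.co β κ)) :
    ∀ β, S.co β (S.si i z) < 0 → p (S.co β (S.si i κ)) := by
  intro β hβ
  have hb : β ≠ S.simp i := by
    rintro rfl
    rw [co_s] at hβ; simp only [c] at hi; omega
  rw [← S.co_perm hb] at hβ ⊢
  exact h _ hβ

lemma Desc.ch_up {z : E} {w : E ≃+ E} (h : S.Desc z w) {κ : E} (hκ : 0 < S.lev κ)
    (h1 : ∀ β, S.co β z < 0 → 0 ≤ S.co β κ) : S.Ch N 0 (w κ) κ := by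
  induction h generalizing κ with
  | refl z h => exact Ch.refl _ _
  | step z i w hi _ ih =>
    have h2 := ih (κ := S.si i κ) (by rwa [lev_s]) (drive_step (p := fun n => 0 ≤ n) hi h1)
    have h3 := ch_simple (N := N) (T := 0) (κ := S.si i κ) (i := i) (by rwa [lev_s])
      (by have := h1 _ hi; rw [co_s]; omega) (by simp)
    rw [s_s] at h3
    exact h2.trans h3

lemma Desc.fix {z : E} {w : E ≃+ E} (h : S.Desc z w) {κ : E}
    (h1 : ∀ β, S.co β z < 0 → S.co β κ = 0) : w κ = κ := by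
  induction h generalizing κ with
  | refl z h => rfl
  | step z i w hi _ ih =>
    have h2 := ih (κ := S.si i κ) (drive_step (p := fun n => n = 0) hi h1)
    rw [AddEquiv.trans_apply, h2, S.s_eq_self (h1 _ hi)]

lemma Desc.pairing [IsAddTorsionFree V] {J : E → V} (hN : 0 < N) (hJ : S.Alt J)
    {z : E} {w : E ≃+ E} (h : S.Desc z w) (σ τ : ℕ) {κ ζ : E} (hκ : 0 < S.lev κ)
    (hζ : 0 < S.lev ζ) (h1 : ∀ β, S.co β z < 0 → 0 ≤ S.co β κ)
    (h2 : ∀ β, S.co β z < 0 → S.co β ζ ≤ 0) (hv : S.Valid N (w κ)) (hv' : S.Valid N ζ)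
    (hd : ∃ u, (σ : ℤ) • κ + (τ : ℤ) • ζ = N • u) :
    ev J (ex (N • S.rho) * (S.g N σ κ * S.g N τ ζ)) =
      ev J (ex (N • S.rho) * (S.g N σ (w κ) * S.g N τ (w ζ))) := by
  induction h generalizing κ ζ with
  | refl z h => rfl
  | step z i w hi hw ih =>
    obtain ⟨u, hu⟩ := hd
    have h1' := drive_step (p := fun n => 0 ≤ n) hi h1
    have h2' := drive_step (p := fun n => n ≤ 0) hi h2
    have hκ' : 0 < S.lev (S.si i κ) := by rwa [lev_s]
    rw [pairing_simple hN hJ (i := i) σ τ (by simp [S.co_rho]) hκ hζ (h1 _ hi) (h2 _ hi)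
      (hv.ch (hw.ch_up hκ' h1')) hv' ⟨S.c i u, by simpa using congrArg (S.c i) hu⟩]
    refine ih hκ' (by rwa [lev_s]) h1' h2' hv
      (hv'.ch (ch_simple (T := 0) hζ (h2 _ hi) (by simp))) ⟨S.si i u, ?_⟩
    simpa using congrArg (S.si i) hu

/-- The pairing identity for an automorphism made positive by a descent. -/
lemma pairing [IsAddTorsionFree V] {J : E → V} (hN : 0 < N) (hJ : S.Alt J)
    {a w : E ≃+ E} (ha : S.Cpt a) (h : S.Desc (a S.rho) w) (σ τ : ℕ) {κ ζ : E}
    (hκ : 0 < S.lev κ) (hζ : 0 < S.lev ζ) (h1 : ∀ β, S.co β (a S.rho) < 0 → 0 ≤ S.co β (a κ))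
    (h2 : ∀ β, S.co β (a S.rho) < 0 → S.co β (a ζ) ≤ 0) (hv : S.Valid N κ)
    (hv' : S.Valid N (a ζ)) (hd : ∃ u, (σ : ℤ) • κ + (τ : ℤ) • ζ = N • u) :
    ev J (ex (N • S.rho) * (S.g N σ (a κ) * S.g N τ (a ζ))) =
      ev (fun x => J (w (a x))) (ex (N • S.rho) * (S.g N σ κ * S.g N τ ζ)) := by
  have hp : S.Pos (a.trans w) := (ha.trans h.cpt).pos h.dom
  obtain ⟨u, hu⟩ := hd
  rw [h.pairing hN hJ σ τ (by rwa [ha.lev]) (by rwa [ha.lev]) h1 h2 (hp.valid hv) hv'
    ⟨a u, by simpa using congrArg a hu⟩]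
  have e1 := hp.g (N := N) σ hκ
  have e2 := hp.g (N := N) τ hζ
  have e3 : ex (N • S.rho) = mp (a.trans w).toAddMonoidHom (ex (N • S.rho)) := by
    rw [mp_ex, map_zsmul]
    exact congrArg (fun x => ex (N • x)) hp.rho.symm
  rw [AddEquiv.trans_apply] at e1 e2
  rw [e1, e2, e3, ← map_mul, ← map_mul, ev_mp, ← e3]
  rfl

variable (S) in
/-- Orbits of the group generated by simple reflections. -/
def Orb : E → E → Prop := Relation.ReflTransGen fun x y => ∃ i, y = S.si i x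

lemma Orb.refl (x : E) : S.Orb x x := Relation.ReflTransGen.refl

lemma Orb.trans {x y z : E} (h : S.Orb x y) (h' : S.Orb y z) : S.Orb x z :=
  Relation.ReflTransGen.trans h h'

lemma orb_si (i : I) (x : E) : S.Orb x (S.si i x) := Relation.ReflTransGen.single ⟨i, rfl⟩

lemma orb_si' (i : I) (x : E) : S.Orb (S.si i x) x :=
  Relation.ReflTransGen.single ⟨i, (S.s_s _ _).symm⟩

lemma Orb.symm {x y : E} (h : S.Orb x y) : S.Orb y x := by
  induction h with
  | refl => exact Orb.refl _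
  | tail _ h2 ih => obtain ⟨i, rfl⟩ := h2; exact (orb_si' i _).trans ih

lemma Orb.lev {x y : E} (h : S.Orb x y) : S.lev y = S.lev x := by
  induction h with
  | refl => rfl
  | tail _ h2 ih => obtain ⟨i, rfl⟩ := h2; rw [lev_s, ih]

lemma orb_s {x : E} (hx : 0 < S.lev x) (β : R) : S.Orb x (S.s β x) := by
  have key : ∀ x, 0 < S.lev x → ∀ β, S.co β x < 0 → S.Orb x (S.s β x) := by
    intro x hx
    refine S.desc_induction (p := fun x => ∀ β, S.co β x < 0 → S.Orb x (S.s β x))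
      (fun x _ h β hβ => absurd (S.dom _ h β) (by omega)) (fun x i _ h ih β hβ => ?_) hx
    by_cases hb : β = S.simp i
    · subst hb; exact orb_si i x
    · have := ih (S.perm i β) (by rwa [S.co_perm_si hb])
      rw [S.s_perm hb] at this
      exact ((orb_si i x).trans this).trans (orb_si' i _)
  rcases lt_trichotomy (S.co β x) 0 with h | h | h
  · exact key x hx β h
  · rw [S.s_eq_self h]; exact Orb.refl _
  · have := key (S.s β x) (by rwa [lev_s]) β (by rw [co_s]; omega)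
    rw [s_s] at this
    exact this.symm

lemma Orb.ch {x y : E} (hx : 0 < S.lev x) (hd : S.Dom x) (h : S.Orb x y) : S.Ch 1 0 y x := by
  induction h with
  | refl => exact Ch.refl _ _
  | @tail y _ h1 h2 ih =>
    obtain ⟨i, rfl⟩ := h2
    have hy : 0 < S.lev y := by rwa [Orb.lev (x := x) h1]
    have h3 := (Ch.int_mono hy ih (i := i) (by simp)).1
    rw [up_of_nonneg (hd i)] at h3
    rcases le_total 0 (S.c i y) with h | h
    · have := ch_simple (N := 1) (T := 0) (κ := S.si i y) (i := i) (by rwa [lev_s])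
        (by rw [co_s]; simp only [c] at h; omega) (by simp)
      rw [s_s] at this
      exact this.trans ih
    · rwa [up_of_nonpos h] at h3

lemma Orb.eq_of_dom {x y : E} (hx : 0 < S.lev x) (hd : S.Dom x) (hd' : S.Dom y)
    (h : S.Orb x y) : x = y := (h.ch hx hd).eq_of_dom hd'

lemma Desc.orb {z : E} {w : E ≃+ E} (h : S.Desc z w) : S.Orb z (w z) := by
  induction h with
  | refl z h => exact Orb.refl _
  | step z i w _ _ ih => exact (orb_si i z).trans ih

lemma alt_of_simple [IsAddTorsionFree V] {J : E → V} (h : ∀ i x, J (S.si i x) = - J x)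
    (h0 : ∀ x, S.lev x ≤ 0 → J x = 0) : S.Alt J := by
  have key : ∀ x, 0 < S.lev x → ∀ β, S.co β x ≤ 0 → J (S.s β x) = - J x := by
    intro x hx
    refine S.desc_induction (p := fun x => ∀ β, S.co β x ≤ 0 → J (S.s β x) = - J x)
      (fun x _ hd β hβ => ?_) (fun x i _ _ ih β hβ => ?_) hx
    · have h1 : S.co β x = 0 := le_antisymm hβ (S.dom _ hd β)
      have : ∃ i, S.c i x = 0 := by
        by_contra hc
        push Not at hc
        have := S.sdom x (fun i => lt_of_le_of_ne (hd i) (hc i).symm) β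
        omega
      obtain ⟨i, hi⟩ := this
      have h2 := h i x
      rw [S.s_eq_self hi] at h2
      rwa [S.s_eq_self h1]
    · by_cases hb : β = S.simp i
      · subst hb; exact h i x
      · have := ih (S.perm i β) (by rwa [S.co_perm_si hb])
        rw [S.s_perm hb, h, h] at this
        exact neg_injective this
  intro β x
  by_cases hx : 0 < S.lev x
  · rcases le_total (S.co β x) 0 with h1 | h1
    · exact key x hx β h1
    · have := key (S.s β x) (by rwa [lev_s]) β (by rw [co_s]; omega)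
      rw [s_s] at this
      rw [this, neg_neg]
  · rw [h0 x (by omega), h0 _ (by rw [lev_s]; omega), neg_zero]

variable (S) in
open Classical in
/-- The dominant element of an orbit. -/
noncomputable def dm (z : E) : E := if h : ∃ y, S.Orb z y ∧ S.Dom y then h.choose else z

lemma dm_spec {z : E} (hz : 0 < S.lev z) : S.Orb z (S.dm z) ∧ S.Dom (S.dm z) := by
  obtain ⟨w, hw⟩ := exists_desc hz
  have : ∃ y, S.Orb z y ∧ S.Dom y := ⟨_, hw.orb, hw.dom⟩
  rw [dm, dif_pos this]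
  exact this.choose_spec

lemma dm_eq {z y : E} (hz : 0 < S.lev z) (h : S.Orb z y) (hd : S.Dom y) : S.dm z = y :=
  Orb.eq_of_dom (by rwa [(dm_spec hz).1.lev]) (dm_spec hz).2 hd ((dm_spec hz).1.symm.trans h)

variable (S) in
/-- Regular weights. -/
def Reg (z : E) : Prop := ∀ β, S.co β z ≠ 0

lemma Reg.si {z : E} (h : S.Reg z) (i : I) : S.Reg (S.si i z) := by
  intro β
  by_cases hb : β = S.simp i
  · subst hb; rw [co_s]; simpa using h _
  · rw [← S.co_perm hb]; exact h _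

lemma Orb.reg {x y : E} (h : S.Orb x y) (hx : S.Reg x) : S.Reg y := by
  induction h with
  | refl => exact hx
  | tail _ h2 ih => obtain ⟨i, rfl⟩ := h2; exact ih.si i

variable (S) in
open Classical in
/-- Signed folding into the dominant chamber. -/
noncomputable def J0 (z : E) : GA E :=
  if 0 < S.lev z ∧ S.Reg z then (-1 : ℤ) ^ (S.L z) • ex (S.dm z) else 0

lemma alt_J0 : S.Alt S.J0 := by
  refine alt_of_simple (fun i x => ?_) (fun x hx => if_neg fun h => by omega)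
  by_cases h : 0 < S.lev x ∧ S.Reg x
  · have h' : 0 < S.lev (S.si i x) ∧ S.Reg (S.si i x) := ⟨by rw [lev_s]; exact h.1, h.2.si i⟩
    rw [J0, J0, if_pos h, if_pos h',
      dm_eq h'.1 ((orb_si' i x).trans (dm_spec h.1).1) (dm_spec h.1).2, ← neg_smul]
    congr 1
    rcases lt_trichotomy (S.c i x) 0 with h1 | h1 | h1
    · rw [S.L_si_neg h.1 h1, pow_succ]; ring
    · exact absurd h1 (h.2 _)
    · have := S.L_si_neg h'.1 (i := i) (by rw [co_s]; simp only [c] at h1; omega)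
      rw [s_s] at this
      rw [this, pow_succ]; ring
  · have h' : ¬ (0 < S.lev (S.si i x) ∧ S.Reg (S.si i x)) := by
      rintro ⟨h1, h2⟩
      refine h ⟨by rwa [lev_s] at h1, ?_⟩
      simpa using h2.si i
    rw [J0, J0, if_neg h, if_neg h', neg_zero]

lemma J0_sdom {z : E} (hz : 0 < S.lev z) (h : ∀ i, 0 < S.c i z) : S.J0 z = ex z := by
  have hd : S.Dom z := fun i => (h i).le
  rw [J0, if_pos ⟨hz, fun β => (S.sdom z h β).ne'⟩, S.L_eq_zero_of_dom hd,
    dm_eq hz (Orb.refl _) hd]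
  simp

lemma J0_eq_zero {z : E} (h : ∀ y, S.Orb z y → ¬ ∀ i, 0 < S.c i y) : S.J0 z = 0 := by
  refine if_neg fun ⟨h1, h2⟩ => h _ (dm_spec h1).1 fun i => ?_
  exact lt_of_le_of_ne ((dm_spec h1).2 i) ((dm_spec h1).1.reg h2 _).symm

lemma supp_J0 (z : E) : Supp (S.J0 z) fun y => S.Orb z y ∧ ∀ i, 0 < S.c i y := by
  unfold J0
  split_ifs with h
  · exact (supp_ex ⟨(dm_spec h.1).1, fun i =>
      lt_of_le_of_ne ((dm_spec h.1).2 i) ((dm_spec h.1).1.reg h.2 _).symm⟩).zsmul _
  · exact supp_zero _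

lemma Alt.eq_zero [IsAddTorsionFree V] {J : E → V} (hJ : S.Alt J) {β : R} {x : E}
    (h : S.co β x = 0) : J x = 0 := by
  have := hJ β x
  rw [S.s_eq_self h] at this
  exact eq_zero_of_eq_neg this

/-- The last cover before a dominant weight is a simple reflection. -/
lemma Ch.last {T : ℤ} {ζ Λ : E} (h : S.Ch N T ζ Λ) (hne : Λ ≠ ζ) (hd : S.Dom Λ) :
    ∃ j, 0 < S.c j Λ ∧ S.Ch N T ζ (S.si j Λ) ∧ N ∣ T * S.c j Λ := by
  rcases Relation.ReflTransGen.cases_tail h with rfl | ⟨y, h1, β, h2, rfl, h3, h4⟩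
  · exact absurd rfl hne
  · rw [S.L_eq_zero_of_dom hd] at h3
    obtain ⟨j, rfl⟩ := simple_of_L_one h3 h2
    refine ⟨j, by rw [co_s]; omega, by rwa [s_s], by rw [co_s]; simpa using h4⟩

lemma Cpt.symm {a : E ≃+ E} (ha : S.Cpt a) : S.Cpt a.symm :=
  ⟨ha.bwd, ha.fwd, fun x => by rw [← ha.lev, AddEquiv.apply_symm_apply]⟩

lemma Cpt.pos' {a : E ≃+ E} (ha : S.Cpt a) {z : E} (hz : ∀ i, 0 < S.c i z)
    (hz' : ∀ i, 0 < S.c i (a z)) : S.Pos a := by
  refine ⟨fun β => ?_, fun β => ?_, ha.lev⟩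
  · obtain ⟨β', h | ⟨h, -⟩⟩ := ha.fwd β
    · exact ⟨β', h⟩
    · have h1 := h z
      have h2 := S.sdom _ hz β
      have h3 := S.sdom _ hz' β'
      omega
  · obtain ⟨β', h | ⟨h, -⟩⟩ := ha.bwd β
    · exact ⟨β', h⟩
    · have h1 := h (a z)
      rw [AddEquiv.symm_apply_apply] at h1
      have h2 := S.sdom _ hz β'
      have h3 := S.sdom _ hz' β
      omega

lemma Desc.orb' {z : E} {w : E ≃+ E} (h : S.Desc z w) (y : E) : S.Orb y (w y) := by
  induction h generalizing y with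
  | refl z h => exact Orb.refl _
  | step z i w _ _ ih => exact (orb_si i y).trans (ih _)

/-- The reflection group acts freely on regular weights. -/
lemma eq_of_fix [Finite I] {a : E ≃+ E} (ha : S.Cpt a) (ho : ∀ y, 0 < S.lev y → S.Orb y (a y))
    {z : E} (hz : 0 < S.lev z) (hr : S.Reg z) (hf : a z = z) (y : E) : a y = y := by
  obtain ⟨u, hu⟩ := exists_desc hz
  have h1 : ∀ i, 0 < S.c i (u z) := fun i =>
    lt_of_le_of_ne (hu.dom i) (hu.orb.reg hr _).symm
  let ψ := (u.symm.trans a).trans u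
  have hψ : S.Pos ψ := ((hu.cpt.symm.trans ha).trans hu.cpt).pos' h1 (by simpa [ψ, hf] using h1)
  have h2 : ∀ y, 0 < S.lev y → S.Dom y → ψ y = y := by
    intro y hy hd
    refine (Orb.eq_of_dom hy hd (hψ.dom hd) ?_).symm
    have h3 := (hu.orb' (u.symm y)).symm
    rw [AddEquiv.apply_symm_apply] at h3
    exact (h3.trans (ho _ (by rwa [hu.cpt.symm.lev]))).trans (hu.orb' _)
  have h3 : ∀ y, ψ y = y := by
    intro y
    have := Fintype.ofFinite I
    set K : ℤ := |S.lev y| + 1 + ∑ i, |S.c i y| with hK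
    have h4 : 0 ≤ ∑ i, |S.c i y| := Finset.sum_nonneg fun _ _ => abs_nonneg _
    have h5 := h2 (y + K • S.rho) (by
      rw [map_add, map_zsmul, smul_eq_mul]
      have := S.lev_rho
      have := neg_abs_le (S.lev y)
      have := abs_nonneg (S.lev y)
      nlinarith) (fun i => by
      rw [map_add, map_zsmul, smul_eq_mul, S.co_rho]
      have := Finset.single_le_sum (f := fun i => |S.c i y|) (fun _ _ => abs_nonneg _)
        (Finset.mem_univ i)
      have := neg_abs_le (S.c i y)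
      have := abs_nonneg (S.lev y)
      omega)
    rwa [map_add, map_zsmul, hψ.rho, add_left_inj] at h5
  simpa [ψ] using h3 (u y)

end Sys

end Pool.Agent.Lib.MP_4354a3_al
end

-- part Pool.Agent.Lib.MP_4354a3_al.Aff
section

/-!
# The untwisted affine system
-/

set_option linter.unusedSectionVars false

namespace Pool.Agent.Lib.MP_4354a3_al

open Set Function

namespace SimpleDatum

variable {ι M N : Type*} [Fintype ι] [DecidableEq ι] [AddCommGroup M] [AddCommGroup N]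
  (D : SimpleDatum ι M N)

/-- Affine coroots on `M × ℤ`, the second coordinate being the level. -/
def aco (p : ι × ℤ) : M × ℤ →+ ℤ where
  toFun z := D.cv p.1 z.1 + p.2 * D.t p.1 * z.2
  map_zero' := by simp
  map_add' x y := by simp only [Prod.fst_add, Prod.snd_add, map_add]; ring

lemma aco_apply (p : ι × ℤ) (z : M × ℤ) : D.aco p z = D.cv p.1 z.1 + p.2 * D.t p.1 * z.2 := rfl

/-- Positive real roots. -/
def PosR (p : ι × ℤ) : Prop := 0 < p.2 ∨ (p.2 = 0 ∧ D.pos p.1)

/-- The type of positive real roots. -/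
abbrev AR : Type _ := {p : ι × ℤ // D.PosR p}

/-- Simple affine roots. -/
def asimp : Option D.b.support → D.AR
  | none => ⟨(D.ng D.θ, 1), Or.inl one_pos⟩
  | some j => ⟨(j, 0), Or.inr ⟨rfl, D.pos_simple j⟩⟩

lemma hv_eq : D.hv = 1 + D.cv D.θ D.rho := rfl

lemma hv_pos : 0 < D.hv := by
  have : 0 < D.cv D.θ D.rho := D.pos_θ
  rw [hv_eq]; omega

lemma aco_dom {z : M × ℤ} (h : ∀ i, 0 ≤ D.aco (D.asimp i).1 z) (β : D.AR) : 0 ≤ D.aco β.1 z := by
  obtain ⟨⟨α, n⟩, hβ⟩ := β
  have h1 : D.IsDom z.1 := (D.isDom_iff _).2 fun j => by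
    simpa [asimp, aco_apply] using h (some j)
  have h2 : D.cv D.θ z.1 ≤ z.2 := by simpa [asimp, aco_apply] using h none
  have h3 := D.dom_cv h1 D.pos_θ
  have h4 := D.le_t_θ h1 (D.ng α)
  have h5 := D.t_pos α
  rw [cv_ng, t_ng] at h4
  rcases hβ with hn | ⟨hn, hp⟩
  · simp only [aco_apply] at hn ⊢
    have : 0 ≤ (n - 1) * D.t α * z.2 := by
      have : 0 ≤ n - 1 := by omega
      have : 0 ≤ z.2 := by omega
      positivity
    nlinarith
  · simp only [aco_apply] at hn ⊢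
    simpa [hn] using D.dom_cv h1 hp

lemma aco_sdom {z : M × ℤ} (h : ∀ i, 0 < D.aco (D.asimp i).1 z) (β : D.AR) :
    0 < D.aco β.1 z := by
  obtain ⟨⟨α, n⟩, hβ⟩ := β
  have h0 : ∀ j : D.b.support, 0 < D.cv j z.1 := fun j => by
    simpa [asimp, aco_apply] using h (some j)
  have h1 : D.IsDom z.1 := fun j => (h0 j).le
  have h2 : D.cv D.θ z.1 < z.2 := by simpa [asimp, aco_apply] using h none
  have h3 := D.dom_cv h1 D.pos_θ
  have h4 := D.le_t_θ h1 (D.ng α)
  have h5 := D.t_pos α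
  rw [cv_ng, t_ng] at h4
  rcases hβ with hn | ⟨hn, hp⟩
  · simp only [aco_apply] at hn ⊢
    have : 0 ≤ (n - 1) * D.t α * z.2 := by
      have : 0 ≤ n - 1 := by omega
      have : 0 ≤ z.2 := by omega
      positivity
    nlinarith
  · simp only [aco_apply] at hn ⊢
    simpa [hn] using D.sdom_cv h0 hp

/-- The affine system. -/
def S : Sys (M × ℤ) D.AR (Option D.b.support) where
  root β := (D.r β.1.1, 0)
  co β := D.aco β.1
  lev := AddMonoidHom.snd M ℤ
  simp := D.asimp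
  rho := (D.rho, D.hv)
  co_root β := by simp [aco_apply]
  lev_root β := rfl
  co_rho i := by
    cases i with
    | none => simp [asimp, aco_apply, hv_eq]
    | some j => simp [asimp, aco_apply]
  lev_rho := D.hv_pos
  co_inj := by
    rintro ⟨⟨α, n⟩, h⟩ ⟨⟨α', n'⟩, h'⟩ e
    have h1 : α = α' := by
      apply D.cv_inj
      ext x
      simpa [aco_apply] using DFunLike.congr_fun e (x, 0)
    subst h1
    have h2 := DFunLike.congr_fun e (0, 1)
    have h3 := D.t_pos α
    simp only [aco_apply, map_zero, zero_add, mul_one] at h2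
    have := mul_right_cancel₀ h3.ne' h2
    subst this
    rfl
  refl_ex i β hβ := by
    obtain ⟨⟨α, n⟩, h⟩ := β
    cases i with
    | none =>
      refine ⟨⟨(D.pm D.θ α, n + D.cv D.θ (D.r α)), ?_⟩, fun x => ?_, ?_⟩
      · simp only [PosR] at h ⊢
        by_cases hp : D.pos α
        · have h1 := D.θ_dom_cv hp
          rcases h1.lt_or_eq with h1 | h1
          · left; omega
          · have : D.pm D.θ α = α := D.P.root.injective (by rw [← r, r_pm, sr_apply, ← h1]; simp)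
            rw [this, ← h1, add_zero]; exact h
        · have hn : 0 < n := by tauto
          rcases D.θ_neg_cases hp with h1 | ⟨h1, h2⟩ | h1
          · left; omega
          · by_cases h3 : n = 1
            · right; exact ⟨by omega, h2⟩
            · left; omega
          · subst h1
            have hn1 : n ≠ 1 := by rintro rfl; exact hβ rfl
            have h2 : D.pos (D.pm D.θ (D.ng D.θ)) := by
              rw [ng, pm_pm]; exact D.pos_θ
            rw [r_ng, map_neg, cv_r_self]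
            by_cases h3 : n = 2
            · right; exact ⟨by omega, h2⟩
            · left; omega
      · simp only [asimp, aco_apply, cv_pm, sr_apply, t_pm,
          Prod.smul_mk, map_sub, map_zsmul, smul_eq_mul, r_ng, cv_ng, t_ng, t_θ, map_neg, D.cv_θ α]
        push_cast; ring
      · simp [asimp, aco_apply, sr_apply]
    | some j =>
      refine ⟨⟨(D.pm j α, n), ?_⟩, fun x => ?_, ?_⟩
      · rcases h with h | ⟨h1, h2⟩
        · exact Or.inl h
        · refine Or.inr ⟨h1, D.pos_pm h2 j ?_⟩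
          simp only at h1
          rintro rfl
          subst h1
          exact hβ rfl
      · simp [asimp, aco_apply, cv_pm, sr_apply]
      · simp [asimp, aco_apply, sr_apply]
  dom z h := D.aco_dom h
  sdom z h := D.aco_sdom h
  fin z hz := by
    have : {β : D.AR | D.aco β.1 z < 0} ⊆
        Subtype.val ⁻¹' (univ ×ˢ Icc (0 : ℤ) (∑ α, |D.cv α z.1|)) := by
      rintro ⟨⟨α, n⟩, h⟩ hβ
      have h1 : 0 ≤ n := by rcases h with h | h <;> simp only at h <;> omega
      refine ⟨trivial, h1, ?_⟩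
      have h2 : |D.cv α z.1| ≤ ∑ α, |D.cv α z.1| :=
        Finset.single_le_sum (f := fun α => |D.cv α z.1|) (fun _ _ => abs_nonneg _)
          (Finset.mem_univ α)
      have h3 := D.t_pos α
      have h4 := neg_abs_le (D.cv α z.1)
      have h5 : 0 < z.2 := hz
      have h6 : D.cv α z.1 + n * D.t α * z.2 < 0 := hβ
      have h7 : 1 ≤ D.t α * z.2 := mul_pos h3 h5
      simp only
      nlinarith
    exact Set.Finite.subset (Set.Finite.preimage Subtype.val_injective.injOn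
      (finite_univ.prod (finite_Icc _ _))) this
  dom0 z h0 h := by
    have h1 : z.2 = 0 := h0
    refine Prod.ext (D.sep fun α => ?_) h1
    have h2 := D.aco_dom h ⟨(α, 1), Or.inl one_pos⟩
    have h3 := D.aco_dom h ⟨(D.ng α, 1), Or.inl one_pos⟩
    simp only [aco_apply, h1, mul_zero, add_zero, cv_ng] at h2 h3
    omega

@[simp] lemma S_lev (z : M × ℤ) : D.S.lev z = z.2 := rfl

lemma S_rho : D.S.rho = (D.rho, D.hv) := rfl

lemma S_co (β : D.AR) (z : M × ℤ) :
    D.S.co β z = D.cv β.1.1 z.1 + β.1.2 * D.t β.1.1 * z.2 := rfl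

lemma S_root (β : D.AR) : D.S.root β = (D.r β.1.1, 0) := rfl

@[simp] lemma c_some (j : D.b.support) (z : M × ℤ) : D.S.c (some j) z = D.cv j z.1 := by
  simp [Sys.c, S, asimp, aco_apply]

@[simp] lemma c_none (z : M × ℤ) : D.S.c none z = z.2 - D.cv D.θ z.1 := by
  simp [Sys.c, S, asimp, aco_apply]; ring

lemma S_s (β : D.AR) (z : M × ℤ) :
    D.S.s β z = (z.1 - D.S.co β z • D.r β.1.1, z.2) := by
  rw [Sys.s_apply, S_root]; ext <;> simp

@[simp] lemma si_some (j : D.b.support) (z : M × ℤ) :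
    D.S.si (some j) z = (D.sr j z.1, z.2) := by
  rw [Sys.si, S_s, sr_apply]
  have := D.c_some j z
  simp only [Sys.c] at this
  rw [this]; rfl

lemma S_s_zero (β : D.AR) (x : M) : D.S.s β (x, 0) = (D.sr β.1.1 x, 0) := by
  simp [S_s, S_co, sr_apply]

lemma posR_or (p : ι × ℤ) : D.PosR p ∨ D.PosR (D.ng p.1, -p.2) := by
  have := D.pos_or p.1
  simp only [PosR]
  rcases lt_trichotomy p.2 0 with h | h | h
  · right; left; omega
  · simp [h, this]
  · left; left; exact h

lemma cpt1_of {a : M × ℤ ≃+ M × ℤ}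
    (h : ∀ p : ι × ℤ, ∃ p' : ι × ℤ, (∀ z, D.aco p' (a z) = D.aco p z) ∧
      (D.r p'.1, 0) = a (D.r p.1, 0)) : D.S.Cpt1 a := by
  intro β
  obtain ⟨p', h1, h2⟩ := h β.1
  rcases D.posR_or p' with h3 | h3
  · exact ⟨⟨p', h3⟩, Or.inl ⟨h1, h2⟩⟩
  · refine ⟨⟨_, h3⟩, Or.inr ⟨fun z => ?_, ?_⟩⟩
    · have := h1 z
      simp only [S_co, aco_apply, cv_ng, t_ng] at this ⊢
      linarith
    · simp only [S_root, r_ng, ← h2]; simp

/-- Coweights. -/
def Cow (η : M) : Prop := ∀ α, (D.t α : ℤ) ∣ D.cv α η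

lemma cow_zero : D.Cow 0 := fun α => by simp

lemma Cow.add {η η' : M} (h : D.Cow η) (h' : D.Cow η') : D.Cow (η + η') :=
  fun α => by rw [map_add]; exact (h α).add (h' α)

lemma Cow.neg {η : M} (h : D.Cow η) : D.Cow (-η) :=
  fun α => by rw [map_neg]; exact (h α).neg_right

lemma Cow.zsmul {η : M} (h : D.Cow η) (n : ℤ) : D.Cow (n • η) :=
  fun α => by rw [map_zsmul, smul_eq_mul]; exact (h α).mul_left n

lemma cow_root (β : ι) : D.Cow ((D.t β : ℤ) • D.r β) :=
  fun α => by rw [map_zsmul, smul_eq_mul, t_sym]; exact dvd_mul_right _ _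

lemma cow_of_simple {η : M} (h : ∀ j : D.b.support, (D.t j : ℤ) ∣ D.cv j η) : D.Cow η := by
  refine D.root_induction (fun α hα => by simpa using hα) h fun α j hα => ?_
  rw [t_pm, cv_pm, sr_apply, map_sub, map_zsmul, smul_eq_mul]
  obtain ⟨q, hq⟩ := h j
  refine hα.sub ⟨q * D.cv j (D.r α), ?_⟩
  rw [hq, mul_comm (D.t j : ℤ), mul_assoc, t_sym]; ring

/-- Translations. -/
def T (η : M) : M × ℤ ≃+ M × ℤ where
  toFun z := (z.1 + z.2 • η, z.2)
  invFun z := (z.1 - z.2 • η, z.2)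
  left_inv z := by simp
  right_inv z := by simp
  map_add' x y := by
    ext
    · simp only [Prod.fst_add, Prod.snd_add]; module
    · simp

@[simp] lemma T_apply (η : M) (z : M × ℤ) : T η z = (z.1 + z.2 • η, z.2) := rfl

lemma cpt1_T {η : M} (h : D.Cow η) : D.S.Cpt1 (T η) := by
  refine D.cpt1_of fun p => ?_
  obtain ⟨q, hq⟩ := h p.1
  refine ⟨(p.1, p.2 - q), fun z => ?_, by simp⟩
  simp only [aco_apply, T_apply, map_add, map_zsmul, smul_eq_mul, hq]; ring

lemma cpt_T {η : M} (h : D.Cow η) : D.S.Cpt (T η) := by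
  refine ⟨D.cpt1_T h, ?_, fun _ => rfl⟩
  have : (T η).symm = T (-η) := by
    ext z
    · change z.1 - z.2 • η = z.1 + z.2 • (-η)
      module
    · rfl
  rw [this]
  exact D.cpt1_T h.neg

/-- Linear maps of the finite part. -/
def lin (v : M ≃+ M) : M × ℤ ≃+ M × ℤ := v.prodCongr (AddEquiv.refl ℤ)

@[simp] lemma lin_apply (v : M ≃+ M) (z : M × ℤ) : lin v z = (v z.1, z.2) := rfl

lemma cpt_neg : D.S.Cpt (lin (AddEquiv.neg M)) := by
  have : D.S.Cpt1 (lin (AddEquiv.neg M)) :=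
    D.cpt1_of fun p => ⟨(D.ng p.1, p.2), fun z => by simp [aco_apply], by simp⟩
  exact ⟨this, this, fun _ => rfl⟩

lemma cpt_sr (α : ι) : D.S.Cpt (lin (D.sr α).toAddEquiv) := by
  have : D.S.Cpt1 (lin (D.sr α).toAddEquiv) :=
    D.cpt1_of fun p => ⟨(D.pm α p.1, p.2), fun z => by simp [aco_apply, cv_pm],
      by simp⟩
  exact ⟨this, this, fun _ => rfl⟩

lemma ex_sr (α : ι) : ∃ β : D.AR, ∀ z, D.S.s β z = (D.sr α z.1, z.2) := by
  rcases D.pos_or α with h | h
  · exact ⟨⟨(α, 0), Or.inr ⟨rfl, h⟩⟩, fun z => by simp [S_s, S_co, sr_apply]⟩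
  · exact ⟨⟨(D.ng α, 0), Or.inr ⟨rfl, h⟩⟩, fun z => by simp [S_s, S_co, sr_apply]⟩

lemma ex_tr (α : ι) : ∃ β β' : D.AR, ∀ z,
    D.S.s β (D.S.s β' z) = (z.1 + z.2 • (D.t α : ℤ) • D.r α, z.2) := by
  obtain ⟨β, hβ⟩ := D.ex_sr α
  refine ⟨β, ⟨(α, 1), Or.inl one_pos⟩, fun z => ?_⟩
  rw [hβ, S_s, S_co]
  ext
  · simp only [sr_apply, map_sub, map_zsmul, cv_r_self]; module
  · rfl

variable {n : ℤ}

lemma ch_one {τ : ℤ} {η : M} (hη : D.Cow η) {κ : M × ℤ} (h : D.S.Ch n τ (η, 1) κ) :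
    κ.2 = 1 ∧ D.Cow κ.1 ∧ D.B κ.1 κ.1 ≤ D.B η η := by
  induction h with
  | refl => exact ⟨rfl, hη, le_rfl⟩
  | @tail y z _ h2 ih =>
    obtain ⟨⟨⟨α, m⟩, hβ⟩, h3, rfl, -⟩ := h2
    obtain ⟨h4, h5, h6⟩ := ih
    have hm : 0 ≤ m := by rcases hβ with h | h <;> simp only at h <;> omega
    rw [S_s]
    refine ⟨h4, ?_, le_trans ?_ h6⟩
    · obtain ⟨q, hq⟩ := h5 α
      have : D.S.co ⟨(α, m), hβ⟩ y • D.r α = (q + m) • (D.t α : ℤ) • D.r α := by
        simp only [S_co, hq, h4]; module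
      simp only
      rw [this, sub_eq_add_neg]
      exact h5.add D ((D.cow_root α).zsmul D _).neg
    · have h7 := D.B_root α y.1
      have h8 := D.B_root_pos α
      have h9 := D.B_comm y.1 (D.r α)
      have h10 := D.t_pos α
      set c := D.S.co ⟨(α, m), hβ⟩ y with hc
      have h11 : c = D.cv α y.1 + m * D.t α := by simp [hc, S_co, h4]
      simp only [B, map_sub, map_zsmul, LinearMap.sub_apply, LinearMap.smul_apply, smul_eq_mul]
        at h7 h8 h9 ⊢
      have h12 : 0 ≤ (-c) * (m * D.t α) * D.P.RootForm (D.r α) (D.r α) := by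
        have : 0 ≤ -c := by omega
        positivity
      have h13 : D.cv α y.1 = c - m * D.t α := by omega
      rw [h13] at h7
      rw [h9]
      linear_combination h12 + c * h7

/-- Antidominant. -/
def Anti (η : M) : Prop := ∀ j : D.b.support, D.cv j η ≤ 0

lemma Anti.dom {η : M} (h : D.Anti η) : D.IsDom (-η) := fun j => by
  rw [cv_def, map_neg]; have := h j; omega

lemma Anti.cv {η : M} (h : D.Anti η) {α : ι} (hα : D.pos α) : D.cv α η ≤ 0 := by
  have := D.dom_cv h.dom hα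
  rw [map_neg] at this; omega

lemma Anti.cv' {η : M} (h : D.Anti η) {α : ι} (hα : ¬ D.pos α) : 0 ≤ D.cv α η := by
  have := D.dom_cv' h.dom hα
  rw [map_neg] at this; omega

lemma anti_zero : D.Anti 0 := fun j => by simp

lemma Anti.add {η η' : M} (h : D.Anti η) (h' : D.Anti η') : D.Anti (η + η') := fun j => by
  rw [map_add]; have := h j; have := h' j; omega

/-- Covers below an antidominant coweight are simple reflections. -/
lemma step_anti {τ : ℤ} {η : M} (hη : D.Cow η) (ha : D.Anti η) {κ : M × ℤ}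
    (h : D.S.Step n τ (η, 1) κ) :
    ∃ j : D.b.support, D.cv j η < 0 ∧ κ = (D.sr j η, 1) ∧ n ∣ τ * D.cv j η := by
  have hl : 0 < D.S.lev (η, 1) := one_pos
  have h' := h
  obtain ⟨⟨⟨α, m⟩, hβ⟩, h1, h2, h3, h4⟩ := h
  have hm : 0 ≤ m := by rcases hβ with h | h <;> simp only at h <;> omega
  have ht := D.t_pos α
  simp only [S_co, mul_one] at h1
  have hmt : 0 ≤ m * D.t α := by positivity
  have hp : D.pos α := by
    by_contra hp
    have := ha.cv' D hp
    omega
  obtain ⟨q, hq⟩ := hη α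
  have hm0 : m = 0 := by
    by_contra hm0
    have hmt' : 0 < m * D.t α := mul_pos (by omega) ht
    have hq' : 0 < -q - m := by
      rw [hq] at h1
      by_contra hc
      nlinarith
    let β₁ : D.AR := ⟨(α, 0), Or.inr ⟨rfl, hp⟩⟩
    let β₂ : D.AR := ⟨(D.ng α, -q - m), Or.inl hq'⟩
    have e1 : D.S.co β₁ (η, 1) = D.cv α η := by simp [β₁, S_co]
    have e2 : D.S.co β₂ (D.S.s β₁ (η, 1)) = - (m * D.t α) := by
      simp only [S_s, e1, β₂, β₁, S_co, cv_ng, t_ng, map_sub, map_zsmul, cv_r_self, smul_eq_mul, hq]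
      ring
    have e3 : D.S.s β₂ (D.S.s β₁ (η, 1)) = κ := by
      rw [h2, S_s _ β₂, e2, S_s, S_s, e1, S_co]
      simp only [β₂, β₁, r_ng, Prod.mk.injEq, and_true]
      module
    have h5 := D.S.L_s_lt hl (β := β₁) (by omega)
    have h6 := D.S.L_s_lt (x := D.S.s β₁ (η, 1)) (β := β₂) (by rwa [Sys.lev_s]) (by omega)
    rw [e3] at h6
    omega
  subst hm0
  simp only [zero_mul, add_zero] at h1
  have e : κ = (D.sr α η, 1) := by rw [h2, S_s, S_co, sr_apply]; simp
  by_contra hc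
  have : D.Anti κ.1 := by
    intro j
    rcases h'.lift hl (some j) with ⟨h5, h6, h7⟩ | ⟨h5, -⟩
    · exact absurd ⟨j, by simpa using h5, by simpa using h6, by simpa using h7⟩ hc
    · rw [c_some, c_some] at h5
      have := ha j
      have := Sys.sign_cases (D.cv j κ.1)
      have := Sys.sign_cases (D.cv j η)
      simp only at h5
      omega
  have h5 := this.cv D hp
  rw [e] at h5
  simp only [cv_sr] at h5
  omega

end SimpleDatum

end Pool.Agent.Lib.MP_4354a3_al
end
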