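import Mathlib

/-!
# Group algebra helpers
-/

set_option linter.unusedSectionVars false

namespace Pool.Agent.Lib.MP_4354a3_al

open Function

/-- Integral group ring. -/
abbrev GA (E : Type*) := AddMonoidAlgebra ℤ E

variable {E E' E'' V V' : Type*} [AddCommGroup E] [AddCommGroup E'] [AddCommGroup E'']
  [AddCommGroup V] [AddCommGroup V']

/-- The formal exponential. -/
noncomputable def ex (x : E) : GA E := AddMonoidAlgebra.single x 1

lemma ex_add (x y : E) : ex (x + y) = ex x * ex y := by
  simp [ex, AddMonoidAlgebra.single_mul_single]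

@[simp] lemma ex_zero : ex (0 : E) = 1 := rfl

lemma ex_nsmul (n : ℕ) (x : E) : ex (n • x) = ex x ^ n := by
  induction n with
  | zero => simp
  | succ n ih => rw [succ_nsmul, ex_add, ih, pow_succ]

lemma ex_mul_neg (x : E) : ex x * ex (-x) = 1 := by rw [← ex_add]; simp

lemma single_eq (x : E) (n : ℤ) : AddMonoidAlgebra.single x n = n • ex x := by
  simp [ex]

/-- Push forward along an additive map. -/
noncomputable def mp (f : E →+ E') : GA E →+* GA E' := AddMonoidAlgebra.mapDomainRingHom ℤ f

@[simp] lemma mp_ex (f : E →+ E') (x : E) : mp f (ex x) = ex (f x) := by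
  simp [mp, ex]

lemma hom_ext {f g : GA E →+ V} (h : ∀ x, f (ex x) = g (ex x)) : f = g := by
  ext x
  simpa [ex] using h x

lemma induction_ex {p : GA E → Prop} (h0 : p 0) (h1 : ∀ x, p (ex x))
    (ha : ∀ f g, p f → p g → p (f + g)) (hn : ∀ f, p f → p (-f)) (f : GA E) : p f := by
  induction f using AddMonoidAlgebra.induction_linear with
  | zero => exact h0
  | add f g hf hg => exact ha f g hf hg
  | single x n =>
    rw [single_eq]
    have : ∀ m : ℕ, p ((m : ℤ) • ex x) := by
      intro m
      induction m with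
      | zero => simpa using h0
      | succ m ih => rw [Nat.cast_succ, add_smul, one_smul]; exact ha _ _ ih (h1 x)
    obtain ⟨m, rfl | rfl⟩ := Int.eq_nat_or_neg n
    · exact this m
    · rw [neg_smul]; exact hn _ (this m)

lemma mp_mp (f : E →+ E') (g : E' →+ E'') (h : GA E) : mp g (mp f h) = mp (g.comp f) h := by
  induction h using induction_ex with
  | h0 => simp
  | h1 x => simp
  | ha f g hf hg => simp [hf, hg]
  | hn f hf => simp [hf]

lemma mp_congr {f g : E →+ E'} (h : ∀ x, f x = g x) (u : GA E) : mp f u = mp g u := by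
  rw [AddMonoidHom.ext h]

@[simp] lemma mp_id (h : GA E) : mp (AddMonoidHom.id E) h = h := by
  induction h using induction_ex with
  | h0 => simp
  | h1 x => simp
  | ha f g hf hg => simp [hf, hg]
  | hn f hf => simp [hf]

lemma mp_eq_self {f : E →+ E} (h : ∀ x, f x = x) (u : GA E) : mp f u = u := by
  rw [mp_congr (g := AddMonoidHom.id E) h, mp_id]

lemma mp_injective {f : E →+ E'} (hf : Injective f) : Injective (mp f) :=
  AddMonoidAlgebra.mapDomain_injective hf

lemma coeff_mp {f : E →+ E'} (hf : Injective f) (u : GA E) (x : E) :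
    (mp f u).coeff (f x) = u.coeff x :=
  Finsupp.mapDomain_apply hf _ _

lemma coeff_ex_mul (x : E) (u : GA E) (y : E) : (ex x * u).coeff y = u.coeff (y - x) := by
  rw [ex, AddMonoidAlgebra.coeff_single_mul_apply, one_mul]
  congr 1; abel

/-- Linear extension of a function on weights. -/
noncomputable def ev (J : E → V) : GA E →+ V :=
  (Finsupp.liftAddHom fun x => zmultiplesHom V (J x)).comp
    AddMonoidAlgebra.coeffAddEquiv.toAddMonoidHom

@[simp] lemma ev_ex (J : E → V) (x : E) : ev J (ex x) = J x := by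
  simp [ev, ex]

lemma ev_apply (J : E → V) (f : GA E) : ev J f = f.coeff.sum fun x n => n • J x := by
  simp [ev, Finsupp.liftAddHom_apply]
  rfl

lemma ev_mp (J : E' → V) (f : E →+ E') (u : GA E) : ev J (mp f u) = ev (fun x => J (f x)) u := by
  induction u using induction_ex with
  | h0 => simp
  | h1 x => simp
  | ha f g hf hg => simp [hf, hg]
  | hn f hf => simp [hf]

lemma ev_neg (J : E → V) (u : GA E) : ev (fun x => - J x) u = - ev J u := by
  induction u using induction_ex with
  | h0 => simp
  | h1 x => simp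
  | ha f g hf hg => simp [hf, hg]; abel
  | hn f hf => simp [hf]

lemma ev_mul (J : E → V) (f u : GA E) : ev J (u * f) = ev (fun x => ev J (ex x * f)) u := by
  induction u using induction_ex with
  | h0 => simp
  | h1 x => simp
  | ha f g hf hg => simp [add_mul, hf, hg]
  | hn f hf => simp [hf]

lemma map_ev (J : E → V) (φ : V →+ V') (u : GA E) : φ (ev J u) = ev (fun x => φ (J x)) u := by
  induction u using induction_ex with
  | h0 => simp
  | h1 x => simp
  | ha f g hf hg => simp [hf, hg]
  | hn f hf => simp [hf]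

lemma ev_ex_self (u : GA E) : ev ex u = u := by
  induction u using induction_ex with
  | h0 => simp
  | h1 x => simp
  | ha f g hf hg => simp [hf, hg]
  | hn f hf => simp [hf]

lemma two_cancel {f g : GA E} (h : f + f = g + g) : f = g := by
  ext x
  have := congrArg (fun u : GA E => u.coeff x) h
  simp only [AddMonoidAlgebra.coeff_add, Finsupp.add_apply] at this
  omega

instance : IsAddTorsionFree (GA E) where
  nsmul_right_injective n hn f g h := by
    ext x
    have := congrArg (fun u : GA E => u.coeff x) h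
    simp only [AddMonoidAlgebra.coeff_smul, Finsupp.smul_apply] at this
    exact IsAddTorsionFree.nsmul_right_injective hn this

lemma eq_zero_of_eq_neg [IsAddTorsionFree V] {v : V} (h : v = -v) : v = 0 := by
  have : (2 : ℕ) • v = (2 : ℕ) • (0 : V) := by
    rw [two_nsmul, smul_zero]; nth_rewrite 1 [h]; simp
  exact IsAddTorsionFree.nsmul_right_injective two_ne_zero this

/-- All weights in the support satisfy `p`. -/
def Supp (f : GA E) (p : E → Prop) : Prop := ∀ x, f.coeff x ≠ 0 → p x

lemma Supp.mono {f : GA E} {p q : E → Prop} (h : Supp f p) (hpq : ∀ x, p x → q x) : Supp f q :=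
  fun x hx => hpq x (h x hx)

lemma Supp.and {f : GA E} {p q : E → Prop} (h : Supp f p) (h' : Supp f q) :
    Supp f fun x => p x ∧ q x := fun x hx => ⟨h x hx, h' x hx⟩

lemma supp_zero (p : E → Prop) : Supp (0 : GA E) p := fun x hx => by simp at hx

lemma supp_ex {p : E → Prop} {x : E} (h : p x) : Supp (ex x) p := by
  intro y hy
  by_cases e : x = y
  · exact e ▸ h
  · simp [ex, e] at hy

lemma Supp.add {f g : GA E} {p : E → Prop} (hf : Supp f p) (hg : Supp g p) : Supp (f + g) p := by
  intro x hx
  by_cases h : f.coeff x = 0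
  · exact hg x (by simpa [h] using hx)
  · exact hf x h

lemma Supp.neg {f : GA E} {p : E → Prop} (hf : Supp f p) : Supp (-f) p := by
  intro x hx
  exact hf x (by simpa using hx)

lemma Supp.sub {f g : GA E} {p : E → Prop} (hf : Supp f p) (hg : Supp g p) : Supp (f - g) p := by
  rw [sub_eq_add_neg]; exact hf.add hg.neg

lemma Supp.zsmul {f : GA E} {p : E → Prop} (hf : Supp f p) (n : ℤ) : Supp (n • f) p := by
  intro x hx
  refine hf x fun h => hx ?_
  rw [AddMonoidAlgebra.coeff_smul, Finsupp.smul_apply, h, smul_zero]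

lemma Supp.sum {ι : Type*} (s : Finset ι) {f : ι → GA E} {p : E → Prop}
    (h : ∀ i ∈ s, Supp (f i) p) : Supp (∑ i ∈ s, f i) p :=
  Finset.sum_induction f (fun u => Supp u p) (fun _ _ => Supp.add) (supp_zero p) h

lemma Supp.mul {f g : GA E} {p q r : E → Prop} (hf : Supp f p) (hg : Supp g q)
    (h : ∀ x y, p x → q y → r (x + y)) : Supp (f * g) r := by
  classical
  intro z hz
  have := AddMonoidAlgebra.support_coeff_mul_subset f g (Finsupp.mem_support_iff.2 hz)
  obtain ⟨x, hx, y, hy, rfl⟩ := Finset.mem_add.1 this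
  exact h x y (hf x (Finsupp.mem_support_iff.1 hx)) (hg y (Finsupp.mem_support_iff.1 hy))

lemma Supp.mp {f : GA E} {p : E → Prop} {q : E' → Prop} (hf : Supp f p) (φ : E →+ E')
    (h : ∀ x, p x → q (φ x)) : Supp (mp φ f) q := by
  classical
  intro z hz
  have := Finsupp.mapDomain_support (Finsupp.mem_support_iff.2 hz)
  obtain ⟨x, hx, rfl⟩ := Finset.mem_image.1 this
  exact h x (hf x (Finsupp.mem_support_iff.1 hx))

lemma Supp.of_mp {f : GA E} {q : E' → Prop} {φ : E →+ E'} (hφ : Injective φ)
    (hf : Supp (MP_4354a3_al.mp φ f) q) : Supp f fun x => q (φ x) := by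
  intro x hx
  exact hf _ (by rwa [coeff_mp hφ])

lemma Supp.ev_congr {f : GA E} {J J' : E → V} (h : Supp f fun x => J x = J' x) :
    ev J f = ev J' f := by
  rw [ev_apply, ev_apply]
  refine Finsupp.sum_congr fun x hx => ?_
  rw [h x (Finsupp.mem_support_iff.1 hx)]

lemma Supp.mp_congr {f : GA E} {φ ψ : E →+ E'} (h : Supp f fun x => φ x = ψ x) :
    MP_4354a3_al.mp φ f = MP_4354a3_al.mp ψ f := by
  rw [← ev_ex_self (MP_4354a3_al.mp φ f), ← ev_ex_self (MP_4354a3_al.mp ψ f), ev_mp, ev_mp]
  exact Supp.ev_congr (h.mono fun x hx => by rw [hx])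

lemma Supp.ex_mp {f : GA E'} {φ : E →+ E'} (hφ : Injective φ)
    (h : Supp f fun x => x ∈ Set.range φ) : ∃ u, MP_4354a3_al.mp φ u = f :=
  ⟨_, AddMonoidAlgebra.mapDomain_comapDomain
    (fun x hx => h x (Finsupp.mem_support_iff.1 hx)) hφ⟩

lemma Supp.eq_zero {f : GA E} (h : Supp f fun _ => False) : f = 0 := by
  ext x
  by_contra hx
  exact h x hx

lemma Supp.coeff_eq_zero {f : GA E} {p : E → Prop} (h : Supp f p) {x : E} (hx : ¬ p x) :
    f.coeff x = 0 := by
  by_contra h'
  exact hx (h x h')

end Pool.Agent.Lib.MP_4354a3_al
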