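import Mathlib

-- part Pool.Agent.Lib.MP_4354a3_al.CBase
section

/-!
# Highest weight modules over the quantum loop algebra: basic definitions

Operators `x s i r` stand for `x^±_{i,r}` (`s = ±1`), operators `φ e i m` for `φ^±_{i,±m}`.
-/

set_option linter.unusedSectionVars false

namespace Pool.Agent.Lib.MP_4354a3_al.KC

open Finset

/-- Symmetrizable Cartan data of finite type together with the parameter `q`. -/
structure CD (I : Type*) [Fintype I] where
  C : I → I → ℤ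
  d : I → ℕ
  q : ℂ
  q0 : q ≠ 0
  hq : ∀ n : ℕ, 0 < n → q ^ n ≠ 1
  dpos : ∀ i, 0 < d i
  diag : ∀ i, C i i = 2
  symm : ∀ i j, (d i : ℤ) * C i j = d j * C j i
  rng : ∀ i j, i ≠ j → -3 ≤ C i j ∧ C i j ≤ 0
  psd : ∀ β : I → ℤ, 0 ≤ ∑ i, ∑ j, β i * β j * (d i * C i j)
  eta : I → ℕ
  eta_pos : ∀ i, 0 < ∑ j, C i j * eta j

/-- Symmetric quantum integer. -/
noncomputable def qint (v : ℂ) (n : ℕ) : ℂ := (v ^ n - v⁻¹ ^ n) / (v - v⁻¹)

/-- Symmetric quantum factorial. -/
noncomputable def qfac (v : ℂ) (n : ℕ) : ℂ := ∏ k ∈ range n, qint v (k + 1)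

/-- Symmetric quantum binomial coefficient. -/
noncomputable def qbin (v : ℂ) (n k : ℕ) : ℂ := qfac v n / (qfac v k * qfac v (n - k))

/-- The difference `φ^+_n - φ^-_n`. -/
def Phi {I A : Type*} [AddCommGroup A] (φ : ℤˣ → I → ℕ → A) (i : I) (n : ℤ) : A :=
  (if 0 ≤ n then φ 1 i n.toNat else 0) - (if n ≤ 0 then φ (-1) i (-n).toNat else 0)

section alg

variable {E : Type*} [Ring E] [Algebra ℂ E]

/-- The relation between a Cartan half current `φ` and a current `x`. -/
structure R2 (Q : ℂ) (φ : ℕ → E) (x : ℤ → E) : Prop where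
  zero : ∀ r, φ 0 * x r = Q • (x r * φ 0)
  succ : ∀ m r, φ (m + 1) * x r - Q • (φ m * x (r + 1)) =
    Q • (x r * φ (m + 1)) - x (r + 1) * φ m

/-- The quadratic relation between two currents. -/
def R3 (Q : ℂ) (x y : ℤ → E) : Prop :=
  ∀ r t, x (r + 1) * y t - Q • (x r * y (t + 1)) = Q • (y t * x (r + 1)) - y (t + 1) * x r

/-- The Serre element of `F` and `y`. -/
noncomputable def serre0 (v : ℂ) (a : ℕ) (F y : E) : E :=
  ∑ k ∈ range (a + 1), ((-1) ^ k * qbin v a k) • (F ^ k * y * F ^ (a - k))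

/-- The Serre element of a list of operators and `y`. -/
noncomputable def serreL (v : ℂ) (l : List E) (y : E) : E :=
  ∑ k ∈ range (l.length + 1), ((-1) ^ k * qbin v l.length k) • ((l.take k).prod * y * (l.drop k).prod)

/-- The part of the commutator with `F ^ N` coming from `p`. -/
def dpow (F p : E) (N : ℕ) : E := ∑ u ∈ range N, F ^ u * p * F ^ (N - 1 - u)

end alg

namespace CD

variable {I : Type*} [Fintype I] [DecidableEq I] (c : CD I)

/-- `q_i`. -/
noncomputable def qq (i : I) : ℂ := c.q ^ c.d i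

/-- `q ^ (e s d_i C_ij)`. -/
noncomputable def Q (e s : ℤˣ) (i j : I) : ℂ := c.q ^ ((e : ℤ) * s * (c.d i * c.C i j))

/-- `1 / (q_i - q_i⁻¹)`. -/
noncomputable def κ (i : I) : ℂ := (c.qq i - (c.qq i)⁻¹)⁻¹

/-- The degree of the Serre relation. -/
def deg (i j : I) : ℕ := (1 - c.C i j).toNat

section alg

variable {E : Type*} [Ring E] [Algebra ℂ E] (x : ℤˣ → I → ℤ → E) (φ : ℤˣ → I → ℕ → E)

/-- The Drinfeld relations other than the quadratic and the Serre relations. -/
structure IsRep : Prop where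
  inv : ∀ i, φ 1 i 0 * φ (-1) i 0 = 1
  comm : ∀ e i m e' j n, φ e i m * φ e' j n = φ e' j n * φ e i m
  r2 : ∀ e i s j, R2 (c.Q e s i j) (φ e i) fun r => x s j (e * r)
  xx : ∀ i j r t, x 1 i r * x (-1) j t - x (-1) j t * x 1 i r =
    if i = j then c.κ i • Phi φ i (r + t) else 0

/-- The quadratic relations. -/
def X3 : Prop := ∀ s i j, R3 (c.Q 1 s i j) (x s i) (x s j)

/-- The Serre relations at mode zero. -/
def S0 : Prop := ∀ s i j t, i ≠ j → serre0 (c.qq i) (c.deg i j) (x s i 0) (x s j t) = 0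

/-- The Serre relations. -/
def SF : Prop := ∀ s i j t (r : Fin (c.deg i j) → ℤ), i ≠ j →
  ∑ π : Equiv.Perm (Fin (c.deg i j)),
    serreL (c.qq i) (List.ofFn fun u => x s i (r (π u))) (x s j t) = 0

end alg

section mod

variable {V : Type*} [AddCommGroup V] [Module ℂ V]
  (x : ℤˣ → I → ℤ → Module.End ℂ V) (φ : ℤˣ → I → ℕ → Module.End ℂ V)

/-- A word in the lowering operators. -/
def wd (l : List (I × ℤ)) : Module.End ℂ V := (l.map fun p => x (-1) p.1 p.2).prod

/-- The span of the words of content `β` applied to `v`. -/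
def LB (v : V) (β : Multiset I) : Submodule ℂ V :=
  Submodule.span ℂ {w | ∃ l : List (I × ℤ), ((l.map Prod.fst : List I) : Multiset I) = β ∧
    w = wd x l v}

/-- The span of the words of length `n` applied to `v`. -/
def LN (v : V) (n : ℕ) : Submodule ℂ V :=
  Submodule.span ℂ {w | ∃ l : List (I × ℤ), l.length = n ∧ w = wd x l v}

/-- Invariant subspaces. -/
def Inv (W : Submodule ℂ V) : Prop :=
  (∀ s i r, ∀ w ∈ W, x s i r w ∈ W) ∧ ∀ e i m, ∀ w ∈ W, φ e i m w ∈ W

/-- Highest weight vectors. -/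
structure HV (v : V) (ψ : ℤˣ → I → ℕ → ℂ) : Prop where
  rep : c.IsRep x φ
  sing : ∀ i r, x 1 i r v = 0
  eig : ∀ e i m, φ e i m v = ψ e i m • v

/-- Simple highest weight modules. -/
structure HW (v : V) (ψ : ℤˣ → I → ℕ → ℂ) (lam : V →ₗ[ℂ] ℂ) : Prop extends c.HV x φ v ψ where
  gen : ⨆ β, LB x v β = ⊤
  lam_v : lam v = 1
  lam_x : ∀ i r w, lam (x (-1) i r w) = 0
  sep : ∀ W, Inv x φ W → W ≤ LinearMap.ker lam → W = ⊥

end mod

lemma qq_ne (i : I) : c.qq i ≠ 0 := pow_ne_zero _ c.q0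

lemma Q_ne (e s : ℤˣ) (i j : I) : c.Q e s i j ≠ 0 := zpow_ne_zero _ c.q0

lemma zpow_ne_one {n : ℤ} (h : n ≠ 0) : c.q ^ n ≠ 1 := by
  obtain ⟨m, rfl | rfl⟩ := Int.eq_nat_or_neg n
  · rw [zpow_natCast]; exact c.hq m (by omega)
  · rw [zpow_neg, zpow_natCast, Ne, inv_eq_one]; exact c.hq m (by omega)

lemma zpow_inj {m n : ℤ} (h : c.q ^ m = c.q ^ n) : m = n := by
  by_contra hne
  refine c.zpow_ne_one (sub_ne_zero.2 hne) ?_
  rw [zpow_sub₀ c.q0, h, div_self (zpow_ne_zero _ c.q0)]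

lemma qq_pow_ne_one (i : I) {n : ℕ} (h : 0 < n) : c.qq i ^ n ≠ 1 := by
  rw [qq, ← pow_mul]; exact c.hq _ (Nat.mul_pos (c.dpos i) h)

lemma qq_zpow (i : I) (n : ℤ) : c.qq i ^ n = c.q ^ ((c.d i : ℤ) * n) := by
  rw [qq, zpow_mul, zpow_natCast]

lemma Q_eq (e s : ℤˣ) (i j : I) : c.Q e s i j = c.qq i ^ ((e : ℤ) * s * c.C i j) := by
  rw [qq_zpow, Q]; congr 1; ring

lemma Q_symm (e s : ℤˣ) (i j : I) : c.Q e s i j = c.Q e s j i := by
  rw [Q, Q, c.symm]

lemma qq_sub_ne (i : I) : c.qq i - (c.qq i)⁻¹ ≠ 0 := by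
  intro h
  apply c.qq_pow_ne_one i two_pos
  have := c.qq_ne i
  rw [sub_eq_zero] at h
  rw [pow_two]; nth_rewrite 2 [h]; exact mul_inv_cancel₀ this

lemma κ_ne (i : I) : c.κ i ≠ 0 := inv_ne_zero (c.qq_sub_ne i)

end CD

end Pool.Agent.Lib.MP_4354a3_al.KC
end

-- part Pool.Agent.Lib.MP_4354a3_al.CHalf
section

/-!
# Half currents and the Serre element
-/

set_option linter.unusedSectionVars false

namespace Pool.Agent.Lib.MP_4354a3_al.KC

open Finset

section scal
variable {v : ℂ}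

lemma half_qint_ne (hv0 : v ≠ 0) (hv : ∀ k : ℕ, 0 < k → v ^ k ≠ 1) {k : ℕ} (hk : 0 < k) :
    v ^ k - v⁻¹ ^ k ≠ 0 := by
  intro h
  apply hv (2 * k) (by omega)
  rw [sub_eq_zero] at h
  rw [two_mul, pow_add]
  nth_rewrite 2 [h]
  rw [← mul_pow, mul_inv_cancel₀ hv0, one_pow]

lemma half_qint (hv0 : v ≠ 0) (hv : ∀ k : ℕ, 0 < k → v ^ k ≠ 1) :
    qint v 1 = 1 ∧ qint v 2 = v + v⁻¹ ∧ qint v 3 = v ^ 2 + 1 + v⁻¹ ^ 2 ∧
      qint v 4 = (v + v⁻¹) * (v ^ 2 + v⁻¹ ^ 2) := by
  have h1 : v - v⁻¹ ≠ 0 := by simpa using half_qint_ne hv0 hv one_pos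
  refine ⟨?_, ?_, ?_, ?_⟩ <;> rw [qint, div_eq_iff h1] <;> field_simp <;> ring

lemma half_qfac_ne (hv0 : v ≠ 0) (hv : ∀ k : ℕ, 0 < k → v ^ k ≠ 1) (k : ℕ) : qfac v k ≠ 0 := by
  have h1 : v - v⁻¹ ≠ 0 := by simpa using half_qint_ne hv0 hv one_pos
  exact prod_ne_zero_iff.2 fun j _ => div_ne_zero (half_qint_ne hv0 hv j.succ_pos) h1

lemma half_qbin_zero (hv0 : v ≠ 0) (hv : ∀ k : ℕ, 0 < k → v ^ k ≠ 1) (a : ℕ) :
    qbin v a 0 = 1 := by
  have := half_qfac_ne hv0 hv a
  rw [qbin, Nat.sub_zero, div_eq_iff (mul_ne_zero (half_qfac_ne hv0 hv 0) this)]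
  simp [qfac]

lemma half_qbin_self (hv0 : v ≠ 0) (hv : ∀ k : ℕ, 0 < k → v ^ k ≠ 1) (a : ℕ) :
    qbin v a a = 1 := by
  have := half_qfac_ne hv0 hv a
  rw [qbin, Nat.sub_self, div_eq_iff (mul_ne_zero this (half_qfac_ne hv0 hv 0))]
  simp [qfac]

lemma half_qbin (hv0 : v ≠ 0) (hv : ∀ k : ℕ, 0 < k → v ^ k ≠ 1) :
    qbin v 2 1 = v + v⁻¹ ∧ qbin v 3 1 = v ^ 2 + 1 + v⁻¹ ^ 2 ∧ qbin v 3 2 = v ^ 2 + 1 + v⁻¹ ^ 2 ∧
      qbin v 4 1 = (v + v⁻¹) * (v ^ 2 + v⁻¹ ^ 2) ∧ qbin v 4 3 = (v + v⁻¹) * (v ^ 2 + v⁻¹ ^ 2) ∧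
      qbin v 4 2 = (v ^ 2 + 1 + v⁻¹ ^ 2) * (v ^ 2 + v⁻¹ ^ 2) := by
  obtain ⟨h1, h2, h3, h4⟩ := half_qint hv0 hv
  refine ⟨?_, ?_, ?_, ?_, ?_, ?_⟩ <;>
  · rw [qbin, div_eq_iff (mul_ne_zero (half_qfac_ne hv0 hv _) (half_qfac_ne hv0 hv _))]
    simp only [qfac, Nat.reduceSub, prod_range_succ, prod_range_zero, Nat.reduceAdd, zero_add, h1, h2, h3, h4]
    ring

end scal

section plane
variable {A : Type*} [Ring A] [Algebra ℂ A] {v : ℂ} {n : ℕ} {X Y : A}

lemma half_planeJ (hv0 : v ≠ 0) (hv : ∀ k : ℕ, 0 < k → v ^ k ≠ 1) (hn : n ≤ 3)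
    (h : X * Y = v⁻¹ ^ 2 • (Y * X)) :
    ∑ k ∈ range (n + 1 + 1), ((-1) ^ k * qbin v (n + 1) k) •
      ((Y - X) ^ k * (v ^ n • Y - (v ^ n)⁻¹ • X) ^ (n + 1 - k)) = 0 := by
  have h' : ∀ a, X * (Y * a) = v⁻¹ ^ 2 • (Y * (X * a)) := fun a => by
    rw [← mul_assoc, h, smul_mul_assoc, mul_assoc]
  obtain ⟨b1, b2, b3, b4, b5, b6⟩ := half_qbin hv0 hv
  have b0 := half_qbin_zero hv0 hv
  have b7 := half_qbin_self hv0 hv
  interval_cases n <;>
  · simp only [sum_range_succ, sum_range_zero, Nat.reduceAdd, zero_add, Nat.reduceSub, b0, b1, b2, b3,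
      b4, b5, b6, b7, Nat.sub_zero, Nat.sub_self]
    simp only [pow_succ (_ : A), pow_zero (_ : A), one_mul, mul_one, mul_sub, sub_mul, mul_assoc,
      smul_mul_assoc, mul_smul_comm, h, h']
    match_scalars <;> field_simp <;> ring

/-- The left factor that `dpow` produces. -/
def half_H (F b : A) (N : ℕ) : A := ∑ u ∈ range N, F ^ u * b ^ (N - 1 - u)

lemma half_H_eq (hv0 : v ≠ 0) (h : X * Y = v⁻¹ ^ 2 • (Y * X)) (F b g : A) (hF : F = Y - X)
    (hb : b = v⁻¹ ^ 2 • Y - v ^ 2 • X) (hg : g = Y - v ^ 2 • X) :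
    half_H F b 0 = 0 ∧ half_H F b 1 = 1 ∧ half_H F b 2 = (1 + v⁻¹ ^ 2) • g ∧
      half_H F b 3 = (1 + v⁻¹ ^ 2 + v⁻¹ ^ 4) • g ^ 2 ∧
      half_H F b 4 = (1 + v⁻¹ ^ 2 + v⁻¹ ^ 4 + v⁻¹ ^ 6) • g ^ 3 := by
  have h' : ∀ a, X * (Y * a) = v⁻¹ ^ 2 • (Y * (X * a)) := fun a => by
    rw [← mul_assoc, h, smul_mul_assoc, mul_assoc]
  subst hF hb hg
  refine ⟨by simp [half_H], by simp [half_H], ?_, ?_, ?_⟩ <;>
  · simp only [half_H, sum_range_succ, sum_range_zero, zero_add, Nat.reduceSub, Nat.sub_zero]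
    simp only [pow_succ (_ : A), pow_zero (_ : A), one_mul, mul_one, mul_sub, sub_mul, mul_assoc,
      smul_mul_assoc, mul_smul_comm, h, h']
    match_scalars <;> field_simp <;> ring

lemma half_planeI (hv0 : v ≠ 0) (hv : ∀ k : ℕ, 0 < k → v ^ k ≠ 1) (hn : n ≤ 3)
    (h : X * Y = v⁻¹ ^ 2 • (Y * X)) (ζ : ℕ → A)
    (hζ : ∀ c, X * ζ c = (v ^ n * v⁻¹ ^ 2) • (Y * ζ (c + 1)) + v ^ n • (ζ c * X) -
      v⁻¹ ^ 2 • (ζ (c + 1) * Y)) (F b : A) (hF : F = Y - X) (hb : b = v⁻¹ ^ 2 • Y - v ^ 2 • X) :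
    ∑ k ∈ range (n + 2), ((-1) ^ k * qbin v (n + 1) k) •
      (half_H F b k * (v ^ n • ζ 0 - ζ 1) * b ^ (n + 1 - k) +
        F ^ k * (ζ 0 - v ^ n • ζ 1) * half_H F b (n + 1 - k)) = 0 := by
  have h' : ∀ a, X * (Y * a) = v⁻¹ ^ 2 • (Y * (X * a)) := fun a => by
    rw [← mul_assoc, h, smul_mul_assoc, mul_assoc]
  have hζ' : ∀ c a, X * (ζ c * a) = (v ^ n * v⁻¹ ^ 2) • (Y * (ζ (c + 1) * a)) +
      v ^ n • (ζ c * (X * a)) - v⁻¹ ^ 2 • (ζ (c + 1) * (Y * a)) := fun c a => by
    rw [← mul_assoc, hζ]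
    simp only [sub_mul, add_mul, smul_mul_assoc, mul_assoc]
  obtain ⟨b1, b2, b3, b4, b5, b6⟩ := half_qbin hv0 hv
  have b0 := half_qbin_zero hv0 hv
  have b7 := half_qbin_self hv0 hv
  obtain ⟨H0, H1, H2, H3, H4⟩ := half_H_eq hv0 h F b _ hF hb rfl
  interval_cases n <;>
  · simp only [sum_range_succ, sum_range_zero, Nat.reduceAdd, zero_add, Nat.reduceSub, b0, b1, b2, b3,
      b4, b5, b6, b7, Nat.sub_zero, Nat.sub_self, H0, H1, H2, H3, H4]
    subst hF hb
    simp only [pow_succ (_ : A), pow_zero (_ : A), one_mul, mul_one, mul_sub, sub_mul, mul_add,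
      add_mul, mul_assoc, zero_mul, mul_zero, zero_add, add_zero,
      smul_mul_assoc, mul_smul_comm, h, h', hζ, hζ', Nat.reduceAdd]
    match_scalars <;> field_simp <;> ring

end plane

variable {E : Type*} [Ring E] [Algebra ℂ E] {v : ℂ} {n : ℕ} {x y : ℤ → E} {φ : ℕ → E}

/-- The half current starting at mode `r`. -/
noncomputable def half_Y (l : ℂ) (x : ℤ → E) (r : ℤ) : PowerSeries E :=
  PowerSeries.mk fun s => l ^ s • x (r + s)

lemma half_Y_eq (l : ℂ) (x : ℤ → E) (r : ℤ) :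
    half_Y l x r = PowerSeries.C (x r) + l • (PowerSeries.X * half_Y l x (r + 1)) := by
  ext m
  cases m with
  | zero => simp [half_Y]
  | succ m =>
    simp only [half_Y, map_add, PowerSeries.coeff_mk, PowerSeries.coeff_succ_C,
      PowerSeries.coeff_smul, PowerSeries.coeff_succ_X_mul, zero_add, smul_smul, pow_succ']
    congr 2
    push_cast
    ring

lemma half_inj {S : ℤ → PowerSeries E} {c : ℂ}
    (h : ∀ t, S t = c • (PowerSeries.X * S (t + 1))) (t : ℤ) : S t = 0 := by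
  ext m
  induction m generalizing t with
  | zero => rw [h t]; simp
  | succ m ih =>
    rw [h t, PowerSeries.coeff_smul, PowerSeries.coeff_succ_X_mul, ih]
    simp

lemma half_X_comm (a : PowerSeries E) : a * PowerSeries.X = PowerSeries.X * a :=
  (PowerSeries.commute_X a).eq

lemma half_X_comm' (a b : PowerSeries E) :
    a * (PowerSeries.X * b) = PowerSeries.X * (a * b) := by
  rw [← mul_assoc, half_X_comm, mul_assoc]

lemma half_R2 {Q : ℂ} (h : R2 Q φ x) (r : ℤ) :
    PowerSeries.mk φ * (PowerSeries.C (x r) - Q • (PowerSeries.X * PowerSeries.C (x (r + 1)))) =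
      (Q • PowerSeries.C (x r) - PowerSeries.X * PowerSeries.C (x (r + 1))) * PowerSeries.mk φ := by
  simp only [mul_sub, sub_mul, mul_smul_comm, smul_mul_assoc, half_X_comm', mul_assoc]
  ext m
  cases m with
  | zero => simp [h.zero]
  | succ m =>
    simp only [map_sub, PowerSeries.coeff_smul, PowerSeries.coeff_succ_X_mul,
      PowerSeries.coeff_mul_C, PowerSeries.coeff_C_mul, PowerSeries.coeff_mk]
    exact h.succ m r

lemma half_move {Q : ℂ} (h : R2 Q φ x) (r : ℤ) :
    PowerSeries.mk φ * PowerSeries.C (x r) =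
      (Q • half_Y Q x r - PowerSeries.X * half_Y Q x (r + 1)) * PowerSeries.mk φ := by
  rw [← sub_eq_zero]
  refine half_inj (c := Q) (S := fun r => PowerSeries.mk φ * PowerSeries.C (x r) -
    (Q • half_Y Q x r - PowerSeries.X * half_Y Q x (r + 1)) * PowerSeries.mk φ) (fun t => ?_) r
  have h1 := half_R2 h t
  simp only [mul_sub, sub_mul, mul_smul_comm, smul_mul_assoc, half_X_comm', mul_assoc] at h1
  have h2 := half_Y_eq Q x t
  have h3 := half_Y_eq Q x (t + 1)
  rw [h2]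
  nth_rewrite 2 [h3]
  rw [sub_eq_iff_eq_add] at h1
  rw [h1]
  simp only [mul_sub, sub_mul, mul_add, add_mul, mul_smul_comm, smul_mul_assoc, mul_assoc]
  module

lemma half_plane {Q : ℂ} (l : ℂ) (h : R3 Q x x) :
    (half_Y l x 0 - PowerSeries.C (x 0)) * half_Y l x 0 =
      Q • (half_Y l x 0 * (half_Y l x 0 - PowerSeries.C (x 0))) := by
  have h1 : half_Y l x 0 - PowerSeries.C (x 0) = l • (PowerSeries.X * half_Y l x (0 + 1)) := by
    rw [half_Y_eq l x 0]; simp
  have h2 : half_Y l x (0 + 1) * half_Y l x 0 = Q • (half_Y l x 0 * half_Y l x (0 + 1)) := by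
    ext m
    simp only [PowerSeries.coeff_smul, PowerSeries.coeff_mul, half_Y, PowerSeries.coeff_mk,
      smul_mul_smul_comm, zero_add, ← pow_add]
    have e1 : ∀ f : ℕ × ℕ → E, ∑ p ∈ antidiagonal m, l ^ (p.1 + p.2) • f p =
        l ^ m • ∑ p ∈ antidiagonal m, f p := fun f => by
      rw [smul_sum]
      exact sum_congr rfl fun p hp => by rw [mem_antidiagonal.1 hp]
    rw [e1, e1, smul_comm Q]
    congr 1
    have e2 := sum_congr (rfl : antidiagonal m = antidiagonal m)
      fun (p : ℕ × ℕ) _ => h (p.1 : ℤ) (p.2 : ℤ)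
    simp only [sum_sub_distrib, ← smul_sum] at e2
    have e3 : ∑ p ∈ antidiagonal m, x (p.2 : ℤ) * x ((p.1 : ℤ) + 1) =
        ∑ p ∈ antidiagonal m, x (p.1 : ℤ) * x ((p.2 : ℤ) + 1) :=
      Nat.sum_antidiagonal_swap (f := fun p : ℕ × ℕ => x (p.1 : ℤ) * x ((p.2 : ℤ) + 1))
    have e4 : ∑ p ∈ antidiagonal m, x ((p.2 : ℤ) + 1) * x (p.1 : ℤ) =
        ∑ p ∈ antidiagonal m, x ((p.1 : ℤ) + 1) * x (p.2 : ℤ) :=
      Nat.sum_antidiagonal_swap (f := fun p : ℕ × ℕ => x ((p.1 : ℤ) + 1) * x (p.2 : ℤ))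
    rw [e3, e4] at e2
    simp only [add_comm (1 : ℤ)]
    linear_combination (norm := module) (1 / 2 : ℂ) • e2
  rw [h1]
  simp only [mul_smul_comm, smul_mul_assoc, half_X_comm', mul_assoc, h2]
  rw [smul_comm]

lemma half_zeta {Q : ℂ} (l : ℂ) (h : R3 Q x y) (t : ℤ) (c : ℕ) :
    (half_Y l x 0 - PowerSeries.C (x 0)) * (PowerSeries.X ^ c * PowerSeries.C (y (t + c))) =
      (Q * l) • (half_Y l x 0 * (PowerSeries.X ^ (c + 1) * PowerSeries.C (y (t + (c + 1 : ℕ))))) +
      Q • (PowerSeries.X ^ c * PowerSeries.C (y (t + c)) * (half_Y l x 0 - PowerSeries.C (x 0))) -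
      l • (PowerSeries.X ^ (c + 1) * PowerSeries.C (y (t + (c + 1 : ℕ))) * half_Y l x 0) := by
  have h1 : half_Y l x 0 - PowerSeries.C (x 0) = l • (PowerSeries.X * half_Y l x (0 + 1)) := by
    rw [half_Y_eq l x 0]; simp
  have h2 : ∀ s, half_Y l x (0 + 1) * PowerSeries.C (y s) =
      Q • (half_Y l x 0 * PowerSeries.C (y (s + 1))) +
      Q • (PowerSeries.C (y s) * half_Y l x (0 + 1)) - PowerSeries.C (y (s + 1)) * half_Y l x 0 := by
    intro s
    ext m
    simp only [map_sub, map_add, PowerSeries.coeff_smul, PowerSeries.coeff_mul_C,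
      PowerSeries.coeff_C_mul, half_Y, PowerSeries.coeff_mk, zero_add, add_comm (1 : ℤ),
      smul_mul_assoc, mul_smul_comm]
    linear_combination (norm := module) l ^ m • h (m : ℤ) s
  have h3 : ∀ a b : PowerSeries E, a * (PowerSeries.X ^ c * b) = PowerSeries.X ^ c * (a * b) :=
    fun a b => by rw [← mul_assoc, ((PowerSeries.commute_X a).pow_right c).eq, mul_assoc]
  have h4 : t + ((c + 1 : ℕ) : ℤ) = t + c + 1 := by push_cast; ring
  rw [h1, h4, h3]
  simp only [pow_succ, mul_assoc, h3 (half_Y l x 0), half_X_comm' (half_Y l x 0),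
    half_X_comm' (PowerSeries.C _), smul_mul_assoc, mul_smul_comm, h2, mul_add, mul_sub]
  module

lemma half_pow {A : Type*} [Ring A] {P F b : A} (h : P * F = b * P) (j : ℕ) :
    P * F ^ j = b ^ j * P := by
  induction j with
  | zero => simp
  | succ j ih => rw [pow_succ, ← mul_assoc, ih, mul_assoc, h, pow_succ, mul_assoc]

lemma half_move0 {Q : ℂ} (hQ : Q ≠ 0) (h : R2 Q φ x) :
    PowerSeries.mk φ * PowerSeries.C (x 0) =
      (Q • half_Y Q x 0 - Q⁻¹ • (half_Y Q x 0 - PowerSeries.C (x 0))) * PowerSeries.mk φ := by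
  have h1 : half_Y Q x 0 - PowerSeries.C (x 0) = Q • (PowerSeries.X * half_Y Q x (0 + 1)) := by
    rw [half_Y_eq Q x 0]; simp
  rw [half_move h, h1, smul_smul, inv_mul_cancel₀ hQ, one_smul]

theorem halfJ (hv0 : v ≠ 0) (hv : ∀ k : ℕ, 0 < k → v ^ k ≠ 1) (hn : n ≤ 3)
    (h3 : R3 (v⁻¹ ^ 2) x x) (h2 : R2 (v ^ n) φ x) (m : ℕ) :
    serre0 v (n + 1) (x 0) (φ m) = 0 := by
  have h1 := half_planeJ hv0 hv hn (half_plane (v ^ n) h3)
  have h4 := half_pow (half_move0 (pow_ne_zero n hv0) h2)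
  rw [sub_sub_cancel] at h1
  have h5 := congrArg (fun a => PowerSeries.coeff m (a * PowerSeries.mk φ)) h1
  simp only [sum_mul, smul_mul_assoc, mul_assoc, ← h4, zero_mul, map_zero, map_sum,
    PowerSeries.coeff_smul, ← map_pow, PowerSeries.coeff_C_mul, PowerSeries.coeff_mul_C,
    PowerSeries.coeff_mk] at h5
  simpa only [serre0, mul_assoc] using h5

theorem halfI (hv0 : v ≠ 0) (hv : ∀ k : ℕ, 0 < k → v ^ k ≠ 1) (hn : n ≤ 3)
    (h3 : R3 (v⁻¹ ^ 2) x x) (h3' : R3 (v ^ n) x y) (h2 : R2 (v⁻¹ ^ 2) φ x) (h2' : R2 (v ^ n) φ y)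
    (m : ℕ) (t : ℤ) :
    ∑ k ∈ range (n + 2), ((-1) ^ k * qbin v (n + 1) k) •
      (dpow (x 0) (φ m) k * y t * x 0 ^ (n + 1 - k) +
        x 0 ^ k * y t * dpow (x 0) (φ m) (n + 1 - k)) = 0 := by
  have hQ : v⁻¹ ^ 2 ≠ 0 := pow_ne_zero 2 (inv_ne_zero hv0)
  have h4 := half_move0 hQ h2
  rw [show (v⁻¹ ^ 2)⁻¹ = v ^ 2 by rw [inv_pow, inv_inv]] at h4
  set Y := half_Y (v⁻¹ ^ 2) x 0 with hY
  set F : PowerSeries E := PowerSeries.C (x 0) with hF
  set P : PowerSeries E := PowerSeries.mk φ with hP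
  obtain ⟨b, hb⟩ : ∃ b, b = v⁻¹ ^ 2 • Y - v ^ 2 • (Y - F) := ⟨_, rfl⟩
  rw [← hb] at h4
  have h5 := half_pow h4
  have h6 : ∀ k, dpow F P k = half_H F b k * P := fun k => by
    simp only [dpow, half_H, sum_mul, mul_assoc, h5]
  have h7 := half_inj (c := v ^ n) (S := fun t => ∑ k ∈ range (n + 2),
    ((-1) ^ k * qbin v (n + 1) k) • (dpow F P k * PowerSeries.C (y t) * F ^ (n + 1 - k) +
      F ^ k * PowerSeries.C (y t) * dpow F P (n + 1 - k))) (fun t => ?_) t
  · have h8 := congrArg (PowerSeries.coeff m) h7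
    simp only [map_sum, map_zero, PowerSeries.coeff_smul, map_add, hF, hP, dpow, ← map_pow,
      ← map_mul, PowerSeries.coeff_C_mul, PowerSeries.coeff_mul_C, PowerSeries.coeff_mk] at h8
    simpa only [dpow] using h8
  · have h1 := half_planeI hv0 hv hn (half_plane (v⁻¹ ^ 2) h3)
      (fun c => PowerSeries.X ^ c * PowerSeries.C (y (t + c))) (half_zeta _ h3' t) F b
      (sub_sub_cancel _ _).symm hb
    simp only [pow_zero, one_mul, Nat.cast_zero, add_zero, pow_one, Nat.cast_one] at h1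
    have h9 := half_R2 h2' t
    rw [← hP] at h9
    rw [← sub_eq_zero, ← zero_mul P, ← h1, mul_sum, smul_sum, ← sum_sub_distrib, sum_mul]
    refine sum_congr rfl fun k _ => ?_
    rw [smul_mul_assoc, add_mul, mul_assoc _ _ P, ← h5, mul_assoc (half_H F b k), ← mul_assoc _ P,
      ← h9, mul_assoc _ _ P, ← h6]
    simp only [h6, mul_sub, sub_mul, mul_add, mul_assoc, mul_smul_comm, smul_mul_assoc,
      half_X_comm' P, half_X_comm' (half_H F b k), half_X_comm' (F ^ k)]
    module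

end Pool.Agent.Lib.MP_4354a3_al.KC
end

-- part Pool.Agent.Lib.MP_4354a3_al.CGrade
section

/-!
# Grading of highest weight modules
-/

set_option linter.unusedSectionVars false

namespace Pool.Agent.Lib.MP_4354a3_al.KC

open Finset

namespace CD

variable {I : Type*} [Fintype I] [DecidableEq I] {c : CD I}

section alg

variable {E : Type*} [Ring E] [Algebra ℂ E] {x : ℤˣ → I → ℤ → E} {φ : ℤˣ → I → ℕ → E}

lemma Q_neg (e s : ℤˣ) (i j : I) : c.Q (-e) s i j = (c.Q e s i j)⁻¹ := by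
  rw [Q, Q, ← zpow_neg]; congr 1; simp

lemma Q_neg_neg (e s : ℤˣ) (i j : I) : c.Q (-e) (-s) i j = c.Q e s i j := by
  rw [Q, Q]; congr 1; simp

lemma IsRep.zero (h : c.IsRep x φ) (e : ℤˣ) (i : I) (s : ℤˣ) (j : I) (r : ℤ) :
    φ e i 0 * x s j r = c.Q e s i j • (x s j r * φ e i 0) := by
  have := (h.r2 e i s j).zero (e * r)
  simpa only [← mul_assoc, Int.units_coe_mul_self, one_mul] using this

lemma IsRep.succ (h : c.IsRep x φ) (e : ℤˣ) (i : I) (m : ℕ) (s : ℤˣ) (j : I) (r : ℤ) :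
    φ e i (m + 1) * x s j r - c.Q e s i j • (φ e i m * x s j (r + e)) =
      c.Q e s i j • (x s j r * φ e i (m + 1)) - x s j (r + e) * φ e i m := by
  have := (h.r2 e i s j).succ m (e * r)
  simpa only [mul_add, mul_one, ← mul_assoc, Int.units_coe_mul_self, one_mul] using this

lemma IsRep.Phi_rel (h : c.IsRep x φ) (i : I) (s : ℤˣ) (j : I) :
    R3 (c.Q 1 s i j) (Phi φ i) (x s j) := by
  intro m r
  have hQ := c.Q_ne 1 s i j
  have hn : c.Q (-1) s i j = (c.Q 1 s i j)⁻¹ := Q_neg 1 s i j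
  have h1 : ∀ k : ℕ, c.Q 1 s i j • (φ (-1) i (k + 1) * x s j (r + 1)) - φ (-1) i k * x s j r =
      x s j (r + 1) * φ (-1) i (k + 1) - c.Q 1 s i j • (x s j r * φ (-1) i k) := by
    intro k
    have := congrArg (c.Q 1 s i j • ·) (h.succ (-1) i k s j (r + 1))
    simp only [hn, smul_sub, smul_smul, mul_inv_cancel₀ hQ, one_smul, Units.val_neg, Units.val_one,
      add_neg_cancel_right] at this
    exact this
  rcases lt_trichotomy m 0 with hm | rfl | hm
  · rcases eq_or_lt_of_le (show m + 1 ≤ 0 by omega) with h0 | h0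
    · obtain rfl : m = -1 := by omega
      have h2 := h.zero 1 i s j r
      have h3 := h1 0
      simp only [Phi, Int.reduceNeg, neg_add_cancel, le_refl, if_true, Int.toNat_zero, neg_zero,
        Left.nonneg_neg_iff, Int.reduceLE, if_false, Left.neg_nonpos_iff, neg_neg, Int.toNat_one,
        zero_sub, sub_mul, mul_sub, neg_mul, mul_neg, smul_neg, smul_sub, zero_add] at h3 ⊢
      rw [h2]
      linear_combination (norm := module) h3
    · obtain ⟨k, rfl⟩ : ∃ k : ℕ, m = -((k + 1 : ℕ) : ℤ) := ⟨(-m - 1).toNat, by omega⟩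
      have e1 : (-(-((k + 1 : ℕ) : ℤ) + 1)).toNat = k := by omega
      have e2 : (-(-((k + 1 : ℕ) : ℤ))).toNat = k + 1 := by omega
      have h3 := h1 k
      simp only [Phi, if_neg (not_le.2 h0), if_neg (not_le.2 hm), if_pos h0.le, if_pos hm.le,
        e1, e2, zero_sub, neg_mul, mul_neg, smul_neg]
      linear_combination (norm := module) h3
  · have h2 := congrArg (c.Q 1 s i j • ·) (h.zero (-1) i s j (r + 1))
    have h3 := h.succ 1 i 0 s j r
    simp only [hn, smul_smul, mul_inv_cancel₀ hQ, one_smul] at h2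
    simp only [Phi, zero_add, zero_le_one, if_true, Int.toNat_one, Int.reduceLE, if_false,
      sub_zero, le_refl, Int.toNat_zero, neg_zero, sub_mul, mul_sub, smul_sub, Units.val_one] at h3 ⊢
    linear_combination (norm := module) h3 + h2
  · obtain ⟨k, rfl⟩ : ∃ k : ℕ, m = k := ⟨m.toNat, by omega⟩
    have e1 : ((k : ℤ) + 1).toNat = k + 1 := by omega
    have h3 := h.succ 1 i k s j r
    simp only [Phi, if_pos hm.le, if_pos (show (0 : ℤ) ≤ k + 1 by omega), if_neg (not_le.2 hm),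
      if_neg (show ¬ ((k : ℤ) + 1 ≤ 0) by omega), e1, Int.toNat_natCast, sub_zero]
    simpa using h3

lemma X3.dir (h : c.X3 x) (e s : ℤˣ) (i j : I) :
    R3 (c.Q e s i j) (fun r => x s i (e * r)) (fun r => x s j (e * r)) := by
  rcases Int.units_eq_one_or e with rfl | rfl
  · simpa using h s i j
  · intro r t
    have hQ := c.Q_ne 1 s i j
    have hn : c.Q (-1) s i j = (c.Q 1 s i j)⁻¹ := Q_neg 1 s i j
    have := congrArg ((c.Q 1 s i j)⁻¹ • ·) (h s i j (-(r + 1)) (-(t + 1)))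
    simp only [smul_sub, smul_smul, inv_mul_cancel₀ hQ, one_smul, neg_add_rev,
      neg_add_cancel_comm] at this
    simp only [hn, Units.val_neg, Units.val_one, neg_mul, one_mul, neg_add_rev]
    linear_combination (norm := module) -this

end alg

variable {V : Type*} [AddCommGroup V] [Module ℂ V]
  {x : ℤˣ → I → ℤ → Module.End ℂ V} {φ : ℤˣ → I → ℕ → Module.End ℂ V} {v w : V}
  {ψ : ℤˣ → I → ℕ → ℂ} {lam : V →ₗ[ℂ] ℂ} {β : Multiset I} {n : ℕ}

@[simp] lemma wd_nil : wd x [] = 1 := rfl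

@[simp] lemma wd_cons (p : I × ℤ) (l : List (I × ℤ)) :
    wd x (p :: l) = x (-1) p.1 p.2 * wd x l := rfl

lemma LB_zero : LB x v 0 = Submodule.span ℂ {v} := by
  unfold LB
  congr 1
  ext w
  simp

lemma LN_zero : LN x v 0 = Submodule.span ℂ {v} := by
  unfold LN
  congr 1
  ext w
  simp

lemma xm_mem_LB (hw : w ∈ LB x v β) (i : I) (r : ℤ) : x (-1) i r w ∈ LB x v (i ::ₘ β) := by
  refine (show LB x v β ≤ (LB x v (i ::ₘ β)).comap (x (-1) i r) from Submodule.span_le.2 ?_) hw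
  rintro _ ⟨l, rfl, rfl⟩
  exact Submodule.subset_span ⟨(i, r) :: l, by simp, rfl⟩

lemma xm_mem_LN (hw : w ∈ LN x v n) (i : I) (r : ℤ) : x (-1) i r w ∈ LN x v (n + 1) := by
  refine (show LN x v n ≤ (LN x v (n + 1)).comap (x (-1) i r) from Submodule.span_le.2 ?_) hw
  rintro _ ⟨l, rfl, rfl⟩
  exact Submodule.subset_span ⟨(i, r) :: l, by simp, rfl⟩

lemma LB_le (hβ : β ≠ 0) {P : Submodule ℂ V}
    (h : ∀ i ∈ β, ∀ r, ∀ w ∈ LB x v (β.erase i), x (-1) i r w ∈ P) : LB x v β ≤ P := by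
  refine Submodule.span_le.2 ?_
  rintro _ ⟨l, rfl, rfl⟩
  cases l with
  | nil => simp at hβ
  | cons p l =>
    refine h p.1 (by simp) p.2 _ (Submodule.subset_span ⟨l, ?_, rfl⟩)
    rw [List.map_cons, ← Multiset.cons_coe, Multiset.erase_cons_head]

lemma LN_succ_le {P : Submodule ℂ V} (h : ∀ i r, ∀ w ∈ LN x v n, x (-1) i r w ∈ P) :
    LN x v (n + 1) ≤ P := by
  refine Submodule.span_le.2 ?_
  rintro _ ⟨l, hl, rfl⟩
  cases l with
  | nil => simp at hl
  | cons p l => exact h p.1 p.2 _ (Submodule.subset_span ⟨l, by simpa using hl, rfl⟩)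

lemma LB_le_LN : LB x v β ≤ LN x v β.card := by
  refine Submodule.span_mono ?_
  rintro _ ⟨l, rfl, rfl⟩
  exact ⟨l, by simp, rfl⟩

lemma LN_le {P : Submodule ℂ V} (h : ∀ β : Multiset I, β.card = n → LB x v β ≤ P) :
    LN x v n ≤ P := by
  refine Submodule.span_le.2 ?_
  rintro _ ⟨l, rfl, rfl⟩
  exact h (l.map Prod.fst : List I) (by simp) (Submodule.subset_span ⟨l, rfl, rfl⟩)

lemma IsRep.phi_step (h : c.IsRep x φ) {P P' : Submodule ℂ V}
    (hP : ∀ e i m, ∀ w ∈ P, φ e i m w ∈ P) (s : ℤˣ) (j : I) (hx : ∀ r, ∀ w ∈ P, x s j r w ∈ P')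
    (e : ℤˣ) (i : I) (m : ℕ) : ∀ r, ∀ w ∈ P, φ e i m (x s j r w) ∈ P' := by
  induction m with
  | zero =>
    intro r w hw
    have := LinearMap.congr_fun (h.zero e i s j r) w
    simp only [Module.End.mul_apply, LinearMap.smul_apply] at this
    rw [this]
    exact P'.smul_mem _ (hx _ _ (hP _ _ _ _ hw))
  | succ m ih =>
    intro r w hw
    have := LinearMap.congr_fun (h.succ e i m s j r) w
    simp only [Module.End.mul_apply, LinearMap.smul_apply, LinearMap.sub_apply] at this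
    rw [sub_eq_iff_eq_add.1 this]
    exact P'.add_mem (P'.sub_mem (P'.smul_mem _ (hx _ _ (hP _ _ _ _ hw))) (hx _ _ (hP _ _ _ _ hw)))
      (P'.smul_mem _ (ih _ _ hw))

lemma Phi_mem {P : Submodule ℂ V} (hw : ∀ e i m, φ e i m w ∈ P) (i : I) (m : ℤ) :
    Phi φ i m w ∈ P := by
  unfold Phi
  rw [LinearMap.sub_apply]
  refine P.sub_mem ?_ ?_ <;> split_ifs <;> simp [hw]

lemma IsRep.xx_apply (h : c.IsRep x φ) (i j : I) (r t : ℤ) (w : V) :
    x 1 i r (x (-1) j t w) =
      x (-1) j t (x 1 i r w) + if i = j then c.κ i • Phi φ i (r + t) w else 0 := by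
  have := LinearMap.congr_fun (h.xx i j r t) w
  simp only [Module.End.mul_apply, LinearMap.sub_apply] at this
  rw [sub_eq_iff_eq_add'.1 this]
  split_ifs <;> simp

lemma HV.phi_mem_LB (h : c.HV x φ v ψ) (hw : w ∈ LB x v β) (e : ℤˣ) (i : I) (m : ℕ) :
    φ e i m w ∈ LB x v β := by
  induction β using Multiset.strongInductionOn generalizing w e i m with
  | _ β ih =>
    by_cases hβ : β = 0
    · subst hβ
      rw [LB_zero] at hw ⊢
      obtain ⟨a, rfl⟩ := Submodule.mem_span_singleton.1 hw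
      rw [map_smul, h.eig]
      exact Submodule.smul_mem _ _ (Submodule.smul_mem _ _ (Submodule.mem_span_singleton_self v))
    · refine LB_le hβ (P := (LB x v β).comap (φ e i m)) (fun j hj r w hw => ?_) hw
      refine h.rep.phi_step (P := LB x v (β.erase j)) (P' := LB x v β)
        (fun e i m w hw => ih _ (Multiset.erase_lt.2 hj) hw e i m) (-1) j (fun r w hw => ?_)
        e i m r w hw
      simpa [Multiset.cons_erase hj] using xm_mem_LB hw j r

lemma HV.Phi_mem_LB (h : c.HV x φ v ψ) (hw : w ∈ LB x v β) (i : I) (m : ℤ) :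
    Phi φ i m w ∈ LB x v β := Phi_mem (h.phi_mem_LB hw) i m

lemma HV.xp_aux (h : c.HV x φ v ψ) (hw : w ∈ LB x v β) (i : I) (r : ℤ) :
    x 1 i r w ∈ if i ∈ β then LB x v (β.erase i) else ⊥ := by
  induction β using Multiset.strongInductionOn generalizing w with
  | _ β ih =>
    by_cases hβ : β = 0
    · subst hβ
      rw [LB_zero] at hw
      obtain ⟨a, rfl⟩ := Submodule.mem_span_singleton.1 hw
      simp [h.sing]
    · refine LB_le hβ (P := Submodule.comap (x 1 i r) _) (fun j hj t w hw => ?_) hw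
      have h1 := ih _ (Multiset.erase_lt.2 hj) hw
      rw [Submodule.mem_comap, h.rep.xx_apply]
      refine add_mem ?_ ?_
      · by_cases hi : i ∈ β.erase j
        · rw [if_pos hi] at h1
          rw [if_pos (Multiset.mem_of_mem_erase hi)]
          have h2 := xm_mem_LB h1 j t
          by_cases e : i = j
          · subst e
            rwa [Multiset.cons_erase hi] at h2
          · rwa [Multiset.erase_comm,
              Multiset.cons_erase ((Multiset.mem_erase_of_ne (Ne.symm e)).2 hj)] at h2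
        · rw [if_neg hi, Submodule.mem_bot] at h1
          rw [h1, map_zero]
          exact zero_mem _
      · by_cases e : i = j
        · subst e
          rw [if_pos rfl, if_pos hj]
          exact Submodule.smul_mem _ _ (h.Phi_mem_LB hw _ _)
        · rw [if_neg e]
          exact zero_mem _

lemma HV.xp_mem_LB (h : c.HV x φ v ψ) (hw : w ∈ LB x v β) (i : I) (r : ℤ) :
    x 1 i r w ∈ LB x v (β.erase i) := by
  have := h.xp_aux hw i r
  split_ifs at this
  · exact this
  · rw [(Submodule.mem_bot ℂ).1 this]; exact zero_mem _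

lemma HV.xp_eq_zero (h : c.HV x φ v ψ) (hw : w ∈ LB x v β) {i : I} (hi : i ∉ β) (r : ℤ) :
    x 1 i r w = 0 := by
  simpa [hi] using h.xp_aux hw i r

lemma HV.phi_mem_LN (h : c.HV x φ v ψ) (hw : w ∈ LN x v n) (e : ℤˣ) (i : I) (m : ℕ) :
    φ e i m w ∈ LN x v n := by
  refine LN_le (P := (LN x v n).comap (φ e i m)) (fun β hβ w hw => ?_) hw
  have := LB_le_LN (h.phi_mem_LB hw e i m)
  rwa [hβ] at this

lemma HV.Phi_mem_LN (h : c.HV x φ v ψ) (hw : w ∈ LN x v n) (i : I) (m : ℤ) :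
    Phi φ i m w ∈ LN x v n := Phi_mem (h.phi_mem_LN hw) i m

lemma HV.xp_mem_LN (h : c.HV x φ v ψ) (hw : w ∈ LN x v (n + 1)) (i : I) (r : ℤ) :
    x 1 i r w ∈ LN x v n := by
  refine LN_le (P := (LN x v n).comap (x 1 i r)) (fun β hβ w hw => ?_) hw
  by_cases hi : i ∈ β
  · have := LB_le_LN (h.xp_mem_LB hw i r)
    rwa [Multiset.card_erase_of_mem hi, hβ] at this
  · rw [Submodule.mem_comap, h.xp_eq_zero hw hi]
    exact zero_mem _

lemma HV.xp_LN_zero (h : c.HV x φ v ψ) (hw : w ∈ LN x v 0) (i : I) (r : ℤ) :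
    x 1 i r w = 0 := by
  rw [LN_zero, ← LB_zero (x := x)] at hw
  exact h.xp_eq_zero hw (by simp) r

lemma HV.Phi_v (h : c.HV x φ v ψ) (i : I) (m : ℤ) : Phi φ i m v = Phi ψ i m • v := by
  unfold Phi
  rw [LinearMap.sub_apply, sub_smul]
  congr 1 <;> split_ifs <;> simp [h.eig]

lemma HV.k_eig (h : c.HV x φ v ψ) (hw : w ∈ LB x v β) (e : ℤˣ) (j : I) :
    φ e j 0 w = (ψ e j 0 * (β.map fun i => c.Q e (-1) j i).prod) • w := by
  induction β using Multiset.strongInductionOn generalizing w with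
  | _ β ih =>
    by_cases hβ : β = 0
    · subst hβ
      rw [LB_zero] at hw
      obtain ⟨a, rfl⟩ := Submodule.mem_span_singleton.1 hw
      simp [h.eig, smul_smul, mul_comm]
    · rw [← Module.End.mem_eigenspace_iff]
      refine LB_le hβ (fun i hi r w hw => ?_) hw
      have h1 := LinearMap.congr_fun (h.rep.zero e j (-1) i r) w
      simp only [Module.End.mul_apply, LinearMap.smul_apply] at h1
      rw [Module.End.mem_eigenspace_iff, h1, ih _ (Multiset.erase_lt.2 hi) hw, map_smul, smul_smul,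
        ← Multiset.prod_map_erase (f := fun i => c.Q e (-1) j i) hi]
      congr 1
      ring

lemma HW.iSup_LN (h : c.HW x φ v ψ lam) : ⨆ n, LN x v n = ⊤ := by
  rw [eq_top_iff, ← h.gen]
  exact iSup_le fun β => LB_le_LN.trans (le_iSup (fun n => LN x v n) _)

lemma HW.lam_phi (h : c.HW x φ v ψ lam) (e : ℤˣ) (i : I) (m : ℕ) (w : V) :
    lam (φ e i m w) = ψ e i m * lam w := by
  have h0 : ∀ β : Multiset I, β ≠ 0 → LB x v β ≤ LinearMap.ker lam := fun β hβ =>
    LB_le hβ fun i _ r w _ => h.lam_x i r w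
  have : ⨆ β, LB x v β ≤ LinearMap.ker (lam ∘ₗ φ e i m - ψ e i m • lam) := by
    refine iSup_le fun β w hw => ?_
    by_cases hβ : β = 0
    · subst hβ
      rw [LB_zero] at hw
      obtain ⟨a, rfl⟩ := Submodule.mem_span_singleton.1 hw
      simp [h.eig]
    · have h1 : lam w = 0 := h0 β hβ hw
      have h2 : lam (φ e i m w) = 0 := h0 β hβ (h.toHV.phi_mem_LB hw e i m)
      simp [h1, h2]
  rw [h.gen] at this
  simpa [sub_eq_zero] using this (Submodule.mem_top (x := w))

lemma HW.lam_LB (h : c.HW x φ v ψ lam) (hβ : β ≠ 0) (hw : w ∈ LB x v β) : lam w = 0 :=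
  LB_le (P := LinearMap.ker lam) hβ (fun i _ r w _ => h.lam_x i r w) hw

lemma HW.lam_LN (h : c.HW x φ v ψ lam) (hw : w ∈ LN x v (n + 1)) : lam w = 0 :=
  LN_succ_le (P := LinearMap.ker lam) (fun i r w _ => h.lam_x i r w) hw

lemma HW.eq_zero (h : c.HW x φ v ψ lam) (h1 : lam w = 0) (h2 : ∀ i r, x 1 i r w = 0) :
    w = 0 := by
  let N₀ : Submodule ℂ V := LinearMap.ker lam ⊓ ⨅ i, ⨅ r, LinearMap.ker (x 1 i r)
  have hN₀ : ∀ w, w ∈ N₀ ↔ lam w = 0 ∧ ∀ i r, x 1 i r w = 0 := fun w => by simp [N₀]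
  let N : ℕ → Submodule ℂ V := fun n => n.rec N₀ fun _ P => ⨆ i, ⨆ r, P.map (x (-1) i r)
  have hs : ∀ n i r, ∀ w ∈ N n, x (-1) i r w ∈ N (n + 1) := fun n i r w hw =>
    Submodule.mem_iSup_of_mem i (Submodule.mem_iSup_of_mem r (Submodule.mem_map_of_mem hw))
  have hle : ∀ n (P : Submodule ℂ V), (∀ i r, ∀ w ∈ N n, x (-1) i r w ∈ P) → N (n + 1) ≤ P :=
    fun n P hP => iSup_le fun i => iSup_le fun r => Submodule.map_le_iff_le_comap.2 (hP i r)
  have hφ : ∀ n e i m, ∀ w ∈ N n, φ e i m w ∈ N n := by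
    intro n
    induction n with
    | zero =>
      intro e i m w hw
      obtain ⟨h1, h2⟩ := (hN₀ w).1 hw
      refine (hN₀ _).2 ⟨by rw [h.lam_phi, h1, mul_zero], fun j => ?_⟩
      induction m with
      | zero =>
        intro r
        have := LinearMap.congr_fun (h.rep.zero e i 1 j r) w
        simpa [h2, c.Q_ne] using this.symm
      | succ m ih =>
        intro r
        have := LinearMap.congr_fun (h.rep.succ e i m 1 j r) w
        simpa [h2, ih, c.Q_ne] using this.symm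
    | succ n ih =>
      intro e i m
      exact hle n ((N (n + 1)).comap (φ e i m)) fun j r w hw =>
        h.rep.phi_step ih (-1) j (hs n j) e i m r w hw
  have hm : ∀ i r, ∀ w ∈ ⨆ n, N n, x (-1) i r w ∈ ⨆ n, N n := fun i r =>
    show ⨆ n, N n ≤ (⨆ n, N n).comap (x (-1) i r) from
      iSup_le fun n w hw => Submodule.mem_iSup_of_mem (n + 1) (hs n i r w hw)
  have hp : ∀ i r n, N n ≤ (⨆ n, N n).comap (x 1 i r) := by
    intro i r n
    induction n with
    | zero =>
      intro w hw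
      rw [Submodule.mem_comap, ((hN₀ w).1 hw).2]
      exact zero_mem _
    | succ n ih =>
      refine hle n _ fun j t w hw => ?_
      rw [Submodule.mem_comap, h.rep.xx_apply]
      refine add_mem (hm _ _ _ (ih hw)) ?_
      split_ifs
      · exact Submodule.smul_mem _ _
          (Submodule.mem_iSup_of_mem n (Phi_mem (fun e i m => hφ n e i m w hw) _ _))
      · exact zero_mem _
  have := h.sep (⨆ n, N n) ⟨fun s i r => ?_, fun e i m => ?_⟩ (iSup_le fun n => ?_)
  · rw [← Submodule.mem_bot ℂ, ← this]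
    exact Submodule.mem_iSup_of_mem 0 ((hN₀ w).2 ⟨h1, h2⟩)
  · rcases Int.units_eq_one_or s with rfl | rfl
    · exact iSup_le (hp i r)
    · exact hm i r
  · exact show ⨆ n, N n ≤ (⨆ n, N n).comap (φ e i m) from
      iSup_le fun n w hw => Submodule.mem_iSup_of_mem n (hφ n e i m w hw)
  · cases n with
    | zero => exact inf_le_left
    | succ n => exact hle n _ fun i r w _ => h.lam_x i r w

lemma HW.lower_eq_zero (h : c.HW x φ v ψ lam) {a : Module.End ℂ V}
    (h1 : ∀ i r, x 1 i r * a = a * x 1 i r) (h2 : ∀ w, lam (a w) = 0) : a = 0 := by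
  have h3 : ∀ i r w, x 1 i r (a w) = a (x 1 i r w) := fun i r w => LinearMap.congr_fun (h1 i r) w
  have : ∀ n, LN x v n ≤ LinearMap.ker a := by
    intro n
    induction n with
    | zero => exact fun w hw => h.eq_zero (h2 w) fun i r => by rw [h3, h.toHV.xp_LN_zero hw, map_zero]
    | succ n ih =>
      exact fun w hw => h.eq_zero (h2 w) fun i r => by rw [h3]; exact ih (h.toHV.xp_mem_LN hw i r)
  rw [← LinearMap.ker_eq_top, eq_top_iff, ← h.iSup_LN]
  exact iSup_le this

lemma HW.raise_eq_zero (h : c.HW x φ v ψ lam) {a : Module.End ℂ V}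
    (h1 : ∀ i r, x (-1) i r * a = a * x (-1) i r) (h2 : a v = 0) : a = 0 := by
  have h3 : ∀ i r w, x (-1) i r (a w) = a (x (-1) i r w) := fun i r w =>
    LinearMap.congr_fun (h1 i r) w
  have : ∀ n, LN x v n ≤ LinearMap.ker a := by
    intro n
    induction n with
    | zero => rw [LN_zero, Submodule.span_singleton_le_iff_mem]; exact h2
    | succ n ih =>
      exact LN_succ_le fun i r w hw => by
        rw [LinearMap.mem_ker, ← h3, LinearMap.mem_ker.1 (ih hw), map_zero]
  rw [← LinearMap.ker_eq_top, eq_top_iff, ← h.iSup_LN]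
  exact iSup_le this

lemma HW.irred (h : c.HW x φ v ψ lam) (W : Submodule ℂ V) (hW : Inv x φ W) :
    W = ⊥ ∨ W = ⊤ := by
  by_cases hl : W ≤ LinearMap.ker lam
  · exact Or.inl (h.sep W hW hl)
  right
  obtain ⟨w, hw, hw'⟩ := SetLike.not_le_iff_exists.1 hl
  let L : List I := (∑ j, Multiset.replicate (c.eta j) j).toList
  let K : Module.End ℂ V := (L.map fun j => φ 1 j 0).prod
  let k₀ : ℂ := (L.map fun j => ψ 1 j 0).prod
  have hk₀ : k₀ ≠ 0 := by
    refine List.prod_ne_zero fun h0 => ?_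
    obtain ⟨j, -, hj⟩ := List.mem_map.1 h0
    have := congrArg lam (LinearMap.congr_fun (h.rep.inv j) v)
    rw [Module.End.mul_apply, h.lam_phi, hj, zero_mul, Module.End.one_apply, h.lam_v] at this
    exact zero_ne_one this
  have hK : ∀ (β : Multiset I), ∀ w ∈ LB x v β, K w =
      (k₀ * c.q ^ (-(β.map fun i => (c.d i : ℤ) * ∑ j, c.C i j * c.eta j).sum)) • w := by
    intro β w hw
    have h1 : ∀ L : List I, (L.map fun j => φ 1 j 0).prod w = ((L.map fun j => ψ 1 j 0).prod *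
        c.q ^ (-(β.map fun i => (c.d i : ℤ) * (L.map fun j => c.C i j).sum).sum)) • w := by
      intro L
      induction L with
      | nil => simp
      | cons j L ih =>
        have h2 : ∀ β : Multiset I, (β.map fun i => c.Q 1 (-1) j i).prod =
            c.q ^ (-(β.map fun i => (c.d i : ℤ) * c.C i j).sum) := by
          intro β
          induction β using Multiset.induction_on with
          | empty => simp
          | cons a β ih =>
            rw [Multiset.map_cons, Multiset.prod_cons, ih, Multiset.map_cons, Multiset.sum_cons,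
              neg_add, zpow_add₀ c.q0, Q_symm, Q]
            simp
        simp only [List.map_cons, List.prod_cons, Module.End.mul_apply, ih, map_smul,
          h.toHV.k_eig hw, smul_smul, h2, List.sum_cons, mul_add, Multiset.sum_map_add, neg_add,
          zpow_add₀ c.q0]
        congr 1
        ring
    rw [h1 L]
    congr 6
    ext i
    congr 1
    rw [← Multiset.sum_coe, ← Multiset.map_coe, Multiset.coe_toList]
    change (Multiset.sumAddMonoidHom.comp (Multiset.mapAddMonoidHom fun j => c.C i j)) _ = _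
    rw [map_sum]
    simp [mul_comm]
  have hP : ∀ w ∈ ⨆ β, LB x v β, ∃ p : Polynomial ℂ, p.eval k₀ ≠ 0 ∧
      Polynomial.aeval K p (w - lam w • v) = 0 := by
    intro w hw
    induction hw using Submodule.iSup_induction' with
    | mem β w hw =>
      by_cases hβ : β = 0
      · subst hβ
        rw [LB_zero] at hw
        obtain ⟨a, rfl⟩ := Submodule.mem_span_singleton.1 hw
        exact ⟨1, by simp, by simp [h.lam_v]⟩
      · refine ⟨Polynomial.X - Polynomial.C (k₀ *
          c.q ^ (-(β.map fun i => (c.d i : ℤ) * ∑ j, c.C i j * c.eta j).sum)), ?_, ?_⟩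
        · have h1 : 0 < (β.map fun i => (c.d i : ℤ) * ∑ j, c.C i j * c.eta j).sum := by
            have h0 : ∀ i, 0 < (c.d i : ℤ) * ∑ j, c.C i j * c.eta j := fun i =>
              mul_pos (by exact_mod_cast c.dpos i) (c.eta_pos i)
            obtain ⟨i, hi⟩ := Multiset.exists_mem_of_ne_zero hβ
            rw [← Multiset.sum_map_erase hi]
            refine add_pos_of_pos_of_nonneg (h0 i) (Multiset.sum_nonneg fun a ha => ?_)
            obtain ⟨i, -, rfl⟩ := Multiset.mem_map.1 ha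
            exact (h0 i).le
          have h2 := c.zpow_ne_one (neg_ne_zero.2 h1.ne')
          simp only [Polynomial.eval_sub, Polynomial.eval_X, Polynomial.eval_C]
          rw [← mul_one_sub]
          exact mul_ne_zero hk₀ (sub_ne_zero.2 h2.symm)
        · simp [h.lam_LB hβ hw, hK β w hw, smul_smul, mul_comm]
    | zero => exact ⟨1, by simp, by simp⟩
    | add w w' _ _ h1 h2 =>
      obtain ⟨p, hp, h1⟩ := h1
      obtain ⟨p', hp', h2⟩ := h2
      refine ⟨p * p', by simp [hp, hp'], ?_⟩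
      have : w + w' - lam (w + w') • v = (w - lam w • v) + (w' - lam w' • v) := by
        rw [map_add, add_smul]; abel
      rw [this, map_add, map_mul, Module.End.mul_apply, Module.End.mul_apply, h2, ← Module.End.mul_apply,
        ← map_mul, mul_comm, map_mul, Module.End.mul_apply, h1, map_zero, map_zero, add_zero]
  obtain ⟨p, hp, h1⟩ := hP w (h.gen ▸ Submodule.mem_top)
  have hKW : ∀ w ∈ W, K w ∈ W := by
    have : ∀ L : List I, ∀ w ∈ W, (L.map fun j => φ 1 j 0).prod w ∈ W := by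
      intro L
      induction L with
      | nil => simp
      | cons j L ih => exact fun w hw => hW.2 _ _ _ _ (ih w hw)
    exact this L
  have hpW : ∀ p : Polynomial ℂ, Polynomial.aeval K p w ∈ W := by
    intro p
    induction p using Polynomial.induction_on with
    | C a => simpa using W.smul_mem a hw
    | add p p' h1 h2 => simpa using W.add_mem h1 h2
    | monomial n a ih =>
      rw [pow_succ', mul_left_comm, map_mul, Polynomial.aeval_X]
      exact hKW _ ih
  have hKv : K v = k₀ • v := by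
    simpa using hK 0 v (by rw [LB_zero]; exact Submodule.mem_span_singleton_self v)
  rw [map_sub, map_smul, Module.End.aeval_apply_of_mem_apply_eq_smul hKv, sub_eq_zero,
    smul_smul] at h1
  have hv : v ∈ W := (W.smul_mem_iff (mul_ne_zero hw' hp)).1 (h1 ▸ hpW p)
  rw [eq_top_iff, ← h.iSup_LN]
  refine iSup_le fun n => ?_
  induction n with
  | zero => rwa [LN_zero, Submodule.span_singleton_le_iff_mem]
  | succ n ih => exact LN_succ_le fun i r w hw => hW.1 _ _ _ _ (ih hw)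

end CD

end Pool.Agent.Lib.MP_4354a3_al.KC
end

-- part Pool.Agent.Lib.MP_4354a3_al.CComm
section

/-!
# The quadratic and the mode zero Serre relations in simple modules
-/

set_option linter.unusedSectionVars false

namespace Pool.Agent.Lib.MP_4354a3_al.KC

open Finset

section br

variable {E : Type*} [Ring E] [Algebra ℂ E]

/-- The commutator with `X` as a linear map. -/
noncomputable def commBr (X : E) : E →ₗ[ℂ] E := LinearMap.mulLeft ℂ X - LinearMap.mulRight ℂ X

lemma commBr_apply (X a : E) : commBr X a = X * a - a * X := rfl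

lemma commBr_mul (X a b : E) : commBr X (a * b) = commBr X a * b + a * commBr X b := by
  simp only [commBr_apply]; noncomm_ring

lemma comm_dpow_succ (F p : E) (N : ℕ) : dpow F p (N + 1) = dpow F p N * F + F ^ N * p := by
  simp only [dpow, sum_range_succ, sum_mul]
  congr 1
  · refine sum_congr rfl fun u hu => ?_
    have : N + 1 - 1 - u = (N - 1 - u) + 1 := by have := mem_range.1 hu; omega
    rw [this, pow_succ]; simp only [mul_assoc]
  · simp

lemma commBr_pow (X F : E) (N : ℕ) : commBr X (F ^ N) = dpow F (commBr X F) N := by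
  induction N with
  | zero => simp [commBr_apply, dpow]
  | succ N ih => rw [pow_succ, commBr_mul, ih, comm_dpow_succ]

/-- The first part of the commutator with the Serre element. -/
noncomputable def commSI (v : ℂ) (a : ℕ) (F y p : E) : E :=
  ∑ k ∈ range (a + 1), ((-1) ^ k * qbin v a k) •
    (dpow F p k * y * F ^ (a - k) + F ^ k * y * dpow F p (a - k))

lemma commBr_serre (v : ℂ) (a : ℕ) (X F y : E) :
    commBr X (serre0 v a F y) = commSI v a F y (commBr X F) + serre0 v a F (commBr X y) := by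
  simp only [serre0, commSI, map_sum, map_smul, ← sum_add_distrib, ← smul_add]
  refine sum_congr rfl fun k _ => ?_
  congr 1
  rw [commBr_mul, commBr_mul, commBr_pow, commBr_pow]
  noncomm_ring

lemma comm_dpow_sub (F p p' : E) (N : ℕ) : dpow F (p - p') N = dpow F p N - dpow F p' N := by
  simp only [dpow, mul_sub, sub_mul, sum_sub_distrib]

lemma comm_dpow_smul (F p : E) (b : ℂ) (N : ℕ) : dpow F (b • p) N = b • dpow F p N := by
  simp only [dpow, mul_smul_comm, smul_mul_assoc, smul_sum]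

lemma commSI_sub (v : ℂ) (a : ℕ) (F y p p' : E) :
    commSI v a F y (p - p') = commSI v a F y p - commSI v a F y p' := by
  simp only [commSI, ← sum_sub_distrib, ← smul_sub, comm_dpow_sub]
  refine sum_congr rfl fun k _ => ?_
  congr 1
  noncomm_ring

lemma commSI_smul (v : ℂ) (a : ℕ) (F y p : E) (b : ℂ) :
    commSI v a F y (b • p) = b • commSI v a F y p := by
  simp only [commSI, comm_dpow_smul, smul_sum, mul_smul_comm, smul_mul_assoc, ← smul_add]
  exact sum_congr rfl fun k _ => smul_comm _ _ _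

lemma commSI_zero (v : ℂ) (a : ℕ) (F y : E) : commSI v a F y 0 = 0 := by
  simpa using commSI_smul v a F y 0 0

lemma comm_serre_sub (v : ℂ) (a : ℕ) (F p p' : E) :
    serre0 v a F (p - p') = serre0 v a F p - serre0 v a F p' := by
  simp only [serre0, mul_sub, sub_mul, smul_sub, sum_sub_distrib]

lemma comm_serre_smul (v : ℂ) (a : ℕ) (F p : E) (b : ℂ) :
    serre0 v a F (b • p) = b • serre0 v a F p := by
  simp only [serre0, smul_sum, mul_smul_comm, smul_mul_assoc]
  exact sum_congr rfl fun k _ => smul_comm _ _ _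

lemma comm_serre_zero (v : ℂ) (a : ℕ) (F : E) : serre0 v a F 0 = 0 := by
  simp [serre0]

lemma comm_qint_inv (v : ℂ) (n : ℕ) : qint v⁻¹ n = qint v n := by
  rw [qint, qint, inv_inv, ← neg_div_neg_eq, neg_sub, neg_sub]

lemma comm_qbin_inv (v : ℂ) (n k : ℕ) : qbin v⁻¹ n k = qbin v n k := by
  simp only [qbin, qfac, comm_qint_inv]

lemma comm_qbin_unit (v : ℂ) (e : ℤˣ) (n k : ℕ) : qbin (v ^ (e : ℤ)) n k = qbin v n k := by
  rcases Int.units_eq_one_or e with rfl | rfl
  · simp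
  · simp [comm_qbin_inv]

/-- The difference of the two sides of the quadratic relation. -/
def commA (Q : ℂ) (x y : ℤ → E) (r t : ℤ) : E :=
  x (r + 1) * y t - Q • (x r * y (t + 1)) - (Q • (y t * x (r + 1)) - y (t + 1) * x r)

lemma commBr_commA {Q : ℂ} {X : E} {x y : ℤ → E}
    (h1 : R3 Q (fun r => commBr X (x r)) y) (h2 : R3 Q (fun r => commBr X (y r)) x) (r t : ℤ) :
    commBr X (commA Q x y r t) = 0 := by
  have e1 := h1 r t
  have e2 := h2 t r
  simp only [commA, map_sub, map_smul, commBr_mul, smul_add] at e1 e2 ⊢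
  linear_combination (norm := module) e1 + e2

end br

namespace CD

variable {I : Type*} [Fintype I] [DecidableEq I] {c : CD I}

section alg

variable {E : Type*} [Ring E] [Algebra ℂ E] {x : ℤˣ → I → ℤ → E} {φ : ℤˣ → I → ℕ → E}

lemma comm_Phi_twist (φ : ℤˣ → I → ℕ → E) (i : I) (n : ℤ) :
    Phi (fun e i m => φ (-e) i m) i n = -Phi φ i (-n) := by
  simp only [Phi, neg_neg, neg_sub, neg_nonneg, neg_nonpos]

lemma comm_omega (h : c.IsRep x φ) :
    c.IsRep (fun s i r => x (-s) i (-r)) (fun e i m => φ (-e) i m) where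
  inv i := by simp only [neg_neg]; rw [h.comm]; exact h.inv i
  comm e i m e' j n := h.comm _ _ _ _ _ _
  r2 e i s j := by
    have := h.r2 (-e) i (-s) j
    rw [Q_neg_neg] at this
    simpa only [Units.val_neg, neg_mul] using this
  xx i j r t := by
    have := h.xx j i (-t) (-r)
    simp only [neg_neg, comm_Phi_twist]
    rw [← neg_sub, this]
    by_cases hij : i = j
    · subst hij
      simp only [if_true, smul_neg]
      congr 3; ring
    · rw [if_neg hij, if_neg (Ne.symm hij), neg_zero]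

lemma comm_x3_omega (h : c.X3 x) : c.X3 fun s i r => x (-s) i (-r) := by
  intro s i j
  have := h.dir (-1) (-s) i j
  rw [Q_neg_neg] at this
  simpa only [Units.val_neg, Units.val_one, neg_mul, one_mul] using this

lemma comm_br_x (h : c.IsRep x φ) (k : I) (u : ℤ) (i : I) (r : ℤ) :
    commBr (x 1 k u) (x (-1) i r) = if k = i then c.κ k • Phi φ k (u + r) else 0 :=
  h.xx k i u r

lemma comm_br_R3 (h : c.IsRep x φ) (k : I) (u : ℤ) (i j : I) :
    R3 (c.Q 1 (-1) i j) (fun r => commBr (x 1 k u) (x (-1) i r)) (x (-1) j) := by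
  intro r t
  simp only [comm_br_x h]
  by_cases hk : k = i
  · subst hk
    have e := h.Phi_rel k (-1) j (u + r) t
    simp only [if_true, smul_mul_assoc, mul_smul_comm, ← add_assoc]
    linear_combination (norm := module) c.κ k • e
  · simp [hk]

lemma comm_three (h : c.IsRep x φ) (k : I) (u : ℤ) (i j : I) (r t : ℤ) :
    commBr (x 1 k u) (commA (c.Q 1 (-1) i j) (x (-1) i) (x (-1) j) r t) = 0 :=
  commBr_commA (comm_br_R3 h k u i j) (c.Q_symm 1 (-1) j i ▸ comm_br_R3 h k u j i) r t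

lemma comm_v_ne (c : CD I) (e : ℤˣ) (i : I) (k : ℕ) (hk : 0 < k) :
    (c.qq i ^ (e : ℤ)) ^ k ≠ 1 := by
  have := c.qq_pow_ne_one i hk
  rcases Int.units_eq_one_or e with rfl | rfl
  · simpa using this
  · simpa using this

lemma comm_Q_diag (c : CD I) (e : ℤˣ) (i : I) :
    c.Q e (-1) i i = (c.qq i ^ (e : ℤ))⁻¹ ^ 2 := by
  rw [Q_eq, c.diag, ← zpow_neg, ← zpow_natCast, ← zpow_mul]
  congr 1
  simp

lemma comm_Q_off (c : CD I) (e : ℤˣ) {i j : I} (hij : i ≠ j) :
    c.Q e (-1) i j = (c.qq i ^ (e : ℤ)) ^ (-c.C i j).toNat := by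
  have := (c.rng i j hij).2
  rw [Q_eq, ← zpow_natCast, ← zpow_mul, Int.toNat_of_nonneg (by omega)]
  congr 1
  simp

lemma comm_deg (c : CD I) {i j : I} (hij : i ≠ j) : c.deg i j = (-c.C i j).toNat + 1 := by
  have := (c.rng i j hij).2
  rw [deg]; omega

lemma comm_n_le (c : CD I) {i j : I} (hij : i ≠ j) : (-c.C i j).toNat ≤ 3 := by
  have := (c.rng i j hij).1
  omega

lemma comm_J (h : c.IsRep x φ) (h3 : c.X3 x) {i j : I} (hij : i ≠ j) (e : ℤˣ) (m : ℕ) :
    serre0 (c.qq i) (c.deg i j) (x (-1) i 0) (φ e j m) = 0 := by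
  have a3 := h3.dir e (-1) i i
  have a2 := h.r2 e j (-1) i
  rw [comm_Q_diag] at a3
  rw [Q_symm, comm_Q_off c e hij] at a2
  have := halfJ (zpow_ne_zero _ (c.qq_ne i)) (comm_v_ne c e i) (comm_n_le c hij) a3 a2 m
  simpa only [serre0, comm_qbin_unit, mul_zero, comm_deg c hij] using this

lemma comm_I (h : c.IsRep x φ) (h3 : c.X3 x) {i j : I} (hij : i ≠ j) (e : ℤˣ) (m : ℕ) (t : ℤ) :
    commSI (c.qq i) (c.deg i j) (x (-1) i 0) (x (-1) j t) (φ e i m) = 0 := by
  have a3 := h3.dir e (-1) i i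
  have a3' := h3.dir e (-1) i j
  have a2 := h.r2 e i (-1) i
  have a2' := h.r2 e i (-1) j
  rw [comm_Q_diag] at a3 a2
  rw [comm_Q_off c e hij] at a3' a2'
  have := halfI (zpow_ne_zero _ (c.qq_ne i)) (comm_v_ne c e i) (comm_n_le c hij) a3 a3' a2 a2' m
    (e * t)
  have he : (e : ℤ) * (e * t) = t := by rw [← mul_assoc, Int.units_coe_mul_self, one_mul]
  simpa only [commSI, comm_qbin_unit, mul_zero, comm_deg c hij, he] using this

lemma comm_serre (h : c.IsRep x φ) (h3 : c.X3 x) {i j : I} (hij : i ≠ j) (k : I) (u t : ℤ) :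
    commBr (x 1 k u) (serre0 (c.qq i) (c.deg i j) (x (-1) i 0) (x (-1) j t)) = 0 := by
  rw [commBr_serre, comm_br_x h, comm_br_x h]
  have e1 : commSI (c.qq i) (c.deg i j) (x (-1) i 0) (x (-1) j t)
      (if k = i then c.κ k • Phi φ k (u + 0) else 0) = 0 := by
    split_ifs with hk
    · subst hk
      rw [commSI_smul, Phi, commSI_sub]
      split_ifs <;> simp [comm_I h h3 hij, commSI_zero]
    · exact commSI_zero _ _ _ _
  have e2 : serre0 (c.qq i) (c.deg i j) (x (-1) i 0)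
      (if k = j then c.κ k • Phi φ k (u + t) else 0) = 0 := by
    split_ifs with hk
    · subst hk
      rw [comm_serre_smul, Phi, comm_serre_sub]
      split_ifs <;> simp [comm_J h h3 hij, comm_serre_zero]
    · exact comm_serre_zero _ _ _
  rw [e1, e2, add_zero]

end alg

variable {V : Type*} [AddCommGroup V] [Module ℂ V]
  {x : ℤˣ → I → ℤ → Module.End ℂ V} {φ : ℤˣ → I → ℕ → Module.End ℂ V} {v : V}
  {ψ : ℤˣ → I → ℕ → ℂ} {lam : V →ₗ[ℂ] ℂ}

theorem HW.x3 (h : c.HW x φ v ψ lam) : c.X3 x := by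
  intro s i j r t
  rcases Int.units_eq_one_or s with rfl | rfl
  · have key : commA (c.Q 1 (-1) i j) (fun r => x 1 i (-r)) (fun r => x 1 j (-r))
        (-(r + 1)) (-(t + 1)) = 0 := by
      refine h.raise_eq_zero (fun k u => ?_) ?_
      · have := comm_three (comm_omega h.rep) k (-u) i j (-(r + 1)) (-(t + 1))
        simp only [neg_neg] at this
        exact sub_eq_zero.1 this
      · simp [commA, h.sing]
    have hQ : c.Q 1 1 i j * c.Q 1 (-1) i j = 1 := by
      have := Q_neg_neg (c := c) (-1) 1 i j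
      rw [neg_neg] at this
      rw [this, Q_neg, mul_inv_cancel₀ (c.Q_ne _ _ _ _)]
    have e1 : -(-(r + 1) + 1) = r := by ring
    have e2 : -(-(t + 1) + 1) = t := by ring
    simp only [commA, neg_neg, e1, e2] at key
    have key' := congrArg (fun a => c.Q 1 1 i j • a) key
    simp only [smul_sub, smul_smul, hQ, one_smul, smul_zero] at key'
    linear_combination (norm := module) -key'
  · refine sub_eq_zero.1 (h.lower_eq_zero (fun k u => ?_) fun w => ?_)
    · exact sub_eq_zero.1 (comm_three h.rep k u i j r t)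
    · simp [h.lam_x]

theorem HW.s0 (h : c.HW x φ v ψ lam) : c.S0 x := by
  intro s i j t hij
  rcases Int.units_eq_one_or s with rfl | rfl
  · refine h.raise_eq_zero (fun k u => ?_) ?_
    · have := comm_serre (comm_omega h.rep) (comm_x3_omega h.x3) hij k (-u) (-t)
      simp only [neg_neg, neg_zero] at this
      exact sub_eq_zero.1 this
    · simp only [serre0, LinearMap.sum_apply, LinearMap.smul_apply, Module.End.mul_apply]
      refine sum_eq_zero fun k _ => ?_
      rcases c.deg i j - k with _ | m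
      · simp [h.sing]
      · simp [pow_succ, h.sing]
  · refine h.lower_eq_zero (fun k u => sub_eq_zero.1 (comm_serre h.rep h.x3 hij k u t)) fun w => ?_
    simp only [serre0, LinearMap.sum_apply, LinearMap.smul_apply, Module.End.mul_apply, map_sum,
      map_smul]
    refine sum_eq_zero fun k _ => ?_
    rcases k with _ | m
    · simp [h.lam_x]
    · simp [pow_succ', h.lam_x]

end CD

end Pool.Agent.Lib.MP_4354a3_al.KC
end
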