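import Pool.Agent.Lib.MP_4354a3_al.CComm

-- part Pool.Agent.Lib.MP_4354a3_al.CCatO
section

/-!
# Finite dimension of the graded pieces
-/

set_option linter.unusedSectionVars false

namespace Pool.Agent.Lib.MP_4354a3_al.KC

open Finset

section cato

variable {U U' W W' : Type*} [AddCommGroup U] [Module ℂ U] [AddCommGroup U'] [Module ℂ U']
  [AddCommGroup W] [Module ℂ W] [AddCommGroup W'] [Module ℂ W']

/-- The product of the operators `z - b`, `b` in a list. -/
noncomputable def catoP (z : Module.End ℂ U) : List ℂ → Module.End ℂ U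
  | [] => 1
  | b :: L => catoP z L * (z - b • 1)

lemma catoP_cons (z : Module.End ℂ U) (b : ℂ) (L : List ℂ) (u : U) :
    catoP z (b :: L) u = catoP z L (z u - b • u) := rfl

lemma catoP_nat {z : Module.End ℂ U} {z' : Module.End ℂ U'} (f : U →ₗ[ℂ] U')
    (hf : ∀ u, f (z u) = z' (f u)) (L : List ℂ) (u : U) :
    f (catoP z L u) = catoP z' L (f u) := by
  induction L generalizing u with
  | nil => rfl
  | cons b L ih => rw [catoP_cons, catoP_cons, ih, map_sub, map_smul, hf]

lemma catoP_append (z : Module.End ℂ U) (L L' : List ℂ) (u : U) :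
    catoP z (L ++ L') u = catoP z L' (catoP z L u) := by
  induction L generalizing u with
  | nil => rfl
  | cons b L ih => rw [List.cons_append, catoP_cons, catoP_cons, ih]

lemma catoP_comm {z z' : Module.End ℂ U} (h : ∀ u, z (z' u) = z' (z u)) (L L' : List ℂ) (u : U) :
    catoP z L (catoP z' L' u) = catoP z' L' (catoP z L u) :=
  catoP_nat (catoP z L) (fun u => (catoP_nat z' (fun u => (h u).symm) L u).symm) L' u

lemma catoP_scale {z z' : Module.End ℂ U} (h : ∀ u, z (z' u) = z' (z u)) (Q : ℂ) (L : List ℂ)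
    (u : U) (h1 : z u = Q • z' u) (h2 : catoP z' L u = 0) :
    catoP z (L.map (Q * ·)) u = 0 := by
  induction L generalizing u with
  | nil => exact h2
  | cons b L ih =>
    rw [List.map_cons, catoP_cons, h1, mul_smul, ← smul_sub, map_smul, ih (z' u - b • u) _ h2,
      smul_zero]
    rw [map_sub, map_sub, map_smul, map_smul, h, h1, map_smul, smul_sub, smul_comm b]

lemma catoP_two {z z' : Module.End ℂ U} (h : ∀ u, z (z' u) = z' (z u)) (Q : ℂ) (L L' : List ℂ)
    (u u' : U) (h1 : z u - Q • z' u = Q • z u' - z' u') (h2 : catoP z L u' = 0)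
    (h3 : catoP z' L' u = 0) : catoP z (L ++ L'.map (Q * ·)) u = 0 := by
  have e1 : ∀ u, catoP z L (z u) = z (catoP z L u) := fun u =>
    (catoP_nat z (fun _ => rfl) L u).symm
  have e2 : ∀ u, catoP z L (z' u) = z' (catoP z L u) := fun u =>
    (catoP_nat z' (fun u => (h u).symm) L u).symm
  rw [catoP_append]
  refine catoP_scale h Q L' _ ?_ ?_
  · have := congrArg (catoP z L) h1
    rw [map_sub, map_sub, map_smul, map_smul, e1, e2, e1, e2, h2, map_zero, map_zero, smul_zero,
      sub_zero, sub_eq_zero] at this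
    exact this
  · rw [← catoP_comm h, h3, map_zero]

/-- The shift on sequences. -/
noncomputable def catoS (W : Type*) [AddCommGroup W] [Module ℂ W] : Module.End ℂ (ℤ → W) :=
  LinearMap.funLeft ℂ W (· + 1)

lemma catoS_map (f : W →ₗ[ℂ] W') (L : List ℂ) (ξ : ℤ → W) (r : ℤ) :
    f (catoP (catoS W) L ξ r) = catoP (catoS W') L (fun r => f (ξ r)) r :=
  congrFun (catoP_nat (z := catoS W) (z' := catoS W') (f.compLeft ℤ) (fun _ => rfl) L ξ) r

lemma catoS_add (u : ℤ) (L : List ℂ) (ξ : ℤ → W) (r : ℤ) :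
    catoP (catoS W) L ξ (u + r) = catoP (catoS W) L (fun r => ξ (u + r)) r :=
  congrFun (catoP_nat (z := catoS W) (z' := catoS W) (LinearMap.funLeft ℂ W (u + ·))
    (fun ξ => funext fun r => congrArg ξ (add_assoc u r 1)) L ξ) r

/-- A set of sequences satisfying a common invertible linear recurrence. -/
def catoAnn (S : Set (ℤ → W)) : Prop :=
  ∃ L : List ℂ, (∀ b ∈ L, b ≠ 0) ∧ ∀ ξ ∈ S, catoP (catoS W) L ξ = 0

lemma catoAnn.union {S S' : Set (ℤ → W)} (h : catoAnn S) (h' : catoAnn S') :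
    catoAnn (S ∪ S') := by
  obtain ⟨L, hL, h⟩ := h
  obtain ⟨L', hL', h'⟩ := h'
  refine ⟨L ++ L', fun b hb => (List.mem_append.1 hb).elim (hL b) (hL' b), ?_⟩
  rintro ξ (hξ | hξ)
  · rw [catoP_append, h ξ hξ, map_zero]
  · rw [catoP_append, catoP_comm (fun _ => rfl), h' ξ hξ, map_zero]

lemma catoAnn_biUnion {ι : Type*} (s : Finset ι) (S : ι → Set (ℤ → W))
    (h : ∀ i, catoAnn (S i)) : catoAnn (⋃ i ∈ s, S i) := by
  classical
  induction s using Finset.induction_on with
  | empty => exact ⟨[], by simp, by simp⟩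
  | insert i s _ ih => rw [Finset.set_biUnion_insert]; exact (h i).union ih

lemma cato_fd [FiniteDimensional ℂ U] (L : List ℂ) (hL : ∀ b ∈ L, b ≠ 0)
    (f : U →ₗ[ℂ] (ℤ → W)) (hf : ∀ u, catoP (catoS W) L (f u) = 0) :
    ∃ P : Submodule ℂ W, FiniteDimensional ℂ P ∧ ∀ u r, f u r ∈ P := by
  induction L generalizing f with
  | nil => exact ⟨⊥, inferInstance, fun u r => congrFun (hf u) r⟩
  | cons b L ih =>
    obtain ⟨P, hP, h⟩ := ih (fun b hb => hL b (List.mem_cons_of_mem _ hb))
      ((catoS W) ∘ₗ f - b • f) hf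
    have hb : b ≠ 0 := hL b List.mem_cons_self
    refine ⟨P ⊔ LinearMap.range ((LinearMap.proj 0 : (ℤ → W) →ₗ[ℂ] W) ∘ₗ f), inferInstance,
      fun u r => ?_⟩
    have h' : ∀ r, f u (r + 1) - b • f u r ∈
        P ⊔ LinearMap.range ((LinearMap.proj 0 : (ℤ → W) →ₗ[ℂ] W) ∘ₗ f) := fun r =>
      Submodule.mem_sup_left (h u r)
    induction r using Int.induction_on with
    | zero => exact Submodule.mem_sup_right ⟨u, rfl⟩
    | succ r ih =>
      have := Submodule.add_mem _ (h' r) (Submodule.smul_mem _ b ih)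
      rwa [sub_add_cancel] at this
    | pred r ih =>
      have := Submodule.smul_mem _ b⁻¹ (Submodule.sub_mem _ ih (h' (-(r : ℤ) - 1)))
      rwa [sub_add_cancel, sub_sub_cancel, smul_smul, inv_mul_cancel₀ hb, one_smul] at this

end cato

namespace CD

variable {I : Type*} [Fintype I] [DecidableEq I] {c : CD I}
  {V : Type*} [AddCommGroup V] [Module ℂ V]
  {x : ℤˣ → I → ℤ → Module.End ℂ V} {φ : ℤˣ → I → ℕ → Module.End ℂ V} {v : V}
  {ψ : ℤˣ → I → ℕ → ℂ} {lam : V →ₗ[ℂ] ℂ}

lemma HW.cato_lower (h : c.HW x φ v ψ lam) (L : List ℂ) (i : I) (w : V)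
    (h1 : catoP (catoS V) L (fun m => Phi φ i m w) = 0)
    (h2 : ∀ k u, catoP (catoS V) L (fun r => x (-1) i r (x 1 k u w)) = 0) :
    catoP (catoS V) L (fun r => x (-1) i r w) = 0 := by
  funext r
  refine h.eq_zero ?_ fun k u => ?_
  · rw [catoS_map]
    simp only [h.lam_x]
    exact congrFun (map_zero (catoP (catoS ℂ) L)) r
  · rw [catoS_map]
    have e : (fun r => x 1 k u (x (-1) i r w)) = (fun r => x (-1) i r (x 1 k u w)) +
        (if k = i then c.κ k else 0) • fun r => Phi φ i (u + r) w := by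
      funext r
      have := LinearMap.congr_fun (h.rep.xx k i u r) w
      rw [LinearMap.sub_apply, Module.End.mul_apply, Module.End.mul_apply, sub_eq_iff_eq_add']
        at this
      rw [this, Pi.add_apply, Pi.smul_apply]
      split_ifs with hk
      · subst hk; rfl
      · rw [zero_smul]; rfl
    rw [e, map_add, map_smul, h2, zero_add, Pi.smul_apply,
      ← catoS_add u L (fun m => Phi φ i m w), h1, Pi.zero_apply, smul_zero]

lemma cato_Phi (h : c.IsRep x φ) (L L' : List ℂ) (j i : I) (w : V)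
    (h1 : catoP (catoS V) L (fun m => Phi φ j m w) = 0)
    (h2 : catoP (catoS V) L' (fun r => x (-1) i r w) = 0) (r : ℤ) :
    catoP (catoS V) (L ++ L'.map (c.Q 1 (-1) j i * ·)) (fun m => Phi φ j m (x (-1) i r w)) = 0 := by
  let z : Module.End ℂ (ℤ × ℤ → V) := LinearMap.funLeft ℂ V fun p => (p.1 + 1, p.2)
  let z' : Module.End ℂ (ℤ × ℤ → V) := LinearMap.funLeft ℂ V fun p => (p.1, p.2 + 1)
  have e1 : ∀ (L : List ℂ) (θ : ℤ × ℤ → V) (m r : ℤ),
      catoP z L θ (m, r) = catoP (catoS V) L (fun m => θ (m, r)) m := fun L θ m r =>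
    congrFun (catoP_nat (z := z) (z' := catoS V) (LinearMap.funLeft ℂ V fun m : ℤ => (m, r))
      (fun _ => rfl) L θ) m
  have e2 : ∀ (L : List ℂ) (θ : ℤ × ℤ → V) (m r : ℤ),
      catoP z' L θ (m, r) = catoP (catoS V) L (fun r => θ (m, r)) r := fun L θ m r =>
    congrFun (catoP_nat (z := z') (z' := catoS V) (LinearMap.funLeft ℂ V fun r : ℤ => (m, r))
      (fun _ => rfl) L θ) r
  have key := catoP_two (z := z) (z' := z') (fun _ => rfl) (c.Q 1 (-1) j i) L L'
    (fun p => Phi φ j p.1 (x (-1) i p.2 w)) (fun p => x (-1) i p.2 (Phi φ j p.1 w))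
    (funext fun p => LinearMap.congr_fun (h.Phi_rel j (-1) i p.1 p.2) w)
    (funext fun p => by
      rw [e1, ← catoS_map (x (-1) i p.2) L (fun m => Phi φ j m w), h1, Pi.zero_apply, map_zero,
        Pi.zero_apply])
    (funext fun p => by
      rw [e2, ← catoS_map (Phi φ j p.1) L' (fun r => x (-1) i r w), h2, Pi.zero_apply, map_zero,
        Pi.zero_apply])
  funext m
  exact (e1 _ _ m r).symm.trans (congrFun key (m, r))

lemma HW.cato_main (h : c.HW x φ v ψ lam) {a : ℂ} (ha : a ≠ 0)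
    (hΦ : ∀ j r, Phi ψ j (r + 1) = a * Phi ψ j r) (n : ℕ) :
    (∀ j, catoAnn {ξ | ∃ w ∈ LN x v n, ξ = fun m => Phi φ j m w}) ∧
      ∀ i, catoAnn {ξ | ∃ w ∈ LN x v n, ξ = fun r => x (-1) i r w} := by
  induction n with
  | zero =>
    have hA : ∀ j, ∀ w ∈ LN x v 0, catoP (catoS V) [a] (fun m => Phi φ j m w) = 0 := by
      intro j w hw
      rw [LN_zero] at hw
      obtain ⟨t, rfl⟩ := Submodule.mem_span_singleton.1 hw
      funext m
      change Phi φ j (m + 1) (t • v) - a • Phi φ j m (t • v) = 0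
      rw [map_smul, map_smul, h.toHV.Phi_v, h.toHV.Phi_v, hΦ, mul_smul, smul_comm t a, sub_self]
    refine ⟨fun j => ⟨[a], by simpa using ha, ?_⟩, fun i => ⟨[a], by simpa using ha, ?_⟩⟩
    · rintro _ ⟨w, hw, rfl⟩
      exact hA j w hw
    · rintro _ ⟨w, hw, rfl⟩
      refine h.cato_lower _ i w (hA i w hw) fun k u => ?_
      simp only [h.toHV.xp_LN_zero hw, map_zero]
      exact map_zero (catoP (catoS V) [a])
  | succ n ih =>
    have hA : ∀ j, catoAnn {ξ | ∃ w ∈ LN x v (n + 1), ξ = fun m => Phi φ j m w} := by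
      intro j
      obtain ⟨L, hL, h1⟩ := catoAnn_biUnion univ
        (fun i => {ξ | ∃ r, ∃ w ∈ LN x v n, ξ = fun m => Phi φ j m (x (-1) i r w)}) fun i => by
          obtain ⟨L, hL, h1⟩ := ih.1 j
          obtain ⟨L', hL', h2⟩ := ih.2 i
          refine ⟨L ++ L'.map (c.Q 1 (-1) j i * ·), fun b hb => ?_, ?_⟩
          · rcases List.mem_append.1 hb with hb | hb
            · exact hL b hb
            · obtain ⟨b', hb', rfl⟩ := List.mem_map.1 hb
              exact mul_ne_zero (c.Q_ne _ _ _ _) (hL' b' hb')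
          · rintro _ ⟨r, w, hw, rfl⟩
            exact cato_Phi h.rep L L' j i w (h1 _ ⟨w, hw, rfl⟩) (h2 _ ⟨w, hw, rfl⟩) r
      refine ⟨L, hL, ?_⟩
      rintro _ ⟨w, hw, rfl⟩
      have : LN x v (n + 1) ≤
          LinearMap.ker (catoP (catoS V) L ∘ₗ LinearMap.pi fun m => Phi φ j m) :=
        LN_succ_le fun i r w hw => h1 _ (Set.mem_biUnion (mem_univ i) ⟨r, w, hw, rfl⟩)
      exact this hw
    refine ⟨hA, fun i => ?_⟩
    obtain ⟨L, hL, h1⟩ := (hA i).union (ih.2 i)
    refine ⟨L, hL, ?_⟩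
    rintro _ ⟨w, hw, rfl⟩
    exact h.cato_lower L i w (h1 _ (Or.inl ⟨w, hw, rfl⟩)) fun k u =>
      h1 _ (Or.inr ⟨_, h.toHV.xp_mem_LN hw k u, rfl⟩)

theorem HW.fd_LN (h : c.HW x φ v ψ lam) {a : ℂ} (ha : a ≠ 0)
    (hΦ : ∀ j r, Phi ψ j (r + 1) = a * Phi ψ j r) (n : ℕ) :
    FiniteDimensional ℂ (LN x v n) := by
  induction n with
  | zero => rw [LN_zero]; infer_instance
  | succ n ih =>
    have : ∀ i, ∃ P : Submodule ℂ V, FiniteDimensional ℂ P ∧
        ∀ r, ∀ w ∈ LN x v n, x (-1) i r w ∈ P := by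
      intro i
      obtain ⟨L, hL, h1⟩ := (h.cato_main ha hΦ n).2 i
      obtain ⟨P, hP, h2⟩ := cato_fd L hL
        ((LinearMap.pi fun r => x (-1) i r) ∘ₗ (LN x v n).subtype) fun u => h1 _ ⟨u, u.2, rfl⟩
      exact ⟨P, hP, fun r w hw => h2 ⟨w, hw⟩ r⟩
    choose P hP h2 using this
    exact Submodule.finiteDimensional_of_le (S₂ := ⨆ i, P i)
      (LN_succ_le fun i r w hw => Submodule.mem_iSup_of_mem i (h2 i r w hw))

end CD

end Pool.Agent.Lib.MP_4354a3_al.KC
end

-- part Pool.Agent.Lib.MP_4354a3_al.CInteg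
section

/-!
# Integrability and finite dimension
-/

set_option linter.unusedSectionVars false

namespace Pool.Agent.Lib.MP_4354a3_al.KC

open Finset

section aux

variable {V : Type*} [AddCommGroup V] [Module ℂ V]

/-- Vectors killed by a power of `F`. -/
def integN (F : Module.End ℂ V) : Submodule ℂ V where
  carrier := {w | ∃ n : ℕ, (F ^ n) w = 0}
  zero_mem' := ⟨0, by simp⟩
  add_mem' := by
    rintro a b ⟨m, hm⟩ ⟨n, hn⟩
    refine ⟨m + n, ?_⟩
    have h1 : (F ^ (m + n)) a = 0 := by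
      rw [add_comm, pow_add, Module.End.mul_apply, hm, map_zero]
    have h2 : (F ^ (m + n)) b = 0 := by
      rw [pow_add, Module.End.mul_apply, hn, map_zero]
    rw [map_add, h1, h2, add_zero]
  smul_mem' := by
    rintro a b ⟨m, hm⟩
    exact ⟨m, by rw [map_smul, hm, smul_zero]⟩

lemma integ_mem {F : Module.End ℂ V} {w : V} : w ∈ integN F ↔ ∃ n : ℕ, (F ^ n) w = 0 := Iff.rfl

lemma integ_pow_mem {F : Module.End ℂ V} {w : V} (hw : w ∈ integN F) (k : ℕ) :
    (F ^ k) w ∈ integN F := by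
  obtain ⟨n, hn⟩ := hw
  refine ⟨n, ?_⟩
  rw [← Module.End.mul_apply, ← pow_add, add_comm, pow_add, Module.End.mul_apply, hn, map_zero]

lemma integ_of_pow {F : Module.End ℂ V} {w : V} (k : ℕ) (hw : (F ^ k) w ∈ integN F) :
    w ∈ integN F := by
  obtain ⟨n, hn⟩ := hw
  exact ⟨n + k, by rw [pow_add, Module.End.mul_apply, hn]⟩

lemma integ_step {F y : Module.End ℂ V}
    (h : ∀ w ∈ integN F, (∀ m : ℕ, y ((F ^ (m + 1)) w) ∈ integN F) → y w ∈ integN F) :
    ∀ w ∈ integN F, y w ∈ integN F := by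
  have key : ∀ n : ℕ, ∀ w, (F ^ n) w = 0 → y w ∈ integN F := by
    intro n
    induction n with
    | zero =>
      intro w hw
      have : w = 0 := by simpa using hw
      rw [this, map_zero]
      exact (integN F).zero_mem
    | succ n ih =>
      intro w hw
      refine h w ⟨n + 1, hw⟩ fun m => ih _ ?_
      rw [← Module.End.mul_apply, ← pow_add, show n + (m + 1) = m + (n + 1) by ring, pow_add,
        Module.End.mul_apply, hw, map_zero]
  rintro w ⟨n, hn⟩
  exact key n w hn

lemma integ_comm {F y z : Module.End ℂ V} (a : ℂ) (h : F * y = a • (y * F) + z)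
    (hz : ∀ w ∈ integN F, z w ∈ integN F) : ∀ w ∈ integN F, y w ∈ integN F := by
  refine integ_step fun w hw hm => integ_of_pow 1 ?_
  have h1 : (F ^ 1) (y w) = a • y ((F ^ (0 + 1)) w) + z w := by
    have := congrArg (fun T : Module.End ℂ V => T w) h
    simpa using this
  rw [h1]
  exact add_mem (Submodule.smul_mem _ _ (hm 0)) (hz w hw)

lemma integ_comm0 {F y : Module.End ℂ V} {a : ℂ} (ha : a ≠ 0) (h : y * F = a • (F * y)) :
    ∀ w ∈ integN F, y w ∈ integN F := by
  refine integ_comm (z := 0) a⁻¹ ?_ fun w _ => (integN F).zero_mem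
  rw [h, smul_smul, inv_mul_cancel₀ ha, one_smul, add_zero]

lemma integ_qint_ne {p : ℂ} (h0 : p ≠ 0) (hp : ∀ k : ℕ, 0 < k → p ^ k ≠ 1) {k : ℕ} (hk : 0 < k) :
    p ^ k - p⁻¹ ^ k ≠ 0 := by
  intro h
  apply hp (2 * k) (by omega)
  rw [sub_eq_zero] at h
  rw [two_mul, pow_add]
  nth_rewrite 2 [h]
  rw [← mul_pow, mul_inv_cancel₀ h0, one_pow]

lemma integ_qbin_self {p : ℂ} (h0 : p ≠ 0) (hp : ∀ k : ℕ, 0 < k → p ^ k ≠ 1) (a : ℕ) :
    qbin p a a = 1 := by
  have h1 : p - p⁻¹ ≠ 0 := by simpa using integ_qint_ne h0 hp one_pos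
  have h2 : qfac p a ≠ 0 := by
    refine prod_ne_zero_iff.2 fun k _ => ?_
    exact div_ne_zero (integ_qint_ne h0 hp (Nat.succ_pos k)) h1
  rw [qbin, Nat.sub_self]
  have h3 : qfac p 0 = 1 := by simp [qfac]
  rw [h3, mul_one, div_self h2]

lemma integ_serre {F y : Module.End ℂ V} {p : ℂ} (h0 : p ≠ 0) (hp : ∀ k : ℕ, 0 < k → p ^ k ≠ 1)
    {a : ℕ} (h : serre0 p a F y = 0) : ∀ w ∈ integN F, y w ∈ integN F := by
  refine integ_step fun w _ hm => integ_of_pow a ?_
  rw [serre0, sum_range_succ, integ_qbin_self h0 hp, Nat.sub_self, pow_zero, mul_one, mul_one] at h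
  have h1 := congrArg (fun T : Module.End ℂ V => T w) h
  simp only [LinearMap.add_apply, LinearMap.coe_sum, Finset.sum_apply, LinearMap.smul_apply,
    Module.End.mul_apply, LinearMap.zero_apply] at h1
  have h2 : ((-1 : ℂ) ^ a) • (F ^ a) (y w) ∈ integN F := by
    rw [eq_neg_of_add_eq_zero_right h1]
    refine neg_mem (Submodule.sum_mem _ fun k hk => Submodule.smul_mem _ _ ?_)
    have hk' : a - k = (a - k - 1) + 1 := by
      have := mem_range.1 hk
      omega
    rw [hk']
    exact integ_pow_mem (hm _) k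
  exact (Submodule.smul_mem_iff _ (pow_ne_zero a (by norm_num))).1 h2

lemma integ_same {xe : ℤ → Module.End ℂ V} {φ : ℕ → Module.End ℂ V} {K' : Module.End ℂ V}
    {Q Q' : ℂ} (hQ : Q ≠ 0) (hQ' : Q' ≠ 0) (hQ2 : Q ^ 2 ≠ 1) (h3 : R3 Q xe xe) (h2 : R2 Q φ xe)
    (hK : φ 0 * K' = 1) (hK' : K' * xe 0 = Q' • (xe 0 * K')) (r : ℕ) :
    ∀ w ∈ integN (xe 0), xe r w ∈ integN (xe 0) := by
  have hx1 : ∀ w ∈ integN (xe 0), xe 1 w ∈ integN (xe 0) := by
    refine integ_comm0 hQ ?_
    have h := h3 0 0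
    simp only [zero_add] at h
    have h' : (2 : ℂ) • (xe 1 * xe 0) = (2 : ℂ) • (Q • (xe 0 * xe 1)) := by
      rw [two_smul, two_smul]
      rw [sub_eq_sub_iff_add_eq_add] at h
      exact h
    exact smul_right_injective _ two_ne_zero h'
  have hk : ∀ w ∈ integN (xe 0), φ 0 w ∈ integN (xe 0) := integ_comm0 hQ (h2.zero 0)
  have hk' : ∀ w ∈ integN (xe 0), K' w ∈ integN (xe 0) := integ_comm0 hQ' hK'
  have hrel : ∀ r : ℤ, φ 1 * xe r = Q • (xe r * φ 1) + (Q ^ 2 - 1) • (xe (r + 1) * φ 0) := by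
    intro r
    have h := h2.succ 0 r
    rw [h2.zero (r + 1), zero_add, smul_smul, sub_eq_iff_eq_add] at h
    rw [h, sub_smul, one_smul, pow_two]
    abel
  have hH : ∀ w ∈ integN (xe 0), φ 1 w ∈ integN (xe 0) := by
    refine integ_comm (z := (-(Q⁻¹ * (Q ^ 2 - 1))) • (xe 1 * φ 0)) Q⁻¹ ?_ ?_
    · have h := hrel 0
      rw [zero_add] at h
      rw [h, smul_add, smul_smul, smul_smul, inv_mul_cancel₀ hQ, one_smul, neg_smul]
      abel
    · intro w hw
      exact Submodule.smul_mem _ _ (hx1 _ (hk w hw))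
  induction r with
  | zero =>
    intro w hw
    simpa using integ_pow_mem hw 1
  | succ r ih =>
    intro w hw
    have hw' := hk' w hw
    have h1 := congrArg (fun T : Module.End ℂ V => T (K' w)) (hrel r)
    have h4 : φ 0 (K' w) = w := by
      rw [← Module.End.mul_apply, hK, Module.End.one_apply]
    simp only [LinearMap.add_apply, LinearMap.smul_apply, Module.End.mul_apply, h4] at h1
    have h5 : (Q ^ 2 - 1) • xe (r + 1) w ∈ integN (xe 0) := by
      rw [← sub_eq_iff_eq_add'.2 h1]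
      exact sub_mem (hH _ (ih _ hw')) (Submodule.smul_mem _ _ (ih _ (hH _ hw')))
    have h6 := (Submodule.smul_mem_iff _ (sub_ne_zero.2 hQ2)).1 h5
    simpa using h6

/-- The relations of quantum `sl₂` used below. -/
structure IntegSl2 (p k : ℂ) (E F K K' : Module.End ℂ V) : Prop where
  ef : E * F - F * E = k • (K - K')
  ke : K * E = p ^ 2 • (E * K)
  ke' : K' * E = p⁻¹ ^ 2 • (E * K')
  kf : K * F = p⁻¹ ^ 2 • (F * K)
  kf' : K' * F = p ^ 2 • (F * K')

lemma integ_eig {K E : Module.End ℂ V} {a b : ℂ} {w : V} (h : K * E = b • (E * K))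
    (hw : K w = a • w) (j : ℕ) : K ((E ^ j) w) = (b ^ j * a) • (E ^ j) w := by
  induction j with
  | zero => simpa using hw
  | succ j ih =>
    have h1 := congrArg (fun T : Module.End ℂ V => T ((E ^ j) w)) h
    simp only [Module.End.mul_apply, LinearMap.smul_apply] at h1
    rw [pow_succ' E, Module.End.mul_apply, h1, ih, map_smul, smul_smul]
    congr 1
    ring

lemma IntegSl2.formula {p k : ℂ} {E F K K' : Module.End ℂ V} (h : IntegSl2 p k E F K K')
    (h0 : p ≠ 0) (h1 : p - p⁻¹ ≠ 0) {a b : ℂ} {w : V} (hw : K w = a • w) (hw' : K' w = b • w)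
    (j : ℕ) : (E ^ (j + 1)) (F w) = F ((E ^ (j + 1)) w) +
      (k * (p ^ (j + 1) - p⁻¹ ^ (j + 1)) * (a * p ^ j - b * p⁻¹ ^ j) / (p - p⁻¹)) • (E ^ j) w := by
  have hef : ∀ j : ℕ, E (F ((E ^ j) w)) = F (E ((E ^ j) w)) +
      (k * ((p ^ 2) ^ j * a - (p⁻¹ ^ 2) ^ j * b)) • (E ^ j) w := by
    intro j
    have h2 := congrArg (fun T : Module.End ℂ V => T ((E ^ j) w)) h.ef
    simp only [Module.End.mul_apply, LinearMap.smul_apply, LinearMap.sub_apply] at h2
    rw [integ_eig h.ke hw, integ_eig h.ke' hw', ← sub_smul, smul_smul] at h2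
    exact sub_eq_iff_eq_add'.1 h2
  induction j with
  | zero =>
    have h2 := hef 0
    simp only [pow_zero, Module.End.one_apply, one_mul, zero_add, pow_one, mul_one] at h2 ⊢
    rw [h2]
    congr 2
    rw [eq_div_iff h1]
    ring
  | succ j ih =>
    rw [pow_succ' E (j + 1), Module.End.mul_apply, ih, map_add, map_smul, hef (j + 1),
      Module.End.mul_apply, ← Module.End.mul_apply E (E ^ j), ← pow_succ' E j, add_assoc,
      ← add_smul]
    congr 2
    rw [eq_div_iff h1, add_mul, div_mul_cancel₀ _ h1]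
    have h3 : p * p⁻¹ = 1 := mul_inv_cancel₀ h0
    have h4 : p ^ j * p⁻¹ ^ j = 1 := by rw [← mul_pow, h3, one_pow]
    generalize p⁻¹ = u at *
    have e1 : (p ^ 2) ^ (j + 1) = (p ^ j) ^ 2 * p ^ 2 := by ring
    have e2 : (u ^ 2) ^ (j + 1) = (u ^ j) ^ 2 * u ^ 2 := by ring
    rw [e1, e2]
    simp only [pow_succ]
    generalize p ^ j = P at *
    generalize u ^ j = U at *
    linear_combination (k * (-a * P ^ 2 * p - b * U ^ 2 * u + a * u * P * U + b * p * P * U)) * h3

lemma IntegSl2.eq_zero {p k : ℂ} {E F K K' : Module.End ℂ V} (h : IntegSl2 p k E F K K')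
    (h0 : p ≠ 0) (hp : ∀ k : ℕ, 0 < k → p ^ k ≠ 1) (hk : k ≠ 0) (N : ℕ) :
    ∀ (n : ℕ) (w : V), K w = p⁻¹ ^ n • w → K' w = p ^ n • w → (F ^ N) w = 0 →
      ∀ j ≤ n, (E ^ j) w = 0 → w = 0 := by
  have h1 : p - p⁻¹ ≠ 0 := by simpa using integ_qint_ne h0 hp one_pos
  induction N with
  | zero =>
    intro n w _ _ hF _ _ _
    simpa using hF
  | succ N ih =>
    intro n w hw hw' hF j hj hE
    have hFw : F w = 0 := by
      refine ih (n + 2) (F w) ?_ ?_ ?_ (j + 1) (by omega) ?_
      · have := integ_eig h.kf hw 1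
        simp only [pow_one] at this
        rw [this]
        congr 1
        ring
      · have := integ_eig h.kf' hw' 1
        simp only [pow_one] at this
        rw [this]
        congr 1
        ring
      · rwa [pow_succ, Module.End.mul_apply] at hF
      · rw [h.formula h0 h1 hw hw' j, pow_succ' E, Module.End.mul_apply, hE]
        simp
    induction j with
    | zero => simpa using hE
    | succ j ihj =>
      refine ihj (by omega) ?_
      have h2 := h.formula h0 h1 hw hw' j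
      rw [hFw, hE, map_zero, map_zero, zero_add] at h2
      refine (smul_eq_zero.1 h2.symm).resolve_left ?_
      refine div_ne_zero (mul_ne_zero (mul_ne_zero hk (integ_qint_ne h0 hp (Nat.succ_pos j))) ?_) h1
      obtain ⟨m, rfl⟩ : ∃ m, n = j + (m + 1) := ⟨n - j - 1, by omega⟩
      have h4 : p ^ j * p⁻¹ ^ j = 1 := by rw [← mul_pow, mul_inv_cancel₀ h0, one_pow]
      have h5 : p⁻¹ ^ (j + (m + 1)) * p ^ j - p ^ (j + (m + 1)) * p⁻¹ ^ j =
          -(p ^ (m + 1) - p⁻¹ ^ (m + 1)) := by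
        rw [pow_add p j, pow_add p⁻¹ j]
        linear_combination (p⁻¹ ^ (m + 1) - p ^ (m + 1)) * h4
      rw [h5]
      exact neg_ne_zero.2 (integ_qint_ne h0 hp (Nat.succ_pos m))

end aux

namespace CD

variable {I : Type*} [Fintype I] [DecidableEq I] {c : CD I}
  {V : Type*} [AddCommGroup V] [Module ℂ V]
  {x : ℤˣ → I → ℤ → Module.End ℂ V} {φ : ℤˣ → I → ℕ → Module.End ℂ V} {v : V}
  {ψ : ℤˣ → I → ℕ → ℂ} {lam : V →ₗ[ℂ] ℂ}

lemma integ_dir (h : c.IsRep x φ) (h3 : c.X3 x) (e : ℤˣ) (j : I) (r : ℕ) :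
    ∀ w ∈ integN (x (-1) j 0), x (-1) j (e * r) w ∈ integN (x (-1) j 0) := by
  have hK : φ e j 0 * φ (-e) j 0 = 1 := by
    rcases Int.units_eq_one_or e with rfl | rfl
    · exact h.inv j
    · rw [neg_neg, h.comm]
      exact h.inv j
  have hQ2 : c.Q e (-1) j j ^ 2 ≠ 1 := by
    rw [Q, ← zpow_natCast, ← zpow_mul]
    refine c.zpow_ne_one ?_
    have := c.dpos j
    rw [c.diag]
    rcases Int.units_eq_one_or e with rfl | rfl <;> simp <;> omega
  have := integ_same (xe := fun r => x (-1) j (e * r)) (c.Q_ne e (-1) j j) (c.Q_ne (-e) (-1) j j)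
    hQ2 (h3.dir e (-1) j j) (h.r2 e j (-1) j) hK
    (by simpa using h.zero (-e) j (-1) j 0) r
  simpa using this

theorem HW.nil (h : c.HW x φ v ψ lam) (h3 : c.X3 x) (h0 : c.S0 x)
    (hv : ∀ j, ∃ N : ℕ, (x (-1) j 0 ^ N) v = 0) (j : I) (w : V) :
    ∃ N : ℕ, (x (-1) j 0 ^ N) w = 0 := by
  have hx : ∀ i r, ∀ w ∈ integN (x (-1) j 0), x (-1) i r w ∈ integN (x (-1) j 0) := by
    intro i r
    by_cases hij : j = i
    · subst hij
      obtain ⟨m, rfl | rfl⟩ := Int.eq_nat_or_neg r
      · simpa using integ_dir h.rep h3 1 j m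
      · simpa using integ_dir h.rep h3 (-1) j m
    · exact integ_serre (c.qq_ne j) (fun k hk => c.qq_pow_ne_one j hk) (h0 (-1) j i r hij)
  have hl : ∀ l : List (I × ℤ), wd x l v ∈ integN (x (-1) j 0) := by
    intro l
    induction l with
    | nil => exact hv j
    | cons p l ih => exact hx _ _ _ ih
  have htop : (⊤ : Submodule ℂ V) ≤ integN (x (-1) j 0) := by
    rw [← h.gen]
    refine iSup_le fun β => Submodule.span_le.2 ?_
    rintro _ ⟨l, -, rfl⟩
    exact hl l
  exact htop Submodule.mem_top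

/-- The pairing of a simple coroot with a lattice vector. -/
def integL (c : CD I) (i : I) (b : I → ℤ) : ℤ := ∑ j, c.C i j * b j

/-- The invariant bilinear form. -/
def integG (c : CD I) (a b : I → ℤ) : ℤ := ∑ i, ∑ j, a i * b j * (c.d i * c.C i j)

lemma integG_eq (a b : I → ℤ) : integG c a b = ∑ i, a i * c.d i * integL c i b := by
  refine sum_congr rfl fun i _ => ?_
  rw [integL, mul_sum]
  exact sum_congr rfl fun j _ => by ring

lemma integG_comm (a b : I → ℤ) : integG c a b = integG c b a := by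
  rw [integG, integG, sum_comm]
  refine sum_congr rfl fun i _ => sum_congr rfl fun j _ => ?_
  rw [c.symm]
  ring

lemma integG_sq (a b : I → ℤ) (t : ℤ) : integG c (fun i => a i + t * b i) (fun i => a i + t * b i) =
    integG c a a + 2 * t * integG c b a + t ^ 2 * integG c b b := by
  have h1 : integG c (fun i => a i + t * b i) (fun i => a i + t * b i) =
      integG c a a + t * integG c b a + t * integG c a b + t ^ 2 * integG c b b := by
    simp only [integG, mul_sum, ← sum_add_distrib]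
    exact sum_congr rfl fun i _ => sum_congr rfl fun j _ => by ring
  rw [h1, integG_comm a b]
  ring

lemma integG_single (i : I) (b : I → ℤ) :
    integG c (fun j => if j = i then 1 else 0) b = c.d i * integL c i b := by
  rw [integG_eq]
  simp

lemma integL_single (i : I) : integL c i (fun j => if j = i then 1 else 0) = 2 := by
  simp [integL, c.diag]

lemma integL_add (i : I) (a b : I → ℤ) (t : ℤ) :
    integL c i (fun j => a j + t * b j) = integL c i a + t * integL c i b := by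
  simp only [integL, mul_sum, ← sum_add_distrib]
  exact sum_congr rfl fun j _ => by ring

lemma integ_prod (e : ℤˣ) (j : I) (β : Multiset I) :
    (β.map fun i => c.Q e (-1) j i).prod =
      c.qq j ^ (-(e : ℤ) * integL c j fun i => (β.count i : ℤ)) := by
  induction β using Multiset.induction_on with
  | empty => simp [integL]
  | cons a s ih =>
    have h1 : (fun i => ((a ::ₘ s).count i : ℤ)) =
        fun i => (s.count i : ℤ) + 1 * (if i = a then 1 else 0) := by
      funext i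
      rw [Multiset.count_cons]
      split_ifs <;> simp
    have h2 : integL c j (fun i => if i = a then 1 else 0) = c.C j a := by simp [integL]
    rw [Multiset.map_cons, Multiset.prod_cons, ih, h1, integL_add, h2, Q_eq,
      ← zpow_add₀ (c.qq_ne j)]
    congr 1
    simp only [Units.val_neg, Units.val_one]
    ring

lemma integ_sl2 (h : c.IsRep x φ) (i : I) :
    IntegSl2 (c.qq i) (c.κ i) (x 1 i 0) (x (-1) i 0) (φ 1 i 0) (φ (-1) i 0) := by
  have hQ : ∀ e s : ℤˣ, c.Q e s i i = c.qq i ^ ((e : ℤ) * s * 2) := by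
    intro e s
    rw [Q_eq, c.diag]
  refine ⟨?_, ?_, ?_, ?_, ?_⟩
  · have := h.xx i i 0 0
    simpa [Phi] using this
  · rw [h.zero, hQ]
    simp
  · rw [h.zero, hQ]
    simp
  · rw [h.zero, hQ]
    simp
  · rw [h.zero, hQ]
    simp

lemma integ_raise (h : c.HV x φ v ψ) {β : Multiset I} {w : V} (hw : w ∈ LB x v β) (i : I)
    (n : ℕ) (hn : (x 1 i 0 ^ n) w ≠ 0) :
    ∃ γ : Multiset I, (x 1 i 0 ^ n) w ∈ LB x v γ ∧ β = γ + Multiset.replicate n i := by
  induction n with
  | zero => exact ⟨β, by simpa using hw, by simp⟩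
  | succ n ih =>
    rw [pow_succ', Module.End.mul_apply] at hn ⊢
    obtain ⟨γ, h1, h2⟩ := ih fun h0 => hn (by rw [h0, map_zero])
    have hi : i ∈ γ := by
      by_contra hi
      exact hn (h.xp_eq_zero h1 hi 0)
    refine ⟨γ.erase i, h.xp_mem_LB h1 i 0, ?_⟩
    rw [h2, Multiset.replicate_succ, Multiset.add_cons, ← Multiset.cons_add, Multiset.cons_erase hi]

lemma integ_reflect (h : c.HV x φ v ψ) (ω : I → ℤ)
    (hω : ∀ e j, ψ e j 0 = c.qq j ^ ((e : ℤ) * ω j))
    (hnil : ∀ j w, ∃ N : ℕ, (x (-1) j 0 ^ N) w = 0) {β : Multiset I} {w : V}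
    (hw : w ∈ LB x v β) (hw0 : w ≠ 0) (i : I) (n : ℕ)
    (hn : ω i - integL c i (fun j => (β.count j : ℤ)) = -n) :
    ∃ γ : Multiset I, LB x v γ ≠ ⊥ ∧ β = γ + Multiset.replicate n i := by
  have hE : (x 1 i 0 ^ n) w ≠ 0 := by
    intro hE
    obtain ⟨N, hN⟩ := hnil i w
    refine hw0 ((integ_sl2 h.rep i).eq_zero (c.qq_ne i) (fun k hk => c.qq_pow_ne_one i hk)
      (c.κ_ne i) N n w ?_ ?_ hN n le_rfl hE)
    · rw [h.k_eig hw, hω, integ_prod, ← zpow_add₀ (c.qq_ne i), inv_pow, ← zpow_natCast,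
        ← zpow_neg, ← hn]
      congr 2
      simp only [Units.val_one]
      ring
    · rw [h.k_eig hw, hω, integ_prod, ← zpow_add₀ (c.qq_ne i), ← zpow_natCast]
      congr 2
      simp only [Units.val_neg, Units.val_one]
      linarith
  obtain ⟨γ, h1, h2⟩ := integ_raise h hw i n hE
  exact ⟨γ, fun hb => hE (by rw [hb] at h1; exact h1), h2⟩

lemma integ_quad (h : c.HW x φ v ψ lam) (ω : I → ℤ)
    (hω : ∀ e j, ψ e j 0 = c.qq j ^ ((e : ℤ) * ω j))
    (hnil : ∀ j w, ∃ N : ℕ, (x (-1) j 0 ^ N) w = 0) (m : ℕ) :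
    ∀ β : Multiset I, β.card = m → LB x v β ≠ ⊥ →
      integG c (fun j => (β.count j : ℤ)) (fun j => (β.count j : ℤ)) ≤
        2 * ∑ j, (β.count j : ℤ) * c.d j * ω j := by
  have hv0 : v ≠ 0 := by
    intro hv
    have := h.lam_v
    rw [hv, map_zero] at this
    exact zero_ne_one this
  have hωpos : ∀ i, 0 ≤ ω i := by
    intro i
    by_contra hi
    obtain ⟨n, hn⟩ : ∃ n : ℕ, ω i = -(n + 1 : ℕ) := ⟨(-ω i - 1).toNat, by omega⟩
    have hvm : v ∈ LB x v 0 := by
      rw [LB_zero]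
      exact Submodule.mem_span_singleton_self v
    obtain ⟨γ, -, h2⟩ := integ_reflect h.toHV ω hω hnil hvm hv0 i (n + 1)
      (by simpa [integL] using hn)
    have := congrArg Multiset.card h2
    simp at this
  induction m using Nat.strong_induction_on with
  | _ m ih =>
    intro β hβ hne
    by_cases hall : ∀ i, 0 ≤ ω i - integL c i (fun j => (β.count j : ℤ))
    · rw [integG_eq, mul_sum]
      refine sum_le_sum fun i _ => ?_
      have h1 := hall i
      have h2 := hωpos i
      have h3 : (0 : ℤ) ≤ (β.count i : ℤ) * c.d i := by positivity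
      nlinarith
    · push Not at hall
      obtain ⟨i, hi⟩ := hall
      obtain ⟨n, hn⟩ : ∃ n : ℕ, ω i - integL c i (fun j => (β.count j : ℤ)) = -(n + 1 : ℕ) :=
        ⟨(-(ω i - integL c i (fun j => (β.count j : ℤ))) - 1).toNat, by omega⟩
      obtain ⟨w, hw, hw0⟩ := Submodule.exists_mem_ne_zero_of_ne_bot hne
      obtain ⟨γ, hγ, rfl⟩ := integ_reflect h.toHV ω hω hnil hw hw0 i (n + 1) hn
      have h1 := ih γ.card (by rw [← hβ]; simp) γ rfl hγ
      have h2 : (fun j => ((γ + Multiset.replicate (n + 1) i).count j : ℤ)) =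
          fun j => (γ.count j : ℤ) + ((n + 1 : ℕ) : ℤ) * (if j = i then 1 else 0) := by
        funext j
        rw [Multiset.count_add, Multiset.count_replicate]
        by_cases hj : j = i
        · simp [hj]
        · simp [hj, Ne.symm hj]
      have h3 : ∑ j, ((γ + Multiset.replicate (n + 1) i).count j : ℤ) * c.d j * ω j =
          ∑ j, (γ.count j : ℤ) * c.d j * ω j + ((n + 1 : ℕ) : ℤ) * c.d i * ω i := by
        have h4 : ∀ j, ((γ + Multiset.replicate (n + 1) i).count j : ℤ) * c.d j * ω j =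
            (γ.count j : ℤ) * c.d j * ω j +
              if j = i then ((n + 1 : ℕ) : ℤ) * c.d j * ω j else 0 := by
          intro j
          rw [congrFun h2 j]
          split_ifs <;> ring
        simp only [h4, sum_add_distrib, sum_ite_eq', mem_univ, if_true]
      rw [h2, integL_add, integL_single] at hn
      rw [h3, h2, integG_sq, integG_single, integG_single, integL_single]
      have h5 : integL c i (fun j => (γ.count j : ℤ)) = ω i - ((n + 1 : ℕ) : ℤ) := by linarith
      rw [h5]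
      nlinarith

theorem HW.fd (h : c.HW x φ v ψ lam) (ω : I → ℤ)
    (hω : ∀ e j, ψ e j 0 = c.qq j ^ ((e : ℤ) * ω j))
    (hnil : ∀ j w, ∃ N : ℕ, (x (-1) j 0 ^ N) w = 0)
    (hfd : ∀ n, FiniteDimensional ℂ (LN x v n)) : FiniteDimensional ℂ V := by
  obtain ⟨ξ, hξ⟩ : ∃ ξ : I → ℤ, ∀ i, ω i + 1 ≤ integL c i ξ := by
    refine ⟨fun j => 0 + (∑ i, |ω i| + 1) * (c.eta j : ℤ), fun i => ?_⟩
    rw [integL_add]
    have h1 : integL c i (fun _ => 0) = 0 := by simp [integL]
    have h2 : 1 ≤ integL c i fun j => (c.eta j : ℤ) := c.eta_pos i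
    have h3 : |ω i| ≤ ∑ i, |ω i| :=
      single_le_sum (f := fun i => |ω i|) (fun i _ => abs_nonneg _) (mem_univ i)
    have h4 := le_abs_self (ω i)
    have h5 := abs_nonneg (ω i)
    rw [h1]
    nlinarith
  have hb : ∀ β : Multiset I, LB x v β ≠ ⊥ → β.card ≤ (integG c ξ ξ).toNat := by
    intro β hβ
    have h1 := integ_quad h ω hω hnil _ β rfl hβ
    have h2 : 0 ≤ integG c (fun j => ξ j + (-1) * (β.count j : ℤ))
        (fun j => ξ j + (-1) * (β.count j : ℤ)) := c.psd _
    rw [integG_sq, integG_eq (fun j => (β.count j : ℤ)) ξ] at h2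
    have h3 : ∑ j, (β.count j : ℤ) * c.d j * ω j + ∑ j, (β.count j : ℤ) ≤
        ∑ j, (β.count j : ℤ) * c.d j * integL c j ξ := by
      rw [← sum_add_distrib]
      refine sum_le_sum fun j _ => ?_
      have h4 := hξ j
      have h5 : (1 : ℤ) ≤ c.d j := by exact_mod_cast c.dpos j
      have h6 : (0 : ℤ) ≤ (β.count j : ℤ) := by positivity
      have h7 : (β.count j : ℤ) ≤ (β.count j : ℤ) * c.d j := by nlinarith
      have h8 : (0 : ℤ) ≤ (β.count j : ℤ) * c.d j := by positivity
      nlinarith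
    have h4 : ∑ j, (β.count j : ℤ) = β.card := by
      rw [← Nat.cast_sum, Multiset.sum_count_eq_card fun a _ => mem_univ a]
    have h5 : (β.card : ℤ) ≤ integG c ξ ξ := by
      have : (0 : ℤ) ≤ β.card := by positivity
      linarith
    omega
  have htop : (⊤ : Submodule ℂ V) ≤ ⨆ n : Fin ((integG c ξ ξ).toNat + 1), LN x v n := by
    rw [← h.gen]
    refine iSup_le fun β => ?_
    by_cases hβ : LB x v β = ⊥
    · rw [hβ]
      exact bot_le
    · exact LB_le_LN.trans (le_iSup (fun n : Fin ((integG c ξ ξ).toNat + 1) => LN x v n)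
        ⟨β.card, Nat.lt_succ_of_le (hb β hβ)⟩)
  have hfin : FiniteDimensional ℂ (⊤ : Submodule ℂ V) := Submodule.finiteDimensional_of_le htop
  exact Submodule.topEquiv.finiteDimensional

end CD

end Pool.Agent.Lib.MP_4354a3_al.KC
end

-- part Pool.Agent.Lib.MP_4354a3_al.CString
section

/-!
# The string through the highest weight vector
-/

set_option linter.unusedSectionVars false

namespace Pool.Agent.Lib.MP_4354a3_al.KC

open Finset

namespace CD

variable {I : Type*} [Fintype I] [DecidableEq I] {c : CD I}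
  {V : Type*} [AddCommGroup V] [Module ℂ V]
  {x : ℤˣ → I → ℤ → Module.End ℂ V} {φ : ℤˣ → I → ℕ → Module.End ℂ V} {v : V}
  {ψ : ℤˣ → I → ℕ → ℂ} {lam : V →ₗ[ℂ] ℂ}

lemma string_geo {u : ℤ → V} {b : ℂ} (hb : b ≠ 0) (h : ∀ m, u (m + 1) = b • u m) (m : ℤ) :
    u m = b ^ m • u 0 := by
  induction m using Int.induction_on with
  | zero => simp
  | succ m ih => rw [h, ih, smul_smul, zpow_add_one₀ hb, mul_comm]
  | pred m ih =>
    have := h (-(m : ℤ) - 1)
    rw [sub_add_cancel, ih] at this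
    rw [zpow_sub_one₀ hb, mul_comm, mul_smul, this, smul_smul, inv_mul_cancel₀ hb, one_smul]

lemma string_mem (j : I) (n : ℕ) : (x (-1) j 0 ^ n) v ∈ LB x v (Multiset.replicate n j) := by
  induction n with
  | zero => rw [Multiset.replicate_zero, LB_zero]; exact Submodule.mem_span_singleton_self v
  | succ n ih => rw [pow_succ', Multiset.replicate_succ]; exact xm_mem_LB ih j 0

theorem HW.string (h : c.HW x φ v ψ lam) (j : I) (k : ℕ) {a : ℂ} (ha : a ≠ 0)
    (h0 : ∀ e, ψ e j 0 = c.qq j ^ ((e : ℤ) * k))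
    (hΦ : ∀ r, Phi ψ j (r + 1) = a * Phi ψ j r) : (x (-1) j 0 ^ (k + 1)) v = 0 := by
  obtain ⟨w, hw⟩ : ∃ w : ℕ → V, w = fun n => (x (-1) j 0 ^ n) v := ⟨_, rfl⟩
  have w0 : w 0 = v := by simp [hw]
  have ws : ∀ n, x (-1) j 0 (w n) = w (n + 1) := fun n => by simp [hw, pow_succ']
  have wm : ∀ n, w n ∈ LB x v (Multiset.replicate n j) := fun n => hw ▸ string_mem j n
  have hq := c.qq_ne j
  have hQ := c.Q_ne 1 (-1) j j
  obtain ⟨b, hb⟩ : ∃ b : ℕ → ℂ, b = fun n => a * c.Q 1 (-1) j j ^ n / c.Q 1 (-1) j j := ⟨_, rfl⟩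
  have b1 : b 1 = a := by simp [hb, hQ]
  have bs : ∀ n, b (n + 1) = c.Q 1 (-1) j j * b n := fun n => by simp only [hb]; ring
  have b0 : ∀ n, b n ≠ 0 := fun n => by simp [hb, ha, hQ]
  obtain ⟨A, hA⟩ : ∃ A : ℕ → ℂ, A = fun n =>
    ∑ t ∈ range n, (c.qq j ^ ((k : ℤ) - 2 * t) - c.qq j ^ (2 * t - (k : ℤ))) := ⟨_, rfl⟩
  have A0 : A 0 = 0 := by simp [hA]
  have Ak : A (k + 1) = 0 := by
    simp only [hA, sum_sub_distrib]
    rw [← sum_range_reflect, sub_eq_zero]
    refine sum_congr rfl fun t ht => ?_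
    have := mem_range.1 ht
    congr 1
    omega
  have u0 : ∀ n, Phi φ j 0 (w n) = (A (n + 1) - A n) • w n := fun n => by
    have e : ∀ e : ℤˣ, φ e j 0 (w n) = c.qq j ^ ((e : ℤ) * (k - 2 * n)) • w n := fun e => by
      rw [h.toHV.k_eig (wm n), Multiset.map_replicate, Multiset.prod_replicate, h0, Q_eq, c.diag,
        ← zpow_natCast, ← zpow_mul, ← zpow_add₀ hq]
      congr 2
      simp only [Units.val_neg, Units.val_one]
      ring
    simp only [hA, sum_range_succ, add_sub_cancel_left]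
    simp [Phi, e, sub_smul]
  have xx : ∀ t r y, x 1 j t (x (-1) j r y) = x (-1) j r (x 1 j t y) + c.κ j • Phi φ j (t + r) y :=
    fun t r y => by
      have := LinearMap.congr_fun (h.rep.xx j j t r) y
      simp only [if_true, LinearMap.sub_apply, Module.End.mul_apply, LinearMap.smul_apply] at this
      rw [← this, add_sub_cancel]
  have zero : ∀ n, ∀ y ∈ LB x v (Multiset.replicate (n + 1) j), (∀ t, x 1 j t y = 0) → y = 0 :=
    fun n y hy h1 => h.eq_zero (h.lam_LB (by simp) hy) fun i r => by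
      by_cases hi : i = j
      · exact hi ▸ h1 r
      · exact h.toHV.xp_eq_zero hy (fun h => hi (Multiset.eq_of_mem_replicate h)) r
  let H : ℕ → Prop := fun n =>
    (∀ r, Phi φ j r (w n) = (A (n + 1) * b (n + 1) ^ r - A n * b n ^ r) • w n) ∧
      ∀ r t, x (-1) j r (x 1 j t (w n)) = (c.κ j * A n * b n ^ (t + r)) • w n
  have h2 : ∀ n, H n → ∀ t, x 1 j t (w (n + 1)) = (c.κ j * A (n + 1) * b (n + 1) ^ t) • w n :=
    fun n hn t => by
      rw [← ws, xx, hn.1, hn.2, add_zero]
      module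
  have h3 : ∀ n, H n → ∀ r, x (-1) j r (w n) = b (n + 1) ^ r • w (n + 1) := fun n hn r => by
    rw [← ws]
    refine string_geo (u := fun r => x (-1) j r (w n)) (b0 _) (fun r => ?_) r
    refine sub_eq_zero.1 (zero n _ (Submodule.sub_mem _ (xm_mem_LB (wm n) j _)
      (Submodule.smul_mem _ _ (xm_mem_LB (wm n) j _))) fun t => ?_)
    simp only [map_sub, map_smul, xx, hn.1, hn.2, ← add_assoc, zpow_add_one₀ (b0 _)]
    module
  have key : ∀ n, H n := fun n => by
    induction n with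
    | zero =>
      refine ⟨fun r => ?_, fun r t => by simp [w0, h.sing, A0]⟩
      have e := string_geo (u := fun r => Phi φ j r v) ha
        (fun r => by simp only [h.toHV.Phi_v, hΦ, mul_smul]) r
      have e0 := u0 0
      rw [w0] at e0 ⊢
      rw [e, e0, A0, zero_add, b1]
      module
    | succ n ih =>
      refine ⟨fun r => ?_, fun r t => ?_⟩
      · have e := string_geo (u := fun r => Phi φ j r (w (n + 1)) -
            (A (n + 2) * b (n + 2) ^ r - A (n + 1) * b (n + 1) ^ r) • w (n + 1)) (b0 (n + 2))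
          (fun m => by
            have := LinearMap.congr_fun (h.rep.Phi_rel j (-1) j m 0) (w n)
            simp only [LinearMap.sub_apply, Module.End.mul_apply, LinearMap.smul_apply, ih.1,
              map_smul, h3 n ih, zero_add, zpow_zero, zpow_one, one_smul,
              zpow_add_one₀ (b0 _)] at this
            simp only [zpow_add_one₀ (b0 _)]
            rw [sub_eq_iff_eq_add.1 this, bs (n + 1)]
            generalize b (n + 1) ^ m = β, (c.Q 1 (-1) j j * b (n + 1)) ^ m = γ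
            rw [bs n]
            module) r
        simp only [u0, zpow_zero, mul_one, sub_self, smul_zero] at e
        exact sub_eq_zero.1 e
      · rw [h2 n ih, map_smul, h3 n ih, zpow_add₀ (b0 _)]
        module
  have := zero k _ (wm (k + 1)) fun t => by rw [h2 k (key k), Ak]; simp
  rwa [hw] at this

end CD

end Pool.Agent.Lib.MP_4354a3_al.KC
end
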