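import Pool.Agent.Lib.MP_4354a3_al.CComm

-- part Pool.Agent.Lib.MP_4354a3_al.CSerre
section

/-!
# From the mode zero Serre relations to all Serre relations
-/

set_option linter.unusedSectionVars false

namespace Pool.Agent.Lib.MP_4354a3_al.KC

open Finset

section aux

variable {E : Type*} [Ring E] [Algebra ℂ E]

/-- The Euler operator on power series. -/
noncomputable def serre_D (f : PowerSeries E) : PowerSeries E :=
  PowerSeries.mk fun n => (n : ℂ) • PowerSeries.coeff n f

lemma serre_D_coeff (f : PowerSeries E) (n : ℕ) :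
    PowerSeries.coeff n (serre_D f) = (n : ℂ) • PowerSeries.coeff n f := by
  simp [serre_D]

lemma serre_D_mul (f g : PowerSeries E) :
    serre_D (f * g) = serre_D f * g + f * serre_D g := by
  ext n
  rw [map_add, serre_D_coeff, PowerSeries.coeff_mul, PowerSeries.coeff_mul, PowerSeries.coeff_mul,
    Finset.smul_sum, ← Finset.sum_add_distrib]
  refine Finset.sum_congr rfl fun p hp => ?_
  rw [serre_D_coeff, serre_D_coeff, smul_mul_assoc, mul_smul_comm, ← add_smul,
    ← Finset.HasAntidiagonal.mem_antidiagonal.1 hp]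
  push_cast
  rfl

lemma serre_D_sub (f g : PowerSeries E) : serre_D (f - g) = serre_D f - serre_D g := by
  ext n
  simp only [map_sub, serre_D_coeff, smul_sub]

lemma serre_D_smul (a : ℂ) (f : PowerSeries E) : serre_D (a • f) = a • serre_D f := by
  ext n
  simp only [PowerSeries.coeff_smul, serre_D_coeff, smul_comm a]

lemma serre_D_C (a : E) : serre_D (PowerSeries.C a) = 0 := by
  ext n
  rw [serre_D_coeff, PowerSeries.coeff_C]
  split_ifs with h <;> simp [h]

lemma serre_D_XC (a : E) :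
    serre_D (PowerSeries.X * PowerSeries.C a) = PowerSeries.X * PowerSeries.C a := by
  ext n
  rw [serre_D_coeff]
  rcases n with _ | n
  · simp
  · rw [PowerSeries.coeff_succ_X_mul, PowerSeries.coeff_C]
    split_ifs with h <;> simp [h]

lemma serre_rel {Q : ℂ} {φ : ℕ → E} {x : ℤ → E} (h : R2 Q φ x) (r : ℤ) :
    PowerSeries.mk φ * (PowerSeries.C (x r) - Q • (PowerSeries.X * PowerSeries.C (x (r + 1)))) =
      (Q • PowerSeries.C (x r) - PowerSeries.X * PowerSeries.C (x (r + 1))) *
        PowerSeries.mk φ := by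
  have h1 : ∀ a : E, PowerSeries.mk φ * (PowerSeries.X * PowerSeries.C a) =
      PowerSeries.X * (PowerSeries.mk φ * PowerSeries.C a) := fun a => by
    rw [← mul_assoc, (PowerSeries.commute_X _).eq, mul_assoc]
  rw [mul_sub, sub_mul, mul_smul_comm, smul_mul_assoc, h1, mul_assoc]
  ext n
  rcases n with _ | n
  · simp only [map_sub, PowerSeries.coeff_smul, PowerSeries.coeff_zero_X_mul,
      PowerSeries.coeff_mul_C, PowerSeries.coeff_C_mul, PowerSeries.coeff_mk, smul_zero, sub_zero]
    exact h.zero r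
  · simp only [map_sub, PowerSeries.coeff_smul, PowerSeries.coeff_succ_X_mul,
      PowerSeries.coeff_mul_C, PowerSeries.coeff_C_mul, PowerSeries.coeff_mk]
    exact h.succ n r

lemma serre_exists_h (φ : ℕ → E) (hu : IsUnit (φ 0)) :
    ∃ h : ℕ → E, ∀ (Q : ℂ) (x : ℤ → E), Q ≠ 0 → R2 Q φ x → ∀ (m : ℕ) (r : ℤ),
      h m * x r - x r * h m = (Q ^ m - Q⁻¹ ^ m) • x (r + m) := by
  obtain ⟨u, hu⟩ : IsUnit (PowerSeries.mk φ) := by
    rw [PowerSeries.isUnit_iff_constantCoeff]; simpa using hu
  set H : PowerSeries E := serre_D (PowerSeries.mk φ) * ↑u⁻¹ with hH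
  have hD : serre_D (PowerSeries.mk φ) = H * PowerSeries.mk φ := by
    rw [hH, mul_assoc, ← hu, Units.inv_mul, mul_one]
  refine ⟨fun m => PowerSeries.coeff m H, fun Q x hQ hR => ?_⟩
  set P := PowerSeries.mk φ with hP
  set Y : PowerSeries E := PowerSeries.X with hY
  have hc : ∀ f : PowerSeries E, f * Y = Y * f := fun f => (PowerSeries.commute_X f).eq
  have hc' : ∀ f g : PowerSeries E, f * (Y * g) = Y * (f * g) := fun f g => by
    rw [← mul_assoc, hc, mul_assoc]
  set c : ℤ → PowerSeries E := fun r => PowerSeries.C (x r) with hcdef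
  have hrel : ∀ r, P * (c r - Q • (Y * c (r + 1))) = (Q • c r - Y * c (r + 1)) * P :=
    fun r => serre_rel hR r
  set A : ℤ → PowerSeries E := fun r => H * c r - c r * H with hA
  set W : ℤ → PowerSeries E := fun r => Q • A r - Y * A (r + 1) with hW
  have h1 : ∀ r, W r * P = Y * (Q • (P * c (r + 1)) - c (r + 1) * P) := by
    intro r
    have e := congrArg serre_D (hrel r)
    rw [serre_D_mul, serre_D_mul, serre_D_sub, serre_D_sub, serre_D_smul, serre_D_smul,
      serre_D_C, serre_D_XC, hD, mul_assoc H, hrel r] at e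
    have e2 : W r * P = H * ((Q • c r - Y * c (r + 1)) * P) -
        (Q • c r - Y * c (r + 1)) * (H * P) := by
      simp only [hW, hA, mul_sub, sub_mul, smul_sub, smul_mul_assoc, mul_smul_comm, mul_assoc,
        hc' H]
      abel
    change _ + P * (0 - Q • (Y * c (r + 1))) = (Q • 0 - Y * c (r + 1)) * P + _ at e
    rw [e2, eq_sub_of_add_eq e]
    simp only [mul_sub, sub_mul, smul_zero, zero_sub, neg_mul, mul_neg, mul_smul_comm,
      mul_assoc, hc' P]
    abel
  have h2 : ∀ r, W r - Q • (Y * W (r + 1)) = (Q ^ 2 - 1) • (Y * c (r + 1)) := by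
    intro r
    apply u.mul_left_inj.1
    rw [hu, sub_mul, smul_mul_assoc, mul_assoc, h1, h1, smul_mul_assoc, mul_assoc]
    have e := hrel (r + 1)
    rw [mul_sub, sub_mul, mul_smul_comm, smul_mul_assoc, hc' P, mul_assoc] at e
    rw [eq_add_of_sub_eq e]
    simp only [mul_sub, mul_add, smul_sub, smul_add, mul_smul_comm, smul_smul]
    module
  have h3 : ∀ (m : ℕ) (r : ℤ), PowerSeries.coeff (m + 1) (W r) =
      (Q ^ m * (Q ^ 2 - 1)) • x (r + (m + 1 : ℕ)) := by
    have h0 : ∀ r, PowerSeries.coeff 0 (W r) = 0 := fun r => by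
      have e := congrArg (PowerSeries.coeff 0) (h2 r)
      simpa only [map_sub, PowerSeries.coeff_smul, hY, PowerSeries.coeff_zero_X_mul, smul_zero,
        sub_zero] using e
    intro m
    induction m with
    | zero =>
      intro r
      have e := congrArg (PowerSeries.coeff 1) (h2 r)
      simp only [map_sub, PowerSeries.coeff_smul, hY, PowerSeries.coeff_succ_X_mul 0, h0,
        smul_zero, sub_zero, hcdef, PowerSeries.coeff_zero_C] at e
      simpa using e
    | succ m ih =>
      intro r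
      have e := congrArg (PowerSeries.coeff (m + 1 + 1)) (h2 r)
      simp only [map_sub, PowerSeries.coeff_smul, hY, PowerSeries.coeff_succ_X_mul, ih,
        hcdef, PowerSeries.coeff_succ_C, smul_zero, smul_smul] at e
      rw [sub_eq_zero.1 e]
      congr 1
      · ring
      · congr 1; push_cast; ring
  have h4 : ∀ (m : ℕ) (r : ℤ), PowerSeries.coeff m (A r) = (Q ^ m - Q⁻¹ ^ m) • x (r + m) := by
    intro m
    induction m with
    | zero =>
      intro r
      have e := congrArg (PowerSeries.coeff 0) (h2 r)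
      simp only [map_sub, PowerSeries.coeff_smul, hY, PowerSeries.coeff_zero_X_mul, smul_zero,
        sub_zero, hW] at e
      rw [(smul_eq_zero.1 e).resolve_left hQ]
      simp
    | succ m ih =>
      intro r
      have e := h3 m r
      simp only [map_sub, PowerSeries.coeff_smul, hY, PowerSeries.coeff_succ_X_mul, hW, ih] at e
      have e2 : r + 1 + (m : ℤ) = r + (m + 1 : ℕ) := by push_cast; ring
      rw [e2, sub_eq_iff_eq_add, ← add_smul] at e
      rw [← one_smul ℂ (PowerSeries.coeff (m + 1) (A r)), ← inv_mul_cancel₀ hQ, mul_smul, e,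
        smul_smul]
      congr 1
      rw [pow_succ, pow_succ Q⁻¹]
      linear_combination (Q ^ m * Q) * inv_mul_cancel₀ hQ
  intro m r
  have e := h4 m r
  simpa only [hA, hcdef, map_sub, PowerSeries.coeff_mul_C, PowerSeries.coeff_C_mul] using e

/-- A word with `y` inserted at position `k`. -/
def serre_W (x : ℤ → E) {a : ℕ} (r : Fin a → ℤ) (k : ℕ) (y : E) : E :=
  ((List.ofFn fun u => x (r u)).take k).prod * y * ((List.ofFn fun u => x (r u)).drop k).prod

lemma serre_W_zero (x : ℤ → E) {a : ℕ} (r : Fin (a + 1) → ℤ) (y : E) :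
    serre_W x r 0 y = serre_W x (fun u => r u.succ) 0 (y * x (r 0)) := by
  simp [serre_W, List.ofFn_succ, mul_assoc]

lemma serre_W_succ (x : ℤ → E) {a : ℕ} (r : Fin (a + 1) → ℤ) (k : ℕ) (y : E) :
    serre_W x r (k + 1) y = x (r 0) * serre_W x (fun u => r u.succ) k y := by
  simp [serre_W, List.ofFn_succ, mul_assoc]

lemma serre_W_add (x : ℤ → E) {a : ℕ} (r : Fin a → ℤ) (k : ℕ) (y z : E) :
    serre_W x r k (y + z) = serre_W x r k y + serre_W x r k z := by
  simp [serre_W, mul_add, add_mul]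

lemma serre_W_smul (x : ℤ → E) {a : ℕ} (r : Fin a → ℤ) (k : ℕ) (b : ℂ) (y : E) :
    serre_W x r k (b • y) = b • serre_W x r k y := by
  simp [serre_W]

lemma serre_W_leib {h : E} {x : ℤ → E} {b : ℂ} {n : ℤ}
    (hx : ∀ r, h * x r - x r * h = b • x (r + n)) (a : ℕ) (r : Fin a → ℤ) (k : ℕ) (y : E) :
    h * serre_W x r k y - serre_W x r k y * h =
      b • ∑ u, serre_W x (fun v => r v + if v = u then n else 0) k y +
        serre_W x r k (h * y - y * h) := by
  induction a generalizing k y with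
  | zero => simp [serre_W]
  | succ a ih =>
    rw [Fin.sum_univ_succ]
    rcases k with _ | k
    · simp only [serre_W_zero, Fin.succ_ne_zero, (Fin.succ_ne_zero _).symm, if_true, if_false,
        add_zero, Fin.succ_inj]
      rw [ih]
      have e : h * (y * x (r 0)) - y * x (r 0) * h =
          b • (y * x (r 0 + n)) + (h * y - y * h) * x (r 0) := by
        rw [← mul_smul_comm, ← hx]; noncomm_ring
      rw [e, serre_W_add, serre_W_smul, smul_add]
      abel
    · simp only [serre_W_succ, Fin.succ_ne_zero, (Fin.succ_ne_zero _).symm, if_true, if_false,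
        add_zero, Fin.succ_inj]
      have e := ih (fun u => r u.succ) k y
      rw [← Finset.mul_sum, smul_add, ← smul_mul_assoc, ← hx, ← mul_smul_comm, add_assoc,
        ← mul_add, ← e]
      noncomm_ring

/-- The symmetrized Serre element. -/
noncomputable def serre_S (v : ℂ) (x : ℤ → E) {a : ℕ} (r : Fin a → ℤ) (y : E) : E :=
  ∑ π : Equiv.Perm (Fin a), serreL v (List.ofFn fun u => x (r (π u))) y

lemma serre_S_eq (v : ℂ) (x : ℤ → E) {a : ℕ} (r : Fin a → ℤ) (y : E) :
    serre_S v x r y = ∑ π : Equiv.Perm (Fin a), ∑ k ∈ range (a + 1),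
      ((-1) ^ k * qbin v a k) • serre_W x (fun u => r (π u)) k y := by
  simp only [serre_S, serreL, serre_W, List.length_ofFn]

lemma serre_S_perm (v : ℂ) (x : ℤ → E) {a : ℕ} (r : Fin a → ℤ) (y : E)
    (σ : Equiv.Perm (Fin a)) : serre_S v x (fun u => r (σ u)) y = serre_S v x r y := by
  unfold serre_S
  exact Fintype.sum_equiv (Equiv.mulLeft σ) _ _ fun π => rfl

lemma serre_S_leib (v : ℂ) {h : E} {x : ℤ → E} {b b' : ℂ} {n : ℤ} {y y' : E}
    (hx : ∀ r, h * x r - x r * h = b • x (r + n)) (hy : h * y - y * h = b' • y') {a : ℕ}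
    (r : Fin a → ℤ) :
    h * serre_S v x r y - serre_S v x r y * h =
      b • ∑ u, serre_S v x (fun w => r w + if w = u then n else 0) y + b' • serre_S v x r y' := by
  simp only [serre_S_eq]
  rw [Finset.sum_comm (f := fun u (π : Equiv.Perm (Fin a)) => _), Finset.mul_sum, Finset.sum_mul,
    ← Finset.sum_sub_distrib, Finset.smul_sum, Finset.smul_sum, ← Finset.sum_add_distrib]
  refine Finset.sum_congr rfl fun π _ => ?_
  rw [Finset.sum_comm, Finset.mul_sum, Finset.sum_mul,
    ← Finset.sum_sub_distrib, Finset.smul_sum, Finset.smul_sum, ← Finset.sum_add_distrib]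
  refine Finset.sum_congr rfl fun k _ => ?_
  rw [mul_smul_comm, smul_mul_assoc, ← smul_sub, serre_W_leib hx, hy, serre_W_smul,
    ← Finset.smul_sum, smul_add, smul_comm b, smul_comm b']
  congr 3
  refine Fintype.sum_equiv π _ _ fun u => ?_
  simp only [EmbeddingLike.apply_eq_iff_eq]

lemma serre_S_zero (v : ℂ) (x : ℤ → E) (a : ℕ) (y : E) (h : serre0 v a (x 0) y = 0) :
    serre_S v x (fun _ : Fin a => 0) y = 0 := by
  refine Finset.sum_eq_zero fun π _ => ?_
  rw [← h, List.ofFn_const, serreL, serre0, List.length_replicate]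
  refine Finset.sum_congr rfl fun k hk => ?_
  have hk' : k ≤ a := Nat.lt_succ_iff.1 (Finset.mem_range.1 hk)
  rw [List.take_replicate, List.drop_replicate, List.prod_replicate, List.prod_replicate,
    min_eq_left hk']

lemma serre_main (v : ℂ) (x y : ℤ → E) (a : ℕ) (h0 : ∀ t, serre0 v a (x 0) (y t) = 0)
    (hh : ∀ n : ℤ, n ≠ 0 → ∃ (h : E) (b b' : ℂ), b ≠ 0 ∧
      (∀ r, h * x r - x r * h = b • x (r + n)) ∧ ∀ t, h * y t - y t * h = b' • y (t + n))
    (r : Fin a → ℤ) (t : ℤ) : serre_S v x r (y t) = 0 := by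
  classical
  induction hN : (univ.filter fun u => r u ≠ 0).card using Nat.strong_induction_on
    generalizing r t with
  | _ N ih =>
  by_cases hr : ∀ u, r u = 0
  · obtain rfl : r = fun _ => 0 := funext hr
    exact serre_S_zero v x a _ (h0 t)
  push Not at hr
  obtain ⟨u0, hu0⟩ := hr
  obtain ⟨h, b, b', hb, hx, hy⟩ := hh _ hu0
  set r' : Fin a → ℤ := fun u => if u = u0 then 0 else r u with hr'
  have hsub : ∀ ρ : Fin a → ℤ, (∀ u, r' u = 0 → ρ u = 0) → ∀ t, serre_S v x ρ (y t) = 0 := by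
    intro ρ hρ t
    refine ih _ ?_ ρ t rfl
    rw [← hN]
    refine Finset.card_lt_card ⟨fun u hu => ?_, fun hs => ?_⟩
    · simp only [mem_filter, mem_univ, true_and] at hu ⊢
      intro h1
      exact hu (hρ u (by simp [hr', h1]))
    · have := hs (mem_filter.2 ⟨mem_univ u0, hu0⟩)
      simp only [mem_filter, mem_univ, true_and] at this
      exact this (hρ u0 (by simp [hr']))
  have e := serre_S_leib v hx (hy t) r'
  rw [hsub r' (fun _ h => h), hsub r' (fun _ h => h), mul_zero, zero_mul, sub_zero, smul_zero,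
    add_zero, eq_comm, smul_eq_zero] at e
  have e2 := e.resolve_left hb
  have e3 : ∀ u, serre_S v x (fun w => r' w + if w = u then r u0 else 0) (y t) =
      (if r' u = 0 then (1 : ℂ) else 0) • serre_S v x r (y t) := by
    intro u
    split_ifs with hu
    · rw [one_smul, ← serre_S_perm v x r (y t) (Equiv.swap u u0)]
      congr 1
      funext w
      by_cases h1 : w = u
      · subst h1; simp [hu]
      · by_cases h2 : w = u0
        · subst h2
          have : r u = 0 := by simpa [hr', Ne.symm h1] using hu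
          simp [hr', h1, this]
        · simp [hr', h1, h2, Equiv.swap_apply_of_ne_of_ne h1 h2]
    · rw [zero_smul]
      refine hsub _ (fun w hw => ?_) t
      have : w ≠ u := fun h1 => hu (h1 ▸ hw)
      simp [hw, this]
  rw [Finset.sum_congr rfl fun u _ => e3 u, ← Finset.sum_smul, Finset.sum_boole,
    smul_eq_zero] at e2
  refine e2.resolve_left (Nat.cast_ne_zero.2 (Finset.card_ne_zero.2 ⟨u0, ?_⟩))
  simp [hr']

end aux

namespace CD

variable {I : Type*} [Fintype I] [DecidableEq I] {c : CD I}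
  {E : Type*} [Ring E] [Algebra ℂ E] {x : ℤˣ → I → ℤ → E} {φ : ℤˣ → I → ℕ → E}

lemma serre_unit (h : c.IsRep x φ) (e : ℤˣ) (i : I) : IsUnit (φ e i 0) := by
  have h1 := h.inv i
  have h2 : φ (-1) i 0 * φ 1 i 0 = 1 := by rw [h.comm]; exact h1
  rcases Int.units_eq_one_or e with rfl | rfl
  · exact ⟨⟨_, _, h1, h2⟩, rfl⟩
  · exact ⟨⟨_, _, h2, h1⟩, rfl⟩

theorem IsRep.sf (h : c.IsRep x φ) (h0 : c.S0 x) : c.SF x := by
  intro s i j t r hij
  refine serre_main (c.qq i) (x s i) (x s j) (c.deg i j) (fun t => h0 s i j t hij) ?_ r t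
  intro n hn
  obtain ⟨e, m, rfl⟩ : ∃ (e : ℤˣ) (m : ℕ), n = e * m := by
    obtain ⟨m, rfl | rfl⟩ := Int.eq_nat_or_neg n
    · exact ⟨1, m, by simp⟩
    · exact ⟨-1, m, by simp⟩
  have hm : m ≠ 0 := by rintro rfl; simp at hn
  obtain ⟨H, hH⟩ := serre_exists_h (φ e i) (serre_unit h e i)
  have he : (e : ℤ) * e = 1 := by rw [← Units.val_mul, Int.units_mul_self, Units.val_one]
  have key : ∀ k r, H m * x s k r - x s k r * H m =
      (c.Q e s i k ^ m - (c.Q e s i k)⁻¹ ^ m) • x s k (r + e * m) := by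
    intro k r
    have e1 := hH _ _ (c.Q_ne e s i k) (h.r2 e i s k) m (e * r)
    simpa only [mul_add, ← mul_assoc, he, one_mul] using e1
  refine ⟨H m, _, _, ?_, key i, key j⟩
  intro h1
  rw [sub_eq_zero, Q, ← zpow_neg, ← zpow_natCast, ← zpow_natCast, ← zpow_mul, ← zpow_mul] at h1
  have h2 := c.zpow_inj h1
  rw [c.diag] at h2
  have h3 : (e : ℤ) * s * (c.d i * 2) * m = 0 := by linarith
  have h4 := c.dpos i
  simp only [mul_eq_zero, Units.ne_zero, false_or] at h3
  omega

end CD

end Pool.Agent.Lib.MP_4354a3_al.KC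
end

-- part Pool.Agent.Lib.MP_4354a3_al.CVerma
section

/-!
# Existence of simple highest weight modules
-/

set_option linter.unusedSectionVars false

namespace Pool.Agent.Lib.MP_4354a3_al.KC

open Finset

/-- The shift of a sequence by one step. -/
def vermaSh {A : Type*} [Zero A] (φ : ℕ → A) : ℕ → A
  | 0 => 0
  | m + 1 => φ m

section ring

variable {E : Type*} [Ring E] [Algebra ℂ E]

/-- One instance of the relation between a half current and a current. -/
def VermaR (Q : ℂ) (e : ℤ) (y : ℤ → E) (a b : E) : Prop :=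
  ∀ r, a * y r = Q • (b * y (r + e)) + Q • (y r * a) - y (r + e) * b

lemma verma_sh {Q : ℂ} {e : ℤ} {y : ℤ → E} {φ : ℕ → E}
    (h : ∀ m, VermaR Q e y (φ m) (vermaSh φ m)) (m : ℕ) :
    VermaR Q e y (vermaSh φ m) (vermaSh (vermaSh φ) m) := by
  cases m with
  | zero => intro r; simp [vermaSh]
  | succ m => exact h m

lemma verma_r2 {Q : ℂ} {e : ℤ} {y : ℤ → E} {φ : ℕ → E}
    (h : ∀ m, VermaR Q e y (φ m) (vermaSh φ m)) : R2 Q φ fun r => y (e * r) := by
  refine ⟨fun r => by simpa [vermaSh] using h 0 (e * r), fun m r => ?_⟩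
  rw [h (m + 1) (e * r), mul_add, mul_one]
  simp only [vermaSh]
  abel

lemma verma_comm_step {Q Q' : ℂ} {e e' : ℤ} {y : ℤ → E} {a b a' b' : E} (h : VermaR Q e y a b)
    (h' : VermaR Q' e' y a' b') (h1 : a * b' = b' * a) (h2 : b * b' = b' * b) (r : ℤ) :
    (a * a' - a' * a) * y r = Q • ((b * a' - a' * b) * y (r + e)) +
      Q' • (Q • (y r * (a * a' - a' * a)) - y (r + e) * (b * a' - a' * b)) := by
  have k : ∀ r z, a * (y r * z) =
      Q • (b * (y (r + e) * z)) + Q • (y r * (a * z)) - y (r + e) * (b * z) := fun r z => by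
    rw [← mul_assoc, h r]; simp [add_mul, sub_mul, mul_assoc]
  have k' : ∀ r z, a' * (y r * z) =
      Q' • (b' * (y (r + e') * z)) + Q' • (y r * (a' * z)) - y (r + e') * (b' * z) := fun r z => by
    rw [← mul_assoc, h' r]; simp [add_mul, sub_mul, mul_assoc]
  have k1 : ∀ z, a * (b' * z) = b' * (a * z) := fun z => by rw [← mul_assoc, h1, mul_assoc]
  have k2 : ∀ z, b * (b' * z) = b' * (b * z) := fun z => by rw [← mul_assoc, h2, mul_assoc]
  have e1 : a * a' * y r = Q • (b * a' * y (r + e)) + Q' • (Q • (y r * (a * a')) -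
      y (r + e) * (b * a')) + (Q' • (b' * (Q • (y (r + e') * a) - y (r + e + e') * b)) -
      (Q • (y (r + e') * a) - y (r + e + e') * b) * b') := by
    simp only [mul_assoc, h' r, h' (r + e), mul_add, mul_sub, mul_smul_comm, k, k1, k2, h (r + e'),
      add_right_comm r e' e, sub_mul, smul_mul_assoc]
    module
  have e2 : a' * a * y r = Q • (a' * b * y (r + e)) + Q' • (Q • (y r * (a' * a)) -
      y (r + e) * (a' * b)) + (Q' • (b' * (Q • (y (r + e') * a) - y (r + e + e') * b)) -
      (Q • (y (r + e') * a) - y (r + e + e') * b) * b') := by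
    simp only [mul_assoc, h r, mul_add, mul_sub, mul_smul_comm, k', h1, h2, sub_mul,
      smul_mul_assoc]
    module
  simp only [sub_mul, mul_sub, e1, e2]
  module

lemma verma_plus_step {Q P : ℂ} {e : ℤ} {x y H : ℤ → E} {a b d : E} (h : VermaR Q e y a b)
    (h' : VermaR Q e y b d) (hx : ∀ t r, x t * y r = y r * x t + H (t + r))
    (hH : ∀ n, a * H n = H n * a ∧ b * H n = H n * b ∧ d * H n = H n * d ∧ (P * Q) • H n = H n)
    (t r : ℤ) :
    (a * x t - (P • (b * x (t + e)) + P • (x t * a) - x (t + e) * b)) * y r =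
      Q • ((b * x t - (P • (d * x (t + e)) + P • (x t * b) - x (t + e) * d)) * y (r + e)) +
      (1 : ℂ) • (Q • (y r * (a * x t - (P • (b * x (t + e)) + P • (x t * a) - x (t + e) * b))) -
        y (r + e) * (b * x t - (P • (d * x (t + e)) + P • (x t * b) - x (t + e) * d))) := by
  have k : ∀ z, a * (y r * z) =
      Q • (b * (y (r + e) * z)) + Q • (y r * (a * z)) - y (r + e) * (b * z) := fun z => by
    rw [← mul_assoc, h r]; simp [add_mul, sub_mul, mul_assoc]
  have k' : ∀ z, b * (y r * z) =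
      Q • (d * (y (r + e) * z)) + Q • (y r * (b * z)) - y (r + e) * (d * z) := fun z => by
    rw [← mul_assoc, h' r]; simp [add_mul, sub_mul, mul_assoc]
  have k1 : ∀ t r z, x t * (y r * z) = y r * (x t * z) + H (t + r) * z := fun t r z => by
    rw [← mul_assoc, hx, add_mul, mul_assoc]
  have p1 := congrArg (· * a) (hH (t + r)).2.2.2
  have p2 := congrArg (· * d) (hH (t + r + e + e)).2.2.2
  simp only [smul_mul_assoc] at p1 p2
  simp only [mul_assoc, h r, h' r, hx, k, k', k1, mul_add, mul_sub, add_mul, sub_mul, mul_smul_comm,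
    smul_mul_assoc, (hH _).1, (hH _).2.1, (hH _).2.2.1, ← add_assoc, add_right_comm t e r]
  linear_combination (norm := module) p2 - p1

end ring

namespace CD

universe u

section verma

variable {I : Type u} [Fintype I] [DecidableEq I] (c : CD I) (ψ : ℤˣ → I → ℕ → ℂ)
  {M : Type u} [AddCommGroup M] [Module ℂ M] (b : Module.Basis (List (I × ℤ)) ℂ M)

/-- The lowering operators of the Verma module. -/
noncomputable def vermaY (i : I) (r : ℤ) : Module.End ℂ M := b.constr ℂ fun l => b ((i, r) :: l)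

lemma vermaY_b (i : I) (r : ℤ) (l : List (I × ℤ)) : vermaY b i r (b l) = b ((i, r) :: l) :=
  b.constr_basis _ _ _

/-- One step in the recursion for the Cartan half currents. -/
noncomputable def vermaAux (Q : ℂ) (e : ℤ) (i : I) (a : ℕ → M) : ℕ → ℤ → M
  | 0, r => Q • vermaY b i r (a 0)
  | m + 1, r => Q • vermaAux Q e i a m (r + e) + Q • vermaY b i r (a (m + 1)) -
      vermaY b i (r + e) (a m)

/-- The Cartan half currents on the basis. -/
noncomputable def vermaPh (e : ℤˣ) (j : I) : List (I × ℤ) → ℕ → M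
  | [] => fun m => ψ e j m • b []
  | p :: l => fun m => vermaAux b (c.Q e (-1) j p.1) e p.1 (vermaPh e j l) m p.2

/-- The Cartan half currents. -/
noncomputable def vermaPhi (e : ℤˣ) (j : I) (m : ℕ) : Module.End ℂ M :=
  b.constr ℂ fun l => vermaPh c ψ b e j l m

/-- The raising operators on the basis. -/
noncomputable def vermaXp (k : I) (t : ℤ) : List (I × ℤ) → M
  | [] => 0
  | p :: l => vermaY b p.1 p.2 (vermaXp k t l) +
      (if k = p.1 then c.κ k • Phi (vermaPhi c ψ b) k (t + p.2) else 0) (b l)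

/-- The raising operators. -/
noncomputable def vermaP (k : I) (t : ℤ) : Module.End ℂ M := b.constr ℂ (vermaXp c ψ b k t)

/-- The raising and the lowering operators. -/
noncomputable def vermaX (s : ℤˣ) (k : I) (t : ℤ) : Module.End ℂ M :=
  if s = 1 then vermaP c ψ b k t else vermaY b k t

lemma vermaPhi_b (e : ℤˣ) (j : I) (m : ℕ) (l : List (I × ℤ)) :
    vermaPhi c ψ b e j m (b l) = vermaPh c ψ b e j l m := b.constr_basis _ _ _

lemma vermaP_b (k : I) (t : ℤ) (l : List (I × ℤ)) :
    vermaP c ψ b k t (b l) = vermaXp c ψ b k t l := b.constr_basis _ _ _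

lemma verma_minus (e : ℤˣ) (j i : I) (m : ℕ) : VermaR (c.Q e (-1) j i) e (vermaY b i)
    (vermaPhi c ψ b e j m) (vermaSh (vermaPhi c ψ b e j) m) := fun r => b.ext fun l => by
  cases m <;> simp [vermaSh, vermaY_b, vermaPhi_b, vermaPh, vermaAux]

lemma verma_xx (k i : I) (t r : ℤ) : vermaP c ψ b k t * vermaY b i r =
    vermaY b i r * vermaP c ψ b k t +
      if k = i then c.κ k • Phi (vermaPhi c ψ b) k (t + r) else 0 := b.ext fun l => by
  simp only [Module.End.mul_apply, LinearMap.add_apply, vermaY_b, vermaP_b, vermaXp]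

lemma verma_vanish (U : ℕ → Module.End ℂ M) (h0 : ∀ m, U m (b []) = 0)
    (h : ∀ i, ∃ (Q P : ℂ) (e : ℤ), ∀ m r, U m * vermaY b i r =
      Q • (vermaSh U m * vermaY b i (r + e)) +
      P • (Q • (vermaY b i r * U m) - vermaY b i (r + e) * vermaSh U m)) (m : ℕ) : U m = 0 := by
  refine b.ext fun l => ?_
  rw [LinearMap.zero_apply]
  induction l generalizing m with
  | nil => exact h0 m
  | cons p l ih =>
    obtain ⟨i, r⟩ := p
    obtain ⟨Q, P, e, h⟩ := h i
    induction m generalizing r with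
    | zero => simpa [vermaSh, vermaY_b, ih] using congrArg (· (b l)) (h 0 r)
    | succ m ihm => simpa [vermaSh, vermaY_b, ih, ihm] using congrArg (· (b l)) (h (m + 1) r)

lemma verma_comm (e : ℤˣ) (j : I) (m : ℕ) (e' : ℤˣ) (j' : I) (n : ℕ) :
    vermaPhi c ψ b e j m * vermaPhi c ψ b e' j' n =
      vermaPhi c ψ b e' j' n * vermaPhi c ψ b e j m := by
  have key : ∀ n, (∀ m, vermaPhi c ψ b e j m * vermaSh (vermaPhi c ψ b e' j') n =
      vermaSh (vermaPhi c ψ b e' j') n * vermaPhi c ψ b e j m) → ∀ m,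
      vermaPhi c ψ b e j m * vermaPhi c ψ b e' j' n =
        vermaPhi c ψ b e' j' n * vermaPhi c ψ b e j m := by
    intro n hn m
    refine sub_eq_zero.mp (verma_vanish b (fun m => vermaPhi c ψ b e j m * vermaPhi c ψ b e' j' n -
      vermaPhi c ψ b e' j' n * vermaPhi c ψ b e j m) (fun m => ?_) (fun i => ⟨c.Q e (-1) j i,
        c.Q e' (-1) j' i, e, fun m r => ?_⟩) m)
    · simp [vermaPhi_b, vermaPh, smul_smul, mul_comm]
    · rw [verma_comm_step (verma_minus c ψ b e j i m) (verma_minus c ψ b e' j' i n) (hn m)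
        (by
          cases m with
          | zero => exact (zero_mul _).trans (mul_zero _).symm
          | succ m => exact hn m) r]
      cases m <;> simp [vermaSh]
  induction n generalizing m with
  | zero => exact key 0 (fun m => by simp [vermaSh]) m
  | succ n ih => exact key (n + 1) ih m

lemma verma_Q (e : ℤˣ) (j k : I) : c.Q e 1 j k * c.Q e (-1) j k = 1 := by
  rw [Q, Q, ← zpow_add₀ c.q0]
  simp

lemma verma_plus (e : ℤˣ) (j k : I) (m : ℕ) : VermaR (c.Q e 1 j k) e (vermaP c ψ b k)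
    (vermaPhi c ψ b e j m) (vermaSh (vermaPhi c ψ b e j) m) := fun t => by
  refine sub_eq_zero.mp (verma_vanish b (fun m => vermaPhi c ψ b e j m * vermaP c ψ b k t -
    (c.Q e 1 j k • (vermaSh (vermaPhi c ψ b e j) m * vermaP c ψ b k (t + e)) +
      c.Q e 1 j k • (vermaP c ψ b k t * vermaPhi c ψ b e j m) -
      vermaP c ψ b k (t + e) * vermaSh (vermaPhi c ψ b e j) m)) (fun m => ?_)
    (fun i => ⟨c.Q e (-1) j i, 1, e, fun m r => ?_⟩) m)
  · cases m <;> simp [vermaSh, vermaPhi_b, vermaP_b, vermaPh, vermaXp]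
  · have h1 : ∀ m n, vermaPhi c ψ b e j m * Phi (vermaPhi c ψ b) k n =
        Phi (vermaPhi c ψ b) k n * vermaPhi c ψ b e j m := fun m n => by
      unfold Phi
      split_ifs <;> simp [mul_sub, sub_mul, verma_comm c ψ b e j m]
    rw [verma_plus_step (P := c.Q e 1 j k)
      (H := fun n => if k = i then c.κ k • Phi (vermaPhi c ψ b) k n else 0)
      (verma_minus c ψ b e j i m) (verma_sh (verma_minus c ψ b e j i) m) (verma_xx c ψ b k i)
      (fun n => ?_) t r]
    · cases m <;> simp [vermaSh]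
    · split_ifs with hk
      · subst hk
        rcases m with _ | _ | m <;> simp [vermaSh, h1, verma_Q]
      · simp

lemma verma_rep (hψ : ∀ i, ψ 1 i 0 * ψ (-1) i 0 = 1) :
    c.IsRep (vermaX c ψ b) (vermaPhi c ψ b) := by
  refine ⟨fun j => b.ext fun l => ?_, verma_comm c ψ b, fun e j s i => ?_, fun i j r t => ?_⟩
  · induction l with
    | nil => simp [vermaPhi_b, vermaPh, smul_smul, mul_comm, hψ]
    | cons p l ih =>
      have h1 := verma_minus c ψ b 1 j p.1 0 p.2
      have h2 := verma_minus c ψ b (-1) j p.1 0 p.2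
      have h3 : c.Q (-1) (-1) j p.1 * c.Q 1 (-1) j p.1 = 1 := by
        rw [Q, Q, ← zpow_add₀ c.q0]
        simp
      simp only [vermaSh, zero_mul, mul_zero, smul_zero, zero_add, sub_zero] at h1 h2
      rw [← vermaY_b, ← Module.End.mul_apply, mul_assoc, h2, mul_smul_comm, ← mul_assoc, h1,
        smul_mul_assoc, smul_smul, h3, one_smul, mul_assoc, Module.End.mul_apply, ih]
      rfl
  · rcases Int.units_eq_one_or s with rfl | rfl
    · exact verma_r2 (y := vermaP c ψ b i) (verma_plus c ψ b e j i)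
    · exact verma_r2 (y := vermaY b i) (verma_minus c ψ b e j i)
  · exact sub_eq_iff_eq_add'.mpr (verma_xx c ψ b i j r t)

lemma verma_descend {V : Type*} [AddCommGroup V] [Module ℂ V]
    {x : ℤˣ → I → ℤ → Module.End ℂ M} {φ : ℤˣ → I → ℕ → Module.End ℂ M}
    {x' : ℤˣ → I → ℤ → Module.End ℂ V} {φ' : ℤˣ → I → ℕ → Module.End ℂ V}
    (h : c.IsRep x φ) (π : M →ₗ[ℂ] V) (hπ : Function.Surjective π)
    (hx : ∀ s i r w, x' s i r (π w) = π (x s i r w))
    (hφ : ∀ e i m w, φ' e i m (π w) = π (φ e i m w)) : c.IsRep x' φ' := by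
  have ext : ∀ {A B : Module.End ℂ V}, (∀ w, A (π w) = B (π w)) → A = B := fun h =>
    LinearMap.ext fun w => by obtain ⟨w, rfl⟩ := hπ w; exact h w
  have hP : ∀ i n w, Phi φ' i n (π w) = π (Phi φ i n w) := fun i n w => by
    unfold Phi
    split_ifs <;> simp [hφ]
  refine ⟨fun i => ext fun w => ?_, fun e i m e' j n => ext fun w => ?_,
    fun e i s j => ⟨fun r => ext fun w => ?_, fun m r => ext fun w => ?_⟩,
    fun i j r t => ext fun w => ?_⟩
  · simpa [hφ] using congrArg (fun A => π (A w)) (h.inv i)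
  · simpa [hφ] using congrArg (fun A => π (A w)) (h.comm e i m e' j n)
  · simpa [hφ, hx] using congrArg (fun A => π (A w)) ((h.r2 e i s j).zero r)
  · simpa [hφ, hx] using congrArg (fun A => π (A w)) ((h.r2 e i s j).succ m r)
  · have := congrArg (fun A => π (A w)) (h.xx i j r t)
    split_ifs at this ⊢ <;> simpa [hx, hP] using this

include b in
lemma verma_HW (hψ : ∀ i, ψ 1 i 0 * ψ (-1) i 0 = 1) :
    ∃ (V : Type u) (_ : AddCommGroup V) (_ : Module ℂ V) (x : ℤˣ → I → ℤ → Module.End ℂ V)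
      (φ : ℤˣ → I → ℕ → Module.End ℂ V) (v : V) (lam : V →ₗ[ℂ] ℂ), c.HW x φ v ψ lam := by
  obtain ⟨R, hR⟩ : ∃ R, R = sSup {W | Inv (vermaX c ψ b) (vermaPhi c ψ b) W ∧
    W ≤ LinearMap.ker (b.coord [])} := ⟨_, rfl⟩
  have h0 : ∀ W, Inv (vermaX c ψ b) (vermaPhi c ψ b) W → W ≤ LinearMap.ker (b.coord []) → W ≤ R :=
    fun W h h' => hR ▸ le_sSup (by exact ⟨h, h'⟩)
  have h1 : ∀ s i r, R ≤ R.comap (vermaX c ψ b s i r) := fun s i r =>
    hR.le.trans (sSup_le fun W hW w hw => h0 W hW.1 hW.2 (hW.1.1 s i r w hw))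
  have h2 : ∀ e i m, R ≤ R.comap (vermaPhi c ψ b e i m) := fun e i m =>
    hR.le.trans (sSup_le fun W hW w hw => h0 W hW.1 hW.2 (hW.1.2 e i m w hw))
  have h3 : R ≤ LinearMap.ker (b.coord []) := hR.le.trans (sSup_le fun W hW => hW.2)
  obtain ⟨x, hx⟩ : ∃ x : ℤˣ → I → ℤ → Module.End ℂ (M ⧸ R), ∀ s i r w,
      x s i r (R.mkQ w) = R.mkQ (vermaX c ψ b s i r w) :=
    ⟨fun s i r => R.mapQ _ _ (h1 s i r), fun _ _ _ _ => rfl⟩
  obtain ⟨φ, hφ⟩ : ∃ φ : ℤˣ → I → ℕ → Module.End ℂ (M ⧸ R), ∀ e i m w,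
      φ e i m (R.mkQ w) = R.mkQ (vermaPhi c ψ b e i m w) :=
    ⟨fun e i m => R.mapQ _ _ (h2 e i m), fun _ _ _ _ => rfl⟩
  have hy : ∀ i r, vermaX c ψ b (-1) i r = vermaY b i r := fun _ _ => rfl
  refine ⟨_, inferInstance, inferInstance, x, φ, R.mkQ (b []), R.liftQ _ h3,
    ⟨verma_descend c (verma_rep c ψ b hψ) _ R.mkQ_surjective hx hφ,
      fun i r => ?_, fun e i m => ?_⟩, ?_, ?_, fun i r w => ?_, fun W hW hW' => ?_⟩
  · rw [hx]
    exact (congrArg _ (vermaP_b c ψ b i r [])).trans (map_zero _)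
  · rw [hφ, vermaPhi_b, vermaPh, map_smul]
  · have h4 : ∀ l, wd x l (R.mkQ (b [])) = R.mkQ (b l) := fun l => by
      induction l with
      | nil => rfl
      | cons p l ih =>
        rw [← vermaY_b, ← hy, ← hx, ← ih]
        rfl
    rw [eq_top_iff, ← R.range_mkQ, LinearMap.range_eq_map, ← b.span_eq, Submodule.map_span,
      Submodule.span_le]
    rintro _ ⟨_, ⟨l, rfl⟩, rfl⟩
    exact Submodule.mem_iSup_of_mem (l.map Prod.fst : List I)
      (Submodule.subset_span ⟨l, rfl, (h4 l).symm⟩)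
  · simp
  · obtain ⟨w, rfl⟩ := R.mkQ_surjective w
    rw [hx, hy]
    exact LinearMap.congr_fun (b.ext (f₁ := b.coord [] ∘ₗ vermaY b i r) (f₂ := 0) fun l => by
      simp [vermaY_b]) w
  · have := h0 (W.comap R.mkQ) ⟨fun s i r w hw => by
      rw [Submodule.mem_comap, ← hx]; exact hW.1 s i r _ hw, fun e i m w hw => by
      rw [Submodule.mem_comap, ← hφ]; exact hW.2 e i m _ hw⟩ fun w hw => hW' hw
    refine eq_bot_iff.mpr fun w hw => ?_
    obtain ⟨w, rfl⟩ := R.mkQ_surjective w
    exact (Submodule.Quotient.mk_eq_zero _).mpr (this hw)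

end verma

theorem exists_HW {I : Type u} [Fintype I] [DecidableEq I] (c : CD I) (ψ : ℤˣ → I → ℕ → ℂ)
    (hψ : ∀ i, ψ 1 i 0 * ψ (-1) i 0 = 1) :
    ∃ (V : Type u) (_ : AddCommGroup V) (_ : Module ℂ V) (x : ℤˣ → I → ℤ → Module.End ℂ V)
      (φ : ℤˣ → I → ℕ → Module.End ℂ V) (v : V) (lam : V →ₗ[ℂ] ℂ), c.HW x φ v ψ lam :=
  verma_HW c ψ Finsupp.basisSingleOne hψ

end CD

end Pool.Agent.Lib.MP_4354a3_al.KC
end
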