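import Mathlib

/-!
# Kirillov-Reshetikhin characters and the Verlinde ring: definitions

Characters live in the group ring `ℤ[P]` of the weight lattice `P = M`.
-/

namespace Pool.Agent.Lib.MP_4354a3_al

open Set

/-- The root data of a complex simple Lie algebra: `M` is the weight lattice, `N` the coroot
lattice, `b` the simple roots, `θ` the highest root, `ω a` the fundamental weights, and
`t α = (θ|θ)/(α|α)`, that is `2/(α|α)₀` for the form normalised by `(θ|θ)₀ = 2`. -/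
structure SimpleDatum (ι M N : Type*) [Fintype ι] [DecidableEq ι] [AddCommGroup M]
    [AddCommGroup N] where
  P : RootPairing ι ℤ M N
  reduced : P.IsReduced
  span_coroot : Submodule.span ℤ (range P.coroot) = ⊤
  b : P.Base
  θ : ι
  highest : ∀ α, P.root θ - P.root α ∈ AddSubmonoid.closure (P.root '' b.support)
  ω : b.support → M
  coroot_ω : ∀ a j : b.support, P.coroot' j (ω a) = if j = a then 1 else 0
  t : ι → ℕ
  t_spec : ∀ α, (t α : ℤ) * P.RootForm (P.root α) (P.root α) =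
    P.RootForm (P.root θ) (P.root θ)

namespace SimpleDatum

variable {ι M N : Type*} [Fintype ι] [DecidableEq ι] [AddCommGroup M] [AddCommGroup N]
  (D : SimpleDatum ι M N)

/-- The Weyl vector. -/
def rho : M := ∑ a, D.ω a

/-- The dual Coxeter number `1 + (ρ|θ)₀`. -/
def hv : ℤ := 1 + D.P.coroot' D.θ D.rho

/-- Dominant integral weights. -/
def IsDom (μ : M) : Prop := ∀ j : D.b.support, 0 ≤ D.P.coroot' j μ

/-- The set `P^k_+`. -/
def InAlcove (k : ℕ) (μ : M) : Prop := D.IsDom μ ∧ D.P.coroot' D.θ μ ≤ k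

/-- The Weyl group. -/
def weyl : Subgroup (M ≃ₗ[ℤ] M) := Subgroup.closure (range D.P.reflection)

/-- The alternant `∑_{w ∈ W} det(w) e^{w x}`. -/
noncomputable def alt (x : M) : AddMonoidAlgebra ℤ M :=
  ∑ᶠ w : D.weyl, AddMonoidAlgebra.single (w.1 x) ((LinearEquiv.det w.1 : ℤˣ) : ℤ)

/-- `χ = ∑ c_μ ch L(μ)` over dominant `μ`, where `ch L(μ) = alt (μ + ρ) / alt ρ` (Weyl). -/
def IsClass (χ : AddMonoidAlgebra ℤ M) (c : M →₀ ℤ) : Prop :=
  (∀ μ ∈ c.support, D.IsDom μ) ∧ χ * D.alt D.rho = c.sum fun μ n => n • D.alt (μ + D.rho)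

/-- The group generated by `W` and the translations by `(k + h^∨) α^∨`, `α^∨ = t_α α`. -/
def affWeyl (k : ℕ) : Subgroup (M ≃ᵃ[ℤ] M) :=
  Subgroup.closure ((range fun α => (D.P.reflection α).toAffineEquiv) ∪
    range fun α => AffineEquiv.constVAdd ℤ M (((k + D.hv) * D.t α) • D.P.root α))

open Classical in
/-- `π_k([L(μ)])` in the free abelian group on weights; the sign `(-1)^ℓ(w)` is the determinant
of the linear part of `w`. -/
noncomputable def piK (k : ℕ) (μ : M) : M →₀ ℤ :=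
  if ∃ w ∈ D.affWeyl k, w ≠ 1 ∧ w (μ + D.rho) = μ + D.rho then 0
  else if h : ∃ w ∈ D.affWeyl k, D.InAlcove k (w (μ + D.rho) - D.rho) then
    Finsupp.single (h.choose (μ + D.rho) - D.rho) ((LinearEquiv.det h.choose.linear : ℤˣ) : ℤ)
  else 0

/-- `y = π_k([χ])`. -/
def IsImage (k : ℕ) (χ : AddMonoidAlgebra ℤ M) (y : M →₀ ℤ) : Prop :=
  ∃ c, D.IsClass χ c ∧ y = c.sum fun μ n => n • D.piK k μ

/-- `y` is invertible for the product of the Verlinde ring, `π_k(χ) π_k(χ') = π_k(χ χ')`. -/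
def IsFusionUnit (k : ℕ) (y : M →₀ ℤ) : Prop :=
  ∃ χ χ' y', D.IsImage k χ y ∧ D.IsImage k χ' y' ∧ D.IsImage k (χ * χ') (Finsupp.single 0 1)

/-- `|C_{ab}|` with `C_{ab} = ⟨α_b, α_a^∨⟩`. -/
def absC (a b : D.b.support) : ℕ := (D.P.coroot' a (D.P.root b)).natAbs

/-- The Kuniba-Nakanishi-Tsuboi characterisation of the characters `Q a m` of the
Kirillov-Reshetikhin modules `W^{(a)}_m`: the Q-system, highest weight `m ω_a`, and convergence
of `e^{-m ω_a} Q a m` as `m → ∞`. -/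
structure IsKRFamily (Q : D.b.support → ℕ → AddMonoidAlgebra ℤ M) : Prop where
  zero : ∀ a, Q a 0 = 1
  qsystem : ∀ a m, Q a (m + 1) ^ 2 = Q a (m + 2) * Q a m +
    ∏ b ∈ Finset.univ.erase a, ∏ k ∈ Finset.range (D.absC a b),
      Q b ((D.absC b a * (m + 1) + k) / D.absC a b)
  top : ∀ a m, (Q a m).coeff (m • D.ω a) = 1
  below : ∀ a m, ∀ x ∈ (Q a m).coeff.support,
    m • D.ω a - x ∈ AddSubmonoid.closure (D.P.root '' D.b.support)
  converge : ∀ a β, ∃ m₀, ∀ m ≥ m₀,
    (Q a m).coeff (m • D.ω a - β) = (Q a m₀).coeff (m₀ • D.ω a - β)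

end SimpleDatum

end Pool.Agent.Lib.MP_4354a3_al
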