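import Mathlib
import Pool.Agent.Lib.MP_4354a3_al.Alg

-- part Pool.Agent.Lib.MP_4354a3_al.Sys
section

/-!
# Abstract reflection systems and Bruhat chains

An abstract version of the positive real roots of an affine root system acting on weights
modulo the null root, with the inversion-count length function and Bruhat chains with the
integrality condition of Lakshmibai-Seshadri paths.
-/

namespace Pool.Agent.Lib.MP_4354a3_al

open Function

/-- Abstract system of positive real roots acting on a weight group `E`. -/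
structure Sys (E R I : Type*) [AddCommGroup E] where
  root : R → E
  co : R → E →+ ℤ
  lev : E →+ ℤ
  simp : I → R
  rho : E
  co_root : ∀ β, co β (root β) = 2
  lev_root : ∀ β, lev (root β) = 0
  co_rho : ∀ i, co (simp i) rho = 1
  lev_rho : 0 < lev rho
  co_inj : Injective co
  refl_ex : ∀ i β, β ≠ simp i → ∃ β', (∀ x, co β' x = co β (x - co (simp i) x • root (simp i))) ∧
    root β' = root β - co (simp i) (root β) • root (simp i)
  dom : ∀ x, (∀ i, 0 ≤ co (simp i) x) → ∀ β, 0 ≤ co β x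
  sdom : ∀ x, (∀ i, 0 < co (simp i) x) → ∀ β, 0 < co β x
  fin : ∀ x, 0 < lev x → {β | co β x < 0}.Finite
  dom0 : ∀ x, lev x = 0 → (∀ i, 0 ≤ co (simp i) x) → x = 0

namespace Sys

variable {E R I : Type*} [AddCommGroup E] (S : Sys E R I)

/-- Simple coroot. -/
abbrev c (i : I) : E →+ ℤ := S.co (S.simp i)

/-- Simple root. -/
abbrev a (i : I) : E := S.root (S.simp i)

/-- The reflection in the root `β`. -/
def s (β : R) : E ≃+ E where
  toFun x := x - S.co β x • S.root β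
  invFun x := x - S.co β x • S.root β
  left_inv x := by
    simp only [map_sub, map_zsmul, S.co_root, smul_eq_mul]
    module
  right_inv x := by
    simp only [map_sub, map_zsmul, S.co_root, smul_eq_mul]
    module
  map_add' x y := by
    simp only [map_add]
    module

/-- Simple reflection. -/
abbrev si (i : I) : E ≃+ E := S.s (S.simp i)

lemma s_apply (β : R) (x : E) : S.s β x = x - S.co β x • S.root β := rfl

@[simp] lemma s_s (β : R) (x : E) : S.s β (S.s β x) = x := (S.s β).left_inv x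

@[simp] lemma s_symm (β : R) : (S.s β).symm = S.s β := rfl

@[simp] lemma co_s (β : R) (x : E) : S.co β (S.s β x) = - S.co β x := by
  simp only [s_apply, map_sub, map_zsmul, S.co_root, smul_eq_mul]; ring

@[simp] lemma lev_s (β : R) (x : E) : S.lev (S.s β x) = S.lev x := by
  simp [s_apply, S.lev_root]

@[simp] lemma s_root (β : R) : S.s β (S.root β) = - S.root β := by
  simp only [s_apply, S.co_root]; module

lemma s_eq_self {β : R} {x : E} (h : S.co β x = 0) : S.s β x = x := by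
  simp [s_apply, h]

lemma co_rho_pos (β : R) : 0 < S.co β S.rho :=
  S.sdom _ (fun i => by rw [S.co_rho]; exact one_pos) β

open Classical in
/-- The permutation of the positive roots other than `α_i` induced by `s_i`. -/
noncomputable def perm (i : I) (β : R) : R :=
  if h : β ≠ S.simp i then (S.refl_ex i β h).choose else β

lemma co_perm {i : I} {β : R} (h : β ≠ S.simp i) (x : E) :
    S.co (S.perm i β) x = S.co β (S.si i x) := by
  rw [perm, dif_pos h]
  exact (S.refl_ex i β h).choose_spec.1 x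

lemma root_perm {i : I} {β : R} (h : β ≠ S.simp i) :
    S.root (S.perm i β) = S.si i (S.root β) := by
  rw [perm, dif_pos h]
  exact (S.refl_ex i β h).choose_spec.2

lemma co_perm_si {i : I} {β : R} (h : β ≠ S.simp i) (x : E) :
    S.co (S.perm i β) (S.si i x) = S.co β x := by
  rw [S.co_perm h, s_s]

lemma perm_ne {i : I} {β : R} (h : β ≠ S.simp i) : S.perm i β ≠ S.simp i := by
  intro h'
  have h1 := S.co_perm_si h S.rho
  rw [h', co_s] at h1
  have h2 := S.co_rho_pos β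
  have h3 := S.co_rho_pos (S.simp i)
  omega

lemma perm_perm {i : I} {β : R} (h : β ≠ S.simp i) : S.perm i (S.perm i β) = β := by
  apply S.co_inj
  ext x
  rw [S.co_perm (S.perm_ne h), S.co_perm_si h]

lemma s_perm {i : I} {β : R} (h : β ≠ S.simp i) (x : E) :
    S.s (S.perm i β) (S.si i x) = S.si i (S.s β x) := by
  rw [s_apply, S.co_perm_si h, S.root_perm h, S.s_apply β, map_sub, map_zsmul]

/-- Inversion set. -/
def inv (x : E) : Set R := {β | S.co β x < 0}

/-- Number of inversions. -/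
noncomputable def L (x : E) : ℕ := (S.inv x).ncard

lemma inv_fin {x : E} (h : 0 < S.lev x) : (S.inv x).Finite := S.fin x h

lemma L_si_neg {x : E} (hx : 0 < S.lev x) {i : I} (h : S.c i x < 0) :
    S.L x = S.L (S.si i x) + 1 := by
  have hx' : 0 < S.lev (S.si i x) := by rwa [lev_s]
  have hn : S.simp i ∉ S.inv (S.si i x) := by
    simp only [inv, Set.mem_ofPred_eq, co_s]; simp only [c] at h; omega
  have e : S.inv x = insert (S.simp i) (S.perm i '' S.inv (S.si i x)) := by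
    ext β
    simp only [Set.mem_insert_iff, Set.mem_image, inv, Set.mem_ofPred_eq]
    constructor
    · intro hβ
      by_cases hb : β = S.simp i
      · exact Or.inl hb
      · exact Or.inr ⟨S.perm i β, by rwa [S.co_perm_si hb], S.perm_perm hb⟩
    · rintro (rfl | ⟨γ, hγ, rfl⟩)
      · exact h
      · have : γ ≠ S.simp i := fun e => hn (e ▸ hγ)
        rwa [S.co_perm this]
  have hinj : Set.InjOn (S.perm i) (S.inv (S.si i x)) := by
    intro β hβ γ hγ e
    have h1 : β ≠ S.simp i := fun e => hn (e ▸ hβ)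
    have h2 : γ ≠ S.simp i := fun e => hn (e ▸ hγ)
    rw [← S.perm_perm h1, e, S.perm_perm h2]
  have hn' : S.simp i ∉ S.perm i '' S.inv (S.si i x) := by
    rintro ⟨γ, hγ, e⟩
    exact S.perm_ne (fun e => hn (e ▸ hγ)) e
  rw [L, e, Set.ncard_insert_of_notMem hn' ((S.inv_fin hx').image _), hinj.ncard_image, L]

lemma L_si {x : E} (hx : 0 < S.lev x) (i : I) :
    (S.L (S.si i x) : ℤ) = S.L x + (S.c i x).sign := by
  rcases lt_trichotomy (S.c i x) 0 with h | h | h
  · rw [S.L_si_neg hx h, Int.sign_eq_neg_one_of_neg h]; push_cast; ring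
  · rw [S.s_eq_self h, h]; simp
  · have h1 : S.c i (S.si i x) < 0 := by rw [co_s]; simp only [c] at h; omega
    have := S.L_si_neg (x := S.si i x) (by rwa [lev_s]) h1
    rw [s_s] at this
    rw [this, Int.sign_eq_one_of_pos h]; push_cast; ring

/-- Dominant. -/
def Dom (x : E) : Prop := ∀ i, 0 ≤ S.c i x

lemma ex_neg {x : E} {β : R} (h : S.co β x < 0) : ∃ i, S.c i x < 0 := by
  by_contra hc
  push Not at hc
  exact absurd (S.dom x hc β) (by omega)

lemma L_s_lt {x : E} (hx : 0 < S.lev x) {β : R} (h : S.co β x < 0) :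
    S.L (S.s β x) < S.L x := by
  induction hn : S.L x using Nat.strong_induction_on generalizing x β with
  | _ n ih =>
  obtain ⟨i, hi⟩ := S.ex_neg h
  have h1 := S.L_si_neg hx hi
  by_cases hb : β = S.simp i
  · subst hb; simp only [si] at h1; omega
  · have h2 := ih _ (by omega) (x := S.si i x) (β := S.perm i β) (by rwa [lev_s])
      (by rwa [S.co_perm_si hb]) rfl
    rw [S.s_perm hb] at h2
    have h3 := S.L_si (x := S.s β x) (by rwa [lev_s]) i
    have h4 : -1 ≤ (S.c i (S.s β x)).sign := by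
      rcases lt_trichotomy (S.c i (S.s β x)) 0 with h | h | h
      · rw [Int.sign_eq_neg_one_of_neg h]
      · rw [h]; simp
      · rw [Int.sign_eq_one_of_pos h]; omega
    omega

lemma L_eq_zero_of_dom {x : E} (h : S.Dom x) : S.L x = 0 := by
  have : S.inv x = ∅ := by
    ext β; simpa [inv] using S.dom x h β
  simp [L, this]

/-- Induction along descents by simple reflections. -/
lemma desc_induction {p : E → Prop} (hd : ∀ x, 0 < S.lev x → S.Dom x → p x)
    (hs : ∀ x i, 0 < S.lev x → S.c i x < 0 → p (S.si i x) → p x) {x : E} (hx : 0 < S.lev x) :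
    p x := by
  induction hn : S.L x using Nat.strong_induction_on generalizing x with
  | _ n ih =>
  by_cases h : S.Dom x
  · exact hd x hx h
  · simp only [Dom, not_forall, not_le] at h
    obtain ⟨i, hi⟩ := h
    have := S.L_si_neg hx hi
    exact hs x i hx hi (ih _ (by omega) (by rwa [lev_s]) rfl)

variable (N : ℤ)

/-- A Bruhat cover allowed at remaining time `T`. -/
def Step (T : ℤ) (κ κ' : E) : Prop :=
  ∃ β, S.co β κ < 0 ∧ κ' = S.s β κ ∧ S.L κ = S.L κ' + 1 ∧ N ∣ T * S.co β κ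

/-- Chains of allowed covers. -/
def Ch (T : ℤ) : E → E → Prop := Relation.ReflTransGen (S.Step N T)

variable {S N}

lemma Step.lev {T : ℤ} {κ κ' : E} (h : S.Step N T κ κ') : S.lev κ' = S.lev κ := by
  obtain ⟨β, -, rfl, -⟩ := h; simp

lemma Ch.refl (T : ℤ) (κ : E) : S.Ch N T κ κ := Relation.ReflTransGen.refl

lemma Ch.trans {T : ℤ} {x y z : E} (h : S.Ch N T x y) (h' : S.Ch N T y z) : S.Ch N T x z :=
  Relation.ReflTransGen.trans h h'

lemma Step.ch {T : ℤ} {κ κ' : E} (h : S.Step N T κ κ') : S.Ch N T κ κ' :=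
  Relation.ReflTransGen.single h

lemma Ch.lev {T : ℤ} {κ κ' : E} (h : S.Ch N T κ κ') : S.lev κ' = S.lev κ := by
  induction h with
  | refl => rfl
  | tail _ h2 ih => rw [h2.lev, ih]

lemma Ch.L_le {T : ℤ} {κ κ' : E} (h : S.Ch N T κ κ') : S.L κ' ≤ S.L κ := by
  induction h with
  | refl => exact le_rfl
  | tail _ h2 ih => obtain ⟨β, -, -, h3, -⟩ := h2; omega

lemma Ch.eq_or_L_lt {T : ℤ} {κ κ' : E} (h : S.Ch N T κ κ') : κ' = κ ∨ S.L κ' < S.L κ := by
  induction h with
  | refl => exact Or.inl rfl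
  | tail h1 h2 ih =>
    obtain ⟨β, -, -, h3, -⟩ := h2
    have := Ch.L_le (T := T) h1
    right; omega

lemma Ch.zero {T : ℤ} {κ κ' : E} (h : S.Ch N T κ κ') : S.Ch N 0 κ κ' := by
  induction h with
  | refl => exact Ch.refl _ _
  | tail _ h2 ih =>
    obtain ⟨β, h3, h4, h5, -⟩ := h2
    exact ih.trans (Step.ch ⟨β, h3, h4, h5, by simp⟩)

lemma Ch.zero_N {N' : ℤ} {κ κ' : E} (h : S.Ch N 0 κ κ') : S.Ch N' 0 κ κ' := by
  induction h with
  | refl => exact Ch.refl _ _
  | tail _ h2 ih =>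
    obtain ⟨β, h3, h4, h5, -⟩ := h2
    exact ih.trans (Step.ch ⟨β, h3, h4, h5, by simp⟩)

/-- Divisibility of a chain, inside any subgroup containing the roots. -/
lemma Ch.dvd (K : AddSubgroup E) (hK : ∀ β, S.root β ∈ K) {T : ℤ} {κ κ' : E}
    (h : S.Ch N T κ κ') : ∃ z ∈ K, T • κ' = T • κ + N • z := by
  induction h with
  | refl => exact ⟨0, K.zero_mem, by simp⟩
  | tail _ h2 ih =>
    obtain ⟨z, hz, e⟩ := ih
    obtain ⟨β, -, rfl, -, q, hq⟩ := h2
    refine ⟨z - q • S.root β, K.sub_mem hz (K.zsmul_mem (hK β) q), ?_⟩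
    rw [s_apply, smul_sub, e, smul_smul, hq]
    module

lemma Ch.dvd_co {T : ℤ} {κ κ' : E} (h : S.Ch N T κ κ') (f : E →+ ℤ) :
    N ∣ T * f κ' - T * f κ := by
  obtain ⟨z, -, e⟩ := h.dvd ⊤ (fun _ => trivial)
  have := congrArg f e
  simp only [map_add, map_zsmul, smul_eq_mul] at this
  exact ⟨f z, by omega⟩

lemma step_simple {T : ℤ} {κ : E} (hκ : 0 < S.lev κ) {i : I} (h : S.c i κ < 0)
    (hd : N ∣ T * S.c i κ) : S.Step N T κ (S.si i κ) :=
  ⟨S.simp i, h, rfl, S.L_si_neg hκ h, hd⟩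

lemma ch_simple {T : ℤ} {κ : E} (hκ : 0 < S.lev κ) {i : I} (h : S.c i κ ≤ 0)
    (hd : N ∣ T * S.c i κ) : S.Ch N T κ (S.si i κ) := by
  rcases h.lt_or_eq with h | h
  · exact (step_simple hκ h hd).ch
  · rw [S.s_eq_self h]; exact Ch.refl _ _

/-- The lifting property for one cover. -/
lemma Step.lift {T : ℤ} {κ κ' : E} (hκ : 0 < S.lev κ) (h : S.Step N T κ κ') (i : I) :
    (S.c i κ < 0 ∧ κ' = S.si i κ ∧ N ∣ T * S.c i κ) ∨
    ((S.c i κ').sign ≤ (S.c i κ).sign ∧
      ((S.c i κ').sign = (S.c i κ).sign → S.Step N T (S.si i κ) (S.si i κ'))) := by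
  obtain ⟨β, h1, rfl, h3, h4⟩ := h
  by_cases hb : β = S.simp i
  · subst hb; exact Or.inl ⟨h1, rfl, h4⟩
  · right
    have h5 := S.L_s_lt (x := S.si i κ) (β := S.perm i β) (by rwa [lev_s])
      (by rwa [S.co_perm_si hb])
    rw [S.s_perm hb] at h5
    have h6 := S.L_si hκ i
    have h7 := S.L_si (x := S.s β κ) (by rwa [lev_s]) i
    refine ⟨by omega, fun e => ⟨S.perm i β, by rwa [S.co_perm_si hb], (S.s_perm hb κ).symm,
      by omega, by rwa [S.co_perm_si hb]⟩⟩

lemma sign_cases (x : ℤ) : (x < 0 ∧ x.sign = -1) ∨ (x = 0 ∧ x.sign = 0) ∨ (0 < x ∧ x.sign = 1) := by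
  rcases lt_trichotomy x 0 with h | h | h
  · exact Or.inl ⟨h, Int.sign_eq_neg_one_of_neg h⟩
  · exact Or.inr (Or.inl ⟨h, by simp [h]⟩)
  · exact Or.inr (Or.inr ⟨h, Int.sign_eq_one_of_pos h⟩)

/-- Nonintegral junction, negative start. -/
lemma Ch.nonint_neg {T : ℤ} {κ κ' : E} (hκ : 0 < S.lev κ) (h : S.Ch N T κ κ') {i : I}
    (hn : ¬ N ∣ T * S.c i κ) (hc : S.c i κ < 0) :
    S.c i κ' < 0 ∧ S.Ch N T (S.si i κ) (S.si i κ') := by
  induction h with
  | refl => exact ⟨hc, Ch.refl _ _⟩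
  | @tail y z h1 h2 ih =>
    have hy : 0 < S.lev y := by rwa [Ch.lev (T := T) h1]
    have hd := Ch.dvd_co (T := T) h1 (S.c i)
    rcases h2.lift hy i with ⟨-, -, h3⟩ | ⟨h3, h4⟩
    · exact absurd (by simpa using h3.sub hd) hn
    · have := sign_cases (S.c i y)
      have := sign_cases (S.c i z)
      exact ⟨by omega, ih.2.trans (h4 (by omega)).ch⟩

/-- Nonintegral junction, positive end. -/
lemma Ch.nonint_pos {T : ℤ} {κ κ' : E} (hκ : 0 < S.lev κ) (h : S.Ch N T κ κ') {i : I}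
    (hn : ¬ N ∣ T * S.c i κ) (hc : 0 < S.c i κ') :
    0 < S.c i κ ∧ S.Ch N T (S.si i κ) (S.si i κ') := by
  induction h using Relation.ReflTransGen.head_induction_on with
  | refl => exact ⟨hc, Ch.refl _ _⟩
  | @head x y h1 h2 ih =>
    have hd := Ch.dvd_co h1.ch (S.c i)
    have hn' : ¬ N ∣ T * S.c i y := fun h => hn (by simpa using h.sub hd)
    obtain ⟨h3, h4⟩ := ih (by rwa [h1.lev]) hn'
    rcases h1.lift hκ i with ⟨-, -, h5⟩ | ⟨h5, h6⟩
    · exact absurd h5 hn
    · have := sign_cases (S.c i x)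
      have := sign_cases (S.c i y)
      exact ⟨by omega, (h6 (by omega)).ch.trans h4⟩

lemma Ch.nonint_ne {T : ℤ} {κ κ' : E} (h : S.Ch N T κ κ') {i : I}
    (hn : ¬ N ∣ T * S.c i κ) : S.c i κ' ≠ 0 := by
  intro h0
  have hd := h.dvd_co (S.c i)
  rw [h0] at hd
  exact hn (by simpa using hd)

variable (S) in
/-- The representative of `{x, s_i x}` with nonnegative `i`-th coordinate. -/
def up (i : I) (x : E) : E := if 0 ≤ S.c i x then x else S.si i x

variable (S) in
/-- The representative of `{x, s_i x}` with nonpositive `i`-th coordinate. -/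
def dn (i : I) (x : E) : E := if S.c i x ≤ 0 then x else S.si i x

lemma up_of_nonneg {i : I} {x : E} (h : 0 ≤ S.c i x) : S.up i x = x := if_pos h

lemma dn_of_nonpos {i : I} {x : E} (h : S.c i x ≤ 0) : S.dn i x = x := if_pos h

lemma up_of_nonpos {i : I} {x : E} (h : S.c i x ≤ 0) : S.up i x = S.si i x := by
  rcases h.lt_or_eq with h | h
  · exact if_neg (by omega)
  · rw [up_of_nonneg h.ge, S.s_eq_self h]

lemma dn_of_nonneg {i : I} {x : E} (h : 0 ≤ S.c i x) : S.dn i x = S.si i x := by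
  rcases h.lt_or_eq with h | h
  · exact if_neg (by omega)
  · rw [dn_of_nonpos h.ge, S.s_eq_self h.symm]

lemma up_si (i : I) (x : E) : S.up i (S.si i x) = S.up i x := by
  rcases le_total 0 (S.c i x) with h | h
  · rw [up_of_nonneg h, up_of_nonpos (by rw [co_s]; simp only [c] at h; omega), s_s]
  · rw [up_of_nonpos h, up_of_nonneg (by rw [co_s]; simp only [c] at h; omega)]

lemma dn_si (i : I) (x : E) : S.dn i (S.si i x) = S.dn i x := by
  rcases le_total 0 (S.c i x) with h | h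
  · rw [dn_of_nonneg h, dn_of_nonpos (by rw [co_s]; simp only [c] at h; omega)]
  · rw [dn_of_nonpos h, dn_of_nonneg (by rw [co_s]; simp only [c] at h; omega), s_s]

/-- Integral junction: monotonicity of chains. -/
lemma Ch.int_mono {T : ℤ} {κ κ' : E} (hκ : 0 < S.lev κ) (h : S.Ch N T κ κ') {i : I}
    (hn : N ∣ T * S.c i κ) :
    S.Ch N T (S.up i κ) (S.up i κ') ∧ S.Ch N T (S.dn i κ) (S.dn i κ') := by
  induction h with
  | refl => exact ⟨Ch.refl _ _, Ch.refl _ _⟩
  | @tail y z h1 h2 ih =>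
    have hy : 0 < S.lev y := by rwa [Ch.lev (T := T) h1]
    have hz : 0 < S.lev z := by rwa [h2.lev]
    have hdy : N ∣ T * S.c i y := by simpa using (Ch.dvd_co (T := T) h1 (S.c i)).add hn
    have hdz : N ∣ T * S.c i z := by simpa using (Ch.dvd_co h2.ch (S.c i)).add hdy
    suffices S.Ch N T (S.up i y) (S.up i z) ∧ S.Ch N T (S.dn i y) (S.dn i z) from
      ⟨ih.1.trans this.1, ih.2.trans this.2⟩
    rcases h2.lift hy i with ⟨-, rfl, -⟩ | ⟨h3, h4⟩
    · rw [up_si, dn_si]; exact ⟨Ch.refl _ _, Ch.refl _ _⟩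
    · have h5 := sign_cases (S.c i y)
      have h6 := sign_cases (S.c i z)
      by_cases e : (S.c i z).sign = (S.c i y).sign
      · rcases le_total 0 (S.c i y) with h7 | h7
        · have h8 : 0 ≤ S.c i z := by omega
          rw [up_of_nonneg h7, up_of_nonneg h8, dn_of_nonneg h7, dn_of_nonneg h8]
          exact ⟨h2.ch, (h4 e).ch⟩
        · have h8 : S.c i z ≤ 0 := by omega
          rw [up_of_nonpos h7, up_of_nonpos h8, dn_of_nonpos h7, dn_of_nonpos h8]
          exact ⟨(h4 e).ch, h2.ch⟩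
      · have h7 : 0 ≤ S.c i y := by omega
        have h8 : S.c i z ≤ 0 := by omega
        rw [up_of_nonneg h7, up_of_nonpos h8, dn_of_nonneg h7, dn_of_nonpos h8]
        refine ⟨h2.ch.trans (ch_simple hz h8 hdz), Ch.trans ?_ h2.ch⟩
        have := ch_simple (N := N) (T := T) (κ := S.si i y) (i := i) (by rwa [lev_s])
          (by rw [co_s]; simp only [c] at h7; omega) (by rw [co_s]; simpa using hdy)
        rwa [s_s] at this

variable (S N) in
lemma ch_finite (T : ℤ) {ζ : E} (hζ : 0 < S.lev ζ) : {κ | S.Ch N T ζ κ}.Finite := by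
  induction hn : S.L ζ using Nat.strong_induction_on generalizing ζ with
  | _ n ih =>
  have : {κ | S.Ch N T ζ κ} ⊆ insert ζ (⋃ β ∈ S.inv ζ, {κ | S.Ch N T (S.s β ζ) κ}) := by
    intro κ hκ
    rcases Relation.ReflTransGen.cases_head hκ with rfl | ⟨y, ⟨β, h1, rfl, -⟩, h2⟩
    · exact Or.inl rfl
    · exact Or.inr (Set.mem_biUnion h1 h2)
  refine Set.Finite.subset (Set.Finite.insert _ ((S.inv_fin hζ).biUnion fun β hβ => ?_)) this
  exact ih _ (hn ▸ S.L_s_lt hζ hβ) (by rwa [lev_s]) rfl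

lemma Ch.eq_of_dom {T : ℤ} {κ κ' : E} (h : S.Ch N T κ κ') (hd : S.Dom κ) : κ' = κ := by
  rcases Relation.ReflTransGen.cases_head h with rfl | ⟨y, ⟨β, h1, -⟩, -⟩
  · rfl
  · exact absurd (S.dom _ hd β) (by omega)

end Sys

end Pool.Agent.Lib.MP_4354a3_al
end

-- part Pool.Agent.Lib.MP_4354a3_al.Gen
section

/-!
# Generating functions of path families and their reflection symmetries
-/

set_option linter.unusedSectionVars false

namespace Pool.Agent.Lib.MP_4354a3_al

open Function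

lemma dvd_cast' {N a b : ℤ} (h : N ∣ a) (e : a = b) : N ∣ b := e ▸ h

namespace Sys

variable {E R I V : Type*} [AddCommGroup E] [AddCommGroup V] (S : Sys E R I) (N : ℤ)

open Classical in
/-- The finite set of directions reachable at remaining time `T`. -/
noncomputable def chs (T : ℤ) (ζ : E) : Finset E :=
  if h : {κ | S.Ch N T ζ κ}.Finite then h.toFinset else ∅

/-- Generating function of paths with `M` unit segments and first direction below `ζ`. -/
noncomputable def g : ℕ → E → GA E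
  | 0, _ => 1
  | M + 1, ζ => ∑ κ ∈ S.chs N ((M + 1 : ℕ) : ℤ) ζ, ex κ * g M κ

/-- All simple coordinates below `ζ` divide `N`. -/
def Valid (ζ : E) : Prop := ∀ κ, S.Ch N 0 ζ κ → ∀ i, S.c i κ ≠ 0 → S.c i κ ∣ N

/-- Push forward along a reflection. -/
noncomputable def ms (β : R) : GA E →+* GA E := mp (S.s β).toAddMonoidHom

/-- Invariance under `x ↦ s_i x + U α_i`. -/
def Sym (i : I) (U : ℤ) (f : GA E) : Prop := ex (U • S.a i) * S.ms (S.simp i) f = f

/-- Alternating functions. -/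
def Alt (J : E → V) : Prop := ∀ β x, J (S.s β x) = - J x

variable {S N}

lemma mem_chs {T : ℤ} {ζ κ : E} (h : 0 < S.lev ζ) : κ ∈ S.chs N T ζ ↔ S.Ch N T ζ κ := by
  rw [chs, dif_pos (S.ch_finite N T h)]; simp

@[simp] lemma g_zero (ζ : E) : S.g N 0 ζ = 1 := rfl

lemma g_succ (M : ℕ) (ζ : E) :
    S.g N (M + 1) ζ = ∑ κ ∈ S.chs N ((M + 1 : ℕ) : ℤ) ζ, ex κ * S.g N M κ := rfl

lemma Valid.ch {T : ℤ} {ζ κ : E} (h : S.Valid N ζ) (h' : S.Ch N T ζ κ) : S.Valid N κ :=
  fun _ h2 => h _ (h'.zero.trans h2)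

lemma Valid.of_dvd {N' : ℤ} {ζ : E} (h : S.Valid N ζ) (h' : N ∣ N') : S.Valid N' ζ :=
  fun κ h2 i hi => (h κ h2.zero_N i hi).trans h'

@[simp] lemma ms_ex (β : R) (x : E) : S.ms β (ex x) = ex (S.s β x) := by simp [ms]

section SymLemmas

variable {i : I} {U U' : ℤ} {f f' : GA E}

lemma Sym.add (h : S.Sym i U f) (h' : S.Sym i U f') : S.Sym i U (f + f') := by
  unfold Sym at *; rw [map_add, mul_add, h, h']

lemma Sym.neg (h : S.Sym i U f) : S.Sym i U (-f) := by
  unfold Sym at *; rw [map_neg, mul_neg, h]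

lemma Sym.sub (h : S.Sym i U f) (h' : S.Sym i U f') : S.Sym i U (f - f') := by
  rw [sub_eq_add_neg]; exact h.add h'.neg

lemma sym_zero : S.Sym i U 0 := by simp [Sym]

lemma sym_one : S.Sym i 0 1 := by simp [Sym]

lemma Sym.sum {ι : Type*} (s : Finset ι) {F : ι → GA E} (h : ∀ j ∈ s, S.Sym i U (F j)) :
    S.Sym i U (∑ j ∈ s, F j) :=
  Finset.sum_induction F (fun u => S.Sym i U u) (fun _ _ => Sym.add) sym_zero h

lemma Sym.mul (h : S.Sym i U f) (h' : S.Sym i U' f') : S.Sym i (U + U') (f * f') := by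
  unfold Sym at *
  rw [map_mul, add_smul, ex_add]
  calc _ = (ex (U • S.a i) * S.ms (S.simp i) f) * (ex (U' • S.a i) * S.ms (S.simp i) f') := by ring
    _ = _ := by rw [h, h']

lemma Sym.cast (h : S.Sym i U f) (e : U = U') : S.Sym i U' f := e ▸ h

lemma sym_ex (x : E) : S.Sym i (S.c i x) (ex x) := by
  simp only [Sym, ms_ex, ← ex_add, s_apply]; congr 1; abel

lemma sym_one_add (U : ℤ) : S.Sym i U (1 + ex (U • S.a i)) := by
  simp only [Sym, map_add, map_one, ms_ex, mul_add, mul_one, ← ex_add, map_zsmul, s_root]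
  simp [add_comm]

lemma Sym.half (h : S.Sym i U (f + f)) : S.Sym i U f := by
  unfold Sym at *
  apply two_cancel
  rw [← mul_add, ← map_add, h]

lemma Sym.ev_eq_zero [IsAddTorsionFree V] {J : E → V} (hJ : S.Alt J) (h : S.Sym i 0 f) :
    ev J f = 0 := by
  apply eq_zero_of_eq_neg
  simp only [Sym, zero_smul, ex_zero, one_mul] at h
  nth_rewrite 1 [← h]
  rw [ms, ev_mp, ← ev_neg]
  congr 2
  ext x
  exact hJ _ _

end SymLemmas

variable (S N) in
/-- The statement of the key symmetry at time `M`. -/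
def KeyAt (i : I) (M : ℕ) : Prop :=
  ∀ ζ u, 0 < S.lev ζ → 0 ≤ S.c i ζ → S.Valid N (S.si i ζ) → 0 ≤ u → u < N →
    N ∣ M * S.c i ζ - u →
    S.Sym i (-u) (S.g N M (S.si i ζ)) ∧
      S.Sym i (u - N) (S.g N M ζ - ex (u • S.a i) * S.g N M (S.si i ζ))

lemma KeyAt.pos {i : I} {M : ℕ} (H : S.KeyAt N i M) {κ : E} {w : ℤ} (hκ : 0 < S.lev κ)
    (hc : 0 < S.c i κ) (hv : S.Valid N (S.si i κ)) (hw : 0 < w) (hw' : w ≤ N)
    (hd : N ∣ ((M + 1 : ℕ) : ℤ) * S.c i κ - w) :
    S.Sym i (-w) (ex (S.si i κ) * S.g N M (S.si i κ)) ∧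
      S.Sym i (w - N) (ex κ * S.g N M κ -
        ex (w • S.a i) * (ex (S.si i κ) * S.g N M (S.si i κ))) := by
  have h1 : S.c i κ ∣ N := by
    have := hv _ (Ch.refl _ _) i (by rw [co_s]; simp only [c] at hc; omega)
    rwa [co_s, neg_dvd] at this
  have h2 : S.c i κ ∣ w := by
    have := h1.trans hd
    exact (dvd_sub_right (dvd_mul_left _ _)).1 this
  have h3 : S.c i κ ≤ w := Int.le_of_dvd hw h2
  obtain ⟨k1, k2⟩ := H κ (w - S.c i κ) hκ hc.le hv (by omega) (by omega)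
    (by convert hd using 1; push_cast; ring)
  constructor
  · refine ((sym_ex (S.si i κ)).mul k1).cast ?_
    rw [co_s]; ring
  · have := ((sym_ex κ).mul k2).cast (U' := w - N) (by ring)
    convert this using 1
    rw [mul_sub, ← mul_assoc, ← mul_assoc, ← ex_add, ← ex_add, s_apply]
    congr 3
    module

lemma KeyAt.zero {i : I} {M : ℕ} (hN : 0 < N) (H : S.KeyAt N i M) {κ : E} (hκ : 0 < S.lev κ)
    (hc : S.c i κ = 0) (hv : S.Valid N κ) : S.Sym i 0 (ex κ * S.g N M κ) := by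
  have e : S.si i κ = κ := S.s_eq_self hc
  have := (H κ 0 hκ hc.ge (by rwa [e]) le_rfl hN (by simp [hc])).1
  rw [e] at this
  exact ((sym_ex κ).mul this).cast (by simp [hc])

lemma KeyAt.pair {i : I} {M : ℕ} (hN : 0 < N) (H : S.KeyAt N i M) {κ : E} (hκ : 0 < S.lev κ)
    (hv : S.Valid N (S.dn i κ)) (hd : N ∣ ((M + 1 : ℕ) : ℤ) * S.c i κ) :
    S.Sym i 0 (ex κ * S.g N M κ + ex (S.si i κ) * S.g N M (S.si i κ)) := by
  wlog h : 0 ≤ S.c i κ generalizing κ
  · have := this (κ := S.si i κ) (by rwa [lev_s]) (by rwa [dn_si]) (by rw [co_s]; simpa using hd)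
      (by rw [co_s]; simp only [c] at h; omega)
    rwa [s_s, add_comm] at this
  rw [dn_of_nonneg h] at hv
  rcases h.lt_or_eq with h | h
  · obtain ⟨k1, k2⟩ := H.pos hκ h hv hN le_rfl (hd.sub dvd_rfl)
    have := (k2.cast (U' := 0) (by ring)).add
      (((sym_one_add N).mul k1).cast (U' := 0) (by ring))
    convert this using 1
    ring
  · have e : S.si i κ = κ := S.s_eq_self h.symm
    rw [e] at hv ⊢
    exact (H.zero hN hκ h.symm hv).add (H.zero hN hκ h.symm hv)

lemma KeyAt.closed {i : I} {M : ℕ} (hN : 0 < N) (H : S.KeyAt N i M) (X : Finset E)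
    (hX : ∀ κ ∈ X, S.si i κ ∈ X)
    (h : ∀ κ ∈ X, 0 < S.lev κ ∧ S.Valid N κ ∧ N ∣ ((M + 1 : ℕ) : ℤ) * S.c i κ) :
    S.Sym i 0 (∑ κ ∈ X, ex κ * S.g N M κ) := by
  apply Sym.half
  have e : ∑ κ ∈ X, ex κ * S.g N M κ = ∑ κ ∈ X, ex (S.si i κ) * S.g N M (S.si i κ) :=
    Finset.sum_nbij' (S.si i) (S.si i) hX hX (fun _ _ => S.s_s _ _) (fun _ _ => S.s_s _ _)
      (fun κ _ => by rw [s_s])
  nth_rewrite 2 [e]
  rw [← Finset.sum_add_distrib]
  refine Sym.sum _ fun κ hκ => H.pair hN (h κ hκ).1 ?_ (h κ hκ).2.2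
  unfold dn
  split_ifs
  · exact (h κ hκ).2.1
  · exact (h _ (hX κ hκ)).2.1

lemma KeyAt.succ {i : I} {M : ℕ} (hN : 0 < N) (H : S.KeyAt N i M) : S.KeyAt N i (M + 1) := by
  classical
  intro ζ u hζ hc hv hu hu' hd
  have hζ' : 0 < S.lev (S.si i ζ) := by rwa [lev_s]
  have hcs : S.c i (S.si i ζ) = - S.c i ζ := S.co_s _ _
  have hvζ : S.Valid N ζ := by
    have := ch_simple (N := N) (T := 0) hζ' (i := i) (by omega) (by simp)
    rw [s_s] at this
    exact hv.ch this
  set T : ℤ := ((M + 1 : ℕ) : ℤ) with hT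
  -- negative elements
  have hneg : ∀ l w, 0 < S.lev l → S.c i l < 0 → S.Valid N l → 0 < w → w ≤ N →
      N ∣ T * S.c i l + w → S.Sym i (-w) (ex l * S.g N M l) := by
    intro l w h1 h2 h3 h4 h5 h6
    have := (H.pos (κ := S.si i l) (w := w) (by rwa [lev_s])
      (by rw [co_s]; simp only [c] at h2; omega) (by rwa [s_s]) h4 h5
      (by rw [co_s, ← dvd_neg]; exact dvd_cast' h6 (by ring))).1
    rwa [s_s] at this
  rcases hu.lt_or_eq with hu | rfl
  · -- nonintegral junction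
    have hn : ¬ N ∣ T * S.c i ζ := by
      intro h
      have := Int.le_of_dvd hu ((dvd_sub_right h).1 hd)
      omega
    have hn' : ¬ N ∣ T * S.c i (S.si i ζ) := by rw [hcs]; simpa using hn
    have hc' : 0 < S.c i ζ := by
      rcases hc.lt_or_eq with h | h
      · exact h
      · exact absurd (by simp [← h]) hn
    constructor
    · rw [g_succ]
      refine Sym.sum _ fun l hl => ?_
      rw [mem_chs hζ'] at hl
      refine hneg l u (by rwa [hl.lev]) (hl.nonint_neg hζ' hn' (by omega)).1 (hv.ch hl) hu hu'.le ?_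
      exact dvd_cast' ((hl.dvd_co (S.c i)).sub hd) (by rw [hcs]; ring)
    · rw [g_succ, g_succ, ← Finset.sum_filter_add_sum_filter_not (S.chs N T ζ)
        (fun κ => 0 < S.c i κ)]
      have e : ∑ κ ∈ S.chs N T (S.si i ζ), ex κ * S.g N M κ =
          ∑ κ ∈ (S.chs N T ζ).filter (fun κ => 0 < S.c i κ),
            ex (S.si i κ) * S.g N M (S.si i κ) := by
        refine Finset.sum_nbij' (S.si i) (S.si i) ?_ ?_ (fun _ _ => S.s_s _ _)
          (fun _ _ => S.s_s _ _) (fun κ _ => by rw [s_s])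
        · intro l hl
          rw [mem_chs hζ'] at hl
          obtain ⟨h1, h2⟩ := hl.nonint_neg hζ' hn' (by omega)
          rw [s_s] at h2
          rw [Finset.mem_filter, mem_chs hζ, co_s]
          exact ⟨h2, by simp only [c] at h1; omega⟩
        · intro l hl
          rw [Finset.mem_filter, mem_chs hζ] at hl
          rw [mem_chs hζ']
          exact (hl.1.nonint_pos hζ hn hl.2).2
      rw [e, Finset.mul_sum, add_sub_right_comm, ← Finset.sum_sub_distrib]
      refine Sym.add (Sym.sum _ fun l hl => ?_) (Sym.sum _ fun l hl => ?_)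
      · rw [Finset.mem_filter, mem_chs hζ] at hl
        refine (H.pos (by rwa [hl.1.lev]) hl.2 (hv.ch (hl.1.nonint_pos hζ hn hl.2).2) hu
          hu'.le ?_).2
        exact dvd_cast' ((hl.1.dvd_co (S.c i)).add hd) (by ring)
      · rw [Finset.mem_filter, mem_chs hζ] at hl
        have h0 := hl.1.nonint_ne hn
        refine (hneg l (N - u) (by rwa [hl.1.lev]) (by omega) (hvζ.ch hl.1) (by omega) (by omega)
          ?_).cast (by ring)
        exact dvd_cast' (((hl.1.dvd_co (S.c i)).add hd).add (dvd_refl N)) (by ring)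
  · -- integral junction
    rw [sub_zero] at hd
    have hd' : N ∣ T * S.c i (S.si i ζ) := by rw [hcs]; simpa using hd
    have hdl : ∀ l, S.Ch N T (S.si i ζ) l → N ∣ T * S.c i l := fun l hl => by
      simpa using (hl.dvd_co (S.c i)).add hd'
    have hsub : S.Ch N T (S.si i ζ) ζ := by
      have := ch_simple (N := N) (T := T) hζ' (i := i) (by omega) hd'
      rwa [s_s] at this
    constructor
    · rw [g_succ, neg_zero]
      refine H.closed hN _ (fun l hl => ?_) (fun l hl => ?_)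
      · rw [mem_chs hζ'] at hl ⊢
        rcases le_total 0 (S.c i l) with h | h
        · have := (hl.int_mono hζ' hd').2
          rwa [dn_of_nonpos (by omega), dn_of_nonneg h] at this
        · exact hl.trans (ch_simple (by rwa [hl.lev]) h (hdl l hl))
      · rw [mem_chs hζ'] at hl
        exact ⟨by rwa [hl.lev], hv.ch hl, hdl l hl⟩
    · have hss : S.chs N T ζ ⊆ S.chs N T (S.si i ζ) := fun l hl => by
        rw [mem_chs hζ] at hl; rw [mem_chs hζ']; exact hsub.trans hl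
      rw [g_succ, g_succ, zero_smul, ex_zero, one_mul, ← Finset.sum_sdiff hss,
        sub_add_cancel_right]
      refine Sym.neg (Sym.sum _ fun l hl => ?_)
      rw [Finset.mem_sdiff, mem_chs hζ', mem_chs hζ] at hl
      have h0 : S.c i l < 0 := by
        by_contra h
        have := (hl.1.int_mono hζ' hd').1
        rw [up_si, up_of_nonneg hc, up_of_nonneg (by omega)] at this
        exact hl.2 this
      exact (hneg l N (by rwa [hl.1.lev]) h0 (hv.ch hl.1) hN le_rfl
        ((hdl l hl.1).add dvd_rfl)).cast (by ring)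

theorem key (hN : 0 < N) (i : I) (M : ℕ) : S.KeyAt N i M := by
  induction M with
  | zero =>
    intro ζ u _ _ _ hu hu' hd
    have : u = 0 := by
      rcases hu.lt_or_eq with h | h
      · have := Int.le_of_dvd h (by simpa using hd); omega
      · exact h.symm
    subst this
    exact ⟨by simpa using sym_one, by simpa using sym_zero⟩
  | succ M ih => exact ih.succ hN

/-- Symmetry for a nonpositive direction. -/
lemma sym_neg (hN : 0 < N) {i : I} (M : ℕ) {κ : E} {u : ℤ} (hκ : 0 < S.lev κ) (hc : S.c i κ ≤ 0)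
    (hv : S.Valid N κ) (hu : 0 ≤ u) (hu' : u < N) (hd : N ∣ u + M * S.c i κ) :
    S.Sym i (-u) (S.g N M κ) := by
  have := (key hN i M (S.si i κ) u (by rwa [lev_s]) (by rw [co_s]; simp only [c] at hc; omega)
    (by rwa [s_s]) hu hu' (by rw [co_s, ← dvd_neg]; exact dvd_cast' hd (by ring))).1
  rwa [s_s] at this

variable [IsAddTorsionFree V] {J : E → V}

/-- A path going down from below height `N` reaches the wall. -/
lemma doom (hN : 0 < N) (hJ : S.Alt J) {i : I} (M : ℕ) {y κ : E} (hκ : 0 < S.lev κ)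
    (hc : S.c i κ ≤ 0) (hv : S.Valid N κ) (hu : 0 ≤ S.c i y) (hu' : S.c i y < N)
    (hd : N ∣ S.c i y + M * S.c i κ) : ev J (ex y * S.g N M κ) = 0 :=
  (((sym_ex y).mul (sym_neg hN M hκ hc hv hu hu' hd)).cast (by ring)).ev_eq_zero hJ

/-- One step of doom, from the previous point. -/
lemma doom_step (hN : 0 < N) (hJ : S.Alt J) {i : I} (M : ℕ) {y κ : E} (hκ : 0 < S.lev κ)
    (hc : S.c i κ < 0) (hv : S.Valid N κ) (hu : 0 < S.c i y) (hu' : S.c i y + S.c i κ < N)
    (hd : N ∣ S.c i y + ((M + 1 : ℕ) : ℤ) * S.c i κ) :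
    ev J (ex y * (ex κ * S.g N M κ)) = 0 := by
  rw [← mul_assoc, ← ex_add]
  have h1 : S.c i κ ∣ N := hv _ (Ch.refl _ _) i hc.ne
  have h2 : - S.c i κ ∣ S.c i y := by
    rw [neg_dvd]; exact (dvd_add_left (dvd_mul_left _ _)).1 (h1.trans hd)
  have h3 := Int.le_of_dvd hu h2
  refine doom hN hJ M hκ hc.le hv (by rw [map_add]; omega) (by rwa [map_add]) ?_
  convert hd using 1
  rw [map_add]; push_cast; ring

/-- Moving a simple reflection from one factor to the other. -/
lemma pairing_simple (hN : 0 < N) (hJ : S.Alt J) {i : I} (σ τ : ℕ) {y κ ζ : E}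
    (hy : S.c i y = N) (hκ : 0 < S.lev κ) (hζ : 0 < S.lev ζ) (hc : 0 ≤ S.c i κ)
    (hc' : S.c i ζ ≤ 0) (hv : S.Valid N (S.si i κ)) (hv' : S.Valid N ζ)
    (hd : N ∣ σ * S.c i κ + τ * S.c i ζ) :
    ev J (ex y * (S.g N σ κ * S.g N τ ζ)) =
      ev J (ex y * (S.g N σ (S.si i κ) * S.g N τ (S.si i ζ))) := by
  set u := (σ * S.c i κ) % N with hu
  have hu0 : 0 ≤ u := Int.emod_nonneg _ hN.ne'
  have hu1 : u < N := Int.emod_lt_of_pos _ hN
  have hd1 : N ∣ σ * S.c i κ - u := Int.dvd_self_sub_emod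
  obtain ⟨k1, k2⟩ := key hN i σ κ u hκ hc hv hu0 hu1 hd1
  obtain ⟨k3, k4⟩ := key hN i τ (S.si i ζ) u (by rwa [lev_s])
    (by rw [co_s]; simp only [c] at hc'; omega) (by rwa [s_s]) hu0 hu1
    (by rw [co_s]; exact dvd_cast' (hd1.sub hd) (by ring))
  rw [s_s] at k3 k4
  have e1 := (((sym_ex y).mul (k2.mul k3)).cast (U' := 0) (by omega)).ev_eq_zero hJ
  have e2 := (((sym_ex y).mul (k1.mul k4)).cast (U' := 0) (by omega)).ev_eq_zero hJ
  rw [← sub_eq_zero, ← map_sub, ← sub_eq_zero.2 (e1.trans e2.symm), ← map_sub]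
  congr 1
  ring

/-- The one-step cancellation lemma. -/
lemma one_step (hN : 0 < N) (hJ : S.Alt J) (M : ℕ) {y ζ : E} (hζ : 0 < S.lev ζ)
    (hv : S.Valid N ζ) (hd : ∀ i, N ∣ S.c i y + ((M + 1 : ℕ) : ℤ) * S.c i ζ) (i₀ : I)
    (h0 : 0 ≤ S.c i₀ y) (h1 : S.c i₀ y < N) (p : E → Prop) [DecidablePred p]
    (hp1 : ∀ κ, S.Ch N ((M + 1 : ℕ) : ℤ) ζ κ → ¬ p κ → S.c i₀ κ ≤ 0 ∨
      (S.c i₀ y = 0 ∧ S.Ch N ((M + 1 : ℕ) : ℤ) ζ (S.si i₀ κ)) ∨ ∃ i, S.c i y = N ∧ S.c i κ < 0)
    (hp2 : ∀ κ, S.Ch N ((M + 1 : ℕ) : ℤ) ζ κ → p κ → S.c i₀ y = 0 →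
      ¬ S.Ch N ((M + 1 : ℕ) : ℤ) ζ (S.si i₀ κ)) :
    ev J (ex y * S.g N (M + 1) ζ) =
      ∑ κ ∈ (S.chs N ((M + 1 : ℕ) : ℤ) ζ).filter p, ev J (ex y * (ex κ * S.g N M κ)) := by
  classical
  set T : ℤ := ((M + 1 : ℕ) : ℤ) with hT
  have hdl : ∀ l, S.Ch N T ζ l → ∀ i, N ∣ S.c i y + T * S.c i l := fun l hl i =>
    dvd_cast' ((hl.dvd_co (S.c i)).add (hd i)) (by ring)
  have h3 : ∀ l, S.Ch N T ζ l → (∃ i, S.c i y = N ∧ S.c i l < 0) →
      ev J (ex y * (ex l * S.g N M l)) = 0 := by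
    rintro l hl ⟨i, hi, hi'⟩
    exact doom_step hN hJ M (by rwa [hl.lev]) hi' (hv.ch hl) (by omega) (by omega) (hdl l hl i)
  rw [g_succ, ← Finset.sum_filter_add_sum_filter_not _ p, mul_add, map_add, Finset.mul_sum,
    map_sum, add_eq_left]
  rcases h0.lt_or_eq with h0 | h0
  · rw [Finset.mul_sum, map_sum]
    refine Finset.sum_eq_zero fun l hl => ?_
    rw [Finset.mem_filter, mem_chs hζ] at hl
    rcases hp1 l hl.1 hl.2 with h | h | h
    · have hne : S.c i₀ l ≠ 0 := by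
        intro e
        have := hdl l hl.1 i₀
        rw [e, mul_zero, add_zero] at this
        have := Int.le_of_dvd h0 this
        omega
      exact doom_step hN hJ M (i := i₀) (by rwa [hl.1.lev]) (by omega) (hv.ch hl.1) h0 (by omega)
        (hdl l hl.1 i₀)
    · omega
    · exact h3 l hl.1 h
  · rw [← Finset.sum_filter_add_sum_filter_not _ (fun l => S.Ch N T ζ (S.si i₀ l)), mul_add,
      map_add]
    have hdl' : ∀ l, S.Ch N T ζ l → N ∣ T * S.c i₀ l := fun l hl => by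
      simpa [← h0] using hdl l hl i₀
    have e1 : ev J (ex y * ∑ l ∈ ((S.chs N T ζ).filter (fun l => ¬ p l)).filter
        (fun l => S.Ch N T ζ (S.si i₀ l)), ex l * S.g N M l) = 0 := by
      refine (((sym_ex y).mul ((key hN i₀ M).closed hN _ (fun l hl => ?_)
        (fun l hl => ?_))).cast (by omega)).ev_eq_zero hJ
      · simp only [Finset.mem_filter, mem_chs hζ] at hl ⊢
        refine ⟨⟨hl.2, fun hp => hp2 _ hl.2 hp h0.symm ?_⟩, ?_⟩ <;> rw [s_s] <;> exact hl.1.1
      · simp only [Finset.mem_filter, mem_chs hζ] at hl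
        exact ⟨by rwa [hl.1.1.lev], hv.ch hl.1.1, hdl' l hl.1.1⟩
    rw [e1, zero_add, Finset.mul_sum, map_sum]
    refine Finset.sum_eq_zero fun l hl => ?_
    simp only [Finset.mem_filter, mem_chs hζ] at hl
    rcases hp1 l hl.1.1 hl.1.2 with h | h | h
    · exact absurd (hl.1.1.trans (ch_simple (by rwa [hl.1.1.lev]) h (hdl' l hl.1.1))) hl.2
    · exact absurd h.2 hl.2
    · exact h3 l hl.1.1 h

/-- Positivity with a surviving path. -/
lemma positivity [PartialOrder V] [IsOrderedAddMonoid V] (hN : 0 < N) (hJ : S.Alt J) (ℓ : ℤ)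
    (hpos : ∀ z, (∀ i, 0 < S.c i z) → S.lev (N • z) = ℓ → 0 < J (N • z)) (M : ℕ) {y ζ : E}
    (hζ : 0 < S.lev ζ) (hv : S.Valid N ζ) (hy : ∀ i, N ≤ S.c i y)
    (hd : ∃ z, y + (M : ℤ) • ζ = N • z) (hℓ : S.lev y + M * S.lev ζ = ℓ) :
    0 < ev J (ex y * S.g N M ζ) := by
  classical
  induction M generalizing y ζ with
  | zero =>
    obtain ⟨z, hz⟩ := hd
    simp only [Nat.cast_zero, zero_smul, add_zero, zero_mul] at hz hℓ
    rw [g_zero, mul_one, ev_ex, hz]
    refine hpos z (fun i => ?_) (hz ▸ hℓ)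
    have := hy i
    rw [hz, map_zsmul, smul_eq_mul] at this
    nlinarith
  | succ M ih =>
    set T : ℤ := ((M + 1 : ℕ) : ℤ) with hT
    have hdl : ∀ l, S.Ch N T ζ l → ∃ z, y + T • l = N • z := fun l hl => by
      obtain ⟨z, hz⟩ := hd
      obtain ⟨z', -, hz'⟩ := hl.dvd ⊤ (fun _ => trivial)
      exact ⟨z + z', by rw [hz', ← add_assoc, hz, smul_add]⟩
    have hdl' : ∀ l, S.Ch N T ζ l → ∀ i, N ∣ S.c i y + T * S.c i l := fun l hl i => by
      obtain ⟨z, hz⟩ := hdl l hl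
      have := congrArg (S.c i) hz
      simp only [map_add, map_zsmul, smul_eq_mul] at this
      exact ⟨_, this⟩
    have hgood : ∀ l, S.Ch N T ζ l → (∀ i, N ≤ S.c i (y + l)) →
        0 < ev J (ex y * (ex l * S.g N M l)) := by
      intro l hl h
      rw [← mul_assoc, ← ex_add]
      refine ih (by rwa [hl.lev]) (hv.ch hl) h ?_ ?_
      · obtain ⟨z, hz⟩ := hdl l hl
        exact ⟨z, by rw [← hz, hT]; push_cast; module⟩
      · rw [← hℓ, map_add, hl.lev, hT]; push_cast; ring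
    rw [g_succ, Finset.mul_sum, map_sum]
    apply Finset.sum_pos'
    · intro l hl
      rw [mem_chs hζ] at hl
      by_cases h : ∀ i, N ≤ S.c i (y + l)
      · exact (hgood l hl h).le
      · push Not at h
        obtain ⟨i, hi⟩ := h
        rw [map_add] at hi
        have := hy i
        exact (doom_step hN hJ M (i := i) (by rwa [hl.lev]) (by omega) (hv.ch hl) (by omega) hi
          (hdl' l hl i)).ge
    · obtain ⟨l, hl, hmin⟩ := Finset.exists_min_image (S.chs N T ζ) S.L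
        ⟨ζ, (mem_chs hζ).2 (Ch.refl _ _)⟩
      refine ⟨l, hl, hgood l ((mem_chs hζ).1 hl) fun i => ?_⟩
      rw [mem_chs hζ] at hl
      have hl0 : 0 < S.lev l := by rwa [hl.lev]
      rw [map_add]
      have hyi := hy i
      by_contra hcon
      have hc : S.c i l < 0 := by omega
      have h1 : S.c i l ∣ N := hv.ch hl _ (Ch.refl _ _) i hc.ne
      have h2 : S.c i l ∣ S.c i y :=
        (dvd_add_left (dvd_mul_left _ _)).1 (h1.trans (hdl' l hl i))
      rcases hyi.lt_or_eq with h | h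
      · have := Int.le_of_dvd (by omega) (neg_dvd.2 (h2.sub h1))
        omega
      · have h3 : N ∣ T * S.c i l := by
          have := hdl' l hl i
          rw [← h] at this
          exact (dvd_add_right dvd_rfl).1 this
        have h4 := hmin _ ((mem_chs hζ).2 (hl.trans (step_simple hl0 hc h3).ch))
        have := S.L_si_neg hl0 hc
        omega

omit [IsAddTorsionFree V] in
lemma supp_g {ζ : E} (hζ : 0 < S.lev ζ) (P : ℕ → E → E → Prop) (h0 : ∀ κ, P 0 κ 0)
    (h1 : ∀ (M : ℕ) κ l x, S.Ch N 0 ζ κ → S.Ch N ((M + 1 : ℕ) : ℤ) κ l → P M l x →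
      P (M + 1) κ (l + x)) (M : ℕ) {κ : E} (hκ : S.Ch N 0 ζ κ) : Supp (S.g N M κ) (P M κ) := by
  induction M generalizing κ with
  | zero => exact supp_ex (x := 0) (h0 κ)
  | succ M ih =>
    rw [g_succ]
    refine Supp.sum _ fun l hl => ?_
    rw [mem_chs (by rwa [hκ.lev])] at hl
    refine Supp.mul (p := fun x => x = l) (supp_ex rfl) (ih (hκ.trans hl.zero)) ?_
    rintro _ x rfl hx
    exact h1 M κ _ x hκ hl hx

lemma supp_g_dvd (K : AddSubgroup E) (hK : ∀ β, S.root β ∈ K) {ζ : E} (hζ : 0 < S.lev ζ)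
    (M : ℕ) : Supp (S.g N M ζ) fun x => ∃ z ∈ K, x = (M : ℤ) • ζ + N • z := by
  refine supp_g hζ (fun M κ x => ∃ z ∈ K, x = (M : ℤ) • κ + N • z)
    (fun κ => ⟨0, K.zero_mem, by simp⟩) ?_ M (Ch.refl _ _)
  rintro M κ l x - hl ⟨z, hz, rfl⟩
  obtain ⟨z', hz', e⟩ := hl.dvd K hK
  refine ⟨z + z', K.add_mem hz hz', ?_⟩
  have : l + ((M : ℤ) • l + N • z) = ((M + 1 : ℕ) : ℤ) • l + N • z := by push_cast; module
  rw [this, e]; module

lemma supp_g_mem (C : AddSubmonoid E) (μ : E) {ζ : E} (hζ : 0 < S.lev ζ)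
    (h : ∀ κ, S.Ch N 0 ζ κ → κ - μ ∈ C) (M : ℕ) :
    Supp (S.g N M ζ) fun x => x - (M : ℤ) • μ ∈ C := by
  refine supp_g hζ (fun M _ x => x - (M : ℤ) • μ ∈ C) (fun κ => by simp) ?_ M (Ch.refl _ _)
  intro M κ l x hκ hl hx
  have := C.add_mem (h l (hκ.trans hl.zero)) hx
  convert this using 1
  push_cast; module

lemma supp_g_le (f : E →+ ℤ) (r : ℤ) {ζ : E} (hζ : 0 < S.lev ζ)
    (h : ∀ κ, S.Ch N 0 ζ κ → r ≤ f κ) (M : ℕ) :
    Supp (S.g N M ζ) fun x => M * r ≤ f x := by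
  refine supp_g hζ (fun M _ x => M * r ≤ f x) (fun κ => by simp) ?_ M (Ch.refl _ _)
  intro M κ l x hκ hl hx
  have := h l (hκ.trans hl.zero)
  rw [map_add]; push_cast; linarith

lemma supp_g_lev {ζ : E} (hζ : 0 < S.lev ζ) (M : ℕ) :
    Supp (S.g N M ζ) fun x => S.lev x = M * S.lev ζ := by
  refine (supp_g_dvd S.lev.ker (fun β => S.lev_root β) hζ M).mono ?_
  rintro _ ⟨z, hz, rfl⟩
  rw [map_add, map_zsmul, map_zsmul, (AddMonoidHom.mem_ker.1 hz)]; simp

lemma g_straight {ζ : E} (hζ : 0 < S.lev ζ) (M : ℕ)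
    (h : ∀ κ, ¬ S.Step N ((M + 1 : ℕ) : ℤ) ζ κ) : S.g N (M + 1) ζ = ex ζ * S.g N M ζ := by
  have : S.chs N ((M + 1 : ℕ) : ℤ) ζ = {ζ} := by
    ext κ
    rw [mem_chs hζ, Finset.mem_singleton]
    refine ⟨fun hκ => ?_, fun e => e ▸ Ch.refl _ _⟩
    rcases Relation.ReflTransGen.cases_head hκ with rfl | ⟨y, h1, -⟩
    · rfl
    · exact absurd h1 (h y)
  rw [g_succ, this, Finset.sum_singleton]

lemma g_straight_add {ζ : E} (hζ : 0 < S.lev ζ) (M d : ℕ)
    (h : ∀ T : ℕ, M < T → T ≤ M + d → ∀ κ, ¬ S.Step N (T : ℤ) ζ κ) :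
    S.g N (M + d) ζ = ex (d • ζ) * S.g N M ζ := by
  induction d with
  | zero => simp
  | succ d ih =>
    rw [← add_assoc, g_straight hζ _ (h _ (by omega) (by omega)),
      ih fun T h1 h2 => h T h1 (by omega), succ_nsmul, ex_add]
    ring

lemma g_dom {ζ : E} (hζ : 0 < S.lev ζ) (hd : S.Dom ζ) (M : ℕ) : S.g N M ζ = ex (M • ζ) := by
  have := g_straight_add (N := N) hζ 0 M fun T _ _ κ ⟨β, h, _⟩ => absurd (S.dom _ hd β) (by omega)
  simpa using this

lemma g_unique {ζ ζ' : E} (hζ : 0 < S.lev ζ) (M : ℕ)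
    (h : ∀ κ, S.Step N ((M + 1 : ℕ) : ℤ) ζ κ → κ = ζ') (h' : S.Step N ((M + 1 : ℕ) : ℤ) ζ ζ') :
    S.g N (M + 1) ζ = ex ζ * S.g N M ζ + S.g N (M + 1) ζ' := by
  classical
  have hζ' : 0 < S.lev ζ' := by rwa [h'.lev]
  have : S.chs N ((M + 1 : ℕ) : ℤ) ζ = insert ζ (S.chs N ((M + 1 : ℕ) : ℤ) ζ') := by
    ext κ
    rw [Finset.mem_insert, mem_chs hζ, mem_chs hζ']
    constructor
    · intro hκ
      rcases Relation.ReflTransGen.cases_head hκ with rfl | ⟨y, h1, h2⟩
      · exact Or.inl rfl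
      · exact Or.inr (h y h1 ▸ h2)
    · rintro (rfl | hκ)
      · exact Ch.refl _ _
      · exact h'.ch.trans hκ
  rw [g_succ, this, Finset.sum_insert, ← g_succ]
  rw [mem_chs hζ']
  intro hc
  have := hc.L_le
  obtain ⟨β, -, -, h3, -⟩ := h'
  omega

lemma exists_valid (X : Set E) (hX : X.Finite) (hl : ∀ ζ ∈ X, 0 < S.lev ζ) [Finite I] :
    ∃ N : ℤ, 0 < N ∧ ∀ ζ ∈ X, S.Valid N ζ := by
  classical
  have hf : (⋃ ζ ∈ X, {κ | S.Ch 1 0 ζ κ}).Finite :=
    hX.biUnion fun ζ hζ => S.ch_finite 1 0 (hl ζ hζ)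
  have := Fintype.ofFinite I
  refine ⟨∏ κ ∈ hf.toFinset, ∏ i, (if S.c i κ = 0 then 1 else |S.c i κ|), ?_, ?_⟩
  · refine Finset.prod_pos fun κ _ => Finset.prod_pos fun i _ => ?_
    split_ifs with h
    · exact one_pos
    · exact abs_pos.2 h
  · intro ζ hζ κ hκ i hi
    refine Dvd.dvd.trans ?_ (Finset.dvd_prod_of_mem _ (a := κ) ?_)
    · refine Dvd.dvd.trans ?_ (Finset.dvd_prod_of_mem _ (Finset.mem_univ i))
      rw [if_neg hi]; exact self_dvd_abs _
    · rw [Set.Finite.mem_toFinset]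
      exact Set.mem_biUnion hζ hκ.zero_N

end Sys

end Pool.Agent.Lib.MP_4354a3_al
end
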