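import Pool.Agent.Lib.MP_4354a3_al.QSys

/-!
# Existence of the family and its Verlinde images
-/

set_option linter.unusedSectionVars false

namespace Pool.Agent.Lib.MP_4354a3_al

open Set Function

namespace SimpleDatum

variable {ι M N : Type*} [Fintype ι] [DecidableEq ι] [AddCommGroup M] [AddCommGroup N]
  {D : SimpleDatum ι M N} {n : ℕ}

lemma Good.supp_Qf (h : D.Good n) (a : D.b.support) (m : ℕ) :
    Supp (D.Qf n a m) fun x => ∃ z ∈ D.Qp, x = (n : ℤ) • (z - m • D.ω a) := by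
  have h1 := Sys.supp_g_dvd (S := D.S) (N := n) (D.Ql.comap (AddMonoidHom.fst M ℤ))
    (fun β => AddSubgroup.subset_closure ⟨β.1.1, rfl⟩) (ζ := (D.et a, 1)) one_pos (m * D.du n a)
  have h2 := Sys.supp_g_mem (S := D.S) (N := n) (D.Qp.comap (AddMonoidHom.fst M ℤ)) (D.et a, 1)
    (ζ := (D.et a, 1)) one_pos (fun κ hκ => ch_sub_mem (D.anti_et a) hκ) (m * D.du n a)
  refine (h1.and h2).mp _ ?_
  rintro _ ⟨⟨z, hz, rfl⟩, h3⟩
  rw [add_sub_cancel_left] at h3
  refine ⟨z.1, D.Qp_div h.pos hz h3, ?_⟩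
  simp only [AddMonoidHom.coe_fst, Prod.fst_add, Prod.smul_fst, natCast_zsmul, mul_smul, h.du_et]
  module

lemma Good.Qf_succ (h : D.Good n) (a : D.b.support) (m : ℕ) (β : M)
    (hβ : n * D.B (D.ω a) β < (m + 1) * D.du n a) :
    (D.Qf n a (m + 1)).coeff ((n : ℤ) • (β - (m + 1) • D.ω a)) =
      (D.Qf n a m).coeff ((n : ℤ) • (β - m • D.ω a)) := by
  have ht := D.t_pos a
  have h1 := congrArg pr (h.split a m)
  rw [map_add, map_mul, mp_ex] at h1
  let f : M × ℤ →+ ℤ := (D.P.RootForm (D.ω a)).toAddMonoidHom.comp (AddMonoidHom.fst M ℤ)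
  have h2 := Sys.supp_g_le (S := D.S) (N := n) f (D.B (D.ω a) (D.et a) + 1)
    (ζ := (D.sr a (D.et a), 1)) one_pos (fun κ hκ => ?_) ((m + 1) * D.du n a)
  · have h3 := (h2.mp (q := fun x => (((m + 1) * D.du n a : ℕ) : ℤ) * (D.B (D.ω a) (D.et a) + 1) ≤
      D.B (D.ω a) x) (AddMonoidHom.fst M ℤ) fun z hz => hz).coeff_eq_zero
      (x := (n : ℤ) • (β - (m + 1) • D.ω a)) ?_
    · rw [Qf, F, h1, AddMonoidAlgebra.coeff_add, Finsupp.add_apply, h3, add_zero, coeff_ex_mul]
      congr 1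
      simp only [AddMonoidHom.coe_fst, Prod.smul_fst, h.du_et]
      module
    · have h4 := congrArg (D.P.RootForm (D.ω a)) (h.du_et a)
      simp only [B, map_zsmul, map_sub, map_nsmul, map_neg, smul_eq_mul, nsmul_eq_mul] at h4 hβ ⊢
      push_cast
      nlinarith
  · have h3 := (h.step_sr a 0).ch.zero.trans hκ
    obtain ⟨h4, -, h5⟩ := D.ch_one (D.cow_et a) h3
    have h6 : κ.1 - D.et a ≠ 0 := by
      intro e
      have h7 : κ = (D.et a, 1) := Prod.ext (sub_eq_zero.1 e) h4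
      obtain ⟨β, -, -, h8, -⟩ := h.step_sr a 0
      have := hκ.L_le
      rw [h7] at this
      omega
    have h7 := D.B_self_pos h6
    have h8 := D.B_comm κ.1 (D.et a)
    have h9 : ∀ x, D.B (D.et a) x = -(D.t a * D.B (D.ω a) x) := fun x => by simp [B, et]
    have h10 := h9 κ.1
    have h11 := h9 (D.et a)
    change D.B (D.ω a) (D.et a) + 1 ≤ D.B (D.ω a) κ.1
    simp only [B, map_sub, LinearMap.sub_apply] at h5 h7 h8 h10 h11 ⊢
    by_contra hc
    nlinarith

lemma Good.exists_family (h : D.Good n) : ∃ Q : D.b.support → ℕ → GA M,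
    (∀ a m, sc n (Q a m) = D.Qf n a m) ∧ D.IsKRFamily fun a m => io (Q a m) := by
  have := D.torsionFree
  have hinj : Injective (zsmulAddGroupHom (n : ℤ) : M →+ M) :=
    fun x y e => smul_right_injective M h.pos.ne' e
  choose Q hQ using fun a m => Supp.ex_mp hinj ((h.supp_Qf a m).mono fun x ⟨z, _, e⟩ => ⟨_, e.symm⟩)
  have hc : ∀ a m x, (io (Q a m)).coeff x = (D.Qf n a m).coeff ((n : ℤ) • (-x)) := by
    intro a m x
    have h1 := coeff_mp (f := (AddEquiv.neg M).toAddMonoidHom) neg_injective (Q a m) (-x)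
    have h2 := coeff_mp hinj (Q a m) (-x)
    rw [hQ] at h2
    have h3 : (AddEquiv.neg M).toAddMonoidHom (-x) = x := neg_neg x
    rw [h3] at h1
    exact h1.trans h2.symm
  have hc' : ∀ a (m : ℕ) β, (io (Q a m)).coeff (m • D.ω a - β) =
      (D.Qf n a m).coeff ((n : ℤ) • (β - m • D.ω a)) := fun a m β => by rw [hc, neg_sub]
  refine ⟨Q, hQ, fun a => ?_, fun a m => ?_, fun a m => ?_, fun a m x hx => ?_, fun a β => ?_⟩
  · rw [D.sc_injective h.pos.ne' ((hQ a 0).trans ((Qf_zero a).trans (map_one _).symm)), map_one]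
  · simp only [← map_pow, ← map_mul, ← map_prod, ← map_add]
    congr 1
    apply D.sc_injective h.pos.ne'
    simp only [map_pow, map_mul, map_prod, map_add, hQ]
    exact h.qsystem a m
  · rw [← sub_zero (m • D.ω a), hc']
    induction m with
    | zero => simp [AddMonoidAlgebra.one_def]
    | succ m ih =>
      rw [h.Qf_succ a m 0 ?_, ih]
      have := h.du_pos a
      simp only [B, map_zero, mul_zero]
      positivity
  · rw [Finsupp.mem_support_iff, hc] at hx
    obtain ⟨z, hz, e⟩ := h.supp_Qf a m _ hx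
    have := smul_right_injective M h.pos.ne' e
    rwa [show m • D.ω a - x = z by rw [sub_eq_add_neg, this]; abel]
  · refine ⟨(n * D.B (D.ω a) β).toNat, fun m hm => ?_⟩
    simp only [hc']
    induction m, hm using Nat.le_induction with
    | base => rfl
    | succ m hm ih =>
      rw [h.Qf_succ a m β ?_, ih]
      have h1 : (1 : ℤ) ≤ D.du n a := by exact_mod_cast h.du_pos a
      have h2 : n * D.B (D.ω a) β ≤ m := by omega
      nlinarith

section images

variable {V : Type*} [AddCommGroup V] [IsAddTorsionFree V] {J : M × ℤ → V}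

lemma ex_mul_Qf (a : D.b.support) (m k : ℕ) :
    ex ((n : ℤ) • (D.rho, (k : ℤ) + D.hv)) * em (D.Qf n a m) =
      ex ((n : ℤ) • D.rho, n * (k + D.hv) - (m * D.du n a : ℕ)) *
        D.S.g n (m * D.du n a) (D.et a, 1) := by
  rw [g_eq, ← mul_assoc, ← ex_add]
  simp [Qf]

lemma Good.mult' (h : D.Good n) (a : D.b.support) (m k : ℕ) :
    ∃ z : M × ℤ, (((n : ℤ) • D.rho, n * (k + D.hv) - (m * D.du n a : ℕ)) : M × ℤ) +
      ((m * D.du n a : ℕ) : ℤ) • (D.et a, 1) = (n : ℤ) • z := by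
  obtain ⟨u, hu⟩ := h.mult a m
  refine ⟨(D.rho + u, k + D.hv), ?_⟩
  ext
  · simp only [Prod.fst_add, Prod.smul_fst, natCast_zsmul, hu]; module
  · simp

lemma Good.image_pos [PartialOrder V] [IsOrderedAddMonoid V] (h : D.Good n) (hJ : D.S.Alt J)
    (hpos : ∀ z, (∀ i, 0 < D.S.c i z) → 0 < z.2 → 0 < J ((n : ℤ) • z)) (a : D.b.support)
    {m k : ℕ} (hm : m ≤ D.t a * k) :
    0 < ev J (ex ((n : ℤ) • (D.rho, (k : ℤ) + D.hv)) * em (D.Qf n a m)) := by
  rw [ex_mul_Qf]
  have hl := D.lev_pos k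
  refine Sys.positivity h.pos hJ (n * (k + D.hv)) (fun z hz hz' => hpos z hz ?_) _ one_pos
    (h.2 _ (D.box_et a)) (fun i => ?_) (h.mult' a m k) (by simp)
  · simp only [S_lev, Prod.smul_snd, smul_eq_mul] at hz'
    rwa [mul_left_cancel₀ h.pos.ne' hz']
  · cases i with
    | some j => simp
    | none =>
      have h1 : m * D.du n a ≤ k * n := by
        nth_rewrite 2 [← h.t_du a]
        rw [← mul_assoc, mul_comm k]
        exact Nat.mul_le_mul_right _ hm
      have h2 : ((m * D.du n a : ℕ) : ℤ) ≤ k * n := by exact_mod_cast h1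
      simp only [c_none, map_zsmul, smul_eq_mul, hv_eq]
      linarith

lemma Good.image_zero (h : D.Good n) (hJ : D.S.Alt J) (a : D.b.support) (k : ℕ) :
    ev J (ex ((n : ℤ) • (D.rho, (k : ℤ) + D.hv)) * em (D.Qf n a (D.t a * k + 1))) = 0 := by
  classical
  rw [ex_mul_Qf]
  obtain ⟨u, hu⟩ := h.mult' a (D.t a * k + 1) k
  have hd := h.du_pos a
  have ht := D.t_pos a
  have h1 : (D.t a * k + 1) * D.du n a = k * n + D.du n a := by
    nth_rewrite 2 [← h.t_du a]; ring
  have h2 : D.du n a ≤ n := Nat.div_le_self _ _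
  obtain ⟨e, he⟩ : ∃ e, (D.t a * k + 1) * D.du n a = e + 1 := ⟨_, (Nat.succ_pred (by positivity)).symm⟩
  have h3 : ((e + 1 : ℕ) : ℤ) = k * n + D.du n a := by rw [← he, h1]; push_cast; ring
  rw [he] at hu ⊢
  have h4 : D.S.c none ((n : ℤ) • D.rho, n * (k + D.hv) - (e + 1 : ℕ)) = n - D.du n a := by
    simp only [c_none, map_zsmul, smul_eq_mul, hv_eq, h3]; ring
  rw [Sys.one_step h.pos hJ e (ζ := (D.et a, 1)) one_pos (h.2 _ (D.box_et a))
    (fun i => ⟨D.S.c i u, by
      have := congrArg (D.S.c i) hu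
      rwa [map_add, map_zsmul, map_zsmul, smul_eq_mul, smul_eq_mul] at this⟩)
    none (by omega) (by omega) (fun _ => False) (fun κ hκ _ => ?_) (fun _ _ h => h.elim)]
  · simp
  · by_contra hcon
    push Not at hcon
    obtain ⟨h5, h6, h7⟩ := hcon
    have h8 : κ = (0, 1) := by
      rw [← sub_eq_zero]
      refine D.S.dom0 _ (by simpa [sub_eq_zero] using hκ.lev) fun i => ?_
      change 0 ≤ D.S.c i _
      rw [map_sub]
      cases i with
      | none => simp only [c_none, map_zero] at h5 ⊢; omega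
      | some j => simpa using h7 (some j) (by simp)
    subst h8
    obtain ⟨i, h9, h10, h11⟩ := hκ.last (fun e => by
      have := congrArg (fun z : M × ℤ => D.cv a z.1) e
      simp only [map_zero, cv_et_self] at this
      omega) D.dom_L0
    cases i with
    | some j => simp at h9
    | none =>
      refine h6 ?_ h10
      simp only [c_none, map_zero, sub_zero, mul_one, h3] at h11
      have h12 := Int.le_of_dvd (by omega) ((dvd_add_right (dvd_mul_left _ _)).1 h11)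
      omega

lemma Good.image_unit (h : D.Good n) (hJ : D.S.Alt J) (a : D.b.support) (k : ℕ) :
    ∃ r, ev J (ex ((n : ℤ) • (D.rho, (k : ℤ) + D.hv)) * em (D.Qf n a (D.t a * k) ^ (r + 1))) =
      J ((n : ℤ) • (D.rho, (k : ℤ) + D.hv)) := by
  obtain ⟨w, hw⟩ := ex_desc (D := D) (D.et a)
  have hp : D.S.Pos ((T (D.et a)).trans w) := ((D.cpt_T (D.cow_et a)).trans hw.cpt).pos hw.dom
  set φ := (T (D.et a)).trans w with hφ
  have h1 : D.t a * k * D.du n a = n * k := by
    nth_rewrite 2 [← h.t_du a]; ring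
  have h2 : ∀ r, ∀ J : M × ℤ → V, D.S.Alt J →
      ev J (ex ((n : ℤ) • (D.rho, (k : ℤ) + D.hv)) * em (D.Qf n a (D.t a * k) ^ r)) =
        J (φ^[r] ((n : ℤ) • (D.rho, (k : ℤ) + D.hv))) := by
    intro r
    induction r with
    | zero => intro J _; simp
    | succ r ih =>
      intro J hJ
      have h3 := h.back hJ (D.cow_et a) (D.anti_et a) hw ((h.winv_Qf a (D.t a * k)).pow r) 0
        (D.t a * k * D.du n a) (D.box_et a) (by rw [h1]; simp) (h.mult a _)
      have e1 : (((n : ℤ) • D.rho, n * D.hv + (0 : ℕ) + (D.t a * k * D.du n a : ℕ)) : M × ℤ) =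
          (n : ℤ) • (D.rho, (k : ℤ) + D.hv) := by
        rw [h1]; ext <;> simp; ring
      have e2 : (n : ℤ) • D.S.rho + (0, ((D.t a * k * D.du n a : ℕ) : ℤ)) =
          (n : ℤ) • (D.rho, (k : ℤ) + D.hv) := by
        rw [h1]; ext <;> simp [S_rho]; ring
      rw [e1, e2, Sys.g_zero, mul_one] at h3
      rw [pow_succ', iterate_succ_apply', ← ih _ (hJ.comp hp.cpt)]
      exact h3
  have h3 : ∀ r, D.S.Dom (φ^[r] (0, 1)) ∧ (φ^[r] (0, 1)).2 = 1 := by
    intro r
    induction r with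
    | zero => exact ⟨D.dom_L0, rfl⟩
    | succ r ih =>
      rw [iterate_succ_apply']
      exact ⟨hp.dom ih.1, (hp.lev _).trans ih.2⟩
  obtain ⟨r₁, r₂, h4, h5⟩ := Set.Finite.exists_lt_map_eq_of_forall_mem
    (f := fun r : ℕ => φ^[r] (0, 1))
    (t := (fun x => (x, (1 : ℤ))) '' {x : M | ∀ j : D.b.support,
      |D.cv j x| ≤ ∑ b : D.b.support, (D.t b : ℤ)}) (fun r => by
      refine ⟨(φ^[r] (0, 1)).1, fun j => ?_, Prod.ext rfl (h3 r).2.symm⟩
      have h4 := (h3 r).1 (some j)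
      have h5 := D.S.dom _ (h3 r).1 ⟨(D.ng j, 1), Or.inl one_pos⟩
      have h6 := Finset.single_le_sum (f := fun b : D.b.support => (D.t b : ℤ))
        (fun _ _ => by positivity) (Finset.mem_univ j)
      rw [c_some] at h4
      simp only [S_co, cv_ng, t_ng, (h3 r).2] at h5 h6
      rw [abs_of_nonneg h4]; omega) ((D.finite_box _).image _)
  obtain ⟨r, rfl⟩ := Nat.exists_eq_add_of_lt h4
  rw [add_assoc, iterate_add_apply] at h5
  have h6 := (φ.injective.iterate r₁) h5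
  refine ⟨r, ?_⟩
  rw [h2 _ J hJ]
  congr 1
  have h7 : ∀ r, φ^[r] ((n : ℤ) • (D.rho, (k : ℤ) + D.hv)) =
      (n : ℤ) • (D.S.rho + (k : ℤ) • φ^[r] (0, 1)) := by
    intro r
    induction r with
    | zero => simp [S_rho, add_comm]
    | succ r ih =>
      rw [iterate_succ_apply', iterate_succ_apply', ih, map_zsmul, map_add, map_zsmul, hp.rho]
  rw [h7, ← h6]
  simp [S_rho, add_comm]

end images

variable (D) in
theorem main : (∃ Q, D.IsKRFamily Q) ∧ ∀ Q, D.IsKRFamily Q → ∀ a : D.b.support,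
    (∀ m, ∃! c, D.IsClass (Q a m) c) ∧ ∀ k : ℕ,
      (∀ m ≤ D.t a * k, ∃ y, D.IsImage k (Q a m) y ∧ y ≠ 0 ∧ ∀ μ, 0 ≤ y μ) ∧
      (∀ m, m = 0 ∨ m = D.t a * k → ∃ y, D.IsImage k (Q a m) y ∧ D.IsFusionUnit k y) ∧
      D.IsImage k (Q a (D.t a * k + 1)) 0 := by
  obtain ⟨n, h⟩ := D.exists_good
  obtain ⟨Q₀, h1, h2⟩ := h.exists_family
  refine ⟨⟨_, h2⟩, fun Q hQ a => ?_⟩
  obtain rfl := h2.unique hQ
  obtain ⟨J, hJ, hpos, hone, him⟩ := D.exists_J h.pos
  have hw : ∀ m, D.WInv (Q₀ a m) := fun m => WInv.of_sc h.pos.ne' (h1 a m ▸ h.winv_Qf a m)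
  refine ⟨fun m => ?_, fun k => ⟨fun m hm => ?_, fun m hm => ?_, ?_⟩⟩
  · obtain ⟨c, hc⟩ := (hw m).io.exists_class
    exact ⟨c, hc, fun c' hc' => hc'.unique hc⟩
  · have h3 := h.image_pos hJ hpos a hm
    rw [← h1] at h3
    exact ⟨_, him k _ (hw m), h3.ne', h3.le⟩
  · have h3 : ∃ r, ev J (ex ((n : ℤ) • (D.rho, (k : ℤ) + D.hv)) * em (D.Qf n a m ^ (r + 1))) =
        J ((n : ℤ) • (D.rho, (k : ℤ) + D.hv)) := by
      rcases hm with rfl | rfl
      · exact ⟨0, by simp⟩
      · exact h.image_unit hJ a k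
    obtain ⟨r, hr⟩ := h3
    refine ⟨_, him k _ (hw m), _, _, _, him k _ (hw m), him k _ ((hw m).pow r), ?_⟩
    have h4 := him k _ ((hw m).pow (r + 1))
    rw [map_pow (sc n), h1, hr, hone, pow_succ', map_mul] at h4
    exact h4
  · have h3 := him k _ (hw (D.t a * k + 1))
    rwa [h1, h.image_zero hJ] at h3

end SimpleDatum

end Pool.Agent.Lib.MP_4354a3_al
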