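import Pool.Agent.Lib.MP_4354a3_al.Defs

/-!
# The quantum loop algebra and its Kirillov-Reshetikhin modules: definitions

`U_q(Lg)` is `U_q(ĝ)` with the central element specialised to `1`, in Drinfeld's presentation.
`x 1 i r = x^+_{i,r}`, `x (-1) i r = x^-_{i,r}`, `φ 1 i r = φ^+_{i,r}`, `φ (-1) i r = φ^-_{i,r}`,
with `∑_r φ^±_{i,r} z^r = k_i^{±1} exp(±(q - q⁻¹) ∑_{m>0} h_{i,±m} z^{±m})`.
-/

namespace Pool.Agent.Lib.MP_4354a3_al

open Polynomial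

/-- `[n]_v`. -/
noncomputable def qint (v : ℂ) (n : ℕ) : ℂ := (v ^ n - v⁻¹ ^ n) / (v - v⁻¹)

/-- `[n]_v !`. -/
noncomputable def qfact (v : ℂ) (n : ℕ) : ℂ := ∏ a ∈ Finset.range n, qint v (a + 1)

/-- The Gaussian binomial coefficient. -/
noncomputable def qbinom (v : ℂ) (n a : ℕ) : ℂ := qfact v n / (qfact v a * qfact v (n - a))

namespace SimpleDatum

variable {ι M N : Type*} [Fintype ι] [DecidableEq ι] [AddCommGroup M] [AddCommGroup N]
  (D : SimpleDatum ι M N)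

/-- `d_i = d / t_i`; as `t_j ∈ {1, d}`, the maximum `d` is the least common multiple. -/
def di (i : D.b.support) : ℕ := (Finset.univ.lcm fun j : D.b.support => D.t j) / D.t i

/-- The symmetrised Cartan matrix `B_{ij} = d_i ⟨α_j, α_i^∨⟩`. -/
def Bm (i j : D.b.support) : ℤ := D.di i * D.P.coroot' i (D.P.root j)

section Relations

variable {A : Type*} [Ring A] [Algebra ℂ A]

/-- Drinfeld's relations, the Serre relations excepted. -/
structure PreRel (q : ℂ) (x φ : ℤˣ → D.b.support → ℤ → A) : Prop where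
  φ_zero : ∀ (ε : ℤˣ) i r, (ε : ℤ) * r < 0 → φ ε i r = 0
  φ_inv : ∀ i, φ 1 i 0 * φ (-1) i 0 = 1
  φ_φ : ∀ ε ε' i j r s, φ ε i r * φ ε' j s = φ ε' j s * φ ε i r
  φ_x : ∀ ε (σ : ℤˣ) i j r s,
    φ ε i (r + 1) * x σ j s - q ^ (σ * D.Bm i j) • (φ ε i r * x σ j (s + 1)) =
      q ^ (σ * D.Bm i j) • (x σ j s * φ ε i (r + 1)) - x σ j (s + 1) * φ ε i r
  x_x : ∀ (σ : ℤˣ) i j r s,
    x σ i (r + 1) * x σ j s - q ^ (σ * D.Bm i j) • (x σ i r * x σ j (s + 1)) =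
      q ^ (σ * D.Bm i j) • (x σ j s * x σ i (r + 1)) - x σ j (s + 1) * x σ i r
  x_y : ∀ i j r s, x 1 i r * x (-1) j s - x (-1) j s * x 1 i r =
    if i = j then (q ^ D.di i - (q ^ D.di i)⁻¹)⁻¹ • (φ 1 i (r + s) - φ (-1) i (r + s)) else 0

/-- The quantum Serre relations, with `n = 1 - ⟨α_j, α_i^∨⟩` factors of colour `i`. -/
def Serre (q : ℂ) (x : ℤˣ → D.b.support → ℤ → A) : Prop :=
  ∀ σ i j, i ≠ j → ∀ (r : Fin (1 + D.absC i j) → ℤ) (s : ℤ),
    ∑ π : Equiv.Perm (Fin (1 + D.absC i j)), ∑ a ∈ Finset.range (1 + D.absC i j + 1),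
      ((-1) ^ a * qbinom (q ^ D.di i) (1 + D.absC i j) a) •
        (((List.ofFn fun l => x σ i (r (π l))).take a).prod * x σ j s *
          ((List.ofFn fun l => x σ i (r (π l))).drop a).prod) = 0

end Relations

variable {V : Type*} [AddCommGroup V] [Module ℂ V]

/-- `φ^±_i(z) v = q_i^{deg P} P(z q_i⁻¹) / P(z q_i) v`, cleared of the denominator and read
coefficientwise. -/
def HasDrinfeld (q : ℂ) (φ : ℤˣ → D.b.support → ℤ → Module.End ℂ V) (v : V) (i : D.b.support)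
    (P : ℂ[X]) : Prop :=
  ∀ ε (n : ℤ), ∑ s ∈ Finset.range (P.natDegree + 1),
      (P.coeff s * (q ^ D.di i) ^ s) • φ ε i (n - s) v =
    ∑ s ∈ Finset.range (P.natDegree + 1),
      if n = s then (P.coeff s * (q ^ D.di i) ^ ((P.natDegree : ℤ) - s)) • v else 0

/-- The Drinfeld polynomials of `W^{(a)}_{m,p}`. -/
noncomputable def krPoly (q : ℂ) (a : D.b.support) (m : ℕ) (p : ℤ) (i : D.b.support) : ℂ[X] :=
  if i = a then ∏ s ∈ Finset.range m, (1 - C (q ^ (p + 2 * s * D.di a)) * X) else 1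

/-- `V` with the operators `x`, `φ` is the Kirillov-Reshetikhin module `W^{(a)}_{m,p}`: a simple
finite-dimensional `U_q(Lg)`-module with these Drinfeld polynomials. -/
structure IsKR (q : ℂ) (x φ : ℤˣ → D.b.support → ℤ → Module.End ℂ V) (a : D.b.support) (m : ℕ)
    (p : ℤ) : Prop where
  rel : D.PreRel q x φ
  serre : D.Serre q x
  fin : Module.Finite ℂ V
  simple : ∀ W : Submodule ℂ V, (∀ σ i r, ∀ w ∈ W, x σ i r w ∈ W) →
    (∀ ε i r, ∀ w ∈ W, φ ε i r w ∈ W) → W = ⊥ ∨ W = ⊤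
  highest : ∃ v ≠ 0, (∀ i r, x 1 i r v = 0) ∧ ∀ i, D.HasDrinfeld q φ v i (D.krPoly q a m p i)

/-- The weight space where `k_i = φ^+_{i,0}` acts by `q_i^{⟨μ, α_i^∨⟩}`. -/
noncomputable def wtSpace (q : ℂ) (φ : ℤˣ → D.b.support → ℤ → Module.End ℂ V) (μ : M) : Submodule ℂ V :=
  ⨅ i, (φ 1 i 0).eigenspace ((q ^ D.di i) ^ D.P.coroot' i μ)

/-- `χ` is the character of the restriction of `V` to `U_q(g₀)`. -/
def IsChar (q : ℂ) (φ : ℤˣ → D.b.support → ℤ → Module.End ℂ V) (χ : AddMonoidAlgebra ℤ M) :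
    Prop :=
  ⨆ μ, D.wtSpace q φ μ = ⊤ ∧ ∀ μ, χ.coeff μ = Module.finrank ℂ (D.wtSpace q φ μ)

end SimpleDatum

end Pool.Agent.Lib.MP_4354a3_al
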