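import Pool.Agent.Lib.MP_4354a3_al.Fin
import Pool.Agent.Lib.MP_4354a3_al.Alg
import Pool.Agent.Lib.MP_4354a3_al.QDefs

-- part Pool.Agent.Lib.MP_4354a3_al.Uniq
section

/-!
# Uniqueness of the convergent solution of the Q-system
-/

set_option linter.unusedSectionVars false

namespace Pool.Agent.Lib.MP_4354a3_al

open Set Function

lemma sum_range_add_div {j : ℕ} (hj : 0 < j) (p : ℕ) :
    ∑ k ∈ Finset.range j, (p + k) / j = p := by
  induction p with
  | zero =>
    exact Finset.sum_eq_zero fun k hk => by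
      rw [zero_add]; exact Nat.div_eq_of_lt (Finset.mem_range.1 hk)
  | succ p ih =>
    have h1 := Finset.sum_range_succ (fun k => (p + k) / j) j
    have h2 := Finset.sum_range_succ' (fun k => (p + k) / j) j
    have h3 : ∑ k ∈ Finset.range j, (p + 1 + k) / j = ∑ k ∈ Finset.range j, (p + (k + 1)) / j :=
      Finset.sum_congr rfl fun k _ => by congr 1; ring
    rw [Nat.add_div_right _ hj] at h1
    rw [add_zero] at h2
    omega

lemma prod_range_add_div {A : Type*} [CommMonoid A] (f : ℕ → A) (c r s : ℕ) (hs : 0 < s) :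
    ∏ k ∈ Finset.range (s + r), f (((s + r) * c + r + k) / (s + r)) = f c ^ s * f (c + 1) ^ r := by
  rw [Finset.prod_range_add]
  congr 1
  · rw [Finset.prod_eq_pow_card (b := f c), Finset.card_range]
    intro k hk
    rw [Finset.mem_range] at hk
    congr 1
    rw [add_assoc, Nat.mul_add_div (by omega), Nat.div_eq_of_lt (by omega), add_zero]
  · rw [Finset.prod_eq_pow_card (b := f (c + 1)), Finset.card_range]
    intro k hk
    rw [Finset.mem_range] at hk
    congr 1
    have : (s + r) * c + r + (s + k) = (s + r) * (c + 1) + k := by ring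
    rw [this, Nat.mul_add_div (by omega), Nat.div_eq_of_lt (by omega), add_zero]

namespace SimpleDatum

variable {ι M N : Type*} [Fintype ι] [DecidableEq ι] [AddCommGroup M] [AddCommGroup N]
  (D : SimpleDatum ι M N)

lemma absC_eq {a b : D.b.support} (h : b ≠ a) : (D.absC a b : ℤ) = - D.cv a (D.r b) := by
  have := D.cv_simple_nonpos h.symm
  rw [absC, cv_def, ← r]; omega

lemma absC_sym (a b : D.b.support) : D.t b * D.absC a b = D.t a * D.absC b a := by
  have := congrArg Int.natAbs (D.t_sym b a)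
  simp only [Int.natAbs_mul, Int.natAbs_natCast] at this
  exact this

lemma r_eq (a : D.b.support) :
    D.r a = (2 : ℤ) • D.ω a - ∑ b ∈ Finset.univ.erase a, (D.absC b a : ℤ) • D.ω b := by
  rw [D.eq_sum_ω (D.r a), ← Finset.add_sum_erase _ _ (Finset.mem_univ a), cv_r_self,
    sub_eq_add_neg, ← Finset.sum_neg_distrib]
  congr 1
  refine Finset.sum_congr rfl fun b hb => ?_
  rw [D.absC_eq (Finset.ne_of_mem_erase hb).symm, neg_smul, neg_neg]

/-- A height function. -/
noncomputable def ht : M →+ ℤ := (D.P.RootForm.flip D.rho).toAddMonoidHom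

lemma ht_nonneg {γ : M} (h : γ ∈ D.Qp) : 0 ≤ D.ht γ :=
  D.B_nonneg (fun j => (D.rho_sdom j).le) h

lemma ht_pos {γ : M} (h : γ ∈ D.Qp) (h0 : γ ≠ 0) : 0 < D.ht γ := D.B_pos D.rho_sdom h h0

/-- Degree bound. -/
def Deg (f : GA M) (H : ℤ) : Prop := Supp f fun x => D.ht x ≤ H

variable {D}

lemma Deg.mul {f g : GA M} {H H' : ℤ} (hf : D.Deg f H) (hg : D.Deg g H') :
    D.Deg (f * g) (H + H') :=
  Supp.mul hf hg fun x y hx hy => by rw [map_add]; omega

lemma Deg.le {f : GA M} {H H' : ℤ} (hf : D.Deg f H) (h : H ≤ H') : D.Deg f H' :=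
  hf.mono fun _ hx => hx.trans h

variable (D) in
/-- Two elements of degree at most `H` that agree up to codegree `n`. -/
def Close (n H : ℤ) (f f' : GA M) : Prop := D.Deg f H ∧ D.Deg f' H ∧ D.Deg (f - f') (H - n)

lemma Close.mul {n H H' : ℤ} {f f' g g' : GA M} (hf : D.Close n H f f') (hg : D.Close n H' g g') :
    D.Close n (H + H') (f * g) (f' * g') := by
  refine ⟨hf.1.mul hg.1, hf.2.1.mul hg.2.1, ?_⟩
  have : f * g - f' * g' = (f - f') * g + f' * (g - g') := by ring
  rw [this]
  exact Supp.add ((hf.2.2.mul hg.1).le (by omega)) ((hf.2.1.mul hg.2.2).le (by omega))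

lemma close_one (n : ℤ) : D.Close n 0 1 1 :=
  ⟨supp_ex (x := 0) (by simp), supp_ex (x := 0) (by simp), by rw [sub_self]; exact supp_zero _⟩

lemma Close.prod {κ : Type*} (s : Finset κ) {n : ℤ} {H : κ → ℤ} {f f' : κ → GA M}
    (h : ∀ i ∈ s, D.Close n (H i) (f i) (f' i)) :
    D.Close n (∑ i ∈ s, H i) (∏ i ∈ s, f i) (∏ i ∈ s, f' i) := by
  classical
  induction s using Finset.induction_on with
  | empty => simpa using close_one n
  | insert a s ha ih =>
    rw [Finset.sum_insert ha, Finset.prod_insert ha, Finset.prod_insert ha]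
    exact (h a (Finset.mem_insert_self _ _)).mul (ih fun i hi => h i (Finset.mem_insert_of_mem hi))

variable {Q Q' : D.b.support → ℕ → GA M}

lemma IsKRFamily.deg (h : D.IsKRFamily Q) (a : D.b.support) (m : ℕ) :
    D.Deg (Q a m) (m * D.ht (D.ω a)) := by
  intro x hx
  have := D.ht_nonneg (h.below a m x (Finsupp.mem_support_iff.2 hx))
  rw [map_sub, map_nsmul, nsmul_eq_mul] at this
  omega

lemma IsKRFamily.deg_low (h : D.IsKRFamily Q) (a : D.b.support) (m : ℕ) :
    D.Deg (Q a m - ex (m • D.ω a)) (m * D.ht (D.ω a) - 1) := by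
  intro x hx
  have hne : m • D.ω a ≠ x := by
    rintro rfl
    simp [ex, h.top a m] at hx
  have h1 : (Q a m).coeff x ≠ 0 := by simpa [ex, hne] using hx
  have := D.ht_pos (h.below a m x (Finsupp.mem_support_iff.2 h1)) (sub_ne_zero.2 hne)
  rw [map_sub, map_nsmul, nsmul_eq_mul] at this
  omega

theorem IsKRFamily.unique (h : D.IsKRFamily Q) (h' : D.IsKRFamily Q') : Q = Q' := by
  have key : ∀ n : ℕ, ∀ a m, D.Deg (Q a m - Q' a m) (m * D.ht (D.ω a) - n) := by
    intro n
    induction n with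
    | zero => intro a m; exact Deg.le ((h.deg a m).sub (h'.deg a m)) (by simp)
    | succ n ih =>
      intro a
      have hc : ∀ b (m : ℕ), D.Close n (m * D.ht (D.ω b)) (Q b m) (Q' b m) := fun b m =>
        ⟨h.deg b m, h'.deg b m, ih b m⟩
      set w := D.ht (D.ω a) with hw
      have hrec : ∀ m : ℕ, D.Deg (2 * (ex ((m + 1) • D.ω a) * (Q a (m + 1) - Q' a (m + 1))) -
          ex (m • D.ω a) * (Q a (m + 2) - Q' a (m + 2)) -
          ex ((m + 2) • D.ω a) * (Q a m - Q' a m)) (2 * (m + 1) * w - n - 1) := by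
        intro m
        have h1 := (Close.prod (Finset.univ.erase a) fun b _ =>
          Close.prod (Finset.range (D.absC a b)) fun k _ =>
            hc b ((D.absC b a * (m + 1) + k) / D.absC a b)).2.2
        have h2 : ∑ b ∈ Finset.univ.erase a, ∑ k ∈ Finset.range (D.absC a b),
            (((D.absC b a * (m + 1) + k) / D.absC a b : ℕ) : ℤ) * D.ht (D.ω b) =
            (m + 1) * (2 * w - D.ht (D.r a)) := by
          rw [D.r_eq a, map_sub, map_zsmul, map_sum, smul_eq_mul, ← hw, sub_sub_cancel,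
            Finset.mul_sum]
          refine Finset.sum_congr rfl fun b _ => ?_
          rw [← Finset.sum_mul, ← Nat.cast_sum, map_zsmul, smul_eq_mul]
          rcases Nat.eq_zero_or_pos (D.absC a b) with h0 | h0
          · have h3 := D.absC_sym a b
            have h4 := D.t_pos a
            have : D.absC b a = 0 := by
              rw [h0, mul_zero] at h3
              exact (mul_eq_zero.1 h3.symm).resolve_left (by omega)
            simp [h0, this]
          · rw [sum_range_add_div h0]; push_cast; ring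
        rw [h2] at h1
        have h3 := D.ht_pos (D.pos_iff.1 (D.pos_simple a)) (D.r_ne_zero a)
        have e1 := h.qsystem a m
        have e2 := h'.qsystem a m
        set R := ∏ b ∈ Finset.univ.erase a, ∏ k ∈ Finset.range (D.absC a b),
          Q b ((D.absC b a * (m + 1) + k) / D.absC a b)
        set R' := ∏ b ∈ Finset.univ.erase a, ∏ k ∈ Finset.range (D.absC a b),
          Q' b ((D.absC b a * (m + 1) + k) / D.absC a b)
        have e3 : 2 * (ex ((m + 1) • D.ω a) * (Q a (m + 1) - Q' a (m + 1))) -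
          ex (m • D.ω a) * (Q a (m + 2) - Q' a (m + 2)) -
          ex ((m + 2) • D.ω a) * (Q a m - Q' a m) =
            (R - R') + (Q a (m + 2) - Q' a (m + 2)) * (Q a m - ex (m • D.ω a)) +
            (Q' a (m + 2) - ex ((m + 2) • D.ω a)) * (Q a m - Q' a m) -
            (Q a (m + 1) - Q' a (m + 1)) * (Q a (m + 1) - ex ((m + 1) • D.ω a)) -
            (Q a (m + 1) - Q' a (m + 1)) * (Q' a (m + 1) - ex ((m + 1) • D.ω a)) := by
          linear_combination e1 - e2
        rw [e3]
        refine Supp.sub (Supp.sub (Supp.add (Supp.add (Deg.le h1 ?_)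
          (((ih a (m + 2)).mul (h.deg_low a m)).le ?_))
          (((h'.deg_low a (m + 2)).mul (ih a m)).le ?_))
          (((ih a (m + 1)).mul (h.deg_low a (m + 1))).le ?_))
          (((ih a (m + 1)).mul (h'.deg_low a (m + 1))).le ?_)
        · nlinarith
        all_goals push_cast; linarith
      intro m x hx
      have h1 := ih a m x hx
      by_contra hcon
      set β := m • D.ω a - x with hβ
      have h2 : D.ht β = n := by
        rw [hβ, map_sub, map_nsmul, nsmul_eq_mul, ← hw]; rw [← hw] at h1; push_cast at hcon; omega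
      set δ : ℕ → ℤ := fun m => (Q a m - Q' a m).coeff (m • D.ω a - β) with hδ
      have h3 : ∀ m, δ (m + 2) = 2 * δ (m + 1) - δ m := by
        intro m
        have := (hrec m).coeff_eq_zero (x := (2 * (m + 1)) • D.ω a - β) (by
          rw [map_sub, map_nsmul, nsmul_eq_mul, h2, ← hw]; push_cast; omega)
        rw [two_mul (ex _ * _)] at this
        simp only [AddMonoidAlgebra.coeff_sub, AddMonoidAlgebra.coeff_add, Finsupp.sub_apply,
          Finsupp.add_apply, coeff_ex_mul] at this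
        have e1 : (2 * (m + 1)) • D.ω a - β - (m + 1) • D.ω a = (m + 1) • D.ω a - β := by module
        have e2 : (2 * (m + 1)) • D.ω a - β - m • D.ω a = (m + 2) • D.ω a - β := by module
        have e3 : (2 * (m + 1)) • D.ω a - β - (m + 2) • D.ω a = m • D.ω a - β := by module
        rw [e1, e2, e3] at this
        simp only [hδ, AddMonoidAlgebra.coeff_sub, Finsupp.sub_apply]
        omega
      have h4 : δ 0 = 0 := by simp [hδ, h.zero, h'.zero]
      have h5 : ∀ m, δ m = m * δ 1 ∧ δ (m + 1) = (m + 1) * δ 1 := by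
        intro m
        induction m with
        | zero => simp [h4]
        | succ m ih => exact ⟨by rw [ih.2]; push_cast; ring, by rw [h3, ih.1, ih.2]; push_cast; ring⟩
      obtain ⟨m₀, h6⟩ := h.converge a β
      obtain ⟨m₁, h7⟩ := h'.converge a β
      have h8 : δ (max m₀ m₁ + 1) = δ (max m₀ m₁) := by
        simp only [hδ, AddMonoidAlgebra.coeff_sub, Finsupp.sub_apply]
        rw [h6 _ (le_max_left _ _), h7 _ (le_max_right _ _), h6 _ (by omega), h7 _ (by omega)]
      rw [(h5 _).2, (h5 (max m₀ m₁)).1] at h8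
      have h9 : δ 1 = 0 := by linarith
      have h10 := (h5 m).1
      rw [h9, mul_zero] at h10
      apply hx
      simpa [hδ, hβ] using h10
  ext1 a
  ext1 m
  rw [← sub_eq_zero]
  refine Supp.eq_zero fun x hx => ?_
  have := key ((m * D.ht (D.ω a) - D.ht x).toNat + 1) a m x hx
  push_cast at this
  omega

end SimpleDatum

end Pool.Agent.Lib.MP_4354a3_al
end

-- part Pool.Agent.Lib.MP_4354a3_al.QA1
section

/-!
# Basic facts: the symmetrised Cartan matrix, powers of `q`, sequences and shift operators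
-/

set_option linter.unusedSectionVars false

namespace Pool.Agent.Lib.MP_4354a3_al

open Polynomial

namespace SimpleDatum

variable {ι M N : Type*} [Fintype ι] [DecidableEq ι] [AddCommGroup M] [AddCommGroup N]
  (D : SimpleDatum ι M N)

lemma di_mul_t (i : D.b.support) :
    D.di i * D.t i = Finset.univ.lcm fun j : D.b.support => D.t j :=
  Nat.div_mul_cancel (Finset.dvd_lcm (f := fun j : D.b.support => D.t j) (Finset.mem_univ i))

lemma di_pos (i : D.b.support) : 0 < D.di i := by
  have h := D.di_mul_t i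
  have h0 : (Finset.univ.lcm fun j : D.b.support => D.t j) ≠ 0 := by
    rw [Ne, Finset.lcm_eq_zero_iff]
    rintro ⟨j, -, hj⟩
    have := D.t_pos j
    omega
  rcases Nat.eq_zero_or_pos (D.di i) with h1 | h1
  · rw [h1, zero_mul] at h; exact absurd h.symm h0
  · exact h1

lemma di_pos' (i : D.b.support) : (0 : ℤ) < D.di i := by exact_mod_cast D.di_pos i

lemma Bm_eq (i j : D.b.support) : D.Bm i j = D.di i * D.cv i (D.r j) := rfl

lemma Bm_symm (i j : D.b.support) : D.Bm i j = D.Bm j i := by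
  have h1 : (D.di i : ℤ) * D.t i = D.di j * D.t j := by
    exact_mod_cast (D.di_mul_t i).trans (D.di_mul_t j).symm
  have h2 := D.t_sym i j
  have h3 := D.t_pos i
  have h4 := D.t_pos j
  rw [Bm_eq, Bm_eq]
  apply mul_left_cancel₀ (a := (D.t i : ℤ) * D.t j) (by positivity)
  linear_combination (D.t j * D.cv i (D.r j)) * h1 - (D.di j * D.t j) * h2

@[simp] lemma Bm_self (i : D.b.support) : D.Bm i i = 2 * D.di i := by
  rw [Bm_eq, cv_r_self, mul_comm]

lemma Bm_ne {i j : D.b.support} (h : i ≠ j) : D.Bm i j = -(D.di i * D.absC i j) := by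
  rw [Bm_eq, D.absC_eq h.symm]; ring

lemma di_absC (i j : D.b.support) : D.di i * D.absC i j = D.di j * D.absC j i := by
  by_cases h : i = j
  · rw [h]
  have h1 := D.Bm_symm i j
  rw [D.Bm_ne h, D.Bm_ne (Ne.symm h)] at h1
  have : (D.di i : ℤ) * D.absC i j = D.di j * D.absC j i := by omega
  exact_mod_cast this

lemma absC_mul_lt {i j : D.b.support} (h : i ≠ j) : D.absC i j * D.absC j i < 4 := by
  have h1 := D.B_root i (D.r j)
  have h2 := D.B_root j (D.r i)
  have hi := D.B_root_pos i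
  have hj := D.B_root_pos j
  have hc := D.B_comm (D.r i) (D.r j)
  have hne : (2 : ℤ) • D.r j - D.cv i (D.r j) • D.r i ≠ 0 := by
    intro h0
    have hli := D.b.linearIndepOn_root
    have := (linearIndepOn_iff'.1 hli) {i.1, j.1}
      (fun k => if k = j.1 then 2 else -D.cv i (D.r j)) (by
        intro k hk
        simp only [Finset.coe_insert, Finset.coe_singleton, Set.mem_insert_iff,
          Set.mem_singleton_iff] at hk
        rcases hk with rfl | rfl
        · exact i.2
        · exact j.2) (by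
        have hij : i.1 ≠ j.1 := fun e => h (Subtype.ext e)
        rw [Finset.sum_pair hij, if_neg hij, if_pos rfl, ← h0]
        simp only [r]; module) j.1 (by simp)
    simp at this
  have hp := D.B_self_pos hne
  simp only [B, map_sub, map_smul, LinearMap.sub_apply, LinearMap.smul_apply, smul_eq_mul] at *
  have e1 := D.absC_eq (a := i) (b := j) h.symm
  have e2 := D.absC_eq (a := j) (b := i) h
  have : (D.absC i j : ℤ) * D.absC j i < 4 := by
    rw [e1, e2]
    set u := D.cv i (D.r j)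
    set w := D.cv j (D.r i)
    set a := D.P.RootForm (D.r i) (D.r i)
    set b := D.P.RootForm (D.r j) (D.r j)
    set c := D.P.RootForm (D.r j) (D.r i)
    rw [hc] at h1 hp
    have : b * (4 - u * w) > 0 := by nlinarith
    have := pos_of_mul_pos_of_pos_left' this hj
    linarith
  exact_mod_cast this
where
  pos_of_mul_pos_of_pos_left' {a b : ℤ} (h : a * b > 0) (ha : 0 < a) : 0 < b :=
    (mul_pos_iff_of_pos_left ha).1 h

lemma absC_cases {i j : D.b.support} (h : i ≠ j) :
    (D.absC i j = 0 ∧ D.absC j i = 0) ∨ (D.absC i j = 1 ∧ 0 < D.absC j i) ∨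
      (D.absC j i = 1 ∧ 0 < D.absC i j) := by
  have h1 := D.absC_mul_lt h
  have h2 := D.di_absC i j
  have h3 := D.di_pos i
  have h4 := D.di_pos j
  rcases Nat.eq_zero_or_pos (D.absC i j) with h5 | h5
  · rw [h5] at h2
    left; exact ⟨h5, by nlinarith⟩
  rcases Nat.eq_zero_or_pos (D.absC j i) with h6 | h6
  · rw [h6] at h2; nlinarith
  by_cases h7 : D.absC i j = 1
  · exact Or.inr (Or.inl ⟨h7, h6⟩)
  · exact Or.inr (Or.inr ⟨by nlinarith [Nat.lt_of_le_of_ne h5 (Ne.symm h7)], h5⟩)

lemma Bm_bound {i j : D.b.support} (h : i ≠ j) : D.Bm i j ≤ 0 ∧ -D.Bm i j < D.di i + D.di j := by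
  have h2 : (D.di i : ℤ) * D.absC i j = D.di j * D.absC j i := by exact_mod_cast D.di_absC i j
  have h3 := D.di_pos' i
  have h4 := D.di_pos' j
  rw [D.Bm_ne h]
  refine ⟨by have : (0 : ℤ) ≤ D.di i * D.absC i j := by positivity
             omega, ?_⟩
  rcases D.absC_cases h with ⟨h5, -⟩ | ⟨h5, -⟩ | ⟨h5, -⟩
  · rw [h5]; push_cast; omega
  · rw [h5]; push_cast; omega
  · rw [h2, h5]; push_cast; omega

end SimpleDatum

/-- `q` is not zero and not a root of unity. -/
structure Gen (q : ℂ) : Prop where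
  ne : q ≠ 0
  pow_ne : ∀ n : ℕ, 0 < n → q ^ n ≠ 1

lemma Gen.zpow_eq_one {q : ℂ} (h : Gen q) {n : ℤ} (hn : q ^ n = 1) : n = 0 := by
  by_contra h0
  apply h.pow_ne n.natAbs (by omega)
  rcases Int.natAbs_eq n with e | e
  · rw [← zpow_natCast, ← e, hn]
  · have : (n.natAbs : ℤ) = -n := by omega
    rw [← zpow_natCast, this, zpow_neg, hn, inv_one]

lemma Gen.inj {q : ℂ} (h : Gen q) {m n : ℤ} (e : q ^ m = q ^ n) : m = n := by
  have : q ^ (m - n) = 1 := by rw [zpow_sub₀ h.ne, e, div_self (zpow_ne_zero _ h.ne)]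
  have := h.zpow_eq_one this
  omega

lemma Gen.zne {q : ℂ} (h : Gen q) (n : ℤ) : q ^ n ≠ 0 := zpow_ne_zero _ h.ne

lemma Gen.sub_inv_ne {q : ℂ} (h : Gen q) {n : ℤ} (hn : n ≠ 0) : q ^ n - (q ^ n)⁻¹ ≠ 0 := by
  rw [← zpow_neg, sub_ne_zero]
  intro e
  have := h.inj e
  omega

section Seq

variable {W W' : Type*} [AddCommGroup W] [Module ℂ W] [AddCommGroup W'] [Module ℂ W']

/-- A one-sided double sequence with a skew shift relation modulo `U` lies in `U`. -/
lemma van (U : Submodule ℂ W) (ε : ℤˣ) {κ : ℂ} (hκ : κ ≠ 0) (F : ℤ → ℤ → W)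
    (h0 : ∀ r s, (ε : ℤ) * r < 0 → F r s ∈ U)
    (h1 : ∀ r s, F (r + 1) s - κ • F r (s + 1) ∈ U) (r s : ℤ) : F r s ∈ U := by
  rcases Int.units_eq_one_or ε with rfl | rfl
  · have key : ∀ n : ℕ, ∀ s, F (n - 1) s ∈ U := by
      intro n
      induction n with
      | zero => intro s; exact h0 _ _ (by simp)
      | succ n ih =>
        intro s
        have := U.add_mem (h1 (n - 1) s) (U.smul_mem κ (ih (s + 1)))
        rw [sub_add_cancel, sub_add_cancel] at this
        rwa [Nat.cast_succ, add_sub_cancel_right]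
    rcases lt_or_ge r 0 with h | h
    · exact h0 _ _ (by simpa using h)
    · have := key (r + 1).toNat s
      rwa [Int.toNat_of_nonneg (by omega), add_sub_cancel_right] at this
  · have key : ∀ n : ℕ, ∀ s, F (1 - n) s ∈ U := by
      intro n
      induction n with
      | zero => intro s; exact h0 _ _ (by simp)
      | succ n ih =>
        intro s
        have h2 := h1 (-n) (s - 1)
        have h3 := ih (s - 1)
        rw [show (1 : ℤ) - n = -n + 1 by ring] at h3
        have := U.smul_mem κ⁻¹ (U.sub_mem h3 h2)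
        rw [sub_sub_cancel, smul_smul, inv_mul_cancel₀ hκ, one_smul, sub_add_cancel] at this
        rwa [show (1 : ℤ) - (n + 1 : ℕ) = -n by push_cast; ring]
    rcases lt_or_ge 0 r with h | h
    · exact h0 _ _ (by simpa using h)
    · have := key (1 - r).toNat s
      rwa [Int.toNat_of_nonneg (by omega), sub_sub_cancel] at this

/-- The shift of sequences. -/
def shift : Module.End ℂ (ℤ → W) := LinearMap.funLeft ℂ W (· + 1)

/-- The action of polynomials in the shift. -/
noncomputable def act (P : ℂ[X]) (s : ℤ → W) : ℤ → W := aeval (shift (W := W)) P s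

@[simp] lemma act_zero (s : ℤ → W) : act 0 s = 0 := by simp [act]

@[simp] lemma act_one (s : ℤ → W) : act 1 s = s := by simp [act]

@[simp] lemma act_C (a : ℂ) (s : ℤ → W) : act (C a) s = a • s := by simp [act]

@[simp] lemma act_X (s : ℤ → W) (r : ℤ) : act X s r = s (r + 1) := by simp [act, shift]

lemma act_mul (P Q : ℂ[X]) (s : ℤ → W) : act (P * Q) s = act P (act Q s) := by simp [act]

lemma act_comm (P Q : ℂ[X]) (s : ℤ → W) : act P (act Q s) = act Q (act P s) := by
  rw [← act_mul, mul_comm, act_mul]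

lemma act_add (P Q : ℂ[X]) (s : ℤ → W) : act (P + Q) s = act P s + act Q s := by simp [act]

lemma act_sub (P Q : ℂ[X]) (s : ℤ → W) : act (P - Q) s = act P s - act Q s := by simp [act]

lemma act_sum {κ : Type*} (t : Finset κ) (P : κ → ℂ[X]) (s : ℤ → W) :
    act (∑ c ∈ t, P c) s = ∑ c ∈ t, act (P c) s := by simp [act, map_sum]

lemma act_add' (P : ℂ[X]) (s t : ℤ → W) : act P (s + t) = act P s + act P t := by simp [act]

lemma act_sub' (P : ℂ[X]) (s t : ℤ → W) : act P (s - t) = act P s - act P t := by simp [act]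

lemma act_smul' (P : ℂ[X]) (a : ℂ) (s : ℤ → W) : act P (a • s) = a • act P s := by simp [act]

@[simp] lemma act_zero' (P : ℂ[X]) : act P (0 : ℤ → W) = 0 := by simp [act]

lemma act_lin (a : ℂ) (s : ℤ → W) (r : ℤ) : act (X - C a) s r = s (r + 1) - a • s r := by
  simp [act_sub]

/-- Induction on polynomials by constants, sums and multiplication by `X`. -/
lemma poly_ind {p : ℂ[X] → Prop} (hC : ∀ a, p (C a)) (hadd : ∀ P Q, p P → p Q → p (P + Q))
    (hX : ∀ P, p P → p (X * P)) (P : ℂ[X]) : p P := by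
  induction P using Polynomial.induction_on with
  | C a => exact hC a
  | add P Q h1 h2 => exact hadd P Q h1 h2
  | monomial n a h =>
    have := hX _ h
    rwa [show X * (C a * X ^ n) = C a * X ^ (n + 1) by ring] at this

lemma act_map (L : W →ₗ[ℂ] W') (P : ℂ[X]) (s : ℤ → W) (r : ℤ) :
    L (act P s r) = act P (fun r => L (s r)) r := by
  induction P using poly_ind generalizing r with
  | hC a => simp
  | hadd P Q h1 h2 => simp [act_add, h1, h2]
  | hX P h => simp [act_mul, h]

lemma act_shift (P : ℂ[X]) (s : ℤ → W) (m r : ℤ) :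
    act P (fun r => s (r + m)) r = act P s (r + m) := by
  induction P using poly_ind generalizing r with
  | hC a => simp
  | hadd P Q h1 h2 => simp [act_add, h1, h2]
  | hX P h => simp [act_mul, h, add_right_comm]

lemma act_mem (U : Submodule ℂ W) (P : ℂ[X]) {s : ℤ → W} (h : ∀ r, s r ∈ U) (r : ℤ) :
    act P s r ∈ U := by
  induction P using poly_ind generalizing r with
  | hC a => simpa using U.smul_mem a (h r)
  | hadd P Q h1 h2 => rw [act_add]; exact U.add_mem (h1 r) (h2 r)
  | hX P h => rw [act_mul, act_X]; exact h _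

lemma act_apply {V : Type*} [AddCommGroup V] [Module ℂ V] (P : ℂ[X]) (s : ℤ → Module.End ℂ V)
    (r : ℤ) (u : V) : act P s r u = act P (fun r => s r u) r :=
  act_map (LinearMap.applyₗ u) P s r

lemma act_of_dvd {P Q : ℂ[X]} (h : P ∣ Q) {s : ℤ → W} (hs : act P s = 0) : act Q s = 0 := by
  obtain ⟨R, rfl⟩ := h
  rw [mul_comm, act_mul, hs, act_zero']

/-- One-sided sequences have no torsion for linear factors with nonzero root. -/
lemma act_cancel (ε : ℤˣ) {a : ℂ} (ha : a ≠ 0) {s : ℤ → W} (m : ℤ)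
    (h0 : ∀ r, (ε : ℤ) * r < m → s r = 0) (h : act (X - C a) s = 0) : s = 0 := by
  funext r
  have := van (⊥ : Submodule ℂ W) ε ha (fun r _ => s (r + ε * m))
    (fun r _ hr => by
      rw [Submodule.mem_bot]; apply h0
      rcases Int.units_eq_one_or ε with rfl | rfl <;> simp at hr ⊢ <;> omega)
    (fun r _ => by
      have := congrFun h (r + ε * m)
      rw [act_lin] at this
      rw [Submodule.mem_bot, add_right_comm]; exact this) (r - ε * m) 0
  simpa using this

end Seq

end Pool.Agent.Lib.MP_4354a3_al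
end

-- part Pool.Agent.Lib.MP_4354a3_al.QB1
section

/-!
# Local divisibility of polynomials in the variables `A_{j,c}⁻¹`
-/

set_option linter.unusedSectionVars false

namespace Pool.Agent.Lib.MP_4354a3_al

open MvPolynomial

section Loc

variable {σ : Type*} [DecidableEq σ]

/-- The span of the `(1 + X_p)^n X^e` with `n ≥ o - π e`. -/
noncomputable def Loc (p : σ) (π : (σ →₀ ℕ) →+ ℤ) (o : ℤ) : Submodule ℤ (MvPolynomial σ ℤ) :=
  Submodule.span ℤ {Y | ∃ (n : ℕ) (e : σ →₀ ℕ), o - π e ≤ n ∧ Y = (1 + X p) ^ n * monomial e 1}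

variable {p : σ} {π : (σ →₀ ℕ) →+ ℤ}

lemma loc_gen {o : ℤ} (n : ℕ) (e : σ →₀ ℕ) (h : o - π e ≤ n) :
    (1 + X p) ^ n * monomial e 1 ∈ Loc p π o := Submodule.subset_span ⟨n, e, h, rfl⟩

lemma loc_monomial {o : ℤ} {e : σ →₀ ℕ} (h : o ≤ π e) : monomial e 1 ∈ Loc p π o := by
  simpa using loc_gen (p := p) (π := π) (o := o) 0 e (by simpa using h)

lemma loc_one {o : ℤ} (h : o ≤ 0) : (1 : MvPolynomial σ ℤ) ∈ Loc p π o :=
  loc_monomial (e := 0) (by simpa using h)

lemma loc_pow (n : ℕ) : (1 + X p) ^ n ∈ Loc p π n := by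
  simpa using loc_gen (p := p) (π := π) (o := n) n 0 (by simp)

lemma loc_mono {o o' : ℤ} (h : o ≤ o') {Y : MvPolynomial σ ℤ} (hY : Y ∈ Loc p π o') :
    Y ∈ Loc p π o :=
  Submodule.span_mono (by rintro _ ⟨n, e, h1, rfl⟩; exact ⟨n, e, by omega, rfl⟩) hY

lemma loc_mul {o o' : ℤ} {Y Z : MvPolynomial σ ℤ} (hY : Y ∈ Loc p π o) (hZ : Z ∈ Loc p π o') :
    Y * Z ∈ Loc p π (o + o') := by
  induction hY using Submodule.span_induction with
  | zero => simp
  | add _ _ _ _ h1 h2 => rw [add_mul]; exact add_mem h1 h2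
  | smul a _ _ h => rw [smul_mul_assoc]; exact Submodule.smul_mem _ a h
  | mem Y hY =>
    induction hZ using Submodule.span_induction with
    | zero => simp
    | add _ _ _ _ h1 h2 => rw [mul_add]; exact add_mem h1 h2
    | smul a _ _ h => rw [mul_smul_comm]; exact Submodule.smul_mem _ a h
    | mem Z hZ =>
      obtain ⟨n, e, h, rfl⟩ := hY
      obtain ⟨n', e', h', rfl⟩ := hZ
      have := loc_gen (p := p) (π := π) (o := o + o') (n + n') (e + e')
        (by rw [map_add]; push_cast; omega)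
      rwa [pow_add, ← one_mul (1 : ℤ), ← monomial_mul, mul_mul_mul_comm] at this

lemma loc_prod {κ : Type*} (s : Finset κ) {o : κ → ℤ} {Y : κ → MvPolynomial σ ℤ}
    (h : ∀ c ∈ s, Y c ∈ Loc p π (o c)) : ∏ c ∈ s, Y c ∈ Loc p π (∑ c ∈ s, o c) := by
  classical
  induction s using Finset.induction_on with
  | empty => simpa using loc_one le_rfl
  | insert a s ha ih =>
    rw [Finset.prod_insert ha, Finset.sum_insert ha]
    exact loc_mul (h a (Finset.mem_insert_self _ _))
      (ih fun c hc => h c (Finset.mem_insert_of_mem hc))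

lemma loc_map {p' : σ} {π' : (σ →₀ ℕ) →+ ℤ} (f : MvPolynomial σ ℤ →ₐ[ℤ] MvPolynomial σ ℤ)
    (hp : f (X p) = X p') (hf : ∀ e, f (monomial e 1) ∈ Loc p' π' (π e)) {o : ℤ}
    {Y : MvPolynomial σ ℤ} (hY : Y ∈ Loc p π o) : f Y ∈ Loc p' π' o := by
  induction hY using Submodule.span_induction with
  | zero => simp
  | add _ _ _ _ h1 h2 => rw [map_add]; exact add_mem h1 h2
  | smul a _ _ h => rw [map_smul]; exact Submodule.smul_mem _ a h
  | mem Y hY =>
    obtain ⟨n, e, h, rfl⟩ := hY
    rw [map_mul, map_pow, map_add, map_one, hp]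
    exact loc_mono (by omega) (loc_mul (loc_pow n) (hf e))

/-- The part of a polynomial on the line through `e₀` in the direction `p`. -/
noncomputable def line (p : σ) (e₀ : σ →₀ ℕ) : MvPolynomial σ ℤ →ₗ[ℤ] Polynomial ℤ :=
  (basisMonomials σ ℤ).constr ℤ fun e =>
    if e.erase p = e₀ then Polynomial.monomial (e p) 1 else 0

lemma line_monomial (p : σ) (e₀ e : σ →₀ ℕ) :
    line p e₀ (monomial e 1) = if e.erase p = e₀ then Polynomial.monomial (e p) 1 else 0 := by
  have := (basisMonomials σ ℤ).constr_basis ℤ (fun e =>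
    if e.erase p = e₀ then (Polynomial.monomial (e p) 1 : Polynomial ℤ) else 0) e
  rwa [coe_basisMonomials] at this

lemma mono_ind {Q : MvPolynomial σ ℤ → Prop} (h0 : ∀ e, Q (monomial e 1))
    (h1 : ∀ Y Z, Q Y → Q Z → Q (Y + Z)) (h2 : ∀ (a : ℤ) Y, Q Y → Q (a • Y)) (Y) : Q Y := by
  induction Y using MvPolynomial.induction_on' with
  | monomial e a => simpa [smul_monomial] using h2 a _ (h0 e)
  | add Y Z h h' => exact h1 _ _ h h'

lemma erase_eq_iff {e e₀ : σ →₀ ℕ} (h0 : e₀ p = 0) {n : ℕ} :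
    e = e₀ + Finsupp.single p n ↔ e.erase p = e₀ ∧ e p = n := by
  constructor
  · rintro rfl
    refine ⟨?_, by simp [h0]⟩
    ext a
    by_cases h : a = p
    · simp [h, h0]
    · simp [h]
  · rintro ⟨rfl, rfl⟩
    exact (Finsupp.erase_add_single p e).symm

lemma coeff_line {e₀ : σ →₀ ℕ} (h0 : e₀ p = 0) (Y : MvPolynomial σ ℤ) (n : ℕ) :
    (line p e₀ Y).coeff n = coeff (e₀ + Finsupp.single p n) Y := by
  induction Y using mono_ind with
  | h0 e =>
    rw [line_monomial, coeff_monomial]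
    simp only [erase_eq_iff h0]
    by_cases h : e.erase p = e₀ <;> simp [h, Polynomial.coeff_monomial]
  | h1 Y Z h h' => simp [h, h']
  | h2 a Y h => rw [map_smul, Polynomial.coeff_smul, h, coeff_smul]

lemma line_X_mul (e₀ : σ →₀ ℕ) (Y : MvPolynomial σ ℤ) :
    line p e₀ (X p * Y) = Polynomial.X * line p e₀ Y := by
  induction Y using mono_ind with
  | h0 e =>
    rw [← pow_one (X p), ← monomial_single_add, line_monomial, line_monomial, Finsupp.erase_add,
      Finsupp.erase_single, zero_add]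
    split_ifs
    · simp [Polynomial.X_mul_monomial, add_comm]
    · simp
  | h1 Y Z h h' => simp [mul_add, h, h']
  | h2 a Y h => rw [mul_smul_comm, map_smul, h, map_smul, mul_smul_comm]

lemma line_pow_mul (e₀ : σ →₀ ℕ) (n : ℕ) (Y : MvPolynomial σ ℤ) :
    line p e₀ ((1 + X p) ^ n * Y) = (1 + Polynomial.X) ^ n * line p e₀ Y := by
  induction n with
  | zero => simp
  | succ n ih => rw [pow_succ', mul_assoc, add_mul, one_mul, map_add, line_X_mul, ih]; ring

lemma pi_erase (hπ : π (Finsupp.single p 1) = 0) (e : σ →₀ ℕ) : π (e.erase p) = π e := by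
  conv_rhs => rw [← Finsupp.erase_add_single p e]
  rw [map_add, ← mul_one (e p), ← smul_eq_mul, ← Finsupp.smul_single, map_nsmul, hπ]; simp

lemma line_dvd (hπ : π (Finsupp.single p 1) = 0) {o : ℤ} {Y : MvPolynomial σ ℤ}
    (hY : Y ∈ Loc p π o) (e₀ : σ →₀ ℕ) : (1 + Polynomial.X) ^ (o - π e₀).toNat ∣ line p e₀ Y := by
  induction hY using Submodule.span_induction with
  | zero => simp
  | add _ _ _ _ h1 h2 => rw [map_add]; exact dvd_add h1 h2
  | smul a _ _ h => rw [map_smul, zsmul_eq_mul]; exact h.mul_left _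
  | mem Y hY =>
    obtain ⟨n, e, h, rfl⟩ := hY
    rw [line_pow_mul, line_monomial]
    split_ifs with he
    · rw [← he, pi_erase hπ]
      exact (pow_dvd_pow _ (by omega)).mul_right _
    · simp

lemma loc_of_dvd (hπ : π (Finsupp.single p 1) = 0) {o : ℤ} {Y : MvPolynomial σ ℤ}
    (h : ∀ e₀, e₀ p = 0 → (1 + Polynomial.X) ^ (o - π e₀).toNat ∣ line p e₀ Y) :
    Y ∈ Loc p π o := by
  have key : ∀ (S : Finset (σ →₀ ℕ)) (e : σ →₀ ℕ), e.erase p ∈ S →
      ∑ e₀ ∈ S, monomial e₀ 1 * Polynomial.aeval (X p) (line p e₀ (monomial e 1)) =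
        (monomial e 1 : MvPolynomial σ ℤ) := by
    intro S e he
    rw [Finset.sum_eq_single (e.erase p)]
    · rw [line_monomial, if_pos rfl, Polynomial.aeval_monomial, map_one (algebraMap ℤ _), one_mul,
        ← monomial_add_single, Finsupp.erase_add_single]
    · intro b _ hb
      rw [line_monomial, if_neg hb.symm, map_zero, mul_zero]
    · exact fun h => absurd he h
  have e1 : Y = ∑ e₀ ∈ Y.support.image (·.erase p),
      monomial e₀ 1 * Polynomial.aeval (X p) (line p e₀ Y) := by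
    set S := Y.support.image (·.erase p)
    have : ∀ e₀, line p e₀ Y = ∑ e ∈ Y.support, coeff e Y • line p e₀ (monomial e 1) := by
      intro e₀
      conv_lhs => rw [Y.as_sum, map_sum]
      refine Finset.sum_congr rfl fun e _ => ?_
      rw [← map_smul, smul_monomial, smul_eq_mul, mul_one]
    simp only [this, map_sum, map_smul, Finset.mul_sum, mul_smul_comm]
    rw [Finset.sum_comm]
    conv_lhs => rw [Y.as_sum]
    refine Finset.sum_congr rfl fun e he => ?_
    rw [← Finset.smul_sum, key S e (Finset.mem_image_of_mem _ he), smul_monomial, smul_eq_mul,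
      mul_one]
  rw [e1]
  refine Submodule.sum_mem _ fun e₀ he₀ => ?_
  obtain ⟨e, -, rfl⟩ := Finset.mem_image.1 he₀
  obtain ⟨Q, hQ⟩ := h (e.erase p) (by simp)
  have hQ' : ∀ Q : Polynomial ℤ, Polynomial.aeval (X p : MvPolynomial σ ℤ) Q ∈ Loc p π 0 := by
    intro Q
    induction Q using Polynomial.induction_on' with
    | add P Q h1 h2 => rw [map_add]; exact add_mem h1 h2
    | monomial n a =>
      rw [Polynomial.aeval_monomial, X_pow_eq_monomial, ← Algebra.smul_def]
      refine Submodule.smul_mem _ _ (loc_monomial ?_)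
      rw [← mul_one n, ← smul_eq_mul, ← Finsupp.smul_single, map_nsmul, hπ]; simp
  rw [hQ, map_mul, map_pow, map_add, map_one (Polynomial.aeval _), Polynomial.aeval_X]
  have := loc_mul (loc_monomial (p := p) (le_refl (π (e.erase p))))
    (loc_mul (loc_pow (o - π (e.erase p)).toNat) (hQ' Q))
  exact loc_mono (by omega) this

/-- From the lowest point of a line one can move up by the pole order. -/
lemma loc_step (hπ : π (Finsupp.single p 1) = 0) {o : ℤ} {Y : MvPolynomial σ ℤ}
    (hY : Y ∈ Loc p π o) {e : σ →₀ ℕ} (he : e ∈ Y.support)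
    (hlow : ∀ e' ∈ Y.support, ∀ n, 0 < n → e ≠ e' + Finsupp.single p n) :
    ∃ n : ℕ, o - π e ≤ n ∧ e + Finsupp.single p n ∈ Y.support := by
  obtain ⟨Q, hQ⟩ := line_dvd hπ hY (e.erase p)
  rw [pi_erase hπ] at hQ
  have hc := coeff_line (p := p) (e₀ := e.erase p) (by simp) Y
  have h1 : (line p (e.erase p) Y).coeff (e p) ≠ 0 := by
    rw [hc, Finsupp.erase_add_single]; exact mem_support_iff.1 he
  have h2 : line p (e.erase p) Y ≠ 0 := fun h => by simp [h] at h1
  have hQ0 : Q ≠ 0 := fun h => by simp [h] at hQ; exact h2 hQ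
  have hX : (1 + Polynomial.X : Polynomial ℤ) ≠ 0 := fun h => by
    simpa using congrArg (Polynomial.coeff · 0) h
  have h3 : e p ≤ (line p (e.erase p) Y).natTrailingDegree := by
    refine Polynomial.le_natTrailingDegree h2 fun m hm => ?_
    by_contra h
    rw [hc] at h
    refine hlow _ (mem_support_iff.2 h) (e p - m) (by omega) ?_
    rw [add_assoc, ← Finsupp.single_add, Nat.add_sub_cancel' hm.le, Finsupp.erase_add_single]
  have h4 : (line p (e.erase p) Y).natTrailingDegree ≤ Q.natTrailingDegree := by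
    rw [hQ, Polynomial.natTrailingDegree_mul (pow_ne_zero _ hX) hQ0,
      Polynomial.natTrailingDegree_eq_zero.2 (Or.inr (by simp [Polynomial.coeff_zero_eq_eval_zero])),
      zero_add]
  have h5 : (line p (e.erase p) Y).natDegree = (o - π e).toNat + Q.natDegree := by
    rw [hQ, Polynomial.natDegree_mul (pow_ne_zero _ hX) hQ0, Polynomial.natDegree_pow, add_comm 1,
      ← Polynomial.C_1, Polynomial.natDegree_X_add_C, mul_one]
  have h6 := Q.natTrailingDegree_le_natDegree
  refine ⟨(line p (e.erase p) Y).natDegree - e p, by omega, mem_support_iff.2 ?_⟩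
  have h7 := Polynomial.leadingCoeff_ne_zero.2 h2
  rw [Polynomial.leadingCoeff, hc] at h7
  convert h7 using 2
  conv_lhs => rw [← Finsupp.erase_add_single p e]
  rw [add_assoc, ← Finsupp.single_add, Finsupp.erase_add_single, Nat.add_sub_cancel' (by omega)]

end Loc

end Pool.Agent.Lib.MP_4354a3_al
end

-- part Pool.Agent.Lib.MP_4354a3_al.QB2
section

/-!
# Monomials, pole orders and the walk to the left
-/

set_option linter.unusedSectionVars false

namespace Pool.Agent.Lib.MP_4354a3_al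

open MvPolynomial

namespace SimpleDatum

variable {ι M N : Type*} [Fintype ι] [DecidableEq ι] [AddCommGroup M] [AddCommGroup N]
  (D : SimpleDatum ι M N)

/-- A node and a spectral exponent. -/
abbrev Pt := D.b.support × ℤ

/-- Exponents of monomials in the `A_p⁻¹`. -/
abbrev Ex := D.Pt →₀ ℕ

/-- Polynomials in the `A_p⁻¹`. -/
abbrev Pol := MvPolynomial D.Pt ℤ

/-- The pole order at `p` of `A_{p'}`. -/
def pa (p' p : D.Pt) : ℤ := (if p.2 = p'.2 + D.Bm p.1 p'.1 then 1 else 0) -
  (if p.2 = p'.2 - D.Bm p.1 p'.1 then 1 else 0)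

/-- The pole order at `p` of `A^e`. -/
noncomputable def pA (p : D.Pt) : D.Ex →+ ℤ :=
  Finsupp.liftAddHom fun p' => multiplesHom ℤ (D.pa p' p)

@[simp] lemma pA_single (p p' : D.Pt) (n : ℕ) : D.pA p (Finsupp.single p' n) = n * D.pa p' p := by
  simp [pA]

lemma pA_self (p : D.Pt) : D.pA p (Finsupp.single p 1) = 0 := by
  have := D.di_pos' p.1
  rw [pA_single, pa, Bm_self, if_neg (by omega), if_neg (by omega)]; simp

/-- The local condition at `p`. -/
noncomputable abbrev LocAt (p : D.Pt) (o : ℤ) : Submodule ℤ D.Pol := Loc p (D.pA p) o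

/-- `A_p` as a monomial in the `Y`. -/
noncomputable def Av (p : D.Pt) : D.Pt →₀ ℤ :=
  Finsupp.single (p.1, p.2 - D.di p.1) 1 + Finsupp.single (p.1, p.2 + D.di p.1) 1 -
    ∑ i ∈ Finset.univ.erase p.1, ∑ s ∈ Finset.range (D.absC i p.1),
      Finsupp.single (i, p.2 + D.Bm i p.1 + D.di i + 2 * s * D.di i) 1

lemma Av_same (j : D.b.support) (c y : ℤ) : D.Av (j, c) (j, y) =
    (if c - D.di j = y then 1 else 0) + (if c + D.di j = y then 1 else 0) := by
  simp only [Av, Finsupp.sub_apply, Finsupp.add_apply, Finsupp.finsetSum_apply,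
    Finsupp.single_apply, Prod.mk.injEq, true_and]
  rw [Finset.sum_eq_zero, sub_zero]
  intro i hi
  simp [Finset.ne_of_mem_erase hi]

lemma Av_ne {i j : D.b.support} (h : i ≠ j) (c y : ℤ) : D.Av (j, c) (i, y) =
    -∑ s ∈ Finset.range (D.absC i j),
      if c + D.Bm i j + D.di i + 2 * s * D.di i = y then 1 else 0 := by
  simp only [Av, Finsupp.sub_apply, Finsupp.add_apply, Finsupp.finsetSum_apply,
    Finsupp.single_apply, Prod.mk.injEq, h.symm, false_and, if_false]
  rw [Finset.sum_eq_single i]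
  · simp
  · intro l _ hl; simp [hl]
  · intro hi; simp [h] at hi

/-- `A^e` as a monomial in the `Y`. -/
noncomputable def Am : D.Ex →+ (D.Pt →₀ ℤ) :=
  Finsupp.liftAddHom fun p => multiplesHom _ (D.Av p)

@[simp] lemma Am_single (p : D.Pt) (n : ℕ) : D.Am (Finsupp.single p n) = n • D.Av p := by
  simp [Am]

/-- The pole order of a monomial in the `Y`. -/
def ord (u : D.Pt →₀ ℤ) (p : D.Pt) : ℤ := u (p.1, p.2 - D.di p.1) - u (p.1, p.2 + D.di p.1)

lemma ord_add (u u' : D.Pt →₀ ℤ) (p : D.Pt) : D.ord (u + u') p = D.ord u p + D.ord u' p := by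
  simp only [ord, Finsupp.add_apply]; ring

lemma ord_Av (p' p : D.Pt) : D.ord (D.Av p') p = D.pa p' p := by
  obtain ⟨j, c⟩ := p'
  obtain ⟨i, b⟩ := p
  have hd := D.di_pos' i
  by_cases h : i = j
  · subst h
    simp only [ord, pa, Av_same, Bm_self]
    split_ifs <;> omega
  · simp only [ord, pa, D.Av_ne h]
    have := Finset.sum_range_sub (fun s : ℕ => if b = c + D.Bm i j + 2 * s * D.di i then (1 : ℤ) else 0)
      (D.absC i j)
    rw [Finset.sum_sub_distrib] at this
    have e1 : ∀ s : ℕ, (c + D.Bm i j + D.di i + 2 * s * D.di i = b - D.di i) ↔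
        (b = c + D.Bm i j + 2 * (s + 1 : ℕ) * D.di i) := fun s => by
      push_cast; constructor <;> intro h <;> linarith
    have e2 : ∀ s : ℕ, (c + D.Bm i j + D.di i + 2 * s * D.di i = b + D.di i) ↔
        (b = c + D.Bm i j + 2 * s * D.di i) := fun s => by
      constructor <;> intro h <;> linarith
    have e3 : c + D.Bm i j + 2 * (D.absC i j) * D.di i = c - D.Bm i j := by
      rw [D.Bm_ne h]; ring
    simp only [e1, e2]
    rw [e3] at this
    simp only [Nat.cast_zero, mul_zero, zero_mul, add_zero] at this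
    linarith

lemma ord_Am (e : D.Ex) (p : D.Pt) : D.ord (D.Am e) p = D.pA p e := by
  induction e using Finsupp.induction_linear with
  | zero => simp [ord]
  | add e e' h h' => rw [map_add, map_add, ord_add, h, h']
  | single p' n =>
    rw [Am_single, pA_single, ← ord_Av]
    simp only [ord, Finsupp.smul_apply, nsmul_eq_mul]; ring

lemma Am_right {e : D.Ex} {R : ℤ} (h : ∀ p ∈ e.support, p.2 + D.di p.1 ≤ R) (j : D.b.support) :
    D.Am e (j, R) = e (j, R - D.di j) := by
  have hd := D.di_pos' j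
  rw [Am, Finsupp.liftAddHom_apply, Finsupp.sum, Finsupp.finsetSum_apply,
    Finset.sum_eq_single (j, R - D.di j)]
  · simp only [multiplesHom_apply, Finsupp.smul_apply, Av_same]
    rw [if_neg (by omega), if_pos (by omega)]; simp
  · rintro ⟨l, c⟩ hp hne
    have h1 := h _ hp
    simp only [multiplesHom_apply, Finsupp.smul_apply]
    by_cases hl : j = l
    · subst hl
      have : c ≠ R - D.di j := fun e => hne (by rw [e])
      rw [Av_same, if_neg (by simp at h1; omega), if_neg (by omega)]; simp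
    · rw [D.Av_ne hl, Finset.sum_eq_zero]
      · simp
      intro s hs
      have h2 := D.Bm_bound hl
      have h3 : ((s : ℤ) + 1) * D.di j ≤ -D.Bm j l := by
        rw [D.Bm_ne hl, neg_neg, mul_comm]
        have : (s : ℤ) + 1 ≤ D.absC j l := by exact_mod_cast Finset.mem_range.1 hs
        gcongr
      rw [if_neg]
      simp only at h1
      nlinarith
  · intro h0
    rw [Finsupp.notMem_support_iff.1 h0]; simp

lemma pA_inj {e e' : D.Ex} (h : ∀ p, D.pA p e = D.pA p e') : e = e' := by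
  have h1 : D.Am e = D.Am e' := by
    by_contra hne
    obtain ⟨p, hp, hmax⟩ := (D.Am e - D.Am e').support.exists_max_image Prod.snd
      (Finsupp.support_nonempty_iff.2 (sub_ne_zero.2 hne))
    have h2 := h (p.1, p.2 + D.di p.1)
    rw [← ord_Am, ← ord_Am] at h2
    simp only [ord, add_sub_cancel_right] at h2
    have h3 := D.di_pos' p.1
    have h4 : (p.1, p.2 + D.di p.1 + D.di p.1) ∉ (D.Am e - D.Am e').support := fun h4 => by
      have := hmax _ h4
      simp only at this
      omega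
    simp only [Finsupp.mem_support_iff, Finsupp.sub_apply, not_not, Prod.mk.eta] at hp h4 h2
    omega
  by_contra hne
  set m := e ⊓ e'
  have e1 : m + (e - m) = e := add_tsub_cancel_of_le inf_le_left
  have e2 : m + (e' - m) = e' := add_tsub_cancel_of_le inf_le_right
  have h2 : D.Am (e - m) = D.Am (e' - m) := by
    rw [← e1, ← e2, map_add, map_add] at h1
    exact add_left_cancel h1
  have h3 : ((e - m) + (e' - m)).support.Nonempty := by
    rw [Finsupp.support_nonempty_iff, Ne, add_eq_zero]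
    rintro ⟨h3, h4⟩
    rw [h3, add_zero] at e1
    rw [h4, add_zero] at e2
    exact hne (e1.symm.trans e2)
  obtain ⟨p, hp, hmax⟩ := Finset.exists_max_image _ (fun p : D.Pt => p.2 + D.di p.1) h3
  have h4 := D.Am_right (e := e - m) (R := p.2 + D.di p.1) (fun p' hp' => hmax p' (by
    simp only [Finsupp.mem_support_iff, Finsupp.add_apply] at hp' ⊢; omega)) p.1
  have h5 := D.Am_right (e := e' - m) (R := p.2 + D.di p.1) (fun p' hp' => hmax p' (by
    simp only [Finsupp.mem_support_iff, Finsupp.add_apply] at hp' ⊢; omega)) p.1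
  rw [h2, h5] at h4
  simp only [add_sub_cancel_right, Prod.mk.eta, Finsupp.mem_support_iff, Finsupp.add_apply,
    Finsupp.tsub_apply, m, Finsupp.inf_apply] at h4 hp
  omega

/-- The number of factors at each spectral exponent, ordered from the left. -/
noncomputable def gl (e : D.Ex) : ℤ →₀ ℕ := e.mapDomain Prod.snd

lemma gl_add (e : D.Ex) (p : D.Pt) (n : ℕ) :
    D.gl (e + Finsupp.single p n) = D.gl e + Finsupp.single p.2 n := by
  rw [gl, Finsupp.mapDomain_add, Finsupp.mapDomain_single, gl]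

lemma gl_eq_zero {e : D.Ex} {b : ℤ} : D.gl e b = 0 ↔ ∀ j, e (j, b) = 0 := by
  rw [gl, Finsupp.mapDomain, Finsupp.sum_apply, Finsupp.sum, Finset.sum_eq_zero_iff]
  constructor
  · intro h j
    by_contra h1
    exact h1 (by simpa using h (j, b) (Finsupp.mem_support_iff.2 h1))
  · rintro h ⟨j, c⟩ _
    by_cases h1 : c = b
    · simp [h1, h]
    · simp [h1]

variable {D}

lemma walk {u : D.Pt →₀ ℤ} {Y : D.Pol} {e : D.Ex} (he : e ∈ Y.support)
    (hmin : ∀ e' ∈ Y.support, toLex (D.gl e) ≤ toLex (D.gl e')) {i : D.b.support} {a : ℤ}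
    (hneg : u (i, a) < D.Am e (i, a))
    (hloc : ∀ b ≤ a - D.di i, Y ∈ D.LocAt (i, b) (D.ord u (i, b))) : False := by
  have hd := D.di_pos' i
  obtain ⟨a', ⟨e', he', hneg', ha', hinv⟩, hleast⟩ := Int.exists_least_of_bdd
    (P := fun a' => ∃ e' ∈ Y.support, u (i, a') < D.Am e' (i, a') ∧ a' ≤ a ∧
      ∀ b ≤ a' - D.di i, D.gl e' b = D.gl e b) (by
      obtain ⟨lb, hlb⟩ := ((Y.support.biUnion fun e' => (u - D.Am e').support).image
        Prod.snd).bddBelow
      refine ⟨lb, fun z ⟨e', he', h1, _⟩ => hlb ?_⟩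
      refine Finset.mem_coe.2 (Finset.mem_image.2 ⟨(i, z), Finset.mem_biUnion.2 ⟨e', he', ?_⟩, rfl⟩)
      rw [Finsupp.mem_support_iff, Finsupp.sub_apply]; omega) ⟨a, e, he, hneg, le_rfl, fun _ _ => rfl⟩
  obtain ⟨n, hn, hmem⟩ := loc_step (D.pA_self _) (hloc (a' - D.di i) (by omega)) he' (by
    intro e'' he'' n hn h
    refine absurd (hmin e'' he'') (not_le.2 (Finsupp.Lex.lt_iff.2 ⟨a' - D.di i, fun b hb => ?_, ?_⟩))
    · have := hinv b hb.le
      rw [h, gl_add, Finsupp.add_apply, Finsupp.single_eq_of_ne hb.ne, add_zero] at this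
      exact this
    · have := hinv _ le_rfl
      rw [h, gl_add, Finsupp.add_apply, Finsupp.single_eq_same] at this
      simp only [ofLex_toLex]; omega)
  have := hleast (a' - 2 * D.di i) ⟨_, hmem, ?_, by omega, fun b hb => ?_⟩
  · omega
  · rw [← ord_Am] at hn
    simp only [ord, sub_add_cancel] at hn
    rw [map_add, Am_single, Finsupp.add_apply, Finsupp.smul_apply, Av_same, if_pos (by omega),
      if_neg (by omega)]
    rw [show a' - D.di i - D.di i = a' - 2 * D.di i by ring] at hn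
    simp only [add_zero, nsmul_eq_mul, mul_one]
    omega
  · rw [gl_add, Finsupp.add_apply, Finsupp.single_eq_of_ne (by simp only; omega), add_zero]
    exact hinv b (by omega)

lemma exists_right {e : D.Ex} {p : D.Pt} (hp : p ∈ e.support) :
    ∃ j R, p.2 + D.di p.1 ≤ R ∧ 0 < D.Am e (j, R) := by
  obtain ⟨p', hp', hmax⟩ := e.support.exists_max_image (fun p => p.2 + D.di p.1) ⟨p, hp⟩
  refine ⟨p'.1, _, hmax p hp, ?_⟩
  rw [D.Am_right hmax, add_sub_cancel_right]
  exact_mod_cast Nat.pos_of_ne_zero (Finsupp.mem_support_iff.1 hp')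

lemma exists_lexmin {Y : D.Pol} (h : Y ≠ 0) :
    ∃ e ∈ Y.support, ∀ e' ∈ Y.support, toLex (D.gl e) ≤ toLex (D.gl e') :=
  Y.support.exists_min_image _ (support_nonempty.2 h)

lemma vanish {u : D.Pt →₀ ℤ} {R : ℤ} (hu : ∀ j y, R ≤ y → u (j, y) = 0) {Y : D.Pol}
    (hloc : ∀ p, Y ∈ D.LocAt p (D.ord u p))
    (hs : ∀ e ∈ Y.support, ∃ p ∈ e.support, R ≤ p.2 + D.di p.1) : Y = 0 := by
  by_contra h
  obtain ⟨e, he, hmin⟩ := exists_lexmin h
  obtain ⟨p, hp, h1⟩ := hs e he
  obtain ⟨j, R', h2, h3⟩ := exists_right hp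
  exact walk he hmin (u := u) (i := j) (a := R') (by rwa [hu j R' (by omega)]) fun b _ => hloc _

variable (D)

/-- The pole orders of the highest monomial of a Kirillov-Reshetikhin module. -/
def wk (i : D.b.support) (k : ℕ) (c : ℤ) (p : D.Pt) : ℤ :=
  if p.1 = i then (if p.2 = c then 1 else 0) - (if p.2 = c - 2 * k * D.di i then 1 else 0) else 0

/-- The highest monomial of a Kirillov-Reshetikhin module. -/
noncomputable def strc (i : D.b.support) (k : ℕ) (c : ℤ) : D.Pt →₀ ℤ :=
  ∑ s ∈ Finset.range k, Finsupp.single (i, c - D.di i - 2 * s * D.di i) 1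

lemma ord_strc (i : D.b.support) (k : ℕ) (c : ℤ) (p : D.Pt) :
    D.ord (D.strc i k c) p = D.wk i k c p := by
  obtain ⟨j, b⟩ := p
  have hd := D.di_pos' i
  induction k with
  | zero => simp [strc, wk, ord]
  | succ k ih =>
    rw [strc, Finset.sum_range_succ, ord_add, ← strc, ih]
    simp only [wk, ord, Finsupp.single_apply, Prod.mk.injEq]
    by_cases h : j = i
    · subst h
      have e1 : (c - D.di j - 2 * k * D.di j = b - D.di j) ↔ (b = c - 2 * k * D.di j) := by
        constructor <;> intro h <;> linarith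
      have e2 : (c - D.di j - 2 * k * D.di j = b + D.di j) ↔
          (b = c - 2 * (k + 1 : ℕ) * D.di j) := by
        push_cast; constructor <;> intro h <;> linarith
      simp only [e1, e2, true_and, if_true]; ring
    · simp [h, Ne.symm h]

lemma strc_right (i : D.b.support) (k : ℕ) {c y : ℤ} (h : c - D.di i < y) (j : D.b.support) :
    D.strc i k c (j, y) = 0 := by
  have hd := D.di_pos' i
  rw [strc, Finsupp.finsetSum_apply]
  refine Finset.sum_eq_zero fun s _ => Finsupp.single_eq_of_ne fun e => ?_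
  have : (0 : ℤ) ≤ 2 * s * D.di i := by positivity
  have := congrArg Prod.snd e
  simp only at this
  omega

/-- A bound for the entries of the symmetrised Cartan matrix. -/
def Cb : ℤ := ∑ i, ∑ j, |D.Bm i j|

lemma le_Cb (i j : D.b.support) : |D.Bm i j| ≤ D.Cb :=
  (Finset.single_le_sum (f := fun j => |D.Bm i j|) (fun _ _ => abs_nonneg _)
    (Finset.mem_univ j)).trans (Finset.single_le_sum (f := fun i => ∑ j, |D.Bm i j|)
      (fun _ _ => Finset.sum_nonneg fun _ _ => abs_nonneg _) (Finset.mem_univ i))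

/-- The properties of the normalised `q`-character of a Kirillov-Reshetikhin module. -/
structure IsKRq (i : D.b.support) (k : ℕ) (c : ℤ) (Y : D.Pol) : Prop where
  loc : ∀ p, Y ∈ D.LocAt p (D.wk i k c p)
  one : coeff 0 Y = 1
  first : ∀ e ∈ Y.support, e ≠ 0 → e (i, c) ≠ 0
  window : ∀ e ∈ Y.support, ∀ p ∈ e.support, c - D.Cb * e.degree ≤ p.2

variable {D}

lemma IsKRq.unique {i : D.b.support} {k : ℕ} {c : ℤ} {Y Z : D.Pol} (h : D.IsKRq i k c Y)
    (h' : D.IsKRq i k c Z) : Y = Z := by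
  have hd := D.di_pos' i
  rw [← sub_eq_zero]
  refine vanish (u := D.strc i k c) (R := c + D.di i)
    (fun j y hy => D.strc_right i k (by omega) j)
    (fun p => by rw [ord_strc]; exact sub_mem (h.loc p) (h'.loc p)) fun e he => ?_
  have h0 : e ≠ 0 := by
    rintro rfl
    rw [mem_support_iff, coeff_sub, h.one, h'.one] at he
    exact he (sub_self _)
  refine ⟨(i, c), Finsupp.mem_support_iff.2 ?_, le_rfl⟩
  rcases Finset.mem_union.1 (support_sub _ _ _ he) with h1 | h1
  · exact h.first e h1 h0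
  · exact h'.first e h1 h0

lemma isKRq_zero (i : D.b.support) (c : ℤ) : D.IsKRq i 0 c 1 := by
  have : ∀ e ∈ (1 : D.Pol).support, e = 0 := fun e he => by
    by_contra h
    rw [mem_support_iff, coeff_one, if_neg (Ne.symm h)] at he
    exact he rfl
  exact ⟨fun p => loc_one (by simp [wk]), coeff_zero_one, fun e he h => absurd (this e he) h,
    fun e he p hp => by simp [this e he] at hp⟩

variable (D) in
/-- The shift of the spectral exponents. -/
def sh (m : ℤ) (p : D.Pt) : D.Pt := (p.1, p.2 + m)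

lemma sh_inj (m : ℤ) : Function.Injective (D.sh m) := by
  rintro ⟨i, a⟩ ⟨j, b⟩ h
  simpa [sh] using h

lemma IsKRq.shift {i : D.b.support} {k : ℕ} {c : ℤ} {Y : D.Pol} (h : D.IsKRq i k c Y) (m : ℤ) :
    D.IsKRq i k (c + m) (rename (D.sh m) Y) := by
  have hs : ∀ e ∈ (rename (D.sh m) Y).support, ∃ e' ∈ Y.support, e'.mapDomain (D.sh m) = e := by
    intro e he
    rwa [support_rename_of_injective (sh_inj m), Finset.mem_image] at he
  refine ⟨fun p => ?_, ?_, fun e he h0 => ?_, fun e he p hp => ?_⟩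
  · obtain ⟨p, rfl⟩ : ∃ p', p = D.sh m p' := ⟨D.sh (-m) p, by simp [sh]⟩
    have : D.wk i k (c + m) (D.sh m p) = D.wk i k c p := by
      simp only [wk, sh, add_left_inj, add_sub_right_comm c m]
    rw [this]
    refine loc_map (rename (D.sh m)) (rename_X _ _) (fun e => ?_) (h.loc p)
    rw [rename_monomial]
    refine loc_monomial (le_of_eq ?_)
    induction e using Finsupp.induction_linear with
    | zero => simp
    | add e e' h1 h2 => rw [Finsupp.mapDomain_add, map_add, map_add, h1, h2]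
    | single p' n =>
      rw [Finsupp.mapDomain_single, pA_single, pA_single]
      simp only [pa, sh, add_right_comm p'.2 m, add_sub_right_comm p'.2 m, add_left_inj]
  · have := coeff_rename_mapDomain (D.sh m) (sh_inj m) Y 0
    rwa [Finsupp.mapDomain_zero, h.one] at this
  · obtain ⟨e, he', rfl⟩ := hs e he
    have := Finsupp.mapDomain_apply (sh_inj m) e (i, c)
    rw [sh] at this
    rw [this]
    exact h.first e he' fun e0 => h0 (by rw [e0, Finsupp.mapDomain_zero])
  · obtain ⟨e, he', rfl⟩ := hs e he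
    obtain ⟨p, hp', rfl⟩ := Finset.mem_image.1 (Finsupp.mapDomain_support hp)
    have := h.window e he' p hp'
    rw [Finsupp.degree_mapDomain]
    simp only [sh]; omega

end SimpleDatum

end Pool.Agent.Lib.MP_4354a3_al
end

-- part Pool.Agent.Lib.MP_4354a3_al.QA4
section

/-!
# Abstract linear algebra for part A
-/

namespace Pool.Agent.Lib.MP_4354a3_al

open Polynomial

variable {V : Type*} [AddCommGroup V] [Module ℂ V]

lemma qa4_rad {B : Type*} [CommRing B] [Algebra ℂ B] (I : Ideal B) (ε : ℤˣ) {κ a : ℂ} (hκ : κ ≠ 0)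
    (T : B) (L R : ℤ → B) (γ γ' : ℤ → ℂ) (hL0 : ∀ r, (ε : ℤ) * r < 0 → L r = 0)
    (hγ0 : ∀ r, (ε : ℤ) * r < 0 → γ' r = 0) (ha : a ≠ 0)
    (hrel : ∀ r, L (r + 1) - κ • (L r * T) - (κ • R (r + 1) - T * R r) ∈ I)
    (hT : T - algebraMap ℂ B a ∈ I.radical) (hR : ∀ r, R r - algebraMap ℂ B (γ r) ∈ I.radical)
    (hγ : ∀ r, γ' (r + 1) - κ * a * γ' r = κ * γ (r + 1) - a * γ r) (r : ℤ) :
    L r - algebraMap ℂ B (γ' r) ∈ I.radical := by
  have := van (I.radical.restrictScalars ℂ) ε hκ
    (fun r s => a ^ s • (L r - algebraMap ℂ B (γ' r))) (fun r s hr => by simp [hL0 r hr, hγ0 r hr])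
    (fun r s => by
      have h1 := congrArg (algebraMap ℂ B) (hγ r)
      simp only [map_sub, map_mul] at h1
      have h2 : a ^ s • (L (r + 1) - algebraMap ℂ B (γ' (r + 1))) -
          κ • a ^ (s + 1) • (L r - algebraMap ℂ B (γ' r)) =
          a ^ s • ((L (r + 1) - κ • (L r * T) - (κ • R (r + 1) - T * R r)) +
            (κ • L r - R r) * (T - algebraMap ℂ B a) +
            algebraMap ℂ B κ * (R (r + 1) - algebraMap ℂ B (γ (r + 1))) -
            algebraMap ℂ B a * (R r - algebraMap ℂ B (γ r))) := by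
        rw [zpow_add_one₀ ha]
        simp only [Algebra.smul_def, map_mul]
        linear_combination (-algebraMap ℂ B (a ^ s)) * h1
      rw [h2]
      exact Submodule.smul_mem _ _ (sub_mem (add_mem (add_mem (Ideal.le_radical (hrel r))
        (Ideal.mul_mem_left _ _ hT)) (Ideal.mul_mem_left _ _ (hR _))) (Ideal.mul_mem_left _ _ (hR _))))
    r 0
  simpa using this

open scoped IsMulCommutative in
lemma qa4_comm (ξ : V) (ε : ℤˣ) {κ a : ℂ} (hκ : κ ≠ 0) (T : Module.End ℂ V)
    (L R : ℤ → Module.End ℂ V) (γ γ' : ℤ → ℂ)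
    (hS : ∀ x ∈ {T} ∪ (Set.range L ∪ Set.range R), ∀ y ∈ {T} ∪ (Set.range L ∪ Set.range R),
      x * y = y * x) (hL0 : ∀ r, (ε : ℤ) * r < 0 → L r = 0)
    (hγ0 : ∀ r, (ε : ℤ) * r < 0 → γ' r = 0) (ha : a ≠ 0)
    (hrel : ∀ r, (L (r + 1) - κ • (L r * T) - (κ • R (r + 1) - T * R r)) ξ = 0)
    (hT : ∃ n : ℕ, ((T - algebraMap ℂ _ a) ^ n) ξ = 0)
    (hR : ∀ r, ∃ n : ℕ, ((R r - algebraMap ℂ _ (γ r)) ^ n) ξ = 0)
    (hγ : ∀ r, γ' (r + 1) - κ * a * γ' r = κ * γ (r + 1) - a * γ r) (r : ℤ) :
    ∃ n : ℕ, ((L r - algebraMap ℂ _ (γ' r)) ^ n) ξ = 0 := by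
  have := Algebra.isMulCommutative_adjoin ℂ hS
  let I : Ideal (Algebra.adjoin ℂ ({T} ∪ (Set.range L ∪ Set.range R))) :=
    { carrier := {b | b.1 ξ = 0}
      add_mem' := fun {b b'} (h : b.1 ξ = 0) (h' : b'.1 ξ = 0) => show b.1 ξ + b'.1 ξ = 0 by
        rw [h, h', add_zero]
      zero_mem' := rfl
      smul_mem' := fun b b' (h : b'.1 ξ = 0) => show b.1 (b'.1 ξ) = 0 by rw [h, map_zero] }
  have hI : ∀ (b : Algebra.adjoin ℂ ({T} ∪ (Set.range L ∪ Set.range R))) (c : ℂ),
      b - algebraMap ℂ _ c ∈ I.radical ↔ ∃ n : ℕ, ((b.1 - algebraMap ℂ _ c) ^ n) ξ = 0 := by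
    intro b c
    refine exists_congr fun n => ?_
    change ((b - algebraMap ℂ _ c) ^ n).1 ξ = 0 ↔ _
    rw [Subalgebra.coe_pow, Subalgebra.coe_sub, Subalgebra.coe_algebraMap]
  exact (hI _ _).1 (qa4_rad I ε hκ ⟨T, Algebra.subset_adjoin (Or.inl rfl)⟩
    (fun r => ⟨L r, Algebra.subset_adjoin (Or.inr (Or.inl ⟨r, rfl⟩))⟩)
    (fun r => ⟨R r, Algebra.subset_adjoin (Or.inr (Or.inr ⟨r, rfl⟩))⟩) γ γ'
    (fun r hr => Subtype.ext (hL0 r hr)) hγ0 ha (fun r => hrel r) ((hI _ _).2 hT)
    (fun r => (hI _ _).2 (hR r)) hγ r)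

/-- Mukhin-Young lemma. -/
theorem my_abstract (ε : ℤˣ) {κ a : ℂ} (hκ : κ ≠ 0) (ha : a ≠ 0)
    (ψ t : ℤ → Module.End ℂ V) (γ γ' : ℤ → ℂ) (U : Submodule ℂ V) (N : ℕ)
    (hψ0 : ∀ r, (ε : ℤ) * r < 0 → ψ r = 0) (hγ0 : ∀ r, (ε : ℤ) * r < 0 → γ' r = 0)
    (hcomm : ∀ r s, ψ r * ψ s = ψ s * ψ r)
    (hrel : ∀ r s, ψ (r + 1) * t s - κ • (ψ r * t (s + 1)) =
      κ • (t s * ψ (r + 1)) - t (s + 1) * ψ r)
    (hγ : ∀ r, γ' (r + 1) - κ * a * γ' r = κ * γ (r + 1) - a * γ r)
    (hU : ∀ r, ∀ u ∈ U, ψ r u ∈ U) (hgen : ∀ r, U ≤ (ψ r).maxGenEigenspace (γ r))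
    (hN : ∀ u ∈ U, act ((X - C a) ^ N) (fun s => t s u) = 0) :
    ∀ r s, ∀ u ∈ U, t s u ∈ (ψ r).maxGenEigenspace (γ' r) := by
  intro r₀ s₀ u hu
  choose n hn using fun r => (Module.End.mem_maxGenEigenspace _ _ _).1 (hgen r hu)
  let U' : Submodule ℂ V := U ⊓ ⨅ r, LinearMap.ker ((ψ r - γ r • 1) ^ n r)
  have hU' : ∀ w, w ∈ U' ↔ w ∈ U ∧ ∀ r, ((ψ r - γ r • 1) ^ n r) w = 0 := fun w => by simp [U']
  have hst : ∀ r, ∀ w ∈ U', ψ r w ∈ U' := by
    intro r w hw
    obtain ⟨h1, h2⟩ := (hU' w).1 hw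
    refine (hU' _).2 ⟨hU r w h1, fun r' => ?_⟩
    have : Commute ((ψ r' - γ r' • 1) ^ n r') (ψ r) :=
      (Commute.sub_left (hcomm r' r) ((Commute.one_left _).smul_left _)).pow_left _
    rw [← Module.End.mul_apply, this.eq, Module.End.mul_apply, h2, map_zero]
  let L : Module.End ℂ V → Module.End ℂ (ℤ → U' →ₗ[ℂ] V) := fun A =>
    (LinearMap.llcomp ℂ U' V V A).compLeft ℤ
  let R : Module.End ℂ U' → Module.End ℂ (ℤ → U' →ₗ[ℂ] V) := fun A =>
    (LinearMap.lcomp ℂ V A).compLeft ℤ
  have hL : ∀ A ξ s w, L A ξ s w = A (ξ s w) := fun _ _ _ _ => rfl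
  have hR : ∀ A ξ s w, R A ξ s w = ξ s (A w) := fun _ _ _ _ => rfl
  have hT : ∀ (ξ : ℤ → U' →ₗ[ℂ] V) s, shift ξ s = ξ (s + 1) := fun _ _ => rfl
  let ξ : ℤ → U' →ₗ[ℂ] V := fun s => t s ∘ₗ U'.subtype
  have hξ : ∀ s w, ξ s w = t s w.1 := fun _ _ => rfl
  obtain ⟨k, hk⟩ : ∃ n : ℕ, ((L (ψ r₀) - algebraMap ℂ _ (γ' r₀)) ^ n) ξ = 0 := by
    refine qa4_comm ξ ε hκ shift (fun r => L (ψ r)) (fun r => R ((ψ r).restrict (hst r))) γ γ' ?_
      (fun r hr => by rw [hψ0 r hr]; rfl) hγ0 ha (fun r => ?_) ⟨N, ?_⟩ (fun r => ⟨n r, ?_⟩) hγ r₀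
    · rintro _ (rfl | ⟨r, rfl⟩ | ⟨r, rfl⟩) _ (rfl | ⟨r', rfl⟩ | ⟨r', rfl⟩) <;>
        refine LinearMap.ext fun ξ => funext fun s => LinearMap.ext fun w => ?_ <;>
        simp only [Module.End.mul_apply, hL, hR, hT]
      · exact LinearMap.congr_fun (hcomm r r') _
      · exact congrArg (ξ s) (Subtype.ext (LinearMap.congr_fun (hcomm r' r) _))
    · refine funext fun s => LinearMap.ext fun w => ?_
      have := LinearMap.congr_fun (hrel r s) w.1
      simp only [LinearMap.sub_apply, LinearMap.smul_apply, Module.End.mul_apply, Pi.sub_apply,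
        Pi.smul_apply, hL, hR, hT, hξ] at this ⊢
      exact sub_eq_zero.2 this
    · refine funext fun s => LinearMap.ext fun w => ?_
      have h1 := congrFun (hN w.1 ((hU' _).1 w.2).1) s
      have h2 := act_map (LinearMap.applyₗ w) ((X - C a) ^ N) ξ s
      simp only [act, map_pow, map_sub, aeval_X, aeval_C] at h1 h2
      exact h2.trans h1
    · refine funext fun s => LinearMap.ext fun w => ?_
      have h1 : ∀ (m : ℕ) (w : U'), ((R ((ψ r).restrict (hst r)) - algebraMap ℂ _ (γ r)) ^ m) ξ s w =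
          t s (((ψ r - γ r • 1) ^ m) w.1) := by
        intro m
        induction m with
        | zero => intro w; rfl
        | succ m ih =>
          intro w
          rw [pow_succ', pow_succ, Module.End.mul_apply, Module.End.mul_apply]
          simp only [LinearMap.sub_apply, Pi.sub_apply, hR, Module.algebraMap_end_apply,
            Pi.smul_apply, LinearMap.smul_apply, ih, map_sub, map_smul, Module.End.one_apply]
          rfl
      have h2 := h1 (n r) w
      rw [((hU' _).1 w.2).2, map_zero] at h2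
      exact h2
  have h1 : ∀ (m : ℕ) (w : U'), ((L (ψ r₀) - algebraMap ℂ _ (γ' r₀)) ^ m) ξ s₀ w =
      ((ψ r₀ - γ' r₀ • 1) ^ m) (t s₀ w.1) := by
    intro m w
    induction m with
    | zero => rfl
    | succ m ih =>
      rw [pow_succ', pow_succ', Module.End.mul_apply, Module.End.mul_apply, ← ih]
      rfl
  refine (Module.End.mem_maxGenEigenspace _ _ _).2 ⟨k, ?_⟩
  rw [← h1 k ⟨u, (hU' u).2 ⟨hu, hn⟩⟩]
  rw [hk]
  rfl

/-- Traces on subspaces. -/
theorem exists_trOn [Module.Finite ℂ V] :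
    ∃ tr : Submodule ℂ V → (Module.End ℂ V →ₗ[ℂ] ℂ),
      (∀ U U' : Submodule ℂ V, ∀ A B : Module.End ℂ V, (∀ u ∈ U', A u ∈ U) → (∀ u ∈ U, B u ∈ U') →
        tr U (A * B) = tr U' (B * A)) ∧
      (∀ (U : Submodule ℂ V) (A : Module.End ℂ V) (γ : ℂ), (∀ u ∈ U, A u ∈ U) →
        U ≤ A.maxGenEigenspace γ → tr U A = Module.finrank ℂ U * γ) ∧
      (∀ (U : Submodule ℂ V) (A : Module.End ℂ V), (∀ u ∈ U, A u = 0) → tr U A = 0) := by
  choose π hπ using fun U : Submodule ℂ V => U.subtype.exists_leftInverse_of_injective U.ker_subtype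
  have h1 : ∀ (U : Submodule ℂ V) (A : Module.End ℂ V) (h : ∀ u ∈ U, A u ∈ U),
      π U ∘ₗ A ∘ₗ U.subtype = A.restrict h := fun U A h =>
    LinearMap.ext fun u => LinearMap.congr_fun (hπ U) (A.restrict h u)
  refine ⟨fun U => LinearMap.trace ℂ U ∘ₗ LinearMap.llcomp ℂ U V U (π U) ∘ₗ
    LinearMap.lcomp ℂ V U.subtype, fun U U' A B hA hB => ?_, fun U A γ hA hU => ?_, fun U A hA => ?_⟩
  · change LinearMap.trace ℂ U (π U ∘ₗ (A * B) ∘ₗ U.subtype) =
      LinearMap.trace ℂ U' (π U' ∘ₗ (B * A) ∘ₗ U'.subtype)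
    rw [h1 U (A * B) fun u hu => hA _ (hB u hu), h1 U' (B * A) fun u hu => hB _ (hA u hu)]
    exact LinearMap.trace_comp_comm' (B.restrict hB) (A.restrict hA)
  · change LinearMap.trace ℂ U (π U ∘ₗ A ∘ₗ U.subtype) = _
    rw [h1 U A hA]
    have h2 : IsNilpotent (A.restrict hA - γ • 1) := by
      refine Module.End.isNilpotent_iff_of_finite.2 fun u => ?_
      obtain ⟨k, hk⟩ := (Module.End.mem_maxGenEigenspace _ _ _).1 (hU u.2)
      refine ⟨k, Subtype.ext ?_⟩
      have h3 : ∀ m : ℕ, (((A.restrict hA - γ • 1) ^ m) u).1 = ((A - γ • 1) ^ m) u.1 := by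
        intro m
        induction m with
        | zero => rfl
        | succ m ih =>
          rw [pow_succ', pow_succ', Module.End.mul_apply, Module.End.mul_apply, ← ih]
          rfl
      exact (h3 k).trans hk
    have h3 := (LinearMap.isNilpotent_trace_of_isNilpotent h2).eq_zero
    rw [map_sub, map_smul, LinearMap.trace_one, sub_eq_zero, smul_eq_mul, mul_comm] at h3
    exact h3
  · change LinearMap.trace ℂ U (π U ∘ₗ A ∘ₗ U.subtype) = _
    have : A ∘ₗ U.subtype = 0 := LinearMap.ext fun u => hA u.1 u.2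
    rw [this, LinearMap.comp_zero, map_zero]

/-- Dimension of a coarser independent decomposition. -/
theorem finrank_eq_sum [Module.Finite ℂ V] {α β : Type*} [DecidableEq β] (W : α → Submodule ℂ V)
    (T : β → Submodule ℂ V) (f : α → β) (hW : iSupIndep W) (hT : iSupIndep T)
    (hle : ∀ e, W e ≤ T (f e)) (htop : ⨆ e, W e = ⊤) (S : Finset α) (hS : ∀ e, W e ≠ ⊥ → e ∈ S)
    (μ : β) :
    Module.finrank ℂ (T μ) = ∑ e ∈ S, if f e = μ then Module.finrank ℂ (W e) else 0 := by
  classical
  have h1 : (fun ν => ⨆ e ∈ S.filter fun e => f e = ν, W e) = T := by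
    refine (hT.le_iff_eq_of_iSup_eq_top ?_).1 fun ν => iSup₂_le fun e he => ?_
    · rw [eq_top_iff, ← htop]
      refine iSup_le fun e => ?_
      by_cases he : W e = ⊥
      · rw [he]; exact bot_le
      · exact le_iSup_of_le (f e) (le_iSup₂_of_le e (by simp [hS e he]) le_rfl)
    · exact (Finset.mem_filter.1 he).2 ▸ hle e
  have h2 : ∀ s : Finset α, Module.finrank ℂ (⨆ e ∈ s, W e : Submodule ℂ V) =
      ∑ e ∈ s, Module.finrank ℂ (W e) := by
    intro s
    induction s using Finset.induction_on with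
    | empty => simp
    | insert a s ha ih =>
      have h3 := Submodule.finrank_sup_add_finrank_inf_eq (W a) (⨆ e ∈ s, W e)
      have h4 : Disjoint (W a) (⨆ e ∈ s, W e) := hW.disjoint_biSup (y := (s : Set α)) ha
      rw [h4.eq_bot, finrank_bot, add_zero] at h3
      rw [Finset.iSup_insert, Finset.sum_insert ha, h3, ih]
  rw [← h1, h2, Finset.sum_filter]

/-- Chinese remainders. -/
theorem exists_crt {q : ℂ} (hq : Gen q) (L : Multiset ℤ) :
    ∃ (g : ℤ → ℂ[X]) (N : ℤ → ℕ),
      (L.map fun c => X - C (q ^ c)).prod ∣ 1 - ∑ c ∈ L.toFinset, g c ∧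
      ∀ c ∈ L.toFinset, (L.map fun c => X - C (q ^ c)).prod ∣ (X - C (q ^ c)) ^ N c * g c := by
  rcases L.toFinset.eq_empty_or_nonempty with h | h
  · obtain rfl : L = 0 := Multiset.toFinset_eq_empty.1 h
    exact ⟨0, 0, by simp, by simp⟩
  obtain ⟨μ, hμ⟩ := (exists_sum_eq_one_iff_pairwise_coprime
    (s := fun c => (X - C (q ^ c)) ^ L.count c) h).2 fun c c' hc =>
      (isCoprime_X_sub_C_of_isUnit_sub (sub_ne_zero.2 fun e =>
        hc (Subtype.ext (hq.inj e))).isUnit).pow
  refine ⟨fun c => μ c * ∏ j ∈ L.toFinset \ {c}, (X - C (q ^ j)) ^ L.count j, fun c => L.count c,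
    by rw [hμ]; simp, fun c hc => ?_⟩
  rw [Finset.prod_multiset_map_count, Finset.prod_eq_mul_prod_sdiff_singleton_of_mem hc,
    mul_left_comm]
  exact dvd_mul_left _ _

/-- A current with `H t_s - t_s H = k t_(s+1)` has a nonzero annihilator, split at the point
`a`. -/
theorem exists_ann [Module.Finite ℂ V] (H : Module.End ℂ V) (t : ℤ → Module.End ℂ V) {k : ℂ}
    (hk : k ≠ 0) (h : ∀ s, H * t s - t s * H = k • t (s + 1)) (a : ℂ) :
    ∃ (G : ℂ[X]) (N : ℕ), G.eval a ≠ 0 ∧ act ((X - C a) ^ N * G) t = 0 := by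
  let f : Module.End ℂ (Module.End ℂ V) := k⁻¹ • (LinearMap.mulLeft ℂ H - LinearMap.mulRight ℂ H)
  have hf : ∀ s, f (t s) = t (s + 1) := fun s => by
    simp [f, h, smul_smul, inv_mul_cancel₀ hk]
  have h1 : ∀ (P : ℂ[X]) s, act P t s = aeval f P (t s) := by
    intro P
    induction P using poly_ind with
    | hC a => simp
    | hadd P Q h1 h2 => simp [act_add, h1, h2]
    | hX P h1 => intro s; rw [act_mul, act_X, h1, mul_comm, map_mul, aeval_X, ← hf]; rfl
  obtain ⟨G, hG, hG'⟩ := exists_eq_pow_rootMultiplicity_mul_and_not_dvd (minpoly ℂ f)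
    (minpoly.ne_zero (Algebra.IsIntegral.isIntegral f)) a
  refine ⟨G, rootMultiplicity a (minpoly ℂ f), fun e => hG' (dvd_iff_isRoot.2 e),
    funext fun s => ?_⟩
  rw [← hG, h1, minpoly.aeval]
  rfl

end Pool.Agent.Lib.MP_4354a3_al
end
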