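import Pool.Agent.Lib.MP_4354a3_al.QA3
import Pool.Agent.Lib.MP_4354a3_al.QA4

/-!
# The `q`-character of a Kirillov-Reshetikhin module
-/

set_option linter.unusedSectionVars false

namespace Pool.Agent.Lib.MP_4354a3_al

open Polynomial
open scoped WithZero

namespace SimpleDatum

variable {ι M N : Type*} [Fintype ι] [DecidableEq ι] [AddCommGroup M] [AddCommGroup N]
  {D : SimpleDatum ι M N} {V : Type*} [AddCommGroup V] [Module ℂ V] {q : ℂ}
  {x φ : ℤˣ → D.b.support → ℤ → Module.End ℂ V}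

/-- The joint generalised eigenspace of the Cartan currents. -/
noncomputable def GS (φ : ℤˣ → D.b.support → ℤ → Module.End ℂ V)
    (χ : ℤˣ × D.b.support × ℤ → ℂ) : Submodule ℂ V :=
  ⨅ t : ℤˣ × D.b.support × ℤ, (φ t.1 t.2.1 t.2.2).maxGenEigenspace (χ t)

/-- The eigenvalues given by rational functions. -/
noncomputable def chi (R : D.b.support → FF) (t : ℤˣ × D.b.support × ℤ) : ℂ :=
  co t.1 (R t.2.1) t.2.2

lemma chi_inj {R R' : D.b.support → FF} (h : chi R = chi R') : R = R' :=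
  funext fun i => co_inj fun r => congrFun h (1, i, r)

lemma PreRel.indep_GS (h : D.PreRel q x φ) : iSupIndep (GS φ) :=
  Module.End.independent_iInf_maxGenEigenspace_of_forall_mapsTo
    (fun t : ℤˣ × D.b.support × ℤ => φ t.1 t.2.1 t.2.2)
    fun _ _ c => Module.End.mapsTo_maxGenEigenspace_of_comm (h.φ_φ _ _ _ _ _ _) c

variable (q φ) in
/-- The `ℓ`-weight space. -/
noncomputable def VS (μ : M) (R : D.b.support → FF) : Submodule ℂ V :=
  D.wtSpace q φ μ ⊓ GS φ (chi R)

lemma mem_VS {μ : M} {R : D.b.support → FF} {u : V} : u ∈ VS q φ μ R ↔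
    u ∈ D.wtSpace q φ μ ∧ ∀ ε i r, u ∈ (φ ε i r).maxGenEigenspace (co ε (R i) r) := by
  simp only [VS, GS, chi, Submodule.mem_inf, Submodule.mem_iInf, Prod.forall]

lemma PreRel.stab_VS (h : D.PreRel q x φ) (μ : M) (R : D.b.support → FF) : Stab φ (VS q φ μ R) := by
  intro ε i r u hu
  rw [mem_VS] at hu ⊢
  exact ⟨h.φ_wt hu.1 _ _ _, fun ε' j s =>
    Module.End.mapsTo_maxGenEigenspace_of_comm (h.φ_φ _ _ _ _ _ _) _ (hu.2 ε' j s)⟩

lemma PreRel.my_step (hq : Gen q) (h : D.PreRel q x φ) {μ : M} {R : D.b.support → FF}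
    (hR : ∀ i, Reg (R i)) {U : Submodule ℂ V} (hU : U ≤ VS q φ μ R) (hS : Stab φ U) (σ : ℤˣ)
    (j : D.b.support) {g : ℂ[X]} {n : ℕ} {b : ℤ}
    (hN : ∀ u ∈ U, act ((X - C (q ^ b)) ^ n * g) (fun s => x σ j s u) = 0) (s : ℤ) {u : V}
    (hu : u ∈ U) : act g (x σ j) s u ∈
      VS q φ (μ + (σ : ℤ) • D.r j) fun i => R i * Uf q b (σ * D.Bm i j) := by
  rw [mem_VS]
  refine ⟨?_, fun ε i r => ?_⟩
  · rw [act_apply]
    exact act_mem _ g (fun s => h.x_wt hq (mem_VS.1 (hU hu)).1 σ j s) s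
  · refine my_abstract ε (hq.zne (σ * D.Bm i j)) (hq.zne b) (φ ε i) (act g (x σ j)) (co ε (R i)) _
      U n (h.φ_zero ε i) (fun r hr => ((hR i).mul (reg_Uf hq _ _)).co_eq ε hr)
      (h.φ_φ ε ε i i) (fun r s => ?_) (co_Uf hq ε (R i) b _) (hS ε i)
      (fun r u hu => (mem_VS.1 (hU hu)).2 ε i r) (fun u hu => ?_) r s u hu
    · clear hN
      induction g using poly_ind generalizing s with
      | hC a =>
        simp only [act_C, Pi.smul_apply, mul_smul_comm, smul_mul_assoc, smul_comm _ a, ← smul_sub,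
          h.φ_x]
      | hadd P Q h1 h2 =>
        simp only [act_add, Pi.add_apply, mul_add, add_mul, smul_add]
        linear_combination (norm := abel) h1 s + h2 s
      | hX P h1 => simp only [act_mul, act_X, h1]
    · rw [← hN u hu, act_mul]
      congr 1
      funext s
      exact act_apply _ _ _ _

lemma PreRel.comm_act (h : D.PreRel q x φ) (i : D.b.support) (P Q : ℂ[X]) (r s : ℤ) :
    act P (x 1 i) r * act Q (x (-1) i) s - act Q (x (-1) i) s * act P (x 1 i) r =
      (q ^ D.di i - (q ^ D.di i)⁻¹)⁻¹ • act (Q * P) (Ph φ i) (r + s) := by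
  induction Q using poly_ind generalizing s with
  | hC a =>
    rw [act_mul, act_C, act_C, Pi.smul_apply, Pi.smul_apply, mul_smul_comm, smul_mul_assoc,
      ← smul_sub, smul_comm]
    congr 1
    induction P using poly_ind generalizing r with
    | hC a =>
      simp only [act_C, Pi.smul_apply, mul_smul_comm, smul_mul_assoc, ← smul_sub, h.x_y, if_true,
        smul_comm a, Ph]
    | hadd P Q h1 h2 =>
      simp only [act_add, Pi.add_apply, mul_add, add_mul, smul_add]
      linear_combination (norm := abel) h1 r + h2 r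
    | hX P h1 => simp only [act_mul, act_X, h1, add_right_comm]
  | hadd Q Q' h1 h2 =>
    simp only [act_add, Pi.add_apply, mul_add, add_mul, smul_add]
    linear_combination (norm := abel) h1 s + h2 s
  | hX Q h1 => rw [mul_assoc, act_mul, act_mul X, act_X, act_X, h1, add_assoc]

lemma PreRel.exists_ann [Module.Finite ℂ V] (hq : Gen q) (h : D.PreRel q x φ) (σ : ℤˣ)
    (i : D.b.support) (a : ℂ) :
    ∃ (G : ℂ[X]) (n : ℕ), G.eval a ≠ 0 ∧ act ((X - C a) ^ n * G) (x σ i) = 0 := by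
  have hd := D.di_pos' i
  have hk : q ^ (σ * D.Bm i i) - (q ^ (σ * D.Bm i i))⁻¹ ≠ 0 :=
    hq.sub_inv_ne (by rw [Bm_self]; exact mul_ne_zero σ.ne_zero (by omega))
  refine MP_4354a3_al.exists_ann (φ 1 i 1 * φ (-1) i 0) (x σ i) hk (fun s => ?_) a
  set κ := q ^ (σ * D.Bm i i) with hκ
  have h0 : κ ≠ 0 := hq.zne _
  have h1 := h.φ_x 1 σ i i 0 s
  have h2 := h.φ_x 1 σ i i (-1) (s + 1)
  have h3 := h.φ_x (-1) σ i i 0 (s - 1)
  rw [h.φ_zero 1 i (-1) (by simp)] at h2
  rw [h.φ_zero (-1) i (0 + 1) (by simp)] at h3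
  simp only [← hκ, zero_add, neg_add_cancel, zero_mul, mul_zero, smul_zero, sub_zero, zero_sub,
    sub_add_cancel, neg_inj] at h1 h2 h3
  have h4 : φ (-1) i 0 * x σ i s = κ⁻¹ • (x σ i s * φ (-1) i 0) := by
    rw [← h3, smul_smul, inv_mul_cancel₀ h0, one_smul]
  have h5 : φ 1 i 1 * x σ i s = κ • (x σ i s * φ 1 i 1) + (κ * κ - 1) • (x σ i (s + 1) * φ 1 i 0) := by
    rw [h2] at h1
    rw [sub_smul, mul_smul, one_smul]
    linear_combination (norm := abel) h1
  rw [mul_assoc, h4, mul_smul_comm, ← mul_assoc, h5, add_mul, smul_mul_assoc, smul_mul_assoc,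
    mul_assoc, mul_assoc (x σ i (s + 1)), h.φ_inv, mul_one, smul_add, smul_smul, smul_smul,
    inv_mul_cancel₀ h0, one_smul, add_sub_cancel_left]
  congr 1; field_simp

variable (D q) in
/-- The `ℓ`-weight of the monomial with exponent `e`. -/
noncomputable def Re (a : D.b.support) (k : ℕ) (c : ℤ) (e : D.Ex) (i : D.b.support) : FF :=
  D.R0 q a k c i * e.prod fun p n => Uf q p.2 (-D.Bm i p.1) ^ n

variable {a : D.b.support} {k : ℕ} {c : ℤ} {v : V}

lemma Re_add (e : D.Ex) (p : D.Pt) (n : ℕ) (i : D.b.support) :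
    D.Re q a k c (e + Finsupp.single p n) i = D.Re q a k c e i * Uf q p.2 (-D.Bm i p.1) ^ n := by
  rw [Re, Finsupp.prod_add_index' (by simp) (by simp [pow_add]), Finsupp.prod_single_index (by simp),
    Re, mul_assoc]

lemma ex_ind {Q : D.Ex → Prop} (h0 : Q 0) (h1 : ∀ e p n, Q e → Q (e + Finsupp.single p n)) (e) :
    Q e := by
  induction e using Finsupp.induction₂ with
  | zero => exact h0
  | add_single p n e _ _ h => exact h1 e p n h

lemma reg_Re (hq : Gen q) (e : D.Ex) (i : D.b.support) : Reg (D.Re q a k c e i) := by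
  induction e using ex_ind with
  | h0 => simpa [Re, R0] using reg_Uf hq _ _
  | h1 e p n h => rw [Re_add]; exact h.mul ((reg_Uf hq _ _).pow n)

lemma val_Re (hq : Gen q) {w : Valuation FF ℤᵐ⁰} {b : ℤ} (hw : IsLoc w (q ^ b)) (e : D.Ex)
    (i : D.b.support) : w (D.Re q a k c e i) =
      w (1 - cc (q ^ b) * zz) ^ (-(D.wk a k c (i, b) - D.pA (i, b) e)) := by
  induction e using ex_ind with
  | h0 =>
    rw [Re, Finsupp.prod_zero_index, mul_one, R0, hw.val_Uf hq, wk, map_zero, sub_zero]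
    congr 2
    by_cases h : i = a
    · simp only [h, if_true, sub_add_cancel]
      rw [show c - k * D.di a - k * D.di a = c - 2 * k * D.di a by ring]
    · simp [h]
  | h1 e p n h =>
    rw [Re_add, map_mul, map_pow, h, hw.val_Uf hq, ← zpow_natCast, ← zpow_mul,
      ← zpow_add₀ hw.pos.ne', map_add, pA_single, pa, sub_neg_eq_add, ← sub_eq_add_neg]
    congr 1; ring

lemma Re_inj (hq : Gen q) {e e' : D.Ex} (h : D.Re q a k c e = D.Re q a k c e') : e = e' := by
  refine D.pA_inj fun ⟨i, b⟩ => ?_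
  obtain ⟨w, hw⟩ := exists_isLoc (hq.zne b)
  have := val_Re (a := a) (k := k) (c := c) hq hw e i
  rw [h, val_Re hq hw] at this
  have := zpow_right_injective₀ hw.pos hw.lt.ne this
  omega

variable (q φ a k c) in
/-- The `ℓ`-weight space of the monomial with exponent `e`. -/
noncomputable def Ve (e : D.Ex) : Submodule ℂ V := VS q φ (k • D.ω a - D.wt e) (D.Re q a k c e)

lemma Ve_down (e : D.Ex) (j : D.b.support) (b : ℤ) :
    VS q φ (k • D.ω a - D.wt e + ((-1 : ℤˣ) : ℤ) • D.r j)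
      (fun i => D.Re q a k c e i * Uf q b ((-1 : ℤˣ) * D.Bm i j)) =
    Ve q φ a k c (e + Finsupp.single (j, b) 1) := by
  rw [Ve]
  congr 1
  · simp; abel
  · funext i; simp [Re_add]

lemma Re_up (hq : Gen q) (e : D.Ex) (j : D.b.support) (b : ℤ) (i : D.b.support) :
    D.Re q a k c (e + Finsupp.single (j, b) 1) i * Uf q b ((1 : ℤˣ) * D.Bm i j) =
      D.Re q a k c e i := by
  rw [Re_add, pow_one, mul_assoc, mul_comm (Uf _ _ _), Units.val_one, one_mul, Uf_mul_neg hq,
    mul_one]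

lemma Ve_up (hq : Gen q) (e : D.Ex) (j : D.b.support) (b : ℤ) :
    VS q φ (k • D.ω a - D.wt (e + Finsupp.single (j, b) 1) + ((1 : ℤˣ) : ℤ) • D.r j)
      (fun i => D.Re q a k c (e + Finsupp.single (j, b) 1) i * Uf q b ((1 : ℤˣ) * D.Bm i j)) =
    Ve q φ a k c e := by
  rw [Ve]
  congr 1
  · simp; abel
  · funext i; exact Re_up hq e j b i

variable (a c) in
/-- The exponents that can occur. -/
def GoodEx (n : ℕ) (e : D.Ex) : Prop :=
  e.degree = n ∧ (∀ p ∈ e.support, c - D.Cb * n ≤ p.2) ∧ (n ≠ 0 → e (a, c) ≠ 0)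

namespace HW

variable (h : D.HW q x φ a k c v)
include h

lemma indep : iSupIndep (Ve q φ a k c) :=
  (h.rel.indep_GS.comp (f := fun e => chi (D.Re q a k c e))
    fun _ _ e => Re_inj h.gen (chi_inj e)).mono fun _ => inf_le_right

lemma v_mem : v ∈ Ve q φ a k c 0 := by
  rw [Ve, mem_VS, map_zero, sub_zero]
  refine ⟨h.v_wt, fun ε i r => Module.End.eigenspace_le_maxGenEigenspace ?_⟩
  rw [Module.End.mem_eigenspace_iff, h.eig, Re, Finsupp.prod_zero_index, mul_one]

lemma lower_le_good (n : ℕ) :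
    lower x (ℂ ∙ v) n ≤ ⨆ e ∈ {e | GoodEx a c n e}, Ve q φ a k c e ⊓ lower x (ℂ ∙ v) n := by
  induction n with
  | zero =>
    exact le_iSup₂_of_le 0 ⟨by simp, by simp, by simp⟩
      (le_inf ((Submodule.span_singleton_le_iff_mem _ _).2 h.v_mem) le_rfl)
  | succ n ih =>
    obtain ⟨L, h1, h2, h3⟩ := h.ann n
    refine lower_le fun j s u hu => (iSup₂_le fun e he u hu => ?_ :
      _ ≤ Submodule.comap (x (-1) j s) (⨆ e ∈ {e | GoodEx a c (n + 1) e},
        Ve q φ a k c e ⊓ lower x (ℂ ∙ v) (n + 1))) (ih hu)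
    obtain ⟨g, m, h4, h5⟩ := exists_crt h.gen (L j)
    have h6 := congrFun (act_of_dvd h4 (h1 j u hu.2).1) s
    rw [act_sub, act_one, act_sum, Pi.sub_apply, Pi.zero_apply, sub_eq_zero,
      Finset.sum_apply] at h6
    rw [Submodule.mem_comap, h6]
    refine Submodule.sum_mem _ fun b hb => ?_
    have hb' := Multiset.mem_toFinset.1 hb
    have hC : 0 ≤ D.Cb := (abs_nonneg _).trans (D.le_Cb a a)
    refine Submodule.mem_iSup_of_mem (e + Finsupp.single (j, b) 1) (Submodule.mem_iSup_of_mem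
      ⟨by simp [he.1], fun p hp => ?_, fun _ => ?_⟩ ⟨?_, act_mem _ _ (fun s => mem_lower j s hu.2) s⟩)
    · rcases Finset.mem_union.1 (Finsupp.support_add hp) with hp | hp
      · have := he.2.1 p hp
        push_cast; nlinarith
      · have := h2 j b hb'
        rw [Finset.mem_singleton.1 (Finsupp.support_single_subset hp)]
        push_cast; nlinarith
    · by_cases hn : n = 0
      · simp [h3 hn j b hb']
      · have := he.2.2 hn
        rw [Finsupp.add_apply]; omega
    · rw [← Ve_down, ← act_apply]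
      exact h.rel.my_step h.gen (reg_Re h.gen e) inf_le_left
        (fun ε i r u hu => ⟨h.rel.stab_VS _ _ ε i r u hu.1, h.stab n ε i r u hu.2⟩) (-1) j
        (fun u hu => act_of_dvd (h5 b hb) (h1 j u hu.2).1) s hu

lemma top_le {W : Submodule ℂ V} (hW : ∀ n e, GoodEx a c n e → Ve q φ a k c e ⊓ lower x (ℂ ∙ v) n ≤ W) :
    ⊤ ≤ W := by
  rw [← h.top0]
  exact iSup_le fun n => (h.lower_le_good n).trans (iSup₂_le (hW n))

lemma good {e : D.Ex} (he : Ve q φ a k c e ≠ ⊥) : GoodEx a c e.degree e := by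
  by_contra h1
  refine he (disjoint_top.1 ((h.indep e).mono_right (h.top_le fun n e' he' =>
    inf_le_left.trans (le_iSup₂_of_le e' ?_ le_rfl))))
  rintro rfl
  exact h1 (he'.1 ▸ he')

lemma VS_eq_bot {μ : M} {R : D.b.support → FF} (hR : ∀ e, R ≠ D.Re q a k c e) :
    VS q φ μ R = ⊥ :=
  disjoint_top.1 ((h.rel.indep_GS (chi R)).mono inf_le_right (h.top_le fun _ e _ =>
    inf_le_left.trans (le_iSup₂_of_le (chi (D.Re q a k c e)) (fun e' => hR e (chi_inj e').symm)
      inf_le_right)))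

lemma Ve_zero : Ve q φ a k c 0 = ℂ ∙ v := by
  have h1 := (Submodule.span_singleton_le_iff_mem _ _).2 h.v_mem
  refine le_antisymm (fun u hu => ?_) h1
  have : ⊤ ≤ (ℂ ∙ v) ⊔ ⨆ e ≠ 0, Ve q φ a k c e := h.top_le fun n e he => by
    cases n with
    | zero => exact le_sup_of_le_left inf_le_right
    | succ n =>
      refine le_sup_of_le_right (inf_le_left.trans (le_iSup₂_of_le e ?_ le_rfl))
      rintro rfl
      simpa using he.1
  obtain ⟨w, hw, u', hu', rfl⟩ := Submodule.mem_sup.1 (this (Submodule.mem_top (x := u)))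
  rwa [(Submodule.disjoint_def.1 (h.indep 0)) u' (by simpa using sub_mem hu (h1 hw)) hu', add_zero]

lemma trace_sum (e : D.Ex) (i : D.b.support) (b : ℤ) (he : e (i, b) = 0) (K : ℕ)
    (hK : Ve q φ a k c (e + Finsupp.single (i, b) K) = ⊥) :
    ∃ G : ℂ[X], G.eval (q ^ b) ≠ 0 ∧ ∀ r, ∑ n ∈ Finset.range K,
      (Module.finrank ℂ (Ve q φ a k c (e + Finsupp.single (i, b) n)) : ℂ) *
        (act G (co 1 (D.Re q a k c (e + Finsupp.single (i, b) n) i)) r -
          act G (co (-1) (D.Re q a k c (e + Finsupp.single (i, b) n) i)) r) = 0 := by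
  have := h.fin
  obtain ⟨tr, t1, t2, t3⟩ := exists_trOn (V := V)
  obtain ⟨G₁, n₁, g1, g2⟩ := h.rel.exists_ann h.gen 1 i (q ^ b)
  obtain ⟨G₂, n₂, g3, g4⟩ := h.rel.exists_ann h.gen (-1) i (q ^ b)
  refine ⟨G₂ * G₁, by simp [g1, g3], fun r => ?_⟩
  set W := fun n : ℕ => Ve q φ a k c (e + Finsupp.single (i, b) n) with hW
  set A := act G₁ (x 1 i) r
  set B := act G₂ (x (-1) i) 0
  have st := fun (e : D.Ex) (σ : ℤˣ) (G : ℂ[X]) (n : ℕ)
      (hG : act ((X - C (q ^ b)) ^ n * G) (x σ i) = 0) (s : ℤ) (u : V)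
      (hu : u ∈ Ve q φ a k c e) => h.rel.my_step h.gen (reg_Re h.gen e) le_rfl
        (h.rel.stab_VS _ _) σ i (g := G) (n := n) (b := b)
        (fun u _ => funext fun s => by rw [← act_apply, hG]; rfl) s hu
  have e1 : ∀ n : ℕ, e + Finsupp.single (i, b) (n + 1) =
      e + Finsupp.single (i, b) n + Finsupp.single (i, b) 1 := fun n => by
    rw [add_assoc, Finsupp.single_add]
  have hAB : ∀ n, tr (W n) (A * B) = tr (W (n + 1)) (B * A) := fun n =>
    t1 _ _ A B (fun u hu => by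
      simp only [hW, e1] at hu ⊢
      have := st _ 1 G₁ n₁ g2 r u hu
      rwa [Ve_up h.gen] at this) fun u hu => by
      simp only [hW, e1]
      have := st _ (-1) G₂ n₂ g4 0 u hu
      rwa [Ve_down] at this
  have h0 : tr (W 0) (B * A) = 0 := t3 _ _ fun u hu => by
    have := st _ 1 G₁ n₁ g2 r u hu
    rw [h.VS_eq_bot, Submodule.mem_bot] at this
    · rw [Module.End.mul_apply, this, map_zero]
    · intro e' h1
      have h2 : D.Re q a k c (e' + Finsupp.single (i, b) 1) =
          D.Re q a k c (e + Finsupp.single (i, b) 0) := funext fun j => by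
        rw [Re_add, ← h1, pow_one, mul_assoc, Units.val_one, one_mul, Uf_mul_neg h.gen, mul_one]
      have := congrArg (· (i, b)) (Re_inj h.gen h2)
      simp [he] at this
  have hK' : tr (W K) (B * A) = 0 := t3 _ _ fun u hu => by
    simp only [hW, hK, Submodule.mem_bot] at hu
    rw [hu, map_zero]
  have h1 := Finset.sum_range_sub (fun n => tr (W n) (B * A)) K
  simp only [← hAB, ← map_sub, h0, hK', sub_zero, A, B, h.rel.comm_act, map_smul, add_zero,
    ← Finset.smul_sum] at h1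
  have h2 : q ^ D.di i - (q ^ D.di i)⁻¹ ≠ 0 := by
    simpa using h.gen.sub_inv_ne (D.di_pos' i).ne'
  rw [← (smul_eq_zero.1 h1).resolve_left (inv_ne_zero h2)]
  refine Finset.sum_congr rfl fun n _ => ?_
  rw [act_map, ← Pi.sub_apply (act _ _), ← act_sub', ← smul_eq_mul, ← Pi.smul_apply, ← act_smul']
  congr 1
  funext s
  have h3 := fun ε => t2 (W n) (φ ε i s) _ (h.rel.stab_VS _ _ ε i s)
    fun u hu => (mem_VS.1 hu).2 ε i s
  rw [Ph, map_sub, h3, h3, ← mul_sub]; rfl

theorem exists_isKRq : ∃ Y, D.IsKRq a k c Y ∧ D.IsChar q φ (ex (k • D.ω a) * D.ch Y) := by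
  classical
  have := h.fin
  have hfin := Submodule.finite_ne_bot_of_iSupIndep h.indep
  set Y : D.Pol := ∑ e ∈ hfin.toFinset,
    MvPolynomial.monomial e (Module.finrank ℂ (Ve q φ a k c e) : ℤ) with hY
  have hc : ∀ e, MvPolynomial.coeff e Y = Module.finrank ℂ (Ve q φ a k c e) := fun e => by
    simp only [hY, MvPolynomial.coeff_sum, MvPolynomial.coeff_monomial, Finset.sum_ite_eq',
      Set.Finite.mem_toFinset, Set.mem_ofPred_eq]
    split_ifs with h1
    · rfl
    · rw [not_not.1 h1]; simp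
  have hs : ∀ e, e ∈ Y.support ↔ Ve q φ a k c e ≠ ⊥ := fun e => by
    rw [MvPolynomial.mem_support_iff, hc, Nat.cast_ne_zero, Ne, Submodule.finrank_eq_zero]
  have htop : ⨆ e, Ve q φ a k c e = ⊤ :=
    top_le_iff.1 (h.top_le fun _ e _ => inf_le_left.trans (le_iSup _ e))
  refine ⟨Y, ⟨fun ⟨i, b⟩ => loc_of_dvd (D.pA_self _) fun e he => ?_, ?_, fun e he h0 => ?_,
    fun e he => (h.good ((hs e).1 he)).2.1⟩, ?_, fun μ => ?_⟩
  · obtain ⟨w, hw⟩ := exists_isLoc (h.gen.zne b)
    refine hw.dvd h.gen (D.di_pos' i).ne' ?_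
    set P := (line (i, b) e Y).map (Int.castRingHom ℂ) with hP
    have hPc : ∀ n, P.coeff n = Module.finrank ℂ (Ve q φ a k c (e + Finsupp.single (i, b) n)) :=
      fun n => by rw [hP, coeff_map, coeff_line he, hc]; simp
    obtain ⟨G, g1, g2⟩ := h.trace_sum e i b he (P.natDegree + 1) (by
      have := hPc (P.natDegree + 1)
      rwa [coeff_natDegree_succ_eq_zero, eq_comm, Nat.cast_eq_zero,
        Submodule.finrank_eq_zero] at this)
    have e1 : D.Re q a k c e i * aeval (Uf q b (-(2 * D.di i))) P =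
        ∑ n ∈ Finset.range (P.natDegree + 1),
          cc (P.coeff n) * D.Re q a k c (e + Finsupp.single (i, b) n) i := by
      rw [aeval_eq_sum_range, Finset.mul_sum]
      refine Finset.sum_congr rfl fun n _ => ?_
      rw [Re_add, Bm_self, Algebra.smul_def]; ring
    have := hw.le_one (H := aeval zz⁻¹ G * (D.Re q a k c e i * aeval (Uf q b (-(2 * D.di i))) P))
      fun r => by
        rw [e1, Finset.mul_sum, co_sum, co_sum, ← sub_eq_zero, ← Finset.sum_sub_distrib, ← g2 r]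
        refine Finset.sum_congr rfl fun n _ => ?_
        rw [mul_left_comm, co_cc, co_cc, act_co, act_co, hPc, mul_sub]
    rwa [map_mul, hw.aeval_inv g1, one_mul, map_mul, val_Re h.gen hw] at this
  · rw [hc, h.Ve_zero, finrank_span_singleton h.ne]; rfl
  · exact (h.good ((hs e).1 he)).2.2 fun e0 => h0 ((Finsupp.degree_eq_zero_iff e).1 e0)
  · exact top_le_iff.1 (htop ▸ iSup_le fun e => le_iSup_of_le _ inf_le_left)
  · rw [coeff_ex_mul, ← neg_sub, coeff_ch, finrank_eq_sum (Ve q φ a k c) (D.wtSpace q φ)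
      (fun e => k • D.ω a - D.wt e) h.indep (h.rel.indep_wt h.gen) (fun e => inf_le_left) htop
      Y.support (fun e he => (hs e).2 he) μ]
    push_cast
    refine Finset.sum_congr rfl fun e _ => ?_
    rw [hc]
    exact if_congr ⟨fun e => by rw [e, sub_sub_cancel], fun e => by rw [← e, sub_sub_cancel]⟩ rfl rfl

end HW

end SimpleDatum

end Pool.Agent.Lib.MP_4354a3_al
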