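import Pool.Agent.Lib.MP_4354a3_al.QA4

-- part Pool.Agent.Lib.MP_4354a3_al.QB3
section

/-!
# The T-system and the convergence of the normalised `q`-characters
-/

set_option linter.unusedSectionVars false

namespace Pool.Agent.Lib.MP_4354a3_al

open MvPolynomial

lemma sum_range_add_mod {n : ℕ} (h : ℕ → ℤ) (k : ℕ) :
    ∑ l ∈ Finset.range n, h ((k + l) % n) = ∑ l ∈ Finset.range n, h l := by
  induction k with
  | zero => exact Finset.sum_congr rfl fun l hl => by
              rw [zero_add, Nat.mod_eq_of_lt (Finset.mem_range.1 hl)]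
  | succ k ih =>
    have h1 := Finset.sum_range_succ (fun l => h ((k + l) % n)) n
    have h2 := Finset.sum_range_succ' (fun l => h ((k + l) % n)) n
    have h3 : ∑ l ∈ Finset.range n, h ((k + 1 + l) % n) =
        ∑ l ∈ Finset.range n, h ((k + (l + 1)) % n) :=
      Finset.sum_congr rfl fun l _ => by congr 2; ring
    rw [Nat.add_mod_right] at h1
    rw [add_zero] at h2
    omega

lemma lex_zero {f g : ℤ →₀ ℕ} (h : toLex f ≤ toLex g) {b₀ : ℤ} (hg : ∀ b ≤ b₀, g b = 0) :
    ∀ b ≤ b₀, f b = 0 := by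
  intro b hb
  rcases h.eq_or_lt with h | h
  · rw [toLex.injective h, hg b hb]
  · obtain ⟨j, h1, h2⟩ := Finsupp.Lex.lt_iff.1 h
    simp only [ofLex_toLex] at h1 h2
    have : b₀ < j := by
      by_contra h3
      rw [hg j (by omega)] at h2
      omega
    rw [h1 b (by omega), hg b hb]

namespace SimpleDatum

variable {ι M N : Type*} [Fintype ι] [DecidableEq ι] [AddCommGroup M] [AddCommGroup N]
  (D : SimpleDatum ι M N)

/-- Truncation: the variables to the right of `R` are sent to zero. -/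
noncomputable def tau (R : ℤ) : D.Pol →ₐ[ℤ] D.Pol :=
  aeval fun p => if p.2 + D.di p.1 ≤ R then X p else 0

lemma tau_monomial (R : ℤ) (e : D.Ex) : D.tau R (monomial e 1) =
    if ∀ p ∈ e.support, p.2 + D.di p.1 ≤ R then monomial e 1 else 0 := by
  rw [tau, aeval_monomial, map_one (algebraMap ℤ _), one_mul]
  split_ifs with h
  · rw [monomial_eq, C_1, one_mul]
    exact Finset.prod_congr rfl fun p hp => by simp only [if_pos (h p hp)]
  · push Not at h
    obtain ⟨p, hp, h⟩ := h
    exact Finset.prod_eq_zero hp (by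
      simp only [if_neg (not_le.2 h), zero_pow (Finsupp.mem_support_iff.1 hp)])

lemma coeff_tau (R : ℤ) (Y : D.Pol) (e : D.Ex) : coeff e (D.tau R Y) =
    if ∀ p ∈ e.support, p.2 + D.di p.1 ≤ R then coeff e Y else 0 := by
  induction Y using mono_ind with
  | h0 e' =>
    rw [tau_monomial]
    by_cases h : e' = e
    · subst h; split_ifs <;> simp
    · split_ifs <;> simp [coeff_monomial, h]
  | h1 Y Z h h' => rw [map_add, coeff_add, h, h', coeff_add]; split_ifs <;> simp
  | h2 a Y h => rw [map_smul, coeff_smul, h, coeff_smul]; split_ifs <;> simp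

lemma tau_loc {R : ℤ} {p : D.Pt} (hp : p.2 + D.di p.1 ≤ R) {o : ℤ} {Y : D.Pol}
    (h : Y ∈ D.LocAt p o) : D.tau R Y ∈ D.LocAt p o := by
  refine loc_map (D.tau R) (by rw [tau, aeval_X, if_pos hp]) (fun e => ?_) h
  rw [tau_monomial]
  split_ifs
  · exact loc_monomial le_rfl
  · exact zero_mem _

/-- The monomials of the `sl₂`-string at the top of the module. -/
noncomputable def es (i : D.b.support) (c : ℤ) (s : ℕ) : D.Ex :=
  ∑ l ∈ Finset.range s, Finsupp.single (i, c - 2 * l * D.di i) 1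

lemma es_succ (i : D.b.support) (c : ℤ) (s : ℕ) :
    D.es i c (s + 1) = D.es i c s + Finsupp.single (i, c - 2 * s * D.di i) 1 :=
  Finset.sum_range_succ _ _

lemma es_window (i : D.b.support) (c : ℤ) (s : ℕ) :
    ∀ p ∈ (D.es i c s).support, p.2 + D.di p.1 ≤ c + D.di i := by
  induction s with
  | zero => simp [es]
  | succ s ih =>
    intro p hp
    rw [es_succ] at hp
    rcases Finset.mem_union.1 (Finsupp.support_add hp) with h | h
    · exact ih p h
    · rw [Finset.mem_singleton.1 (Finsupp.support_single_subset h)]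
      have : (0 : ℤ) ≤ 2 * s * D.di i := by positivity
      simp only; omega

lemma es_first (i : D.b.support) (c : ℤ) (s : ℕ) : D.es i c (s + 1) (i, c) ≠ 0 := by
  rw [es, Finset.sum_range_succ']; simp

/-- The indicator of `b = c - 2 n d`. -/
def ind (b c d n : ℤ) : ℤ := if b = c - 2 * n * d then 1 else 0

lemma pA_es_same (i : D.b.support) (c b : ℤ) (s : ℕ) : D.pA (i, b) (D.es i c s) =
    ind b c (D.di i) (-1) + ind b c (D.di i) 0 - ind b c (D.di i) (s - 1) -
      ind b c (D.di i) s := by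
  induction s with
  | zero => simp [es]
  | succ s ih =>
    rw [es_succ, map_add, ih, pA_single, pa, Bm_self]
    simp only [ind, Nat.cast_succ, add_sub_cancel_right]
    rw [show c - 2 * s * D.di i + 2 * D.di i = c - 2 * (s - 1) * D.di i by ring,
      show c - 2 * s * D.di i - 2 * D.di i = c - 2 * (s + 1) * D.di i by ring]
    ring

lemma pA_es_ne {i j : D.b.support} (h : i ≠ j) (c b : ℤ) (s : ℕ) : D.pA (j, b) (D.es i c s) =
    ∑ l ∈ Finset.range (D.absC i j), (ind b (c - D.Bm i j) (D.di i) (s + l : ℕ) -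
      ind b (c - D.Bm i j) (D.di i) l) := by
  induction s with
  | zero => simp [es]
  | succ s ih =>
    rw [es_succ, map_add, ih, pA_single, pa, D.Bm_symm j i]
    have := Finset.sum_range_sub (fun l : ℕ => ind b (c - D.Bm i j) (D.di i) (s + l : ℕ))
      (D.absC i j)
    simp only [Finset.sum_sub_distrib, add_zero] at this ⊢
    have e1 : ∑ l ∈ Finset.range (D.absC i j), ind b (c - D.Bm i j) (D.di i) (s + 1 + l : ℕ) =
        ∑ l ∈ Finset.range (D.absC i j), ind b (c - D.Bm i j) (D.di i) (s + (l + 1) : ℕ) :=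
      Finset.sum_congr rfl fun l _ => by congr 2; ring
    have e2 : c - D.Bm i j - 2 * (s + D.absC i j : ℕ) * D.di i = c - 2 * s * D.di i + D.Bm i j := by
      rw [D.Bm_ne h]; push_cast; ring
    have e3 : c - D.Bm i j - 2 * s * D.di i = c - 2 * s * D.di i - D.Bm i j := by ring
    rw [e1]
    simp only [ind] at this ⊢
    rw [e2, e3] at this
    push_cast at this ⊢
    linarith

lemma wk_same (i : D.b.support) (k : ℕ) (c b : ℤ) :
    D.wk i k c (i, b) = ind b c (D.di i) 0 - ind b c (D.di i) k := by simp [wk, ind]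

lemma wk_ne {i j : D.b.support} (h : j ≠ i) (k : ℕ) (c b : ℤ) : D.wk i k c (j, b) = 0 := by
  simp [wk, h]

lemma ind_cases (b c : ℤ) {d : ℤ} (hd : 0 < d) :
    (∃ n, ∀ m, ind b c d m = if m = n then 1 else 0) ∨ ∀ m, ind b c d m = 0 := by
  by_cases h : ∃ n, b = c - 2 * n * d
  · obtain ⟨n, rfl⟩ := h
    refine Or.inl ⟨n, fun m => if_congr ⟨fun h => ?_, fun h => by rw [h]⟩ rfl rfl⟩
    have : (m - n) * d = 0 := by linarith
    rcases mul_eq_zero.1 this with h | h <;> omega
  · exact Or.inr fun m => if_neg fun e => h ⟨m, e⟩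

lemma string_pos {i j : D.b.support} (h : i ≠ j) {l : ℕ} (hl : l < D.absC i j) (c : ℤ) :
    c + D.di i < c - D.Bm i j - 2 * l * D.di i + D.di j := by
  have h2 : (D.di i : ℤ) * D.absC i j = D.di j * D.absC j i := by exact_mod_cast D.di_absC i j
  have h3 := D.di_pos' i
  have h4 := D.di_pos' j
  have h5 : (l : ℤ) + 1 ≤ D.absC i j := by exact_mod_cast hl
  rw [D.Bm_ne h]
  rcases D.absC_cases h with ⟨h6, -⟩ | ⟨h6, -⟩ | ⟨h6, -⟩
  · omega
  · have : l = 0 := by omega
    rw [h6, this]; push_cast; omega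
  · rw [h6] at h2; push_cast at h2; nlinarith

lemma loc_string (i : D.b.support) (k : ℕ) (c : ℤ) {p : D.Pt} (hp : p.2 + D.di p.1 ≤ c + D.di i) :
    ∑ s ∈ Finset.range (k + 1), monomial (D.es i c s) 1 ∈ D.LocAt p (D.wk i k c p) := by
  obtain ⟨j, b⟩ := p
  by_cases h : i = j
  · subst h
    by_cases hb : ∃ s < k, b = c - 2 * s * D.di i
    · obtain ⟨s, hs, rfl⟩ := hb
      obtain ⟨n, hn⟩ | hn := ind_cases (c - 2 * s * D.di i) c (D.di_pos' i)
      swap
      · have := hn s; simp [ind] at this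
      have hns : (s : ℤ) = n := by
        have := hn s; simp only [ind, if_true] at this
        by_contra h; simp [h] at this
      subst hns
      rw [← Finset.add_sum_erase _ _ (Finset.mem_range.2 (show s < k + 1 by omega)),
        ← Finset.add_sum_erase _ _ (Finset.mem_erase.2 ⟨Nat.succ_ne_self s,
          Finset.mem_range.2 (show s + 1 < k + 1 by omega)⟩), ← add_assoc]
      refine add_mem ?_ (Submodule.sum_mem _ fun s' hs' => loc_monomial ?_)
      · have := loc_gen (p := (i, c - 2 * s * D.di i)) (π := D.pA (i, c - 2 * s * D.di i))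
          (o := D.wk i k c (i, c - 2 * s * D.di i)) 1 (D.es i c s) (by
            rw [wk_same, pA_es_same]; simp only [hn]; split_ifs <;> omega)
        rwa [pow_one, add_mul, one_mul, mul_comm (X _), ← pow_one (X _), ← monomial_add_single,
          ← es_succ] at this
      · simp only [Finset.mem_erase, Finset.mem_range] at hs'
        rw [wk_same, pA_es_same]; simp only [hn]; split_ifs <;> omega
    · refine Submodule.sum_mem _ fun s hs => loc_monomial ?_
      rw [Finset.mem_range] at hs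
      rw [wk_same, pA_es_same]
      obtain ⟨n, hn⟩ | hn := ind_cases b c (D.di_pos' i)
      · have : n < 0 ∨ k ≤ n := by
          by_contra h
          refine hb ⟨n.toNat, by omega, ?_⟩
          have := hn n
          rw [if_pos rfl, ind] at this
          rw [Int.toNat_of_nonneg (by omega)]
          by_contra h; simp [h] at this
        simp only [hn]; split_ifs <;> omega
      · simp [hn]
  · refine Submodule.sum_mem _ fun s _ => loc_monomial ?_
    rw [D.wk_ne (Ne.symm h), D.pA_es_ne h]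
    refine Finset.sum_nonneg fun l hl => ?_
    have := D.string_pos h (Finset.mem_range.1 hl) c
    simp only at hp
    simp only [ind]
    split_ifs <;> omega

variable {D}

lemma IsKRq.tau_one {j : D.b.support} {n : ℕ} {c R : ℤ} {Y : D.Pol} (h : D.IsKRq j n c Y)
    (hR : R < c + D.di j) : D.tau R Y = 1 := by
  ext e
  rw [coeff_tau, coeff_one]
  by_cases h0 : 0 = e
  · subst h0; simp [h.one]
  · rw [if_neg h0]
    split_ifs with h1
    · by_contra h2
      have := h1 (j, c) (Finsupp.mem_support_iff.2 (h.first e (mem_support_iff.2 h2) (Ne.symm h0)))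
      simp only at this
      omega
    · rfl

lemma IsKRq.tau_eq {i : D.b.support} {k : ℕ} {c : ℤ} {Y : D.Pol} (h : D.IsKRq i k c Y) :
    D.tau (c + D.di i) Y = ∑ s ∈ Finset.range (k + 1), monomial (D.es i c s) 1 := by
  have hd := D.di_pos' i
  rw [← sub_eq_zero]
  by_contra h0
  obtain ⟨e, he, hmin⟩ := exists_lexmin h0
  have hs : ∀ e ∈ (∑ s ∈ Finset.range k, monomial (D.es i c (s + 1)) 1 : D.Pol).support,
      e (i, c) ≠ 0 ∧ ∀ p ∈ e.support, p.2 + D.di p.1 ≤ c + D.di i := by
    intro e he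
    obtain ⟨s, -, hs⟩ := Finset.mem_biUnion.1 (support_sum he)
    rw [Finset.mem_singleton.1 (support_monomial_subset hs)]
    exact ⟨D.es_first i c s, D.es_window i c _⟩
  have key : e (i, c) ≠ 0 ∧ ∀ p ∈ e.support, p.2 + D.di p.1 ≤ c + D.di i := by
    by_contra h1
    have h2 : coeff e (∑ s ∈ Finset.range k, monomial (D.es i c (s + 1)) 1 : D.Pol) = 0 := by
      by_contra h2
      exact h1 (hs e (mem_support_iff.2 h2))
    rw [mem_support_iff, coeff_sub, Finset.sum_range_succ', coeff_add, h2, zero_add, coeff_tau,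
      coeff_monomial, show D.es i c 0 = 0 by simp [es]] at he
    by_cases h3 : 0 = e
    · subst h3; simp [h.one] at he
    · rw [if_neg h3, sub_zero] at he
      split_ifs at he with h4
      · exact h1 ⟨h.first e (mem_support_iff.2 he) (Ne.symm h3), h4⟩
      · exact he rfl
  refine walk he hmin (u := D.strc i k c) (i := i) (a := c + D.di i) ?_ fun b hb => ?_
  · rw [D.strc_right i k (by omega), D.Am_right key.2, add_sub_cancel_right]
    exact_mod_cast Nat.pos_of_ne_zero key.1
  · rw [ord_strc]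
    exact sub_mem (D.tau_loc (by simp only; omega) (h.loc _))
      (D.loc_string i k c (by simp only; omega))

variable (D) in
/-- The lengths of the strings in the T-system. -/
def sl (i j : D.b.support) (k l : ℕ) : ℕ := (D.absC j i * k + l) / D.absC i j

variable (D) in
/-- The positions of the strings in the T-system. -/
def sp (i j : D.b.support) (c : ℤ) (l : ℕ) : ℤ :=
  c - D.Bm i j - 2 * (D.absC i j - 1 - l : ℕ) * D.di i

lemma pole_ident (i : D.b.support) (k : ℕ) (c : ℤ) (p : D.Pt) :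
    D.wk i k c p + D.wk i k (c + 2 * D.di i) p = D.pA p (D.es i c k) +
      ∑ j ∈ Finset.univ.erase i, ∑ l ∈ Finset.range (D.absC i j),
        D.wk j (D.sl i j k l) (D.sp i j c l) p := by
  obtain ⟨j, b⟩ := p
  by_cases h : i = j
  · subst h
    rw [Finset.sum_eq_zero fun j hj => Finset.sum_eq_zero fun l _ =>
      D.wk_ne (Finset.ne_of_mem_erase hj).symm _ _ _, wk_same, wk_same, pA_es_same]
    simp only [ind]
    rw [show c + 2 * D.di i - 2 * 0 * D.di i = c - 2 * (-1) * D.di i by ring,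
      show c + 2 * D.di i - 2 * k * D.di i = c - 2 * (k - 1) * D.di i by ring]
    ring
  · rw [D.wk_ne (Ne.symm h), D.wk_ne (Ne.symm h), D.pA_es_ne h, Finset.sum_eq_single j
      (fun l _ hl => Finset.sum_eq_zero fun _ _ => D.wk_ne hl.symm _ _ _)
      (fun hj => absurd (Finset.mem_erase.2 ⟨Ne.symm h, Finset.mem_univ j⟩) hj)]
    set g : ℕ → ℤ := fun l => ind b (c - D.Bm i j) (D.di i) l with hg
    have e1 : ∀ l ∈ Finset.range (D.absC i j), D.wk j (D.sl i j k l) (D.sp i j c l) (j, b) =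
        g (D.absC i j - 1 - l) - g (k + (D.absC i j - 1 - (k + l) % D.absC i j)) := by
      intro l hl
      rw [Finset.mem_range] at hl
      have h2 := D.di_absC i j
      have : D.di i * (D.absC i j - 1 - l) + D.sl i j k l * D.di j =
          D.di i * (k + (D.absC i j - 1 - (k + l) % D.absC i j)) := by
        rcases D.absC_cases h with ⟨h6, -⟩ | ⟨h6, -⟩ | ⟨h6, -⟩
        · omega
        · have : l = 0 := by omega
          rw [h6, mul_one] at h2
          rw [sl, h6, this, h2]; simp; ring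
        · rw [h6, mul_one] at h2
          rw [sl, h6, one_mul, ← h2, mul_comm _ (D.di i * _), mul_assoc, ← mul_add]
          have := Nat.div_add_mod (k + l) (D.absC i j)
          have := Nat.mod_lt (k + l) (show 0 < D.absC i j by omega)
          congr 1; omega
      have := congrArg (Nat.cast : ℕ → ℤ) this
      simp only [Nat.cast_add, Nat.cast_mul] at this
      simp only [wk, sp, hg, ind, if_true]
      congr 2
      rw [Nat.cast_add]
      apply propext
      constructor <;> intro h <;> linarith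
    rw [Finset.sum_congr rfl e1, Finset.sum_sub_distrib, Finset.sum_sub_distrib,
      sum_range_add_mod (fun l => g (k + (D.absC i j - 1 - l))), Finset.sum_range_reflect g,
      Finset.sum_range_reflect fun l => g (k + l)]
    ring

theorem tsystem {Xf : D.b.support → ℕ → ℤ → D.Pol} (h : ∀ i k c, D.IsKRq i k c (Xf i k c))
    (i : D.b.support) (m : ℕ) (c : ℤ) :
    Xf i (m + 1) c * Xf i (m + 1) (c + 2 * D.di i) = Xf i (m + 2) (c + 2 * D.di i) * Xf i m c +
      monomial (D.es i c (m + 1)) 1 * ∏ j ∈ Finset.univ.erase i,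
        ∏ l ∈ Finset.range (D.absC i j), Xf j (D.sl i j (m + 1) l) (D.sp i j c l) := by
  have hd := D.di_pos' i
  rw [← sub_eq_zero]
  refine vanish (u := D.strc i (m + 1) c + D.strc i (m + 1) (c + 2 * D.di i)) (R := c + D.di i + 1)
    (fun j y hy => ?_) (fun p => ?_) fun e he => ?_
  · rw [Finsupp.add_apply, D.strc_right i _ (by omega), D.strc_right i _ (by omega), add_zero]
  · rw [ord_add, ord_strc, ord_strc]
    refine sub_mem (loc_mul ((h _ _ _).loc p) ((h _ _ _).loc p)) (add_mem ?_ ?_)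
    · refine loc_mono (le_of_eq ?_) (loc_mul ((h _ _ _).loc p) ((h _ _ _).loc p))
      simp only [wk]
      rw [show c + 2 * D.di i - 2 * (m + 1 : ℕ) * D.di i = c - 2 * m * D.di i by push_cast; ring,
        show c + 2 * D.di i - 2 * (m + 2 : ℕ) * D.di i = c - 2 * (m + 1 : ℕ) * D.di i by
          push_cast; ring]
      split_ifs <;> omega
    · rw [pole_ident]
      exact loc_mul (loc_monomial le_rfl)
        (loc_prod _ fun j _ => loc_prod _ fun l _ => (h _ _ _).loc p)
  · by_contra h1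
    push Not at h1
    rw [mem_support_iff, ← if_pos (c := ∀ p ∈ e.support, p.2 + D.di p.1 ≤ c + D.di i)
      (t := coeff e _) (e := 0) (fun p hp => by have := h1 p hp; omega), ← coeff_tau] at he
    refine he ?_
    rw [map_sub, map_add, map_mul, map_mul, map_mul, map_prod, (h i (m + 1) c).tau_eq,
      (h i m c).tau_eq, (h i (m + 1) _).tau_one (by omega), (h i (m + 2) _).tau_one (by omega),
      tau_monomial, if_pos (D.es_window i c _), Finset.prod_eq_one, Finset.sum_range_succ _ (m + 1)]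
    · simp
    intro j hj
    rw [map_prod]
    refine Finset.prod_eq_one fun l hl => (h _ _ _).tau_one ?_
    rw [Finset.mem_range] at hl
    exact D.string_pos (Finset.ne_of_mem_erase hj).symm (by omega) c

theorem IsKRq.close {i : D.b.support} {k : ℕ} {c : ℤ} {Y Z : D.Pol} (h : D.IsKRq i (k + 1) c Y)
    (h' : D.IsKRq i k c Z) : ∀ e ∈ (Y - Z).support, 2 * k * D.di i ≤ D.Cb * e.degree := by
  have hd := D.di_pos' i
  intro e₁ he₁
  by_contra hlt
  have hw : ∀ b ≤ c - 2 * k * D.di i, D.gl e₁ b = 0 := fun b hb => D.gl_eq_zero.2 fun j => by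
    by_contra h1
    have : c - D.Cb * e₁.degree ≤ b := by
      rcases Finset.mem_union.1 (support_sub _ _ _ he₁) with h2 | h2
      · exact h.window e₁ h2 (j, b) (Finsupp.mem_support_iff.2 h1)
      · exact h'.window e₁ h2 (j, b) (Finsupp.mem_support_iff.2 h1)
    omega
  obtain ⟨e, he, hmin⟩ := exists_lexmin (support_nonempty.1 ⟨e₁, he₁⟩)
  have hz := lex_zero (hmin e₁ he₁) hw
  have h0 : e ≠ 0 := by
    rintro rfl
    rw [mem_support_iff, coeff_sub, h.one, h'.one] at he
    exact he (sub_self _)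
  have h1 : e (i, c) ≠ 0 := by
    rcases Finset.mem_union.1 (support_sub _ _ _ he) with h1 | h1
    · exact h.first e h1 h0
    · exact h'.first e h1 h0
  obtain ⟨j, R, h2, h3⟩ := exists_right (Finsupp.mem_support_iff.2 h1)
  simp only at h2
  have hneg : D.strc i (k + 1) c (j, R) < D.Am e (j, R) := by
    rwa [D.strc_right i _ (by omega)]
  by_cases hj : j = i
  · subst hj
    have hX : ∀ e' : D.Ex, e' (j, c - 2 * k * D.di j) = 0 →
        coeff e' (Y - (1 + X (j, c - 2 * k * D.di j)) * Z) = coeff e' (Y - Z) := by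
      intro e' h4
      rw [add_mul, one_mul, coeff_sub, coeff_add, coeff_X_mul', if_neg (by simpa using h4),
        add_zero, coeff_sub]
    refine walk (Y := Y - (1 + X (j, c - 2 * k * D.di j)) * Z) ?_ (fun e' he' => ?_) hneg
      fun b _ => ?_
    · rw [mem_support_iff, hX e (D.gl_eq_zero.1 (hz _ le_rfl) j)]
      exact mem_support_iff.1 he
    · by_cases h4 : e' (j, c - 2 * k * D.di j) = 0
      · exact hmin e' (by rwa [mem_support_iff, ← hX e' h4, ← mem_support_iff])
      · exact le_of_not_ge fun h5 => h4 (D.gl_eq_zero.1 (lex_zero h5 hz _ le_rfl) j)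
    · rw [ord_strc]
      have h4 : (1 + X (j, c - 2 * k * D.di j) : D.Pol) ∈ D.LocAt (j, b)
          (ind b c (D.di j) k - ind b c (D.di j) (k + 1 : ℕ)) := by
        by_cases hb : b = c - 2 * k * D.di j
        · subst hb
          refine loc_mono ?_ (by simpa using loc_pow (π := D.pA (j, c - 2 * k * D.di j)) 1)
          simp only [ind]; split_ifs <;> omega
        · refine add_mem (loc_one ?_) (loc_monomial ?_)
          · simp only [ind]; split_ifs <;> omega
          · rw [pA_single, pa, Bm_self]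
            simp only [ind]
            rw [show c - 2 * k * D.di j - 2 * D.di j = c - 2 * (k + 1 : ℕ) * D.di j by
              push_cast; ring]
            split_ifs <;> omega
      refine sub_mem (h.loc _) (loc_mono (le_of_eq ?_) (loc_mul h4 (h'.loc _)))
      rw [wk_same, wk_same]; ring
  · refine walk he hmin hneg fun b _ => ?_
    rw [ord_strc]
    exact sub_mem (h.loc _) (by simpa [D.wk_ne hj] using h'.loc (j, b))

end SimpleDatum

end Pool.Agent.Lib.MP_4354a3_al
end

-- part Pool.Agent.Lib.MP_4354a3_al.QB4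
section

/-!
# From the T-system to the Q-system
-/

set_option linter.unusedSectionVars false

namespace Pool.Agent.Lib.MP_4354a3_al

open MvPolynomial

namespace SimpleDatum

variable {ι M N : Type*} [Fintype ι] [DecidableEq ι] [AddCommGroup M] [AddCommGroup N]
  (D : SimpleDatum ι M N)

/-- The weight of `A^e`. -/
noncomputable def wt : D.Ex →+ M := Finsupp.liftAddHom fun p => multiplesHom M (D.r p.1)

@[simp] lemma wt_single (p : D.Pt) (n : ℕ) : D.wt (Finsupp.single p n) = n • D.r p.1 := by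
  simp [wt]

lemma r_mem (j : D.b.support) : D.r j ∈ D.Qp := AddSubmonoid.subset_closure ⟨j, j.2, rfl⟩

lemma wt_mem (e : D.Ex) : D.wt e ∈ D.Qp := by
  induction e using Finsupp.induction_linear with
  | zero => simp
  | add e e' h h' => rw [map_add]; exact add_mem h h'
  | single p n => rw [wt_single]; exact nsmul_mem (D.r_mem _) n

lemma degree_le_ht (e : D.Ex) : (e.degree : ℤ) ≤ D.ht (D.wt e) := by
  induction e using Finsupp.induction_linear with
  | zero => simp
  | add e e' h h' => rw [map_add, map_add, map_add]; push_cast; omega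
  | single p n =>
    have := D.ht_pos (D.r_mem p.1) (D.r_ne_zero _)
    rw [wt_single, Finsupp.degree_single, map_nsmul, nsmul_eq_mul]
    nlinarith

lemma wt_eq_zero {e : D.Ex} (h : D.wt e = 0) : e = 0 := by
  have := D.degree_le_ht e
  rw [h, map_zero] at this
  exact (Finsupp.degree_eq_zero_iff e).1 (by omega)

/-- The restriction of normalised `q`-characters to normalised characters. -/
noncomputable def ch : D.Pol →ₐ[ℤ] GA M := aeval fun p => ex (-D.r p.1)

lemma ch_monomial (e : D.Ex) : D.ch (monomial e 1) = ex (-D.wt e) := by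
  induction e using Finsupp.induction_linear with
  | zero => simp
  | add e e' h h' =>
    rw [← one_mul (1 : ℤ), ← monomial_mul, map_mul, h, h', ← ex_add, map_add, neg_add]
  | single p n => rw [← X_pow_eq_monomial, map_pow, ch, aeval_X, ← ex_nsmul, wt_single, smul_neg]

open Classical in
lemma coeff_ch (Y : D.Pol) (β : M) :
    (D.ch Y).coeff (-β) = ∑ e ∈ Y.support, if D.wt e = β then coeff e Y else 0 := by
  have : D.ch Y = ∑ e ∈ Y.support, coeff e Y • ex (-D.wt e) := by
    conv_lhs => rw [Y.as_sum, map_sum]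
    refine Finset.sum_congr rfl fun e _ => ?_
    rw [← ch_monomial, ← map_smul, smul_monomial, smul_eq_mul, mul_one]
  rw [this]
  simp [ex, Finsupp.single_apply]

lemma ch_sh (m : ℤ) (Y : D.Pol) : D.ch (rename (D.sh m) Y) = D.ch Y := by
  rw [ch, aeval_rename]; rfl

variable {D}

lemma IsKRq.ch_eq {i : D.b.support} {k : ℕ} {c c' : ℤ} {Y Z : D.Pol} (h : D.IsKRq i k c Y)
    (h' : D.IsKRq i k c' Z) : D.ch Y = D.ch Z := by
  have := h.shift (c' - c)
  rw [add_sub_cancel] at this
  rw [← this.unique h', ch_sh]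

lemma wt_es (i : D.b.support) (c : ℤ) (s : ℕ) : D.wt (D.es i c s) = s • D.r i := by
  simp [es, map_sum]

lemma ex_sum {κ : Type*} (s : Finset κ) (f : κ → M) : ex (∑ a ∈ s, f a) = ∏ a ∈ s, ex (f a) := by
  classical
  induction s using Finset.induction_on with
  | empty => simp
  | insert a s ha ih => rw [Finset.sum_insert ha, Finset.prod_insert ha, ex_add, ih]

theorem isKRFamily {Xf : D.b.support → ℕ → ℤ → D.Pol} (h : ∀ i k c, D.IsKRq i k c (Xf i k c)) :
    D.IsKRFamily fun a m => ex (m • D.ω a) * D.ch (Xf a m 0) := by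
  classical
  have hc : ∀ a m β, (ex (m • D.ω a) * D.ch (Xf a m 0)).coeff (m • D.ω a - β) =
      (D.ch (Xf a m 0)).coeff (-β) := fun a m β => by
    rw [coeff_ex_mul]; congr 1; abel
  refine ⟨fun a => ?_, fun a m => ?_, fun a m => ?_, fun a m x hx => ?_, fun a β => ?_⟩
  · rw [(h a 0 0).unique (isKRq_zero a 0)]; simp
  · have h1 := congrArg D.ch (tsystem h a m 0)
    simp only [map_add, map_mul, map_prod, ch_monomial, wt_es,
      fun i k c => (h i k c).ch_eq (h i k 0)] at h1
    have h2 : ex ((m + 1) • D.ω a) ^ 2 = ex ((m + 2) • D.ω a) * ex (m • D.ω a) := by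
      rw [← ex_nsmul, ← ex_add]; congr 1; module
    have h3 : ex ((m + 1) • D.ω a) ^ 2 * ex (-((m + 1) • D.r a)) =
        ∏ j ∈ Finset.univ.erase a, ∏ l ∈ Finset.range (D.absC a j),
          ex (D.sl a j (m + 1) l • D.ω j) := by
      rw [← ex_nsmul, ← ex_add]
      simp only [← ex_sum, ← Finset.sum_smul]
      congr 1
      have : ∀ j ∈ Finset.univ.erase a, (∑ l ∈ Finset.range (D.absC a j), D.sl a j (m + 1) l) •
          D.ω j = (m + 1) • ((D.absC j a : ℤ) • D.ω j) := by
        intro j hj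
        rw [natCast_zsmul, smul_smul]
        congr 1
        rcases Nat.eq_zero_or_pos (D.absC a j) with h0 | h0
        · rcases D.absC_cases (Finset.ne_of_mem_erase hj) with h4 | h4 | h4
          · simp [h0, h4.1]
          · omega
          · omega
        · rw [mul_comm]; exact sum_range_add_div h0 _
      rw [Finset.sum_congr rfl this, ← Finset.smul_sum, D.r_eq a]
      module
    rw [mul_pow, pow_two (D.ch _), h1, mul_add, ← mul_assoc _ (ex _), h3, h2]
    simp only [Finset.prod_mul_distrib, sl]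
    ring
  · have := hc a m 0
    rw [sub_zero] at this
    rw [this, coeff_ch, Finset.sum_eq_single 0 (fun e _ he => if_neg fun e0 => he (D.wt_eq_zero e0))
      (fun h0 => absurd (mem_support_iff.2 (by rw [(h a m 0).one]; simp)) h0), if_pos (map_zero _),
      (h a m 0).one]
  · have := hc a m (m • D.ω a - x)
    rw [sub_sub_cancel, coeff_ch] at this
    rw [Finsupp.mem_support_iff, this] at hx
    obtain ⟨e, -, he⟩ := Finset.exists_ne_zero_of_sum_ne_zero hx
    rw [← (ite_ne_right_iff.1 he).1]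
    exact D.wt_mem e
  · refine ⟨(D.Cb * D.ht β).toNat + 1, fun m hm => ?_⟩
    rw [hc, hc]
    induction m, hm using Nat.le_induction with
    | base => rfl
    | succ m hm ih =>
      rw [← ih, ← sub_eq_zero, ← Finsupp.sub_apply, ← AddMonoidAlgebra.coeff_sub, ← map_sub,
        coeff_ch]
      refine Finset.sum_eq_zero fun e he => if_neg fun e0 => ?_
      have h1 := (h a (m + 1) 0).close (h a m 0) e he
      have h2 := D.degree_le_ht e
      have h3 := D.di_pos' a
      have h4 : 0 ≤ D.Cb := (abs_nonneg _).trans (D.le_Cb a a)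
      have h5 : D.Cb * D.ht β < m := by omega
      rw [e0] at h2
      nlinarith [mul_le_mul_of_nonneg_left h2 h4]

end SimpleDatum

end Pool.Agent.Lib.MP_4354a3_al
end

-- part Pool.Agent.Lib.MP_4354a3_al.QA2
section

/-!
# Rational functions, their expansions at zero and infinity, and their local valuations
-/

namespace Pool.Agent.Lib.MP_4354a3_al

open Polynomial WithZero
open scoped LaurentSeries WithZero

section Val

variable {L Γ : Type*} [Field L] [Algebra ℂ L] [LinearOrderedCommGroupWithZero Γ]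
  (v : Valuation L Γ)

lemma val_const_le (hv : ∀ c : ℂ, c ≠ 0 → v (algebraMap ℂ L c) = 1) (c : ℂ) :
    v (algebraMap ℂ L c) ≤ 1 := by
  by_cases h : c = 0
  · simp [h]
  · exact (hv c h).le

lemma val_aeval_le (hv : ∀ c : ℂ, c ≠ 0 → v (algebraMap ℂ L c) = 1) {t : L} (ht : v t ≤ 1)
    (P : ℂ[X]) : v (aeval t P) ≤ 1 := by
  induction P using poly_ind with
  | hC a => simpa using val_const_le v hv a
  | hadd P Q h1 h2 => rw [map_add]; exact v.map_add_le h1 h2
  | hX P h => rw [map_mul, map_mul, aeval_X]; exact mul_le_one' ht h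

lemma val_aeval (hv : ∀ c : ℂ, c ≠ 0 → v (algebraMap ℂ L c) = 1) {t : L} {α : ℂ}
    (ht : v (t - algebraMap ℂ L α) < 1) {P : ℂ[X]} (hP : P.eval α ≠ 0) : v (aeval t P) = 1 := by
  obtain ⟨Q, hQ⟩ := X_sub_C_dvd_sub_C_eval (p := P) (a := α)
  have h1 : v t ≤ 1 := by
    have := v.map_add_le ht.le (val_const_le v hv α)
    rwa [sub_add_cancel] at this
  have h2 : aeval t P = algebraMap ℂ L (P.eval α) + (t - algebraMap ℂ L α) * aeval t Q := by
    have := congrArg (aeval t) hQ
    simp only [map_sub, map_mul, aeval_X, aeval_C] at this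
    rw [← this]; ring
  have h3 : v ((t - algebraMap ℂ L α) * aeval t Q) < v (algebraMap ℂ L (P.eval α)) := by
    rw [hv _ hP, map_mul]
    exact mul_lt_one_of_lt_of_le ht (val_aeval_le v hv h1 Q)
  rw [h2, v.map_add_eq_of_lt_left h3, hv _ hP]

lemma trans_of_val (hv : ∀ c : ℂ, c ≠ 0 → v (algebraMap ℂ L c) = 1) {t : L} {α : ℂ}
    (ht : v (t - algebraMap ℂ L α) < 1) (hne : t - algebraMap ℂ L α ≠ 0) :
    Transcendental ℂ t := by
  rintro ⟨P, hP, h0⟩
  obtain ⟨Q, hQ, hd⟩ := exists_eq_pow_rootMultiplicity_mul_and_not_dvd P hP α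
  have h1 := val_aeval v hv ht (P := Q) (fun h => hd (dvd_iff_isRoot.2 h))
  rw [hQ, map_mul, map_pow, map_sub, aeval_X, aeval_C, mul_eq_zero] at h0
  rcases h0 with h0 | h0
  · exact hne (pow_eq_zero_iff_of_ne h0)
  · rw [h0] at h1; simp at h1
where
  pow_eq_zero_iff_of_ne {x : L} {n : ℕ} (h : x ^ n = 0) : x = 0 := eq_zero_of_pow_eq_zero h

end Val

/-- Rational functions. -/
abbrev FF := RatFunc ℂ

/-- The variable. -/
noncomputable abbrev zz : FF := RatFunc.X

/-- Constants. -/
noncomputable abbrev cc : ℂ →+* FF := algebraMap ℂ FF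

/-- The valuation of Laurent series. -/
noncomputable def vK : Valuation ℂ⸨X⸩ ℤᵐ⁰ := Valued.v

lemma algK (c : ℂ) : algebraMap ℂ ℂ⸨X⸩ c = HahnSeries.single 0 c :=
  LaurentSeries.algebraMap_apply ℂ c

lemma vK_single (s : ℤ) : vK (HahnSeries.single s 1) = exp (-s) :=
  LaurentSeries.valuation_single_zpow ℂ s

lemma vK_le_iff {f : ℂ⸨X⸩} : vK f ≤ 1 ↔ ∀ n : ℤ, n < 0 → f.coeff n = 0 := by
  have := LaurentSeries.valuation_le_iff_coeff_lt_eq_zero ℂ (D := 0) (f := f)
  simpa [vK] using this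

lemma vK_const (c : ℂ) (hc : c ≠ 0) : vK (algebraMap ℂ ℂ⸨X⸩ c) = 1 := by
  have h : ∀ c : ℂ, vK (algebraMap ℂ ℂ⸨X⸩ c) ≤ 1 := fun c => vK_le_iff.2 fun n hn => by
    rw [algK, HahnSeries.coeff_single_of_ne hn.ne]
  have h1 : vK (algebraMap ℂ ℂ⸨X⸩ c) * vK (algebraMap ℂ ℂ⸨X⸩ c⁻¹) = 1 := by
    rw [← map_mul, ← map_mul, mul_inv_cancel₀ hc, map_one, map_one]
  exact eq_one_of_mul_eq_one_of_le (h c) (h c⁻¹) h1
where
  eq_one_of_mul_eq_one_of_le {a b : ℤᵐ⁰} (ha : a ≤ 1) (hb : b ≤ 1) (h : a * b = 1) : a = 1 := by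
    by_contra h1
    exact absurd h (mul_lt_one_of_lt_of_le (lt_of_le_of_ne ha h1) hb).ne

lemma vK_X_lt : vK (HahnSeries.single 1 1) < 1 := by
  rw [vK_single, ← exp_zero, exp_lt_exp]; norm_num

lemma trans_X : Transcendental ℂ (HahnSeries.single 1 1 : ℂ⸨X⸩) :=
  trans_of_val vK vK_const (α := 0) (by simpa using vK_X_lt) (by simp)

lemma single_neg (s : ℤ) : (HahnSeries.single (-s) 1 : ℂ⸨X⸩) = (HahnSeries.single s 1)⁻¹ := by
  simp [HahnSeries.inv_single]

lemma trans_single (ε : ℤˣ) : Transcendental ℂ (HahnSeries.single (ε : ℤ) 1 : ℂ⸨X⸩) := by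
  rcases Int.units_eq_one_or ε with rfl | rfl
  · exact trans_X
  · rw [Units.val_neg, Units.val_one, single_neg]
    exact fun h => trans_X (IsAlgebraic.inv_iff.1 h)

/-- Substitution of a transcendental element. -/
noncomputable def subst {t : ℂ⸨X⸩} (ht : Transcendental ℂ t) : FF →ₐ[ℂ] ℂ⸨X⸩ :=
  RatFunc.liftAlgHom (aeval t) (nonZeroDivisors_le_comap_nonZeroDivisors_of_injective _
    (transcendental_iff_injective.1 ht))

lemma subst_zz {t : ℂ⸨X⸩} (ht : Transcendental ℂ t) : subst ht zz = t := by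
  have := RatFunc.liftAlgHom_apply_div (aeval t : ℂ[X] →ₐ[ℂ] ℂ⸨X⸩)
    (nonZeroDivisors_le_comap_nonZeroDivisors_of_injective _
      (transcendental_iff_injective.1 ht)) X 1
  simpa [subst] using this

/-- Expansion at `0` (`ε = 1`) or at infinity (`ε = -1`). -/
noncomputable def io (ε : ℤˣ) : FF →ₐ[ℂ] ℂ⸨X⸩ := subst (trans_single ε)

lemma io_zz (ε : ℤˣ) : io ε zz = HahnSeries.single (ε : ℤ) 1 := subst_zz _

lemma zz_ne : zz ≠ 0 := RatFunc.X_ne_zero

lemma lin_ne (a : ℂ) : 1 - cc a * zz ≠ 0 := by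
  intro h
  have h1 := congrArg (fun R => (io 1 R).coeff 0) h
  simp only [map_sub, map_one, map_mul, AlgHom.commutes, io_zz, algK] at h1
  simp [HahnSeries.single_mul_single] at h1

/-- `v` is the valuation at the point `z = a⁻¹`. -/
structure IsLoc (v : Valuation FF ℤᵐ⁰) (a : ℂ) : Prop where
  ne : a ≠ 0
  const : ∀ c : ℂ, c ≠ 0 → v (cc c) = 1
  lt : v (1 - cc a * zz) < 1

lemma exists_isLoc {a : ℂ} (ha : a ≠ 0) : ∃ v, IsLoc v a := by
  have h1 : (algebraMap ℂ ℂ⸨X⸩ a⁻¹ * (1 - HahnSeries.single 1 1)) - algebraMap ℂ ℂ⸨X⸩ a⁻¹ =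
      -(algebraMap ℂ ℂ⸨X⸩ a⁻¹ * HahnSeries.single 1 1) := by ring
  have ht : Transcendental ℂ (algebraMap ℂ ℂ⸨X⸩ a⁻¹ * (1 - HahnSeries.single 1 1)) := by
    refine trans_of_val vK vK_const (α := a⁻¹) ?_ ?_
    · rw [h1, Valuation.map_neg, map_mul, vK_const _ (inv_ne_zero ha), one_mul]; exact vK_X_lt
    · rw [h1]; simp [ha]
  refine ⟨vK.comap (subst ht).toRingHom, ha, fun c hc => ?_, ?_⟩
  · change vK (subst ht (cc c)) = 1
    rw [AlgHom.commutes, vK_const c hc]
  · change vK (subst ht (1 - cc a * zz)) < 1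
    rw [map_sub, map_mul, map_one, subst_zz, AlgHom.commutes, ← mul_assoc, ← map_mul,
      mul_inv_cancel₀ ha, map_one, one_mul, sub_sub_cancel]
    exact vK_X_lt

namespace IsLoc

variable {v : Valuation FF ℤᵐ⁰} {a : ℂ}

lemma pos (_ : IsLoc v a) : 0 < v (1 - cc a * zz) := by
  rw [zero_lt_iff, Valuation.ne_zero_iff]; exact lin_ne a

variable (h : IsLoc v a)
include h

lemma zz_eq : v zz = 1 := by
  have := v.map_one_sub_of_lt h.lt
  rwa [sub_sub_cancel, map_mul, h.const a h.ne, one_mul] at this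

lemma inv_lt : v (zz⁻¹ - cc a) < 1 := by
  have : zz⁻¹ - cc a = zz⁻¹ * (1 - cc a * zz) := by field_simp [zz_ne]
  rw [this, map_mul, map_inv₀, h.zz_eq, inv_one, one_mul]; exact h.lt

lemma aeval_inv {G : ℂ[X]} (hG : G.eval a ≠ 0) : v (aeval zz⁻¹ G) = 1 :=
  val_aeval v h.const h.inv_lt hG

lemma lin {c : ℂ} (hc : c ≠ a) : v (1 - cc c * zz) = 1 := by
  have h1 := h.aeval_inv (G := X - C c) (by simpa [sub_ne_zero] using hc.symm)
  have : 1 - cc c * zz = zz * aeval zz⁻¹ (X - C c) := by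
    simp only [map_sub, aeval_X, aeval_C]; field_simp [zz_ne]
  rw [this, map_mul, h1, h.zz_eq, one_mul]

end IsLoc

/-- The coefficients of the two expansions. -/
noncomputable def co (ε : ℤˣ) (R : FF) (r : ℤ) : ℂ := (io ε R).coeff (ε * r)

lemma co_add (ε : ℤˣ) (R S : FF) (r : ℤ) : co ε (R + S) r = co ε R r + co ε S r := by simp [co]

lemma co_sub (ε : ℤˣ) (R S : FF) (r : ℤ) : co ε (R - S) r = co ε R r - co ε S r := by simp [co]

lemma co_sum {κ : Type*} (t : Finset κ) (ε : ℤˣ) (R : κ → FF) (r : ℤ) :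
    co ε (∑ n ∈ t, R n) r = ∑ n ∈ t, co ε (R n) r := by simp [co, HahnSeries.coeff_sum]

lemma co_cc (ε : ℤˣ) (c : ℂ) (R : FF) (r : ℤ) : co ε (cc c * R) r = c * co ε R r := by
  rw [co, map_mul, AlgHom.commutes, algK, co]
  simp

lemma co_inv (ε : ℤˣ) (R : FF) (r : ℤ) : co ε (zz⁻¹ * R) r = co ε R (r + 1) := by
  rw [co, map_mul, map_inv₀, io_zz, ← single_neg, HahnSeries.coeff_single_mul, one_mul, co]
  congr 1; ring

lemma co_one (ε : ℤˣ) (r : ℤ) : co ε 1 r = if r = 0 then 1 else 0 := by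
  rw [co, map_one, HahnSeries.coeff_one]
  simp

lemma act_co (ε : ℤˣ) (G : ℂ[X]) (R : FF) (r : ℤ) :
    act G (co ε R) r = co ε (aeval zz⁻¹ G * R) r := by
  induction G using poly_ind generalizing r with
  | hC a => rw [act_C, aeval_C, co_cc]; rfl
  | hadd P Q h1 h2 => simp [act_add, add_mul, co_add, h1, h2]
  | hX P h => rw [act_mul, act_X, h, map_mul, aeval_X, mul_assoc, co_inv]

lemma co_inj {R S : FF} (h : ∀ r, co 1 R r = co 1 S r) : R = S := by
  apply (io 1).toRingHom.injective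
  ext r
  simpa [co] using h r

lemma co_far (ε : ℤˣ) (R : FF) : ∃ m : ℤ, ∀ r, (ε : ℤ) * r < m → co ε R r = 0 :=
  ⟨(io ε R).order, fun _ hr => HahnSeries.coeff_eq_zero_of_lt_order hr⟩

/-- A rational function with the same expansion at zero and infinity has no other pole. -/
lemma IsLoc.le_one {v : Valuation FF ℤᵐ⁰} {a : ℂ} (h : IsLoc v a) {H : FF}
    (hH : ∀ r, co 1 H r = co (-1) H r) : v H ≤ 1 := by
  obtain ⟨m, hm⟩ := co_far 1 H
  obtain ⟨m', hm'⟩ := co_far (-1) H
  have : H = ∑ r ∈ Finset.Icc m (-m'), cc (co 1 H r) * zz ^ r := by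
    apply co_inj
    intro r
    have e : ∀ s : ℤ, co 1 (zz ^ s) r = if s = r then 1 else 0 := fun s => by
      rw [co, map_zpow₀, io_zz, Units.val_one, ← RatFunc.single_zpow, one_mul,
        HahnSeries.coeff_single]
      simp [eq_comm]
    simp only [co_sum, co_cc, e, mul_ite, mul_one, mul_zero, Finset.sum_ite_eq', Finset.mem_Icc]
    split_ifs with h1
    · rfl
    · rcases lt_or_ge r m with h2 | h2
      · exact hm r (by simpa using h2)
      · rw [hH]; exact hm' r (by simp; omega)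
  rw [this]
  refine v.map_sum_le fun r _ => ?_
  rw [map_mul, map_zpow₀, h.zz_eq, one_zpow, mul_one]
  exact val_const_le v h.const _

/-- Regular and nonzero at zero and at infinity. -/
def Reg (R : FF) : Prop := ∀ ε, vK (io ε R) = 1

lemma Reg.co_eq {R : FF} (h : Reg R) (ε : ℤˣ) {r : ℤ} (hr : (ε : ℤ) * r < 0) : co ε R r = 0 :=
  vK_le_iff.1 (h ε).le _ hr

lemma reg_one : Reg 1 := fun ε => by simp

lemma Reg.mul {R S : FF} (h : Reg R) (h' : Reg S) : Reg (R * S) := fun ε => by
  rw [map_mul, map_mul, h ε, h' ε, one_mul]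

lemma Reg.pow {R : FF} (h : Reg R) (n : ℕ) : Reg (R ^ n) := fun ε => by
  rw [map_pow, map_pow, h ε, one_pow]

lemma Reg.ne {R : FF} (h : Reg R) : R ≠ 0 := by
  rintro rfl
  simpa using h 1

/-- The elementary factor `q^B (1 - q^{c-B} z) / (1 - q^{c+B} z)`. -/
noncomputable def Uf (q : ℂ) (c B : ℤ) : FF :=
  cc (q ^ B) * (1 - cc (q ^ (c - B)) * zz) / (1 - cc (q ^ (c + B)) * zz)

lemma vK_lin (ε : ℤˣ) {c : ℂ} (hc : c ≠ 0) :
    vK (io ε (1 - cc c * zz)) = max 1 (vK (io ε zz)) := by
  rw [map_sub, map_one, map_mul, AlgHom.commutes, io_zz]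
  rcases Int.units_eq_one_or ε with rfl | rfl
  · have h : vK (algebraMap ℂ ℂ⸨X⸩ c * HahnSeries.single ((1 : ℤˣ) : ℤ) 1) < 1 := by
      rw [map_mul, vK_const c hc, one_mul]; exact vK_X_lt
    rw [Valuation.map_one_sub_of_lt _ h, max_eq_left (by exact vK_X_lt.le)]
  · have h0 : 1 < vK (HahnSeries.single ((-1 : ℤˣ) : ℤ) 1) := by
      rw [vK_single, ← exp_zero, exp_lt_exp]; norm_num
    have h : vK 1 < vK (algebraMap ℂ ℂ⸨X⸩ c * HahnSeries.single ((-1 : ℤˣ) : ℤ) 1) := by
      rw [map_mul, vK_const c hc, one_mul, map_one]; exact h0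
    rw [Valuation.map_sub_eq_of_lt_right _ h, max_eq_right h0.le, map_mul, vK_const c hc, one_mul]

variable {q : ℂ} (hq : Gen q)
include hq

lemma reg_Uf (c B : ℤ) : Reg (Uf q c B) := fun ε => by
  rw [Uf, map_div₀, map_mul, map_div₀, map_mul, vK_lin ε (hq.zne _), vK_lin ε (hq.zne _),
    AlgHom.commutes, vK_const _ (hq.zne _), one_mul, div_self]
  exact (lt_of_lt_of_le zero_lt_one (le_max_left _ _)).ne'

lemma Uf_mul_neg (c B : ℤ) : Uf q c B * Uf q c (-B) = 1 := by
  have h1 := lin_ne (q ^ (c - B))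
  have h2 := lin_ne (q ^ (c + B))
  have h3 : cc (q ^ B) * cc (q ^ (-B)) = 1 := by
    rw [← map_mul, ← zpow_add₀ hq.ne]; simp
  rw [Uf, Uf, sub_neg_eq_add, ← sub_eq_add_neg, div_mul_div_comm, div_eq_one_iff_eq (mul_ne_zero h2 h1)]
  linear_combination (1 - cc (q ^ (c - B)) * zz) * (1 - cc (q ^ (c + B)) * zz) * h3

omit hq in
lemma Uf_zero (c : ℤ) : Uf q c 0 = 1 := by
  rw [Uf, zpow_zero, map_one, one_mul, sub_zero, add_zero, div_self (lin_ne _)]

lemma Uf_mul (c B : ℤ) : (zz⁻¹ - cc (q ^ B * q ^ c)) * Uf q c B =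
    cc (q ^ B) * zz⁻¹ - cc (q ^ c) := by
  have h2 := lin_ne (q ^ (c + B))
  have e1 : q ^ B * q ^ c = q ^ (c + B) := by rw [zpow_add₀ hq.ne, mul_comm]
  have e2 : cc (q ^ c) = cc (q ^ B) * cc (q ^ (c - B)) := by
    rw [← map_mul, ← zpow_add₀ hq.ne]; simp
  have e3 : zz⁻¹ * zz = 1 := inv_mul_cancel₀ zz_ne
  rw [Uf, e1, e2, ← mul_div_assoc, div_eq_iff h2]
  linear_combination (cc (q ^ B) * cc (q ^ (c + B)) - cc (q ^ B) * cc (q ^ (c - B))) * e3

lemma co_Uf (ε : ℤˣ) (R : FF) (c B r : ℤ) :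
    co ε (R * Uf q c B) (r + 1) - q ^ B * q ^ c * co ε (R * Uf q c B) r =
      q ^ B * co ε R (r + 1) - q ^ c * co ε R r := by
  rw [← co_inv, ← co_inv, ← co_cc, ← co_cc, ← co_cc, ← co_sub, ← co_sub]
  congr 1
  linear_combination R * Uf_mul hq c B

lemma IsLoc.lin_zpow {v : Valuation FF ℤᵐ⁰} {b : ℤ} (h : IsLoc v (q ^ b)) (c : ℤ) :
    v (1 - cc (q ^ c) * zz) = v (1 - cc (q ^ b) * zz) ^ (if b = c then 1 else 0 : ℤ) := by
  split_ifs with e
  · rw [e, zpow_one]
  · rw [zpow_zero]; exact h.lin fun e' => e (hq.inj e').symm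

lemma IsLoc.val_Uf {v : Valuation FF ℤᵐ⁰} {b : ℤ} (h : IsLoc v (q ^ b)) (c B : ℤ) :
    v (Uf q c B) = v (1 - cc (q ^ b) * zz) ^
      (-((if b = c + B then 1 else 0) - (if b = c - B then 1 else 0)) : ℤ) := by
  rw [Uf, map_div₀, map_mul, h.const _ (hq.zne _), one_mul, h.lin_zpow hq, h.lin_zpow hq (c + B),
    neg_sub, zpow_sub₀ h.pos.ne']

/-- The divisibility by a power of `1 + T` read off from a valuation. -/
lemma IsLoc.dvd {v : Valuation FF ℤᵐ⁰} {b d : ℤ} (h : IsLoc v (q ^ b)) (hd : d ≠ 0) {P : ℤ[X]}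
    {o : ℤ} (hP : v (1 - cc (q ^ b) * zz) ^ (-o) *
      v (aeval (Uf q b (-(2 * d))) (P.map (Int.castRingHom ℂ))) ≤ 1) :
    (1 + X) ^ o.toNat ∣ P := by
  by_cases h0 : P = 0
  · simp [h0]
  obtain ⟨Q, hQ, hdv⟩ := exists_eq_pow_rootMultiplicity_mul_and_not_dvd P h0 (-1)
  set s := P.rootMultiplicity (-1)
  have hne : 1 + q ^ (-(2 * d)) ≠ 0 := by
    intro e
    have e1 : q ^ (-(2 * d)) = -1 := by linear_combination e
    have : q ^ (-(2 * d) + -(2 * d)) = 1 := by rw [zpow_add₀ hq.ne, e1]; norm_num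
    have := hq.zpow_eq_one this
    omega
  have e1 : v (Uf q b (-(2 * d)) - cc (-1)) = v (1 - cc (q ^ b) * zz) := by
    have h2 := lin_ne (q ^ (b + -(2 * d)))
    have e2 : cc (q ^ (b + -(2 * d))) = cc (q ^ b) * cc (q ^ (-(2 * d))) := by
      rw [← map_mul, ← zpow_add₀ hq.ne]
    have e3 : cc (q ^ b) = cc (q ^ (-(2 * d))) * cc (q ^ (b - -(2 * d))) := by
      rw [← map_mul, ← zpow_add₀ hq.ne]; congr 2; ring
    have : Uf q b (-(2 * d)) - cc (-1) = cc (1 + q ^ (-(2 * d))) * (1 - cc (q ^ b) * zz) /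
        (1 - cc (q ^ (b + -(2 * d))) * zz) := by
      rw [Uf, eq_div_iff h2, sub_mul, div_mul_cancel₀ _ h2, e2, map_add, map_neg, map_one]
      linear_combination zz * e3
    rw [this, map_div₀, map_mul, h.const _ hne, one_mul,
      h.lin (c := q ^ (b + -(2 * d))) fun e => hd (by have := hq.inj e; omega), div_one]
  have e2 : v (aeval (Uf q b (-(2 * d))) (Q.map (Int.castRingHom ℂ))) = 1 := by
    refine val_aeval v h.const (α := -1) (by rw [e1]; exact h.lt) ?_
    have : (Q.map (Int.castRingHom ℂ)).eval (-1) = ((Q.eval (-1) : ℤ) : ℂ) := by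
      have := Polynomial.eval_map_apply (p := Q) (Int.castRingHom ℂ) (-1)
      simpa using this
    rw [this, Int.cast_ne_zero]
    exact fun e => hdv (dvd_iff_isRoot.2 e)
  have e3 : v (aeval (Uf q b (-(2 * d))) (P.map (Int.castRingHom ℂ))) =
      v (1 - cc (q ^ b) * zz) ^ (s : ℤ) := by
    rw [hQ, Polynomial.map_mul, Polynomial.map_pow, map_mul, map_mul, e2, mul_one, map_pow,
      map_pow, zpow_natCast, ← e1]
    simp
  rw [e3, ← zpow_add₀ h.pos.ne', zpow_le_one_iff_right_of_lt_one₀ h.pos h.lt] at hP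
  have : (1 + X : ℤ[X]) = X - C (-1) := by simp [add_comm]
  rw [this, hQ]
  exact (pow_dvd_pow _ (by omega)).mul_right _

end Pool.Agent.Lib.MP_4354a3_al
end

-- part Pool.Agent.Lib.MP_4354a3_al.QA3
section

/-!
# Highest weight modules: weights, singular vectors and annihilators of the currents
-/

set_option linter.unusedSectionVars false

namespace Pool.Agent.Lib.MP_4354a3_al

open Polynomial

lemma conv_cancel {W : Type*} [AddCommGroup W] [Module ℂ W] (ε : ℤˣ) (c : ℕ → ℂ) (k : ℕ)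
    (h0 : c 0 ≠ 0) (hk : c k ≠ 0) (δ : ℤ → W) (hδ : ∀ r, (ε : ℤ) * r < 0 → δ r = 0)
    (h : ∀ n : ℤ, ∑ s ∈ Finset.range (k + 1), c s • δ (n - s) = 0) (r : ℤ) : δ r = 0 := by
  by_contra hr
  rcases Int.units_eq_one_or ε with rfl | rfl
  · obtain ⟨n, hn, hmin⟩ := Int.exists_least_of_bdd (P := fun n => δ n ≠ 0)
      ⟨0, fun z hz => by by_contra h1; exact hz (hδ z (by simp; omega))⟩ ⟨r, hr⟩
    have := h n
    rw [Finset.sum_range_succ', Finset.sum_eq_zero fun s _ => ?_] at this
    · simp [h0, hn] at this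
    · have : δ (n - (s + 1 : ℕ)) = 0 := by
        by_contra h1
        have := hmin _ h1
        omega
      rw [this, smul_zero]
  · obtain ⟨n, hn, hmax⟩ := Int.exists_greatest_of_bdd (P := fun n => δ n ≠ 0)
      ⟨0, fun z hz => by by_contra h1; exact hz (hδ z (by simp; omega))⟩ ⟨r, hr⟩
    have := h (n + k)
    rw [Finset.sum_range_succ, Finset.sum_eq_zero fun s hs => ?_] at this
    · simp [hk, hn] at this
    · have : δ (n + k - s) = 0 := by
        by_contra h1
        have := hmax _ h1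
        have := Finset.mem_range.1 hs
        omega
      rw [this, smul_zero]

/-- The polynomial with the roots `q^c`, `c ∈ L`. -/
noncomputable def PL (q : ℂ) (L : Multiset ℤ) : ℂ[X] := (L.map fun c => X - C (q ^ c)).prod

lemma PL_dvd (q : ℂ) {L L' : Multiset ℤ} (h : L ≤ L') : PL q L ∣ PL q L' :=
  Multiset.prod_dvd_prod_of_le (Multiset.map_le_map h)

lemma PL_add (q : ℂ) (L L' : Multiset ℤ) : PL q (L + L') = PL q L * PL q L' := by simp [PL]

lemma act_skew {W : Type*} [AddCommGroup W] [Module ℂ W] {q : ℂ} (hq : Gen q) (B : ℤ)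
    (L : Multiset ℤ) (Ω : ℤ → ℤ → W) (h : ∀ r s, Ω (r + 1) s = q ^ B • Ω r (s + 1))
    (h0 : ∀ r, act (PL q L) (Ω r) = 0) (s : ℤ) :
    act (PL q (L.map (· + B))) (fun r => Ω r s) = 0 := by
  induction L using Multiset.induction_on generalizing Ω with
  | empty => funext r; simpa [PL] using congrFun (h0 r) s
  | cons c L ih =>
    have := ih (fun r => act (X - C (q ^ c)) (Ω r)) (fun r s => by
      simp only [act_lin, h, smul_sub, smul_comm (q ^ B)]) (fun r => by
        rw [← act_mul, mul_comm, ← h0 r]; simp [PL])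
    have e : act (X - C (q ^ (c + B))) (fun r => Ω r s) =
        q ^ B • fun r => act (X - C (q ^ c)) (Ω r) s := by
      funext r
      simp only [act_lin, h, Pi.smul_apply, smul_sub, smul_smul, zpow_add₀ hq.ne, mul_comm]
    rw [Multiset.map_cons, show PL q ((c + B) ::ₘ L.map (· + B)) =
      PL q (L.map (· + B)) * (X - C (q ^ (c + B))) by simp [PL, mul_comm], act_mul, e, act_smul',
      this, smul_zero]

lemma co_zpow (ε : ℤˣ) (R : FF) (s : ℕ) (n : ℤ) : co ε (zz ^ s * R) n = co ε R (n - s) := by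
  induction s generalizing n with
  | zero => simp
  | succ s ih =>
    have := co_inv ε (zz ^ (s + 1) * R) (n - 1)
    rw [sub_add_cancel, pow_succ', mul_assoc, inv_mul_cancel_left₀ zz_ne, ih] at this
    rw [pow_succ', mul_assoc, ← this]; congr 1; push_cast; ring

namespace SimpleDatum

variable {ι M N : Type*} [Fintype ι] [DecidableEq ι] [AddCommGroup M] [AddCommGroup N]
  {D : SimpleDatum ι M N} {V : Type*} [AddCommGroup V] [Module ℂ V] {q : ℂ}
  {x φ : ℤˣ → D.b.support → ℤ → Module.End ℂ V}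

lemma mem_wt {μ : M} {u : V} :
    u ∈ D.wtSpace q φ μ ↔ ∀ i, φ 1 i 0 u = q ^ (D.di i * D.cv i μ) • u := by
  simp only [wtSpace, Submodule.mem_iInf, Module.End.mem_eigenspace_iff, zpow_mul, zpow_natCast,
    cv_def]

lemma PreRel.φx (h : D.PreRel q x φ) (ε σ : ℤˣ) (i j) (r s : ℤ) (u : V) :
    φ ε i (r + 1) (x σ j s u) - q ^ (σ * D.Bm i j) • φ ε i r (x σ j (s + 1) u) =
      q ^ (σ * D.Bm i j) • x σ j s (φ ε i (r + 1) u) - x σ j (s + 1) (φ ε i r u) :=
  congrArg (· u) (h.φ_x ε σ i j r s)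

lemma PreRel.kx (h : D.PreRel q x φ) (σ : ℤˣ) (i j) (s : ℤ) (u : V) :
    φ 1 i 0 (x σ j s u) = q ^ (σ * D.Bm i j) • x σ j s (φ 1 i 0 u) := by
  simpa [h.φ_zero 1 i (-1) (by simp)] using h.φx 1 σ i j (-1) s u

lemma PreRel.x_wt (hq : Gen q) (h : D.PreRel q x φ) {μ : M} {u : V} (hu : u ∈ D.wtSpace q φ μ)
    (σ : ℤˣ) (j : D.b.support) (s : ℤ) : x σ j s u ∈ D.wtSpace q φ (μ + (σ : ℤ) • D.r j) := by
  rw [mem_wt] at hu ⊢
  intro i
  rw [h.kx, hu, map_smul, smul_smul, ← zpow_add₀ hq.ne, map_add, map_zsmul, Bm_eq]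
  congr 2; simp only [smul_eq_mul]; ring

lemma PreRel.φ_wt (h : D.PreRel q x φ) {μ : M} {u : V} (hu : u ∈ D.wtSpace q φ μ) (ε i r) :
    φ ε i r u ∈ D.wtSpace q φ μ := by
  rw [mem_wt] at hu ⊢
  intro j
  rw [← Module.End.mul_apply, h.φ_φ, Module.End.mul_apply, hu, map_smul]

lemma PreRel.indep_wt (hq : Gen q) (h : D.PreRel q x φ) : iSupIndep (D.wtSpace q φ) := by
  have := Module.End.independent_iInf_maxGenEigenspace_of_forall_mapsTo (fun i => φ 1 i 0)
    fun i j c => Module.End.mapsTo_maxGenEigenspace_of_comm (h.φ_φ 1 1 j i 0 0) c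
  refine (this.comp (f := fun (μ : M) (i : D.b.support) => (q ^ D.di i) ^ D.P.coroot' i μ)
    fun μ ν e => D.ext_simple fun j => ?_).mono fun μ => iInf_mono fun i =>
      Module.End.eigenspace_le_maxGenEigenspace
  have := congrFun e j
  simp only [← zpow_natCast, ← zpow_mul] at this
  exact mul_left_cancel₀ (D.di_pos' j).ne' (hq.inj this)

/-- The difference of the two Cartan currents. -/
def Ph (φ : ℤˣ → D.b.support → ℤ → Module.End ℂ V) (j : D.b.support) (r : ℤ) : Module.End ℂ V :=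
  φ 1 j r - φ (-1) j r

lemma PreRel.xy (h : D.PreRel q x φ) (i j) (r s : ℤ) (u : V) :
    x 1 i r (x (-1) j s u) = x (-1) j s (x 1 i r u) +
      (if i = j then (q ^ D.di i - (q ^ D.di i)⁻¹)⁻¹ else 0) • Ph φ j (s + r) u := by
  have := congrArg (· u) (h.x_y i j r s)
  simp only [LinearMap.sub_apply, Module.End.mul_apply] at this
  rw [← sub_eq_iff_eq_add', this, add_comm s r]
  split_ifs with e
  · subst e; rfl
  · simp

/-- Stable under the Cartan currents. -/
def Stab (φ : ℤˣ → D.b.support → ℤ → Module.End ℂ V) (S : Submodule ℂ V) : Prop :=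
  ∀ ε i r, ∀ u ∈ S, φ ε i r u ∈ S

lemma Stab.ph {S : Submodule ℂ V} (h : Stab φ S) (j r) {u : V} (hu : u ∈ S) : Ph φ j r u ∈ S :=
  S.sub_mem (h _ _ _ u hu) (h _ _ _ u hu)

/-- The span of the words of length `n` in the lowering operators applied to `S`. -/
noncomputable def lower (x : ℤˣ → D.b.support → ℤ → Module.End ℂ V) (S : Submodule ℂ V) :
    ℕ → Submodule ℂ V
  | 0 => S
  | n + 1 => ⨆ j, ⨆ r, (lower x S n).map (x (-1) j r)

lemma lower_le {S W : Submodule ℂ V} {n : ℕ} (h : ∀ j r, ∀ u ∈ lower x S n, x (-1) j r u ∈ W) :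
    lower x S (n + 1) ≤ W :=
  iSup_le fun j => iSup_le fun r => Submodule.map_le_iff_le_comap.2 (h j r)

lemma mem_lower {S : Submodule ℂ V} {n : ℕ} (j r) {u : V} (hu : u ∈ lower x S n) :
    x (-1) j r u ∈ lower x S (n + 1) :=
  Submodule.mem_iSup_of_mem j (Submodule.mem_iSup_of_mem r (Submodule.mem_map_of_mem hu))

lemma PreRel.lower_stab (hq : Gen q) (h : D.PreRel q x φ) {S : Submodule ℂ V} (hS : Stab φ S)
    (n : ℕ) : Stab φ (lower x S n) := by
  induction n with
  | zero => exact hS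
  | succ n ih =>
    intro ε i r
    refine lower_le (W := (lower x S (n + 1)).comap (φ ε i r)) fun j s u hu => ?_
    refine van (lower x S (n + 1)) ε (hq.zne ((-1 : ℤˣ) * D.Bm i j))
      (fun r s => φ ε i r (x (-1) j s u))
      (fun r s hr => by simp [h.φ_zero ε i r hr]) (fun r s => ?_) r s
    rw [h.φx]
    exact sub_mem (Submodule.smul_mem _ _ (mem_lower _ _ (ih _ _ _ u hu)))
      (mem_lower _ _ (ih _ _ _ u hu))

lemma PreRel.lower_up (hq : Gen q) (h : D.PreRel q x φ) {S : Submodule ℂ V} (hS : Stab φ S)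
    (h0 : ∀ i r, ∀ u ∈ S, x 1 i r u = 0) (n : ℕ) (i r) :
    ∀ u ∈ lower x S (n + 1), x 1 i r u ∈ lower x S n := by
  induction n with
  | zero =>
    refine lower_le (W := S.comap (x 1 i r)) fun j s u hu => ?_
    rw [Submodule.mem_comap, h.xy, h0 i r u hu, map_zero, zero_add]
    exact S.smul_mem _ (hS.ph _ _ hu)
  | succ n ih =>
    refine lower_le (W := (lower x S (n + 1)).comap (x 1 i r)) fun j s u hu => ?_
    rw [Submodule.mem_comap, h.xy]
    exact add_mem (mem_lower _ _ (ih u hu))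
      (Submodule.smul_mem _ _ ((h.lower_stab hq hS _).ph _ _ hu))

variable (D) in
/-- The highest `ℓ`-weight of a Kirillov-Reshetikhin module. -/
noncomputable def R0 (q : ℂ) (a : D.b.support) (k : ℕ) (c : ℤ) (i : D.b.support) : FF :=
  Uf q (c - k * D.di a) (if i = a then k * D.di a else 0)

variable (D q x φ) in
/-- The data used from a Kirillov-Reshetikhin module. -/
structure HW (a : D.b.support) (k : ℕ) (c : ℤ) (v : V) : Prop where
  gen : Gen q
  rel : D.PreRel q x φ
  fin : Module.Finite ℂ V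
  simple : ∀ W : Submodule ℂ V, (∀ σ i r, ∀ w ∈ W, x σ i r w ∈ W) →
    (∀ ε i r, ∀ w ∈ W, φ ε i r w ∈ W) → W = ⊥ ∨ W = ⊤
  ne : v ≠ 0
  sing : ∀ i r, x 1 i r v = 0
  eig : ∀ ε i r, φ ε i r v = co ε (D.R0 q a k c i) r • v

lemma aeval_krPoly (hq : Gen q) (a : D.b.support) (k : ℕ) (p : ℤ) (i : D.b.support) :
    (D.krPoly q a k p i).coeff 0 = 1 ∧
      aeval (cc (q ^ D.di i) * zz) (D.krPoly q a k p i) * D.R0 q a k (p + (2 * k - 1) * D.di a) i =
      cc ((q ^ D.di i) ^ (D.krPoly q a k p i).natDegree) *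
        aeval (cc (q ^ D.di i)⁻¹ * zz) (D.krPoly q a k p i) := by
  rw [krPoly, R0]
  split_ifs with h
  · subst h
    refine ⟨by simp [coeff_zero_eq_eval_zero, eval_prod], ?_⟩
    have hd : (∏ s ∈ Finset.range k, (1 - C (q ^ (p + 2 * s * D.di i)) * X)).natDegree = k := by
      have : ∀ b : ℂ, b ≠ 0 → (1 - C b * X).natDegree = 1 := fun b hb => by
        rw [show 1 - C b * X = C (-b) * X + C 1 by simp; ring]
        exact natDegree_linear (neg_ne_zero.2 hb)
      rw [natDegree_prod _ _ fun s _ h0 => by simpa [h0] using this _ (hq.zne (p + 2 * s * D.di i))]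
      simp [this _ (hq.zne _)]
    set g : ℕ → FF := fun s => 1 - cc (q ^ (p + (2 * s - 1) * D.di i)) * zz with hg
    have e1 : ∀ s : ℕ, aeval (cc (q ^ D.di i) * zz) (1 - C (q ^ (p + 2 * s * D.di i)) * X) =
        g (s + 1) := fun s => by
      rw [map_sub, map_one, map_mul, aeval_C, aeval_X, ← mul_assoc, ← map_mul, ← zpow_natCast,
        ← zpow_add₀ hq.ne, hg]
      simp only; congr 4; push_cast; ring
    have e2 : ∀ s : ℕ, aeval (cc (q ^ D.di i)⁻¹ * zz) (1 - C (q ^ (p + 2 * s * D.di i)) * X) =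
        g s := fun s => by
      rw [map_sub, map_one, map_mul, aeval_C, aeval_X, ← mul_assoc, ← map_mul, ← zpow_natCast,
        ← zpow_neg, ← zpow_add₀ hq.ne, hg]
      simp only; congr 4; ring
    have e3 : Uf q (p + (2 * k - 1) * D.di i - k * D.di i) (k * D.di i) =
        cc ((q ^ D.di i) ^ k) * g 0 / g k := by
      rw [Uf, hg, ← pow_mul, ← zpow_natCast]
      simp only; congr 5 <;> push_cast <;> ring
    rw [hd, map_prod, map_prod, e3]
    simp only [e1, e2]
    rw [← mul_div_assoc, div_eq_iff (lin_ne _), mul_assoc, ← Finset.prod_range_succ,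
      Finset.prod_range_succ']
    ring
  · simp [Uf_zero]

lemma IsKR.hw (hq : Gen q) {a : D.b.support} {k : ℕ} {p : ℤ} (h : D.IsKR q x φ a k p) :
    ∃ v, D.HW q x φ a k (p + (2 * k - 1) * D.di a) v := by
  obtain ⟨v, hv, h1, h2⟩ := h.highest
  refine ⟨v, hq, h.rel, h.fin, h.simple, hv, h1, fun ε i r => ?_⟩
  obtain ⟨h3, h4⟩ := aeval_krPoly hq a k p i
  set P := D.krPoly q a k p i
  set R := D.R0 q a k (p + (2 * k - 1) * D.di a) i with hR
  have hQ : q ^ D.di i ≠ 0 := pow_ne_zero _ hq.ne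
  have hP : P ≠ 0 := fun h => by simp [h] at h3
  rw [← sub_eq_zero]
  refine conv_cancel ε (fun s => P.coeff s * (q ^ D.di i) ^ s) P.natDegree (by simp [h3])
    (mul_ne_zero (leadingCoeff_ne_zero.2 hP) (pow_ne_zero _ hQ))
    (fun r => φ ε i r v - co ε R r • v) (fun r hr => ?_) (fun n => ?_) r
  · rw [h.rel.φ_zero ε i r hr, hR, R0, (reg_Uf hq _ _).co_eq ε hr]; simp
  · have h5 := congrArg (fun R => co ε R n) h4
    simp only [aeval_eq_sum_range, Finset.sum_mul, Finset.mul_sum, co_sum, mul_pow, ← map_pow,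
      Algebra.smul_def, mul_assoc, co_cc, co_zpow] at h5
    simp only [smul_sub, Finset.sum_sub_distrib]
    rw [h2 i ε n, sub_eq_zero]
    simp only [smul_smul, mul_assoc]
    rw [← Finset.sum_smul, h5, Finset.sum_smul]
    refine Finset.sum_congr rfl fun s _ => ?_
    rw [← mul_one (zz ^ s), co_zpow, co_one]
    simp only [sub_eq_zero]
    split_ifs
    · rw [zpow_sub₀ hQ, zpow_natCast, zpow_natCast, inv_pow]; congr 1; ring
    · simp

namespace HW

variable {a : D.b.support} {k : ℕ} {c : ℤ} {v : V} (h : D.HW q x φ a k c v)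
include h

lemma top {S : Submodule ℂ V} (hS : Stab φ S) (h0 : ∀ i r, ∀ u ∈ S, x 1 i r u = 0) (hne : S ≠ ⊥) :
    ⨆ n, lower x S n = ⊤ := by
  refine (h.simple _ (fun σ i r => ?_) fun ε i r => ?_).resolve_left
    fun e => hne (le_bot_iff.1 (e ▸ le_iSup (lower x S) 0))
  · refine (iSup_le fun n u hu => ?_ : _ ≤ (⨆ n, lower x S n).comap (x σ i r))
    rcases Int.units_eq_one_or σ with rfl | rfl
    · cases n with
      | zero => rw [Submodule.mem_comap, h0 i r u hu]; exact zero_mem _
      | succ n => exact Submodule.mem_iSup_of_mem n (h.rel.lower_up h.gen hS h0 n i r u hu)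
    · exact Submodule.mem_iSup_of_mem (n + 1) (mem_lower _ _ hu)
  · exact (iSup_le fun n u hu => Submodule.mem_iSup_of_mem n (h.rel.lower_stab h.gen hS n ε i r u hu) :
      _ ≤ (⨆ n, lower x S n).comap (φ ε i r))

lemma stab0 : Stab φ (ℂ ∙ v) := fun ε i r u hu => by
  obtain ⟨t, rfl⟩ := Submodule.mem_span_singleton.1 hu
  rw [map_smul, h.eig]
  exact Submodule.smul_mem _ _ (Submodule.smul_mem _ _ (Submodule.mem_span_singleton_self v))

lemma sing0 (i r) : ∀ u ∈ ℂ ∙ v, x 1 i r u = 0 := fun u hu => by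
  obtain ⟨t, rfl⟩ := Submodule.mem_span_singleton.1 hu
  rw [map_smul, h.sing, smul_zero]

lemma stab (n : ℕ) : Stab φ (lower x (ℂ ∙ v) n) := h.rel.lower_stab h.gen h.stab0 n

lemma top0 : ⨆ n, lower x (ℂ ∙ v) n = ⊤ := h.top h.stab0 h.sing0 (by simpa using h.ne)

lemma v_wt : v ∈ D.wtSpace q φ (k • D.ω a) := by
  rw [mem_wt]
  intro i
  have := co_Uf h.gen 1 1 (c - k * D.di a) (if i = a then k * D.di a else 0) (-1)
  rw [one_mul, (reg_Uf h.gen _ _).co_eq 1 (r := -1) (by simp), co_one, co_one] at this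
  rw [if_neg (show (-1 : ℤ) ≠ 0 by simp)] at this
  simp only [neg_add_cancel, mul_zero, sub_zero, if_true, mul_one] at this
  rw [h.eig, R0, this, map_nsmul, cv_ω]
  split_ifs with e
  · subst e; simp [mul_comm]
  · simp

lemma singular {n : ℕ} {w : V} (hw : w ∈ lower x (ℂ ∙ v) (n + 1)) (h0 : ∀ i r, x 1 i r w = 0) :
    w = 0 := by
  set W := ⨆ μ ∈ {μ | k • D.ω a - μ ∈ D.Qp ∧ μ ≠ k • D.ω a}, D.wtSpace q φ μ with hW
  have hA : ∀ μ, k • D.ω a - μ ∈ D.Qp → ∀ j s, ∀ u ∈ D.wtSpace q φ μ, x (-1) j s u ∈ W := by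
    intro μ hμ j s u hu
    have e : k • D.ω a - (μ + ((-1 : ℤˣ) : ℤ) • D.r j) = k • D.ω a - μ + D.r j := by simp; abel
    refine Submodule.mem_iSup_of_mem _ (Submodule.mem_iSup_of_mem
      ⟨e ▸ add_mem hμ (D.r_mem j), fun e' => D.r_ne_zero j (D.Qp_antisymm (D.r_mem j) ?_)⟩
      (h.rel.x_wt h.gen hu (-1) j s))
    rw [e', sub_self] at e
    rwa [neg_eq_of_add_eq_zero_left e.symm]
  have hB : ∀ j s, ∀ u ∈ W, x (-1) j s u ∈ W := fun j s =>
    (iSup₂_le fun μ hμ => hA μ hμ.1 j s : W ≤ W.comap (x (-1) j s))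
  have hC : ∀ S ≤ W, ∀ m, lower x S m ≤ W := fun S hS m => by
    induction m with
    | zero => exact hS
    | succ m ih => exact lower_le fun j s u hu => hB j s u (ih hu)
  have hD : ∀ m, lower x (ℂ ∙ v) (m + 1) ≤ W := fun m => by
    induction m with
    | zero =>
      exact lower_le fun j s u hu => hA _ (by simp) j s u
        ((Submodule.span_singleton_le_iff_mem _ _).2 h.v_wt hu)
    | succ m ih => exact lower_le fun j s u hu => hB j s u (ih hu)
  set S := lower x (ℂ ∙ v) (n + 1) ⊓ ⨅ i, ⨅ r, LinearMap.ker (x 1 i r) with hS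
  have hm : ∀ u, u ∈ S ↔ u ∈ lower x (ℂ ∙ v) (n + 1) ∧ ∀ i r, x 1 i r u = 0 := by simp [hS]
  have h1 : Stab φ S := fun ε i r u hu => by
    rw [hm] at hu ⊢
    refine ⟨h.stab _ _ _ _ u hu.1, fun j s => ?_⟩
    refine van ⊥ ε (inv_ne_zero (h.gen.zne ((1 : ℤˣ) * D.Bm i j)))
      (fun r s => x 1 j s (φ ε i r u)) (fun r s hr => by simp [h.rel.φ_zero ε i r hr])
      (fun r s => ?_) r s
    have := h.rel.φx ε 1 i j r s u
    rw [hu.2, hu.2, map_zero, map_zero, smul_zero, sub_zero, eq_comm, sub_eq_zero] at this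
    rw [Submodule.mem_bot, ← this, smul_smul, inv_mul_cancel₀ (h.gen.zne _), one_smul, sub_self]
  by_contra hne
  have h2 := h.top h1 (fun i r u hu => ((hm u).1 hu).2 i r) fun e => hne (by
    have := (hm w).2 ⟨hw, h0⟩
    rwa [e, Submodule.mem_bot] at this)
  have h3 : v ∈ W := (iSup_le (hC S (inf_le_left.trans (hD n)))) (h2 ▸ Submodule.mem_top)
  exact h.ne ((Submodule.disjoint_def.1 (h.rel.indep_wt h.gen (k • D.ω a))) v h.v_wt
    ((iSup₂_le fun μ hμ => le_iSup₂_of_le μ hμ.2 le_rfl : W ≤ _) h3))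

lemma ann_y {n : ℕ} {P : ℂ[X]} {j : D.b.support} {u : V} (hu : u ∈ lower x (ℂ ∙ v) n)
    (h1 : act P (fun r => Ph φ j r u) = 0)
    (h2 : ∀ i s, act P (fun r => x (-1) j r (x 1 i s u)) = 0) :
    act P (fun r => x (-1) j r u) = 0 := by
  funext r
  refine h.singular (n := n) (act_mem _ P (fun r => mem_lower j r hu) r) fun i s => ?_
  rw [act_map]
  simp only [h.rel.xy]
  have := act_add' P (fun r => x (-1) j r (x 1 i s u))
    ((if i = j then (q ^ D.di i - (q ^ D.di i)⁻¹)⁻¹ else 0) • fun r => Ph φ j (r + s) u)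
  rw [act_smul', h2, zero_add] at this
  refine (congrFun this r).trans ?_
  rw [Pi.smul_apply, act_shift P (fun r => Ph φ j r u), h1]; simp

theorem ann (n : ℕ) : ∃ L : D.b.support → Multiset ℤ,
    (∀ j, ∀ u ∈ lower x (ℂ ∙ v) n, act (PL q (L j)) (fun r => x (-1) j r u) = 0 ∧
      act (PL q (L j)) (fun r => Ph φ j r u) = 0) ∧
    (∀ j, ∀ b ∈ L j, c - D.Cb * n ≤ b) ∧ (n = 0 → ∀ j, ∀ b ∈ L j, (j, b) = (a, c)) := by
  induction n with
  | zero =>
    refine ⟨fun j => if j = a then {c} else 0, fun j u hu => ?_, fun j b hb => ?_,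
      fun _ j b hb => ?_⟩
    · have : act (PL q (if j = a then {c} else 0)) (fun r => Ph φ j r u) = 0 := by
        obtain ⟨t, rfl⟩ := Submodule.mem_span_singleton.1 hu
        funext r
        simp only [Ph, map_smul, LinearMap.sub_apply, h.eig, R0]
        split_ifs
        · have h1 := co_Uf h.gen 1 1 (c - k * D.di a) (k * D.di a) r
          have h2 := co_Uf h.gen (-1) 1 (c - k * D.di a) (k * D.di a) r
          rw [one_mul, ← zpow_add₀ h.gen.ne, add_sub_cancel, co_one, co_one] at h1 h2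
          simp only [PL, Multiset.map_singleton, Multiset.prod_singleton, act_lin, ← sub_smul,
            smul_smul, Pi.zero_apply]
          rw [show ∀ a b c d e : ℂ, t * (a - b) - e * (t * (c - d)) =
            t * ((a - e * c) - (b - e * d)) by intros; ring, h1, h2, sub_self, mul_zero, zero_smul]
        · simp [PL, Uf_zero, co_one]
      exact ⟨h.ann_y hu this fun i s => by simp [h.sing0 i s u hu, ← Pi.zero_def], this⟩
    · by_cases e : j = a <;> simp [e] at hb ⊢; omega
    · by_cases e : j = a <;> simp [e] at hb; rw [e, hb]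
  | succ n ih =>
    obtain ⟨L, h1, h2, -⟩ := ih
    refine ⟨fun j => L j + ∑ l, (L l).map (· + (-1 : ℤˣ) * D.Bm j l), fun j => ?_,
      fun j b hb => ?_, fun h => absurd h (by omega)⟩
    · have key : ∀ u ∈ lower x (ℂ ∙ v) (n + 1), act (PL q (L j + ∑ l, (L l).map
          (· + (-1 : ℤˣ) * D.Bm j l))) (fun r => Ph φ j r u) = 0 := by
        intro u hu
        funext r
        rw [← act_apply]
        refine (lower_le fun l s u hu => ?_ : _ ≤ LinearMap.ker _) hu
        have := act_skew h.gen ((-1 : ℤˣ) * D.Bm j l) (L l)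
          (fun r s => act (PL q (L j)) (Ph φ j) r (x (-1) l s u)) (fun r s => ?_) (fun r => ?_) s
        · have h3 := act_of_dvd (PL_dvd q (Finset.single_le_sum
            (f := fun l => (L l).map (· + (-1 : ℤˣ) * D.Bm j l)) (fun _ _ => Multiset.zero_le _)
            (Finset.mem_univ l))) this
          rw [LinearMap.mem_ker, PL_add, mul_comm, act_mul, act_apply, h3]; rfl
        · have e : (fun r => Ph φ j (r + 1) (x (-1) l s u)) =
              q ^ ((-1 : ℤˣ) * D.Bm j l) • (fun r => Ph φ j r (x (-1) l (s + 1) u)) +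
              (q ^ ((-1 : ℤˣ) * D.Bm j l) • (fun r => x (-1) l s (Ph φ j (r + 1) u)) -
                fun r => x (-1) l (s + 1) (Ph φ j r u)) := by
            funext r
            have h3 := h.rel.φx 1 (-1) j l r s u
            have h4 := h.rel.φx (-1) (-1) j l r s u
            simp only [Ph, Pi.add_apply, Pi.smul_apply, Pi.sub_apply, LinearMap.sub_apply, map_sub,
              smul_sub]
            linear_combination (norm := abel) h3 - h4
          simp only [act_apply]
          rw [← act_shift, e, act_add', act_sub', act_smul', act_smul']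
          simp only [Pi.add_apply, Pi.smul_apply, Pi.sub_apply]
          rw [← act_map, ← act_map, act_shift _ (fun r => Ph φ j r u), (h1 j u hu).2]; simp
        · funext s
          rw [← act_map, (h1 l u hu).1]; simp
      intro u hu
      exact ⟨h.ann_y hu (key u hu) fun i s => act_of_dvd (PL_dvd q (Multiset.le_add_right _ _))
        (h1 j _ (h.rel.lower_up h.gen h.stab0 h.sing0 n i s u hu)).1, key u hu⟩
    · have h3 : 0 ≤ D.Cb := (abs_nonneg _).trans (D.le_Cb a a)
      rcases Multiset.mem_add.1 hb with hb | hb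
      · have := h2 j b hb
        push_cast; nlinarith
      · obtain ⟨l, -, hb⟩ := Multiset.mem_sum.1 hb
        obtain ⟨b, hb', rfl⟩ := Multiset.mem_map.1 hb
        have := h2 l b hb'
        have := le_of_abs_le (D.le_Cb j l)
        simp only [Units.val_neg, Units.val_one]
        push_cast; nlinarith

end HW

end SimpleDatum

end Pool.Agent.Lib.MP_4354a3_al
end
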