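import Pool.Agent.Lib.MP_4354a3_al.Aff

/-!
# The finite Weyl group, alternants, classes
-/

set_option linter.unusedSectionVars false

namespace Pool.Agent.Lib.MP_4354a3_al

open Set Function

lemma Supp.ev {E E' : Type*} [AddCommGroup E] [AddCommGroup E'] {J : E → GA E'} {p : E' → Prop}
    {f : GA E} (h : Supp f fun x => Supp (J x) p) : Supp (ev J f) p := by
  rw [ev_apply]
  exact Supp.sum _ fun x hx => (h x (Finsupp.mem_support_iff.1 hx)).zsmul _

lemma ev_zsmul_fun {E V : Type*} [AddCommGroup E] [AddCommGroup V] (J : E → V) (n : ℤ)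
    (u : GA E) : ev (fun x => n • J x) u = n • ev J u :=
  (map_ev J (zsmulAddGroupHom n) u).symm

lemma ev_ex_mul {E V : Type*} [AddCommGroup E] [AddCommGroup V] (J : E → V) (y : E)
    (u : GA E) : ev J (ex y * u) = ev (fun x => J (y + x)) u := by
  rw [mul_comm, ev_mul]
  congr 2
  ext x
  rw [← ex_add, ev_ex, add_comm]

namespace SimpleDatum

variable {ι M N : Type*} [Fintype ι] [DecidableEq ι] [AddCommGroup M] [AddCommGroup N]
  (D : SimpleDatum ι M N)

lemma sr_mem (α : ι) : D.sr α ∈ D.weyl := Subgroup.subset_closure ⟨α, rfl⟩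

lemma weyl_induction {p : (M ≃ₗ[ℤ] M) → Prop} (h1 : p 1)
    (hs : ∀ α v, v ∈ D.weyl → p v → p (D.sr α * v)) {v : M ≃ₗ[ℤ] M} (hv : v ∈ D.weyl) : p v := by
  induction hv using Subgroup.closure_induction_left with
  | one => exact h1
  | mul_left x hx y hy ih => obtain ⟨α, rfl⟩ := hx; exact hs α y hy ih
  | inv_mul_cancel x hx y hy ih =>
    obtain ⟨α, rfl⟩ := hx
    rw [RootPairing.reflection_inv]
    exact hs α y hy ih

lemma weyl_cv {v : M ≃ₗ[ℤ] M} (hv : v ∈ D.weyl) :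
    ∀ α, ∃ α', ∀ x, D.cv α (v x) = D.cv α' x := by
  refine D.weyl_induction (p := fun v => ∀ α, ∃ α', ∀ x, D.cv α (v x) = D.cv α' x)
    (fun α => ⟨α, fun _ => rfl⟩) (fun β v _ ih α => ?_) hv
  obtain ⟨α', h⟩ := ih (D.pm β α)
  exact ⟨α', fun x => by rw [← h, cv_pm]; rfl⟩

lemma weyl_r {v : M ≃ₗ[ℤ] M} (hv : v ∈ D.weyl) : ∀ α, ∃ α', v (D.r α) = D.r α' := by
  refine D.weyl_induction (p := fun v => ∀ α, ∃ α', v (D.r α) = D.r α')
    (fun α => ⟨α, rfl⟩) (fun β v _ ih α => ?_) hv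
  obtain ⟨α', h⟩ := ih α
  exact ⟨D.pm β α', by rw [r_pm, ← h]; rfl⟩

instance finite_weyl : Finite D.weyl := by
  refine Finite.of_injective (fun v : D.weyl => fun α => (D.weyl_cv v.2 α).choose) ?_
  intro v w h
  ext x
  rw [← sub_eq_zero]
  refine D.sep fun α => ?_
  have h' : (D.weyl_cv v.2 α).choose = (D.weyl_cv w.2 α).choose := congrFun h α
  rw [map_sub, (D.weyl_cv v.2 α).choose_spec, (D.weyl_cv w.2 α).choose_spec, h', sub_self]

noncomputable instance fintype_weyl : Fintype D.weyl := Fintype.ofFinite _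

/-- The sign of a linear automorphism. -/
noncomputable def sgn (v : M ≃ₗ[ℤ] M) : ℤ := ((LinearEquiv.det v : ℤˣ) : ℤ)

lemma sgn_mul (v w : M ≃ₗ[ℤ] M) : sgn (v * w) = sgn v * sgn w := by simp [sgn]

@[simp] lemma sgn_one : sgn (1 : M ≃ₗ[ℤ] M) = 1 := by simp [sgn]

@[simp] lemma sgn_sr (α : ι) : sgn (D.sr α) = -1 := D.det_sr α

lemma sgn_sq (v : M ≃ₗ[ℤ] M) : sgn v * sgn v = 1 := by
  rw [sgn, ← Units.val_mul, Int.units_mul_self]; rfl

lemma alt_eq (x : M) : D.alt x = ∑ v : D.weyl, sgn v.1 • ex (v.1 x) := by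
  rw [alt, finsum_eq_sum_of_fintype]
  simp only [single_eq, sgn]

lemma alt_sr (α : ι) (x : M) : D.alt (D.sr α x) = - D.alt x := by
  rw [alt_eq, alt_eq, ← Finset.sum_neg_distrib]
  refine Fintype.sum_equiv (Equiv.mulRight ⟨D.sr α, D.sr_mem α⟩) _ _ fun v => ?_
  simp [sgn_mul]

/-- Alternating functions on the weight lattice. -/
def AltM {V : Type*} [AddCommGroup V] (J : M → V) : Prop := ∀ α x, J (D.sr α x) = - J x

/-- Weyl group invariant elements. -/
def WInv (f : GA M) : Prop := ∀ α, mp (D.sr α).toAddEquiv.toAddMonoidHom f = f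

variable {D}

lemma AltM.weyl {V : Type*} [AddCommGroup V] {J : M → V} (hJ : D.AltM J) {v : M ≃ₗ[ℤ] M}
    (hv : v ∈ D.weyl) (x : M) : J (v x) = sgn v • J x := by
  refine D.weyl_induction (p := fun v => J (v x) = sgn v • J x) (by simp) (fun β v _ ih => ?_) hv
  rw [sgn_mul, sgn_sr, LinearEquiv.mul_apply, hJ, ih]; simp

lemma AltM.ev_alt {V : Type*} [AddCommGroup V] {J : M → V} (hJ : D.AltM J) (x : M) :
    ev J (D.alt x) = (Fintype.card D.weyl : ℤ) • J x := by
  rw [alt_eq, map_sum]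
  have : ∀ v : D.weyl, ev J (sgn v.1 • ex (v.1 x)) = J x := fun v => by
    rw [map_zsmul, ev_ex, hJ.weyl v.2, smul_smul, sgn_sq, one_smul]
  simp only [this, Finset.sum_const, Finset.card_univ, natCast_zsmul]

lemma WInv.weyl {f : GA M} (hf : D.WInv f) {v : M ≃ₗ[ℤ] M} (hv : v ∈ D.weyl) :
    mp v.toAddEquiv.toAddMonoidHom f = f := by
  refine D.weyl_induction (p := fun v => mp v.toAddEquiv.toAddMonoidHom f = f)
    (mp_eq_self (fun _ => rfl) f) (fun β v _ ih => ?_) hv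
  rw [← hf β]
  nth_rewrite 2 [← ih]
  rw [hf β, mp_mp]
  rfl

lemma WInv.mul {f g : GA M} (hf : D.WInv f) (hg : D.WInv g) : D.WInv (f * g) :=
  fun α => by rw [map_mul, hf, hg]

lemma WInv.add {f g : GA M} (hf : D.WInv f) (hg : D.WInv g) : D.WInv (f + g) :=
  fun α => by rw [map_add, hf, hg]

lemma WInv.sub {f g : GA M} (hf : D.WInv f) (hg : D.WInv g) : D.WInv (f - g) :=
  fun α => by rw [map_sub, hf, hg]

lemma WInv.pow {f : GA M} (hf : D.WInv f) (n : ℕ) : D.WInv (f ^ n) :=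
  fun α => by rw [map_pow, hf]

lemma winv_one : D.WInv 1 := fun _ => map_one _

lemma WInv.prod {κ : Type*} (s : Finset κ) {f : κ → GA M} (h : ∀ i ∈ s, D.WInv (f i)) :
    D.WInv (∏ i ∈ s, f i) :=
  Finset.prod_induction f D.WInv (fun _ _ => WInv.mul) winv_one h

lemma winv_of_simple {f : GA M}
    (h : ∀ j : D.b.support, mp (D.sr j).toAddEquiv.toAddMonoidHom f = f) : D.WInv f := by
  refine D.root_induction (fun α hα => ?_) h fun α j hα => ?_
  · exact (mp_congr (D.sr_ng α) f).trans hα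
  · have : mp (D.sr (D.pm j α)).toAddEquiv.toAddMonoidHom f =
        mp (D.sr j).toAddEquiv.toAddMonoidHom (mp (D.sr α).toAddEquiv.toAddMonoidHom
          (mp (D.sr j).toAddEquiv.toAddMonoidHom f)) := by
      rw [mp_mp, mp_mp]
      exact mp_congr (D.sr_pm j α) f
    rw [this, h, hα, h]

lemma WInv.alt_mul {f : GA M} (hf : D.WInv f) (x : M) :
    D.alt x * f = ev D.alt (ex x * f) := by
  have : ∀ u, ev D.alt u = ∑ v : D.weyl, sgn v.1 • mp v.1.toAddEquiv.toAddMonoidHom u := by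
    intro u
    induction u using induction_ex with
    | h0 => simp
    | h1 x => simp [alt_eq]
    | ha f g hf hg => simp [hf, hg, Finset.sum_add_distrib]
    | hn f hf => simp [hf]
  rw [this, alt_eq, Finset.sum_mul]
  refine Finset.sum_congr rfl fun v _ => ?_
  rw [map_mul, hf.weyl v.2, mp_ex, smul_mul_assoc]
  rfl

lemma altM_of_alt {V : Type*} [AddCommGroup V] {J : M × ℤ → V} (hJ : D.S.Alt J) (ℓ : ℤ) :
    D.AltM fun x => J (x, ℓ) := by
  intro α x
  obtain ⟨β, hβ⟩ := D.ex_sr α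
  have := hJ β (x, ℓ)
  rwa [hβ] at this

/-- Embedding at level zero. -/
noncomputable abbrev em : GA M →+* GA (M × ℤ) := mp (AddMonoidHom.inl M ℤ)

/-- Projection to the finite part. -/
noncomputable abbrev pr : GA (M × ℤ) →+* GA M := mp (AddMonoidHom.fst M ℤ)

lemma WInv.inv {f : GA M} (hf : D.WInv f) : D.S.Inv (em f) := by
  intro β
  nth_rewrite 2 [← hf β.1.1]
  rw [Sys.ms, mp_mp, mp_mp]
  exact mp_congr (fun x => D.S_s_zero β x) f

lemma ev_ex_em {V : Type*} [AddCommGroup V] (J : M × ℤ → V) (y : M) (ℓ : ℤ) (f : GA M) :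
    ev J (ex (y, ℓ) * em f) = ev (fun x => J (x, ℓ)) (ex y * f) := by
  rw [ev_ex_mul, ev_ex_mul, ev_mp]
  simp

variable (D) in
/-- The level is large compared with the finite part. -/
def Big (z : M × ℤ) : Prop := ∀ α, D.cv α z.1 < z.2

lemma Big.pos {z : M × ℤ} (h : D.Big z) : 0 < z.2 := by
  have h1 := h D.θ
  have h2 := h (D.ng D.θ)
  rw [cv_ng] at h2; omega

lemma Big.induction {p : M × ℤ → Prop}
    (hd : ∀ z, D.Big z → D.S.Dom z → p z)
    (hs : ∀ z (j : D.b.support), D.Big z → D.cv j z.1 < 0 → p (D.sr j z.1, z.2) → p z)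
    {z : M × ℤ} (hz : D.Big z) : p z := by
  refine D.S.desc_induction (p := fun z => D.Big z → p z) (fun x _ h hb => hd x hb h)
    (fun x i _ h ih hb => ?_) hz.pos hz
  cases i with
  | none => have := hb D.θ; rw [c_none] at h; omega
  | some j =>
    rw [c_some] at h
    rw [si_some] at ih
    exact hs x j hb h (ih fun α => by simpa [← cv_pm] using hb (D.pm j α))

variable (D) in
lemma exists_big (X : Finset M) : ∃ K, ∀ ℓ ≥ K, ∀ x ∈ X, D.Big (x, ℓ) := by
  refine ⟨1 + ∑ x ∈ X, ∑ α, |D.cv α x|, fun ℓ hℓ x hx α => ?_⟩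
  have h1 := Finset.single_le_sum (f := fun x => ∑ α, |D.cv α x|)
    (fun _ _ => Finset.sum_nonneg fun _ _ => abs_nonneg _) hx
  have h2 := Finset.single_le_sum (f := fun α => |D.cv α x|) (fun _ _ => abs_nonneg _)
    (Finset.mem_univ α)
  have h3 := le_abs_self (D.cv α x)
  simp only at h1 h2 ⊢
  omega

lemma Big.fold {z : M × ℤ} (hz : D.Big z) :
    ev (fun y : M × ℤ => D.alt y.1) (D.S.J0 z) = D.alt z.1 := by
  refine Big.induction (p := fun z => ev (fun y : M × ℤ => D.alt y.1) (D.S.J0 z) = D.alt z.1)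
    (fun z hb hd => ?_) (fun z j hb _ ih => ?_) hz
  · by_cases h : ∀ i, 0 < D.S.c i z
    · rw [Sys.J0_sdom hb.pos h, ev_ex]
    · push Not at h
      obtain ⟨i, hi⟩ := h
      have h0 : D.S.c i z = 0 := le_antisymm hi (hd i)
      rw [Sys.alt_J0.eq_zero h0, map_zero]
      cases i with
      | none => have := hb D.θ; rw [c_none] at h0; omega
      | some j =>
        rw [c_some] at h0
        have := D.alt_sr j z.1
        rw [sr_apply, h0, zero_smul, sub_zero] at this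
        exact (eq_zero_of_eq_neg this).symm
  · rw [← si_some, Sys.alt_J0, map_neg, si_some, alt_sr] at ih
    exact neg_injective ih

lemma card_weyl_ne : (Fintype.card D.weyl : ℤ) ≠ 0 := by
  exact_mod_cast Fintype.card_ne_zero

lemma zsmul_cancel {V : Type*} [AddCommGroup V] [IsAddTorsionFree V] {n : ℤ} (hn : n ≠ 0)
    {x y : V} (h : n • x = n • y) : x = y := smul_right_injective V hn h

lemma sdom_aff {x : M} {ℓ : ℤ} (hx : ∀ j : D.b.support, 0 < D.cv j x) (h : D.cv D.θ x < ℓ) :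
    ∀ i, 0 < D.S.c i (x, ℓ) := by
  intro i
  cases i with
  | none => simpa using h
  | some j => simpa using hx j

lemma alt_ne_zero {x : M} (hx : ∀ j : D.b.support, 0 < D.cv j x) : D.alt x ≠ 0 := by
  intro h
  have h1 := (altM_of_alt (Sys.alt_J0 (S := D.S)) (D.cv D.θ x + 1)).ev_alt x
  have h2 := D.sdom_cv hx D.pos_θ
  rw [h, map_zero, Sys.J0_sdom (by simp; omega) (sdom_aff hx (by omega))] at h1
  have h3 := zsmul_cancel card_weyl_ne (h1.symm.trans (smul_zero _).symm)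
  simp [ex] at h3

include D in
lemma noZeroDivisors : NoZeroDivisors (GA M) := by
  have : TwoUniqueSums M :=
    TwoUniqueSums.of_injective_addHom D.basis.repr.toAddEquiv.toAddHom D.basis.repr.injective
      inferInstance
  infer_instance

lemma WInv.fold {f : GA M} (hf : D.WInv f) (y : M) : ∃ K, ∀ ℓ ≥ K,
    ev (fun y : M × ℤ => D.alt y.1) (ev D.S.J0 (ex (y, ℓ) * em f)) = D.alt y * f := by
  classical
  obtain ⟨K, hK⟩ := D.exists_big (ex y * f).coeff.support
  refine ⟨K, fun ℓ hℓ => ?_⟩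
  rw [ev_ex_em, map_ev, hf.alt_mul]
  exact Supp.ev_congr fun x hx => (hK ℓ hℓ x (Finsupp.mem_support_iff.2 hx)).fold

/-- Invariant elements are determined by their images at large levels. -/
lemma WInv.eq_of_J0 {f g : GA M} (hf : D.WInv f) (hg : D.WInv g) {y : M}
    (hy : ∀ j : D.b.support, 0 < D.cv j y)
    (h : ∀ K, ∃ ℓ ≥ K, ev D.S.J0 (ex (y, ℓ) * em f) = ev D.S.J0 (ex (y, ℓ) * em g)) : f = g := by
  obtain ⟨K, hK⟩ := hf.fold y
  obtain ⟨K', hK'⟩ := hg.fold y
  obtain ⟨ℓ, h1, h2⟩ := h (max K K')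
  have h3 := hK ℓ (le_of_max_le_left h1)
  rw [h2, hK' ℓ (le_of_max_le_right h1)] at h3
  have := D.noZeroDivisors
  have h4 : D.alt y * (g - f) = 0 := by rw [mul_sub, h3, sub_self]
  exact (sub_eq_zero.1 ((mul_eq_zero.1 h4).resolve_left (alt_ne_zero hy))).symm

lemma WInv.exists_class {f : GA M} (hf : D.WInv f) : ∃ c, D.IsClass f c := by
  obtain ⟨K, hK⟩ := hf.fold D.rho
  set X := ev D.S.J0 (ex (D.rho, K) * em f) with hX
  refine ⟨(ex (-D.rho) * pr X).coeff, fun μ hμ => ?_, ?_⟩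
  · have h1 : Supp X fun y => ∀ i, 0 < D.S.c i y :=
      Supp.ev fun z _ => (Sys.supp_J0 z).mono fun _ h => h.2
    have h2 : Supp (ex (-D.rho) * pr X) D.IsDom := by
      refine Supp.mul (p := fun x => x = -D.rho) (q := fun x => ∀ j : D.b.support, 0 < D.cv j x)
        (supp_ex rfl) (h1.mp _ fun z hz j => by simpa using hz (some j)) ?_
      rintro _ x rfl hx j
      have := hx j
      rw [cv_def, map_add, map_neg, cv_rho]; omega
    exact h2 μ (Finsupp.mem_support_iff.1 hμ)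
  · rw [← ev_apply, ev_ex_mul, ev_mp, mul_comm, ← hK K le_rfl]
    simp [hX]

lemma IsClass.sum_eq {V : Type*} [AddCommGroup V] [IsAddTorsionFree V] {J : M → V}
    (hJ : D.AltM J) {f : GA M} {c : M →₀ ℤ} (hc : D.IsClass f c) :
    (Fintype.card D.weyl : ℤ) • (c.sum fun μ n => n • J (μ + D.rho)) = ev J (f * D.alt D.rho) := by
  rw [hc.2, map_finsuppSum, Finsupp.smul_sum]
  refine Finsupp.sum_congr fun μ _ => ?_
  rw [map_zsmul, hJ.ev_alt, smul_comm]

lemma IsClass.image {V : Type*} [AddCommGroup V] [IsAddTorsionFree V] {J : M → V}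
    (hJ : D.AltM J) {f : GA M} (hf : D.WInv f) {c : M →₀ ℤ} (hc : D.IsClass f c) :
    (c.sum fun μ n => n • J (μ + D.rho)) = ev J (ex D.rho * f) := by
  apply zsmul_cancel (card_weyl_ne (D := D))
  rw [hc.sum_eq hJ, mul_comm, hf.alt_mul, map_ev, ← ev_zsmul_fun]
  congr 2
  ext x
  exact hJ.ev_alt x

lemma IsClass.unique {f : GA M} {c c' : M →₀ ℤ} (hc : D.IsClass f c) (hc' : D.IsClass f c') :
    c = c' := by
  classical
  obtain ⟨K, hK⟩ := D.exists_big ((c.support ∪ c'.support).image (· + D.rho))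
  have hJ := altM_of_alt (Sys.alt_J0 (S := D.S)) K
  have h1 := zsmul_cancel card_weyl_ne ((hc.sum_eq hJ).trans (hc'.sum_eq hJ).symm)
  have key : ∀ d : M →₀ ℤ, (∀ μ ∈ d.support, D.IsDom μ) → d.support ⊆ c.support ∪ c'.support →
      (d.sum fun μ n => n • D.S.J0 (μ + D.rho, K)) =
        ex (D.rho, K) * em (AddMonoidAlgebra.ofCoeff d) := by
    intro d hd hs
    rw [← ev_ex_self (ex (D.rho, K) * _), ev_ex_em, ev_ex_mul, ev_apply]
    refine Finsupp.sum_congr fun μ hμ => ?_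
    have hb := hK K le_rfl _ (Finset.mem_image_of_mem _ (hs hμ))
    rw [Sys.J0_sdom hb.pos (sdom_aff (fun j => ?_) (hb D.θ)), add_comm]
    have : 0 ≤ D.cv j μ := hd μ hμ j
    rw [map_add, cv_rho]; omega
  rw [key c hc.1 Finset.subset_union_left, key c' hc'.1 Finset.subset_union_right] at h1
  have h2 := congrArg (fun u => ex (-(D.rho, K)) * u) h1
  simp only [← mul_assoc, ← ex_add, neg_add_cancel, ex_zero, one_mul] at h2
  exact AddMonoidAlgebra.ofCoeff_injective (mp_injective (fun _ _ h => congrArg Prod.fst h) h2)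

lemma orb_weyl {v : M ≃ₗ[ℤ] M} (hv : v ∈ D.weyl) {z : M × ℤ} (hz : 0 < z.2) :
    D.S.Orb z (v z.1, z.2) := by
  refine D.weyl_induction (p := fun v => D.S.Orb z (v z.1, z.2)) (Sys.Orb.refl _)
    (fun β v _ ih => ?_) hv
  obtain ⟨γ, hγ⟩ := D.ex_sr β
  have := Sys.orb_s (S := D.S) (x := (v z.1, z.2)) hz γ
  rw [hγ] at this
  exact ih.trans this

lemma Anti.weyl_sub {η : M} (hη : D.Anti η) {v : M ≃ₗ[ℤ] M} (hv : v ∈ D.weyl) :
    v η - η ∈ D.Qp := by
  classical
  obtain ⟨K, hK⟩ := D.exists_big {-η, v (-η)}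
  have h1 := hK K le_rfl (-η) (by simp)
  have h2 := hK K le_rfl (v (-η)) (by simp)
  have key : ∀ z, D.Big z → ∃ y, D.S.Orb z y ∧ D.S.Dom y ∧ y.1 - z.1 ∈ D.Qp := by
    intro z hz
    refine Big.induction (p := fun z => ∃ y, D.S.Orb z y ∧ D.S.Dom y ∧ y.1 - z.1 ∈ D.Qp)
      (fun z _ hd => ⟨z, Sys.Orb.refl _, hd, by simp⟩) (fun z j _ hj ⟨y, h3, h4, h5⟩ => ?_) hz
    refine ⟨y, (Sys.orb_si (some j) z).trans (by rwa [si_some]), h4, ?_⟩
    obtain ⟨m, hm⟩ := Int.eq_ofNat_of_zero_le (a := - D.cv j z.1) (by omega)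
    have := add_mem h5 (AddSubmonoid.nsmul_mem _ (D.pos_iff.1 (D.pos_simple j)) m)
    convert this using 1
    rw [sr_apply, ← natCast_zsmul, ← hm]; module
  obtain ⟨y, h3, h4, h5⟩ := key _ h2
  have h6 : D.S.Dom (-η, K) := by
    intro i
    cases i with
    | none => have := h1 D.θ; rw [c_none]; omega
    | some j => rw [c_some]; exact hη.dom D j
  have h7 := Sys.Orb.eq_of_dom (S := D.S) (x := (-η, K)) h1.pos h6 h4
    ((orb_weyl hv (z := (-η, K)) h1.pos).trans h3)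
  rw [← h7] at h5
  convert h5 using 1
  simp only [map_neg]; abel

/-- Directions below an antidominant weight lie above it in the dominance order. -/
lemma ch_sub_mem {n τ : ℤ} {η : M} (hη : D.Anti η) {κ : M × ℤ} (h : D.S.Ch n τ (η, 1) κ) :
    κ.1 - η ∈ D.Qp := by
  suffices κ.2 = 1 ∧ ∀ v ∈ D.weyl, v κ.1 - η ∈ D.Qp from this.2 1 (one_mem _)
  induction h with
  | refl => exact ⟨rfl, fun v hv => hη.weyl_sub hv⟩
  | @tail y z _ h2 ih =>
    obtain ⟨⟨⟨α, m⟩, hβ⟩, h3, rfl, -⟩ := h2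
    obtain ⟨h4, h5⟩ := ih
    have hm : 0 ≤ m := by rcases hβ with h | h <;> simp only at h <;> omega
    rw [S_s]
    refine ⟨h4, fun v hv => ?_⟩
    set c := D.S.co ⟨(α, m), hβ⟩ y with hc
    have h11 : c = D.cv α y.1 + m * D.t α := by simp [hc, S_co, h4]
    obtain ⟨α', hα'⟩ := D.weyl_r hv α
    rcases D.pos_or α' with hp | hp
    · obtain ⟨q, hq⟩ := Int.eq_ofNat_of_zero_le (a := -c) (by omega)
      have := add_mem (h5 v hv) (AddSubmonoid.nsmul_mem _ (D.pos_iff.1 hp) q)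
      convert this using 1
      rw [map_sub, map_zsmul, hα', ← natCast_zsmul, ← hq]; module
    · obtain ⟨q, hq⟩ := Int.eq_ofNat_of_zero_le (a := m * D.t α) (by positivity)
      have := add_mem (h5 _ (mul_mem hv (D.sr_mem α)))
        (AddSubmonoid.nsmul_mem _ (D.pos_iff.1 hp) q)
      convert this using 1
      rw [LinearEquiv.mul_apply, sr_apply, map_sub, map_sub, map_zsmul, map_zsmul, hα',
        ← natCast_zsmul, ← hq, r_ng, h11]; module

end SimpleDatum

end Pool.Agent.Lib.MP_4354a3_al
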