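import Pool.Agent.Lib.MP_4354a3_al.QDefs
import Pool.Agent.Lib.MP_4354a3_al.Fin
import Pool.Agent.Lib.MP_4354a3_al.CVerma
import Pool.Agent.Lib.MP_4354a3_al.CString
import Pool.Agent.Lib.MP_4354a3_al.CComm
import Pool.Agent.Lib.MP_4354a3_al.Weyl
import Pool.Agent.Lib.MP_4354a3_al.QA4

-- part Pool.Agent.Lib.MP_4354a3_al.QCFinal
section

/-!
# Existence of the Kirillov-Reshetikhin modules
-/

set_option linter.unusedSectionVars false

namespace Pool.Agent.Lib.MP_4354a3_al

open Polynomial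

namespace KC

/-- Extension of a family of half currents to all integer modes. -/
def ext {I A : Type*} [Zero A] (φ : ℤˣ → I → ℕ → A) (e : ℤˣ) (i : I) (r : ℤ) : A :=
  if 0 ≤ (e : ℤ) * r then φ e i ((e : ℤ) * r).toNat else 0

lemma ext_sub {I A : Type*} [AddCommGroup A] (φ : ℤˣ → I → ℕ → A) (i : I) (r : ℤ) :
    ext φ 1 i r - ext φ (-1) i r = Phi φ i r := by
  simp [ext, Phi]

lemma ext_zero {I A : Type*} [Zero A] (φ : ℤˣ → I → ℕ → A) (e : ℤˣ) (i : I) :
    ext φ e i 0 = φ e i 0 := by simp [ext]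

lemma CD.IsRep.ext_rel {I E : Type*} [Fintype I] [DecidableEq I] {c : CD I} [Ring E] [Algebra ℂ E]
    {x : ℤˣ → I → ℤ → E} {φ : ℤˣ → I → ℕ → E} (h : c.IsRep x φ) (e : ℤˣ) (i : I) (s : ℤˣ) (j : I) :
    R3 (c.Q 1 s i j) (ext φ e i) (x s j) := by
  have h1 : R3 (c.Q 1 s i j) (ext φ 1 i) (x s j) := by
    intro m r
    rcases lt_trichotomy (m + 1) 0 with hm | hm | hm
    · simp [ext, not_le.2 hm, not_le.2 (show m < 0 by omega)]
    · obtain rfl : m = -1 := by omega
      simp [ext, h.zero 1 i s j r]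
    · obtain ⟨k, rfl⟩ : ∃ k : ℕ, m = k := ⟨m.toNat, by omega⟩
      have e1 : ((k : ℤ) + 1).toNat = k + 1 := by omega
      simpa [ext, hm.le, e1] using h.succ 1 i k s j r
  rcases Int.units_eq_one_or e with rfl | rfl
  · exact h1
  · intro m r
    have h2 := h.Phi_rel i s j m r
    have h3 := h1 m r
    simp only [← ext_sub, sub_mul, mul_sub, smul_sub] at h2
    linear_combination (norm := module) h3 - h2

/-- Convolution of a polynomial with a sequence. -/
noncomputable def conv (u : ℤ → ℂ) (n : ℤ) : ℂ[X] →ₗ[ℂ] ℂ :=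
  Polynomial.lsum fun s => u (n - s) • LinearMap.id

lemma conv_eq (u : ℤ → ℂ) (n : ℤ) (P : ℂ[X]) {N : ℕ} (h : P.natDegree < N) :
    conv u n P = ∑ s ∈ Finset.range N, P.coeff s * u (n - s) := by
  rw [conv, lsum_apply, sum_over_range' _ (by simp) _ h]
  simp [mul_comm]

lemma conv_X (u : ℤ → ℂ) (n : ℤ) (P : ℂ[X]) : conv u n (X * P) = conv u (n - 1) P := by
  induction P using Polynomial.induction_on' with
  | add p p' h h' => simp [mul_add, h, h']
  | monomial k a =>
    rw [X_mul_monomial]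
    simp only [conv, lsum_apply]
    rw [sum_monomial_index _ _ (by simp), sum_monomial_index _ _ (by simp)]
    congr 3
    push_cast
    ring

lemma conv_lin (u u' : ℤ → ℂ) (a b : ℂ) (h : ∀ r, u r - a * u (r - 1) = u' r - b * u' (r - 1))
    (n : ℤ) (P : ℂ[X]) : conv u n ((1 - C a * X) * P) = conv u' n ((1 - C b * X) * P) := by
  simp only [sub_mul, one_mul, mul_assoc, map_sub]
  simp only [← smul_eq_C_mul, map_smul, conv_X]
  simp only [conv_eq _ _ P (Nat.lt_succ_self _), smul_eq_mul, Finset.mul_sum,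
    ← Finset.sum_sub_distrib]
  refine Finset.sum_congr rfl fun s _ => ?_
  rw [sub_right_comm n]
  linear_combination P.coeff s * h (n - s)

/-- The highest weight of a string. -/
noncomputable def strWt (v β : ℂ) (k : ℕ) (e : ℤˣ) (n : ℕ) : ℂ :=
  if n = 0 then v ^ ((e : ℤ) * k) else (e : ℤ) * (v ^ k - v⁻¹ ^ k) * β ^ ((e : ℤ) * n)

lemma Phi_strWt {I : Type*} (v : I → ℂ) (β : ℂ) (k : I → ℕ) (i : I) (r : ℤ) :
    Phi (fun e j => strWt (v j) β (k j) e) i r = (v i ^ k i - (v i)⁻¹ ^ k i) * β ^ r := by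
  rcases lt_trichotomy r 0 with h | rfl | h
  · have e1 : ((-r).toNat : ℤ) = -r := by omega
    have e2 : (-r).toNat ≠ 0 := by omega
    simp [Phi, strWt, not_le.2 h, h.le, e1, e2]
    ring
  · simp [Phi, strWt]
  · have e1 : (r.toNat : ℤ) = r := by omega
    have e2 : r.toNat ≠ 0 := by omega
    simp [Phi, strWt, not_le.2 h, h.le, e1, e2]

lemma ext_strWt {I : Type*} (v : I → ℂ) {β : ℂ} (hβ : β ≠ 0) (k : I → ℕ) (i : I) (e : ℤˣ) (r : ℤ) :
    ext (fun e j => strWt (v j) β (k j) e) e i r -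
      β * ext (fun e j => strWt (v j) β (k j) e) e i (r - 1) =
    (if r = 0 then v i ^ k i else 0) - (if r = 1 then β * (v i)⁻¹ ^ k i else 0) := by
  have h1 : ∀ r : ℤ, ext (fun e j => strWt (v j) β (k j) e) 1 i r -
      β * ext (fun e j => strWt (v j) β (k j) e) 1 i (r - 1) =
      (if r = 0 then v i ^ k i else 0) - (if r = 1 then β * (v i)⁻¹ ^ k i else 0) := by
    intro r
    rcases lt_trichotomy r 0 with h | rfl | h
    · simp [ext, not_le.2 h, h.ne, not_le.2 (show r < 1 by omega), (show r < 1 by omega).ne]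
    · simp [ext, strWt]
    · rcases eq_or_lt_of_le (show 1 ≤ r by omega) with rfl | h'
      · simp [ext, strWt]; ring
      · obtain ⟨n, rfl⟩ : ∃ n : ℕ, r = n + 2 := ⟨(r - 2).toNat, by omega⟩
        have e1 : ((n : ℤ) + 2).toNat = n + 2 := by omega
        have e2 : ((n : ℤ) + 2 - 1).toNat = n + 1 := by omega
        simp only [ext, Units.val_one, one_mul, e1, e2, if_pos h.le, if_neg h.ne', if_neg h'.ne',
          if_pos (show (0 : ℤ) ≤ n + 2 - 1 by omega), strWt, zpow_natCast]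
        simp
        ring
  rcases Int.units_eq_one_or e with rfl | rfl
  · exact h1 r
  · have h2 := ext_sub (fun e j => strWt (v j) β (k j) e) i r
    have h3 := ext_sub (fun e j => strWt (v j) β (k j) e) i (r - 1)
    rw [Phi_strWt] at h2 h3
    rw [zpow_sub_one₀ hβ] at h3
    have h4 := mul_inv_cancel₀ hβ
    linear_combination h1 r - h2 + β * h3 + (v i ^ k i - (v i)⁻¹ ^ k i) * β ^ r * h4

lemma natDegree_str {v b : ℂ} (hv : v ≠ 0) (hb : b ≠ 0) (m : ℕ) :
    (∏ s ∈ Finset.range m, (1 - C (b * v ^ (2 * s)) * X)).natDegree = m := by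
  have h1 : ∀ s, (1 - C (b * v ^ (2 * s)) * X).natDegree = 1 := by
    intro s
    have : (1 - C (b * v ^ (2 * s)) * X) = C (-(b * v ^ (2 * s))) * X + C 1 := by simp; ring
    rw [this, natDegree_linear (by simp [hv, hb])]
  rw [natDegree_prod _ _ fun s _ h => by have := h1 s; rw [h] at this; simp at this]
  simp only [h1]
  simp

lemma drinfeld_str {v b : ℂ} (hv : v ≠ 0) (hb : b ≠ 0) (m : ℕ) (u : ℤ → ℂ)
    (h0 : m = 0 → ∀ r, u r = if r = 0 then 1 else 0)
    (hu : ∀ r, u r - b * v ^ (2 * m) * v⁻¹ * u (r - 1) =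
      (if r = 0 then v ^ m else 0) - (if r = 1 then b * v ^ (2 * m) * v⁻¹ * v⁻¹ ^ m else 0))
    (n : ℤ) (P : ℂ[X]) (hP : P = ∏ s ∈ Finset.range m, (1 - C (b * v ^ (2 * s)) * X)) :
    ∑ s ∈ Finset.range (P.natDegree + 1), P.coeff s * v ^ s * u (n - s) =
      ∑ s ∈ Finset.range (P.natDegree + 1),
        if n = s then P.coeff s * v ^ ((P.natDegree : ℤ) - s) else 0 := by
  have hd : P.natDegree = m := hP ▸ natDegree_str hv hb m
  cases m with
  | zero => simp [hP, h0 rfl]
  | succ m =>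
    have hc : ∀ w : ℂ, (P.comp (C w * X)).natDegree < P.natDegree + 1 := fun w =>
      Nat.lt_succ_of_le (natDegree_comp_le.trans (by
        simpa using Nat.mul_le_mul_left _ (natDegree_C_mul_le w X |>.trans natDegree_X_le)))
    have h1 := conv_eq u n _ (hc v)
    have h2 := conv_eq (fun r => if r = 0 then v ^ (m + 1) else 0) n _ (hc v⁻¹)
    simp only [comp_C_mul_X_coeff] at h1 h2
    rw [← h1]
    have e1 : P.comp (C v * X) = (1 - C (b * v ^ (2 * (m + 1)) * v⁻¹) * X) *
        ∏ s ∈ Finset.range m, (1 - C (b * v ^ (2 * s + 1)) * X) := by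
      rw [hP, Finset.prod_range_succ, mul_comp, prod_comp, mul_comm]
      congr 1
      · have : b * v ^ (2 * (m + 1)) * v⁻¹ = b * v ^ (2 * m) * v := by field_simp; ring
        rw [this]; simp [mul_assoc]
      · exact Finset.prod_congr rfl fun s _ => by simp [pow_succ, mul_assoc]
    have e2 : P.comp (C v⁻¹ * X) = (1 - C (b * v⁻¹) * X) *
        ∏ s ∈ Finset.range m, (1 - C (b * v ^ (2 * s + 1)) * X) := by
      rw [hP, Finset.prod_range_succ', mul_comp, prod_comp, mul_comm]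
      congr 1
      · simp [mul_assoc]
      · refine Finset.prod_congr rfl fun s _ => ?_
        have : b * v ^ (2 * s + 1) = b * v ^ (2 * (s + 1)) * v⁻¹ := by field_simp; ring
        rw [this]; simp [mul_assoc]
    rw [e1, conv_lin u (fun r => if r = 0 then v ^ (m + 1) else 0) _ (b * v⁻¹) ?_, ← e2, h2, hd]
    · refine Finset.sum_congr rfl fun s _ => ?_
      simp only [sub_eq_zero]
      split_ifs
      · rw [zpow_sub₀ hv, zpow_natCast, zpow_natCast, inv_pow]; ring
      · simp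
    · intro r
      rw [hu]
      simp only [sub_eq_zero]
      congr 1
      split_ifs
      · rw [inv_pow]; field_simp; ring
      · simp

end KC

namespace SimpleDatum

variable {ι M N : Type*} [Fintype ι] [DecidableEq ι] [AddCommGroup M] [AddCommGroup N]
  (D : SimpleDatum ι M N)

lemma kc_di_mul_t (i : D.b.support) :
    D.di i * D.t i = Finset.univ.lcm fun j : D.b.support => D.t j :=
  Nat.div_mul_cancel (Finset.dvd_lcm (Finset.mem_univ i))

lemma kc_lcm_pos : 0 < Finset.univ.lcm fun j : D.b.support => D.t j :=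
  Nat.pos_of_ne_zero fun h => by
    obtain ⟨j, -, hj⟩ := Finset.lcm_eq_zero_iff.1 h
    have := D.t_pos j
    omega

lemma kc_eta : ∃ η : D.b.support → ℕ, ∀ i : D.b.support,
    0 < ∑ j : D.b.support, D.cv i (D.r j) * η j := by
  have h1 : ∑ α, (D.cv α D.rho * D.t α) • D.r α ∈ D.Qp := by
    refine AddSubmonoid.sum_mem _ fun α _ => ?_
    have ht := D.t_pos α
    rcases D.pos_or α with h | h
    · obtain ⟨n, hn⟩ := Int.eq_ofNat_of_zero_le (mul_pos h ht).le
      rw [hn, natCast_zsmul]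
      exact AddSubmonoid.nsmul_mem _ (D.pos_iff.1 h) n
    · obtain ⟨n, hn⟩ := Int.eq_ofNat_of_zero_le (mul_pos h ht).le
      have : (D.cv α D.rho * D.t α) • D.r α = (n : ℤ) • D.r (D.ng α) := by
        rw [← hn]; simp
      rw [this, natCast_zsmul]
      exact AddSubmonoid.nsmul_mem _ (D.pos_iff.1 h) n
  obtain ⟨f, hf, e⟩ := D.mem_Qp_iff.1 h1
  refine ⟨fun j => (f j).toNat, fun i => ?_⟩
  have h2 := congrArg (D.cv i) e
  simp only [map_sum, map_zsmul, smul_eq_mul, mul_assoc, D.t_sym _ i] at h2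
  have h3 := D.B_root i D.rho
  have h4 := D.B_root_pos i
  have h5 := D.t_pos i
  rw [cv_rho, B_apply _ (D.r i) D.rho] at h3
  have h6 : ∑ j : D.b.support, D.cv i (D.r j) * ((f j).toNat : ℤ) =
      D.t i * ∑ α, D.cv α (D.r i) * D.cv α D.rho := by
    simp only [Int.toNat_of_nonneg (hf _), mul_comm (D.cv i _), ← h2, Finset.mul_sum]
    exact Finset.sum_congr rfl fun α _ => by ring
  rw [h6]
  exact mul_pos h5 (by omega)

/-- The Cartan data of a simple root datum. -/
noncomputable def cd (q : ℂ) (hq0 : q ≠ 0) (hq : ∀ n : ℕ, 0 < n → q ^ n ≠ 1) :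
    KC.CD D.b.support where
  C i j := D.cv i (D.r j)
  d := D.di
  q := q
  q0 := hq0
  hq := hq
  dpos i := Nat.pos_of_mul_pos_right (D.kc_di_mul_t i ▸ D.kc_lcm_pos)
  diag i := D.cv_r_self i
  symm i j := by
    have h1 : (D.di i * D.t i : ℤ) = D.di j * D.t j := by
      exact_mod_cast (D.kc_di_mul_t i).trans (D.kc_di_mul_t j).symm
    have h2 := D.t_sym i j
    apply mul_left_cancel₀ (D.t_pos i).ne'
    linear_combination D.cv i (D.r j) * h1 - D.di j * h2
  rng i j h := by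
    have := D.b.cartanMatrix_mem_of_ne h.symm
    have e := D.P.algebraMap_pairingIn ℤ (j : ι) (i : ι)
    simp only [algebraMap_int_eq, eq_intCast, Int.cast_id] at e
    rw [RootPairing.Base.cartanMatrix, RootPairing.Base.cartanMatrixIn_def, e] at this
    change D.cv i (D.r j) ∈ _ at this
    simp only [Set.mem_insert_iff, Set.mem_singleton_iff] at this
    omega
  psd β := by
    have h1 := D.B_self_nonneg (∑ i, β i • D.r i)
    have h2 := D.B_root_pos D.θ
    have h3 : D.B (D.r D.θ) (D.r D.θ) * ∑ i, ∑ j, β i * β j * (D.di i * D.cv i (D.r j)) =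
        2 * (Finset.univ.lcm fun j : D.b.support => D.t j : ℕ) *
          D.B (∑ i, β i • D.r i) (∑ i, β i • D.r i) := by
      simp only [B, map_sum, LinearMap.sum_apply, map_smul, LinearMap.smul_apply, smul_eq_mul,
        Finset.mul_sum]
      rw [Finset.sum_comm]
      refine Finset.sum_congr rfl fun j _ => Finset.sum_congr rfl fun i _ => ?_
      have h4 := D.B_root i (D.r j)
      have h5 := D.t_spec i
      rw [← D.kc_di_mul_t i]
      simp only [B, r] at h4 ⊢
      push_cast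
      linear_combination (β i * β j * D.di i * D.t i) * h4 -
        (β i * β j * D.di i * D.cv i (D.P.root j)) * h5
    refine nonneg_of_mul_nonneg_right ?_ h2
    rw [h3]
    positivity
  eta := D.kc_eta.choose
  eta_pos := D.kc_eta.choose_spec

variable {D} in
lemma IsKR.conj {V W : Type*} [AddCommGroup V] [Module ℂ V] [AddCommGroup W] [Module ℂ W]
    {q : ℂ} {x φ : ℤˣ → D.b.support → ℤ → Module.End ℂ V} {a : D.b.support} {m : ℕ} {p : ℤ}
    (h : D.IsKR q x φ a m p) (e : V ≃ₗ[ℂ] W) :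
    D.IsKR q (fun s i r => e.conjAlgEquiv ℂ (x s i r)) (fun s i r => e.conjAlgEquiv ℂ (φ s i r))
      a m p := by
  set f := e.conjAlgEquiv ℂ with hf
  have he : ∀ y w, f y (e w) = e (y w) := fun y w => by simp [hf]
  refine ⟨⟨fun ε i r hr => ?_, fun i => ?_, fun ε ε' i j r s => ?_, fun ε σ i j r s => ?_,
    fun σ i j r s => ?_, fun i j r s => ?_⟩, fun σ i j hij r s => ?_,
    have := h.fin; Module.Finite.equiv e, fun U h1 h2 => ?_, ?_⟩
  · rw [h.rel.φ_zero ε i r hr, map_zero]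
  · rw [← map_mul, h.rel.φ_inv, map_one]
  · rw [← map_mul, h.rel.φ_φ, map_mul]
  · simpa only [map_sub, map_mul, map_smul] using congrArg f (h.rel.φ_x ε σ i j r s)
  · simpa only [map_sub, map_mul, map_smul] using congrArg f (h.rel.x_x σ i j r s)
  · have := congrArg f (h.rel.x_y i j r s)
    simp only [map_sub, map_mul] at this
    rw [this]
    split_ifs <;> simp only [map_smul, map_sub, map_zero]
  · have := congrArg f (h.serre σ i j hij r s)
    simp only [map_sum, map_smul, map_mul, map_list_prod, List.map_take, List.map_drop,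
      List.map_ofFn, map_zero] at this
    exact this
  · rcases h.simple (U.comap (e : V →ₗ[ℂ] W)) (fun σ i r w hw => by
        simpa [← he] using h1 σ i r _ hw) (fun σ i r w hw => by
        simpa [← he] using h2 σ i r _ hw) with h3 | h3
    · left
      rw [← Submodule.map_comap_eq_of_surjective (f := (e : V →ₗ[ℂ] W)) e.surjective U, h3,
        Submodule.map_bot]
    · right
      rw [← Submodule.map_comap_eq_of_surjective (f := (e : V →ₗ[ℂ] W)) e.surjective U, h3,
        Submodule.map_top, LinearEquiv.range]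
  · obtain ⟨v, hv, h1, h2⟩ := h.highest
    refine ⟨e v, by simpa using hv, fun i r => by rw [he, h1, map_zero], fun i ε n => ?_⟩
    have := congrArg e (h2 i ε n)
    simp only [map_sum, map_smul, apply_ite e, map_zero] at this
    simpa only [he] using this

theorem exists_KR (q : ℂ) (hq0 : q ≠ 0) (hq : ∀ n : ℕ, 0 < n → q ^ n ≠ 1)
    (a : D.b.support) (m : ℕ) (p : ℤ) :
    ∃ (n : ℕ) (x φ : ℤˣ → D.b.support → ℤ → Module.End ℂ (Fin n → ℂ)), D.IsKR q x φ a m p := by
  set c := D.cd q hq0 hq with hc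
  let k : D.b.support → ℕ := fun j => if j = a then m else 0
  set β : ℂ := q ^ p * c.qq a ^ (2 * m) * (c.qq a)⁻¹ with hβ
  have hβ0 : β ≠ 0 := by simp [hβ, zpow_ne_zero _ hq0, c.qq_ne]
  obtain ⟨V, _, _, x, φ, v, lam, h⟩ :=
    c.exists_HW (fun e j => KC.strWt (c.qq j) β (k j) e) fun i => by
      simp [KC.strWt, c.qq_ne]
  have hΦ : ∀ j r, KC.Phi (fun e j => KC.strWt (c.qq j) β (k j) e) j (r + 1) =
      β * KC.Phi (fun e j => KC.strWt (c.qq j) β (k j) e) j r := fun j r => by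
    rw [KC.Phi_strWt, KC.Phi_strWt, zpow_add_one₀ hβ0]; ring
  have hfd := h.fd (fun j => k j) (fun e j => by simp [KC.strWt])
    (h.nil h.x3 h.s0 fun j => ⟨_, h.string j (k j) hβ0 (fun e => by simp [KC.strWt]) (hΦ j)⟩)
    (h.fd_LN hβ0 hΦ)
  have hQ : ∀ (s : ℤˣ) i j, c.Q 1 s i j = q ^ (s * D.Bm i j) := fun s i j => by
    rw [KC.CD.Q, Units.val_one, one_mul]; rfl
  suffices H : D.IsKR q x (KC.ext φ) a m p from ⟨_, _, _, H.conj (Module.finBasis ℂ V).equivFun⟩
  refine ⟨⟨fun ε i r hr => if_neg (not_le.2 hr), fun i => ?_, fun ε ε' i j r s => ?_,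
    fun ε σ i j r s => ?_, fun σ i j r s => ?_, fun i j r s => ?_⟩, fun σ i j hij => ?_, hfd,
    fun U h1 h2 => h.irred U ⟨h1, fun e i n w hw => ?_⟩, v, fun hv => ?_, h.sing, fun i ε n => ?_⟩
  · rw [KC.ext_zero, KC.ext_zero, h.rep.inv]
  · unfold KC.ext
    split_ifs <;> simp [h.rep.comm ε i _ ε' j]
  · exact hQ σ i j ▸ h.rep.ext_rel ε i σ j r s
  · exact hQ σ i j ▸ h.x3 σ i j r s
  · rw [KC.ext_sub]
    exact h.rep.xx i j r s
  · have e1 : 1 + D.absC i j = c.deg i j := by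
      have := (c.rng i j hij).2
      change D.cv i (D.r j) ≤ 0 at this
      change 1 + (D.cv i (D.r j)).natAbs = (1 - D.cv i (D.r j)).toNat
      omega
    rw [e1]
    intro r s
    have := h.rep.sf h.s0 σ i j s r hij
    simp only [KC.serreL, List.length_ofFn] at this
    exact this
  · simpa [KC.ext, ← mul_assoc] using h2 e i (e * n) w hw
  · simpa [hv] using h.lam_v
  · have h1 : ∀ r, KC.ext φ ε i r v = KC.ext (fun e j => KC.strWt (c.qq j) β (k j) e) ε i r • v := by
      intro r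
      unfold KC.ext
      split_ifs <;> simp [h.eig]
    have h2 : ∀ (P : Prop) [Decidable P] (z : ℂ), (if P then z • v else 0) = (if P then z else 0) • v :=
      fun P _ z => by split_ifs <;> simp
    simp only [h1, h2, smul_smul, ← Finset.sum_smul]
    congr 1
    have h3 := KC.ext_strWt c.qq hβ0 k i ε
    have h4 : k i = 0 → ∀ r, KC.ext (fun e j => KC.strWt (c.qq j) β (k j) e) ε i r =
        if r = 0 then 1 else 0 := by
      intro hk r
      have : ((ε : ℤ) * r).toNat = 0 → 0 ≤ (ε : ℤ) * r → r = 0 := fun h5 h6 =>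
        (mul_eq_zero.1 (show (ε : ℤ) * r = 0 by omega)).resolve_left ε.ne_zero
      by_cases hr : r = 0
      · simp [KC.ext, KC.strWt, hr, hk]
      · simp only [KC.ext, KC.strWt, hk, if_neg hr]
        split_ifs with h5 h6
        · exact absurd (this h6 h5) hr
        · simp
        · rfl
    by_cases hi : i = a
    · subst hi
      refine KC.drinfeld_str (c.qq_ne i) (zpow_ne_zero p hq0) m _ (fun h0 => h4 (by simp [k, h0]))
        (fun r => by simpa [k] using h3 r) n _ ?_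
      rw [krPoly, if_pos rfl]
      refine Finset.prod_congr rfl fun s _ => ?_
      rw [zpow_add₀ hq0, ← zpow_natCast, c.qq_zpow]
      push_cast
      rw [mul_comm (2 * (s : ℤ))]
      rfl
    · simp [krPoly, hi, h4 (by simp [k, hi])]

end SimpleDatum

end Pool.Agent.Lib.MP_4354a3_al
end

-- part Pool.Agent.Lib.MP_4354a3_al.PiK
section

/-!
# The map `π_k` as a signed folding
-/

set_option linter.unusedSectionVars false

namespace Pool.Agent.Lib.MP_4354a3_al

open Set Function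

namespace SimpleDatum

variable {ι M N : Type*} [Fintype ι] [DecidableEq ι] [AddCommGroup M] [AddCommGroup N]
  (D : SimpleDatum ι M N)

/-- Translation generator. -/
abbrev tr (k : ℕ) (α : ι) : M ≃ᵃ[ℤ] M :=
  AffineEquiv.constVAdd ℤ M (((k + D.hv) * D.t α) • D.r α)

lemma tr_apply (k : ℕ) (α : ι) (x : M) : D.tr k α x = x + ((k + D.hv) * D.t α) • D.r α := by
  simp [tr, add_comm]

lemma sr_mem_aff (k : ℕ) (α : ι) : (D.sr α).toAffineEquiv ∈ D.affWeyl k :=
  Subgroup.subset_closure (Or.inl ⟨α, rfl⟩)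

lemma tr_mem_aff (k : ℕ) (α : ι) : D.tr k α ∈ D.affWeyl k :=
  Subgroup.subset_closure (Or.inr ⟨α, rfl⟩)

lemma aff_induction (k : ℕ) {p : (M ≃ᵃ[ℤ] M) → Prop} (h1 : p 1)
    (hs : ∀ α w, p w → p ((D.sr α).toAffineEquiv * w)) (ht : ∀ α w, p w → p (D.tr k α * w))
    {w : M ≃ᵃ[ℤ] M} (hw : w ∈ D.affWeyl k) : p w := by
  induction hw using Subgroup.closure_induction_left with
  | one => exact h1
  | mul_left x hx y hy ih =>
    rcases hx with ⟨α, rfl⟩ | ⟨α, rfl⟩
    · exact hs α y ih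
    · exact ht α y ih
  | inv_mul_cancel x hx y hy ih =>
    rcases hx with ⟨α, rfl⟩ | ⟨α, rfl⟩
    · exact hs α y ih
    · have : (AffineEquiv.constVAdd ℤ M (((k + D.hv) * D.t α) • D.P.root α))⁻¹ =
          D.tr k (D.ng α) := by
        rw [AffineEquiv.inv_def, AffineEquiv.constVAdd_symm, tr, r_ng, t_ng, smul_neg]
      simp only
      rw [this]
      exact ht _ y ih

lemma lev_pos (k : ℕ) : 0 < (k : ℤ) + D.hv := by have := D.hv_pos; omega

variable {D}

lemma alt_aff {V : Type*} [AddCommGroup V] {J : M × ℤ → V} (hJ : D.S.Alt J) {k : ℕ}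
    {w : M ≃ᵃ[ℤ] M} (hw : w ∈ D.affWeyl k) (x : M) :
    J (w x, k + D.hv) = sgn w.linear • J (x, k + D.hv) := by
  refine D.aff_induction k (p := fun w => J (w x, k + D.hv) = sgn w.linear • J (x, k + D.hv))
    ?_ (fun α w ih => ?_) (fun α w ih => ?_) hw
  · exact (one_smul ℤ _).symm.trans (by rw [← sgn_one (M := M)]; rfl)
  · have h1 : ((D.sr α).toAffineEquiv * w).linear = D.sr α * w.linear := rfl
    have h2 := altM_of_alt hJ (k + D.hv) α (w x)
    simp only at h2
    rw [h1, sgn_mul, sgn_sr, mul_smul, ← ih, neg_smul, one_smul, ← h2]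
    rfl
  · have h1 : (D.tr k α * w).linear = w.linear := rfl
    obtain ⟨β, β', h⟩ := D.ex_tr α
    have h2 := h (w x, k + D.hv)
    rw [h1, ← ih, AffineEquiv.coe_mul, comp_apply, tr_apply, mul_smul, ← h2, hJ, hJ, neg_neg]

lemma aff_lift {k : ℕ} {w : M ≃ᵃ[ℤ] M} (hw : w ∈ D.affWeyl k) :
    ∃ φ : M × ℤ ≃+ M × ℤ, D.S.Cpt φ ∧ (∀ x, φ (x, k + D.hv) = (w x, k + D.hv)) ∧
      ∀ y, 0 < D.S.lev y → D.S.Orb y (φ y) := by
  refine D.aff_induction k (p := fun w => ∃ φ : M × ℤ ≃+ M × ℤ, D.S.Cpt φ ∧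
      (∀ x, φ (x, k + D.hv) = (w x, k + D.hv)) ∧ ∀ y, 0 < D.S.lev y → D.S.Orb y (φ y))
    ⟨_, Sys.cpt_refl, fun _ => rfl, fun _ _ => Sys.Orb.refl _⟩ ?_ ?_ hw
  · rintro α w ⟨φ, h1, h2, h3⟩
    refine ⟨φ.trans (lin (D.sr α).toAddEquiv), h1.trans (D.cpt_sr α), fun x => ?_,
      fun y hy => (h3 y hy).trans (orb_weyl (D.sr_mem α) (z := φ y) ?_)⟩
    · rw [AddEquiv.trans_apply, h2]; rfl
    · have := h1.lev y
      rw [S_lev] at this; rwa [this]
  · rintro α w ⟨φ, h1, h2, h3⟩
    refine ⟨φ.trans (T ((D.t α : ℤ) • D.r α)), h1.trans (D.cpt_T (D.cow_root α)), fun x => ?_,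
      fun y hy => (h3 y hy).trans ?_⟩
    · rw [AddEquiv.trans_apply, h2, AffineEquiv.coe_mul, comp_apply, tr_apply, mul_smul]; rfl
    · obtain ⟨β, β', h⟩ := D.ex_tr α
      have h4 : 0 < D.S.lev (φ y) := by rwa [h1.lev]
      rw [AddEquiv.trans_apply, T_apply, ← h]
      exact (Sys.orb_s h4 β').trans (Sys.orb_s (by rwa [Sys.lev_s]) β)

lemma ex_aff (k : ℕ) (β : D.AR) : ∃ w ∈ D.affWeyl k, w ≠ 1 ∧
    ∀ x, D.S.s β (x, k + D.hv) = (w x, k + D.hv) := by
  refine ⟨D.tr k β.1.1 ^ (-β.1.2) * (D.sr β.1.1).toAffineEquiv,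
    mul_mem (zpow_mem (D.tr_mem_aff k _) _) (D.sr_mem_aff k _), fun h => ?_, fun x => ?_⟩
  · rw [tr, ← AffineEquiv.constVAdd_zsmul] at h
    have h1 : D.sr β.1.1 = 1 := congrArg AffineEquiv.linear h
    have h2 := D.sgn_sr β.1.1
    rw [h1, sgn_one] at h2
    omega
  · rw [tr, ← AffineEquiv.constVAdd_zsmul, S_s, S_co]
    simp only [AffineEquiv.coe_mul, comp_apply, AffineEquiv.constVAdd_apply, vadd_eq_add,
      LinearEquiv.coe_toAffineEquiv, sr_apply, Prod.mk.injEq, and_true]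
    module

lemma orb_aff {k : ℕ} {x : M} {y : M × ℤ} (h : D.S.Orb (x, k + D.hv) y) :
    ∃ w ∈ D.affWeyl k, y = (w x, k + D.hv) := by
  induction h with
  | refl => exact ⟨1, one_mem _, rfl⟩
  | tail _ h2 ih =>
    obtain ⟨i, rfl⟩ := h2
    obtain ⟨w, hw, rfl⟩ := ih
    obtain ⟨w', hw', -, h⟩ := ex_aff k (D.S.simp i)
    exact ⟨w' * w, mul_mem hw' hw, h _⟩

variable (D) in
/-- Forget the level and subtract `ρ`. -/
noncomputable def down : GA (M × ℤ) →+ (M →₀ ℤ) :=
  AddMonoidAlgebra.coeffAddEquiv.toAddMonoidHom.comp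
    ((AddMonoidHom.mulLeft (ex (-D.rho))).comp pr.toAddMonoidHom)

lemma down_ex (z : M × ℤ) : D.down (ex z) = Finsupp.single (z.1 - D.rho) 1 := by
  have : D.down (ex z) = (ex (-D.rho) * pr (ex z)).coeff := rfl
  rw [this, mp_ex, ← ex_add, ex, AddMonoidAlgebra.coeff_single, neg_add_eq_sub]
  rfl

lemma inAlcove_iff {k : ℕ} {x : M} :
    D.InAlcove k (x - D.rho) ↔ ∀ i, 0 < D.S.c i (x, k + D.hv) := by
  simp only [InAlcove, isDom_iff, cv_def, map_sub, cv_rho, Option.forall, c_none, c_some, hv_eq]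
  constructor
  · rintro ⟨h1, h2⟩
    exact ⟨by omega, fun j => by have := h1 j; omega⟩
  · rintro ⟨h1, h2⟩
    exact ⟨fun j => by have := h2 j; omega, by omega⟩

theorem piK_eq (k : ℕ) (μ : M) : D.piK k μ = D.down (D.S.J0 (μ + D.rho, k + D.hv)) := by
  have hl := D.lev_pos k
  unfold piK
  split_ifs with h1 h2
  · obtain ⟨w, hw, hne, hf⟩ := h1
    rw [Sys.J0, if_neg, map_zero]
    rintro ⟨h3, h4⟩
    obtain ⟨φ, h5, h6, h7⟩ := aff_lift hw
    refine hne (AffineEquiv.ext fun x => ?_)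
    have := Sys.eq_of_fix h5 h7 h3 h4 (by rw [h6, hf]) (x, k + D.hv)
    rw [h6] at this
    exact congrArg Prod.fst this
  · obtain ⟨hw, h3⟩ := h2.choose_spec
    have h4 := alt_aff (Sys.alt_J0 (S := D.S)) hw (μ + D.rho)
    rw [Sys.J0_sdom hl (inAlcove_iff.1 h3)] at h4
    have h5 := congrArg (fun u => sgn h2.choose.linear • D.down u) h4
    simp only [map_zsmul, smul_smul, sgn_sq, one_smul, down_ex] at h5
    rw [← h5]
    simp [sgn]
  · rw [Sys.J0_eq_zero, map_zero]
    intro y hy h3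
    obtain ⟨w, hw, rfl⟩ := orb_aff hy
    exact h2 ⟨w, hw, inAlcove_iff.2 h3⟩

/-- Scaling of weights. -/
noncomputable abbrev sc (n : ℤ) : GA M →+* GA M := mp (zsmulAddGroupHom n)

/-- The duality involution. -/
noncomputable abbrev io : GA M →+* GA M := mp (AddEquiv.neg M).toAddMonoidHom

include D in
lemma sc_injective {n : ℤ} (hn : n ≠ 0) : Injective (sc (M := M) n) := by
  have := D.torsionFree
  exact mp_injective fun x y h => smul_right_injective M hn h

lemma sc_sr (n : ℤ) (α : ι) (f : GA M) : sc n (mp (D.sr α).toAddEquiv.toAddMonoidHom f) =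
    mp (D.sr α).toAddEquiv.toAddMonoidHom (sc n f) := by
  rw [mp_mp, mp_mp]
  exact mp_congr (fun x => by simp) f

lemma WInv.of_sc {n : ℤ} (hn : n ≠ 0) {f : GA M} (h : D.WInv (sc n f)) : D.WInv f :=
  fun α => D.sc_injective hn (by rw [sc_sr, h α])

lemma WInv.sc (n : ℤ) {f : GA M} (h : D.WInv f) : D.WInv (sc n f) :=
  fun α => by rw [← sc_sr, h α]

lemma WInv.io {f : GA M} (h : D.WInv f) : D.WInv (io f) := by
  intro α
  nth_rewrite 2 [← h α]
  rw [mp_mp, mp_mp]
  exact mp_congr (fun x => by simp) f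

lemma io_io (f : GA M) : io (io f) = f := by
  rw [mp_mp]; exact mp_eq_self (fun x => by simp) f

variable (D) in
/-- A scaled and dualised version of `π_k`. -/
theorem exists_J {n : ℤ} (hn : 0 < n) : ∃ J : M × ℤ → (M →₀ ℤ), D.S.Alt J ∧
    (∀ z, (∀ i, 0 < D.S.c i z) → 0 < z.2 → 0 < J (n • z)) ∧
    (∀ k : ℕ, J (n • (D.rho, k + D.hv)) = Finsupp.single 0 1) ∧
    ∀ (k : ℕ) (f : GA M), D.WInv f →
      D.IsImage k (io f) (ev J (ex (n • (D.rho, (k : ℤ) + D.hv)) * em (sc n f))) := by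
  classical
  have := D.torsionFree
  let J1 : M × ℤ → (M →₀ ℤ) := fun z =>
    if h : ∃ z', z = n • z' then D.down (D.S.J0 h.choose) else 0
  have hJ1 : ∀ z, J1 (n • z) = D.down (D.S.J0 z) := by
    intro z
    have h : ∃ z', n • z = n • z' := ⟨z, rfl⟩
    simp only [J1]
    rw [dif_pos h, ← smul_right_injective (M × ℤ) hn.ne' h.choose_spec]
  have alt1 : D.S.Alt J1 := by
    intro β z
    by_cases h : ∃ z', z = n • z'
    · obtain ⟨z', rfl⟩ := h
      rw [map_zsmul, hJ1, hJ1, Sys.alt_J0, map_neg]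
    · have h' : ¬ ∃ z', D.S.s β z = n • z' := by
        rintro ⟨z', h'⟩
        exact h ⟨D.S.s β z', by rw [← map_zsmul, ← h', Sys.s_s]⟩
      simp only [J1]
      rw [dif_neg h, dif_neg h', neg_zero]
  obtain ⟨w, hw⟩ := Sys.exists_desc (S := D.S) (z := lin (AddEquiv.neg M) D.S.rho) D.hv_pos
  have hp : D.S.Pos ((lin (AddEquiv.neg M)).trans w) := (D.cpt_neg.trans hw.cpt).pos hw.dom
  set φ := (lin (AddEquiv.neg M)).trans w with hφ
  have h0 : φ (0, 1) = (0, 1) := by
    have : lin (AddEquiv.neg M) (0, 1) = (0, 1) := by simp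
    rw [hφ, AddEquiv.trans_apply, this]
    refine hw.fix fun β hβ => ?_
    obtain ⟨⟨α, m⟩, h⟩ := β
    rcases h with h | h
    · have := D.S.co_rho_pos ⟨(D.ng α, m), Or.inl h⟩
      simp only [S_co, S_rho, lin_apply, AddEquiv.neg_apply, map_neg, cv_ng, t_ng] at this hβ
      omega
    · simp only at h
      simp [S_co, h.1]
  have h1 : ∀ k : ℕ, φ (D.rho, k + D.hv) = (D.rho, k + D.hv) := by
    intro k
    have : ((D.rho, k + D.hv) : M × ℤ) = D.S.rho + (k : ℤ) • (0, 1) := by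
      simp [S_rho, add_comm]
    rw [this, map_add, map_zsmul, h0, hp.rho]
  refine ⟨fun z => J1 (φ z), alt1.comp hp.cpt, fun z hz hz' => ?_, fun k => ?_, fun k f hf => ?_⟩
  · simp only
    rw [map_zsmul, hJ1, Sys.J0_sdom (by rwa [hp.lev]) (hp.sdom hz), down_ex]
    exact lt_of_le_of_ne (Finsupp.single_nonneg.2 zero_le_one)
      (Finsupp.single_ne_zero.2 one_ne_zero).symm
  · simp only
    rw [map_zsmul, h1, hJ1, Sys.J0_sdom (D.lev_pos k), down_ex, sub_self]
    exact inAlcove_iff.1 (by simp [InAlcove, isDom_iff])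
  · obtain ⟨c, hc⟩ := hf.io.exists_class
    refine ⟨c, hc, ?_⟩
    simp only [piK_eq]
    rw [hc.image (altM_of_alt (Sys.alt_J0.map D.down) (k + D.hv)) hf.io]
    have e1 : ev (fun z => J1 (φ z)) (ex (n • (D.rho, (k : ℤ) + D.hv)) * em (sc n f)) =
        ev J1 (mp φ.toAddMonoidHom (ex (n • (D.rho, (k : ℤ) + D.hv)) * em (sc n f))) :=
      (ev_mp J1 φ.toAddMonoidHom _).symm
    have e2 : mp φ.toAddMonoidHom (em (sc n f)) = em (sc n (io f)) := by
      rw [← hw.inv (hf.io.sc n).inv]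
      simp only [mp_mp]
      exact mp_congr (fun x => by simp [hφ]) _
    have e3 : φ.toAddMonoidHom (n • (D.rho, (k : ℤ) + D.hv)) = n • (D.rho, (k : ℤ) + D.hv) := by
      rw [map_zsmul]; exact congrArg _ (h1 k)
    rw [e1, map_mul, e2, mp_ex, e3, ev_ex_mul, ev_ex_mul, ev_mp, ev_mp]
    congr 2
    ext1 x
    rw [← hJ1]
    congr 1
    simp

end SimpleDatum

end Pool.Agent.Lib.MP_4354a3_al
end

-- part Pool.Agent.Lib.MP_4354a3_al.QSys
section

/-!
# The Q-system for the path generating functions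
-/

set_option linter.unusedSectionVars false

namespace Pool.Agent.Lib.MP_4354a3_al

open Set Function

lemma exists_sigma {n : ℕ} (hn : 0 < n) (τ : ℕ) (K : ℤ) :
    ∃ s : ℕ, (n : ℤ) ∣ s + τ ∧ K ≤ s := by
  have h1 : τ + K.toNat ≤ n * (τ + K.toNat) := Nat.le_mul_of_pos_left _ hn
  refine ⟨n * (τ + K.toNat) - τ, ⟨τ + K.toNat, ?_⟩, by omega⟩
  rw [Nat.cast_sub (by omega)]; push_cast; ring

namespace SimpleDatum

variable {ι M N : Type*} [Fintype ι] [DecidableEq ι] [AddCommGroup M] [AddCommGroup N]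
  (D : SimpleDatum ι M N)

/-- Finite part of the path generating function. -/
noncomputable def F (n τ : ℕ) (η : M) : GA M := pr (D.S.g n τ (η, 1))

lemma g_eq (n τ : ℕ) (η : M) : D.S.g n τ (η, 1) = ex (0, (τ : ℤ)) * em (D.F n τ η) := by
  have h := Sys.supp_g_lev (S := D.S) (N := n) (ζ := (η, 1)) one_pos τ
  rw [← ev_ex_self (ex _ * _), ev_ex_mul, F, ev_mp, ev_mp]
  nth_rewrite 1 [← ev_ex_self (D.S.g n τ (η, 1))]
  refine Supp.ev_congr (h.mono fun z hz => ?_)
  congr 1
  ext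
  · simp
  · simpa using hz

@[simp] lemma F_zero (n : ℕ) (η : M) : D.F n 0 η = 1 := by simp [F]

lemma dom_L0 : D.S.Dom (0, 1) := by
  intro i
  cases i <;> simp

lemma g_L0 (n τ : ℕ) : D.S.g n τ (0, 1) = ex (0, (τ : ℤ)) := by
  rw [Sys.g_dom one_pos D.dom_L0]; simp

@[simp] lemma F_L0 (n τ : ℕ) : D.F n τ 0 = 1 := by simp [F, g_L0]

/-- A bound for the multiplicities that occur. -/
def Jm : ℕ := 2 + ∑ a, ∑ b, D.absC a b

/-- Bounded weights. -/
def Box (η : M) : Prop := ∀ b : D.b.support, |D.cv b η| ≤ D.Jm * D.t b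

/-- Good time scales. -/
def Good (n : ℕ) : Prop := 0 < n ∧ ∀ η, D.Box η → D.S.Valid n (η, 1)

lemma exists_good : ∃ n, D.Good n := by
  obtain ⟨n, hn, h⟩ := Sys.exists_valid (S := D.S)
    ((fun x => (x, (1 : ℤ))) '' {x : M | ∀ j : D.b.support,
      |D.cv j x| ≤ ∑ b : D.b.support, (D.Jm * D.t b : ℤ)})
    ((D.finite_box _).image _) (by rintro _ ⟨x, -, rfl⟩; exact one_pos)
  refine ⟨n.toNat, by omega, fun η hη => ?_⟩
  rw [Int.toNat_of_nonneg hn.le]
  refine h _ ⟨η, fun j => (hη j).trans ?_, rfl⟩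
  exact Finset.single_le_sum (f := fun b : D.b.support => (D.Jm * D.t b : ℤ))
    (fun _ _ => by positivity) (Finset.mem_univ j)

/-- The antidominant fundamental coweight. -/
def et (a : D.b.support) : M := -((D.t a : ℤ) • D.ω a)

lemma cv_et (a b : D.b.support) : D.cv b (D.et a) = if b = a then -(D.t a : ℤ) else 0 := by
  simp [et, cv_ω]; split_ifs <;> simp

lemma cv_et_self (a : D.b.support) : D.cv a (D.et a) = -(D.t a : ℤ) := by simp [cv_et]

lemma cv_sum_et (s : Finset D.b.support) (j : D.b.support → ℕ) (c : D.b.support) :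
    D.cv c (∑ b ∈ s, j b • D.et b) = if c ∈ s then -(j c * D.t c : ℤ) else 0 := by
  simp [map_sum, cv_et]

lemma box_sum (s : Finset D.b.support) {j : D.b.support → ℕ} (hj : ∀ b, j b ≤ D.Jm) :
    D.Box (∑ b ∈ s, j b • D.et b) := by
  intro c
  rw [cv_sum_et]
  split_ifs
  · rw [abs_neg, abs_of_nonneg (by positivity)]
    exact mul_le_mul_of_nonneg_right (by exact_mod_cast hj c) (by positivity)
  · simp; positivity

lemma anti_sum (s : Finset D.b.support) (j : D.b.support → ℕ) :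
    D.Anti (∑ b ∈ s, j b • D.et b) := by
  intro c
  rw [cv_sum_et]
  split_ifs
  · exact neg_nonpos.2 (by positivity)
  · exact le_rfl

lemma cow_sum (s : Finset D.b.support) (j : D.b.support → ℕ) :
    D.Cow (∑ b ∈ s, j b • D.et b) := by
  refine D.cow_of_simple fun c => ?_
  rw [cv_sum_et]
  split_ifs <;> simp

lemma box_nsmul (a : D.b.support) {j : ℕ} (hj : j ≤ D.Jm) : D.Box (j • D.et a) := by
  simpa using D.box_sum {a} (j := fun _ => j) fun _ => hj

lemma anti_nsmul (a : D.b.support) (j : ℕ) : D.Anti (j • D.et a) := by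
  simpa using D.anti_sum {a} fun _ => j

lemma cow_nsmul (a : D.b.support) (j : ℕ) : D.Cow (j • D.et a) := by
  simpa using D.cow_sum {a} fun _ => j

lemma two_le_Jm : 2 ≤ D.Jm := Nat.le_add_right _ _

lemma absC_le_Jm (a b : D.b.support) : D.absC a b ≤ D.Jm := by
  have h1 := Finset.single_le_sum (f := fun a => ∑ b, D.absC a b) (fun _ _ => Nat.zero_le _)
    (Finset.mem_univ a)
  have h2 := Finset.single_le_sum (f := fun b => D.absC a b) (fun _ _ => Nat.zero_le _)
    (Finset.mem_univ b)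
  simp only [Jm] at *
  omega

lemma box_et (a : D.b.support) : D.Box (D.et a) := by
  simpa using D.box_nsmul a (j := 1) (by have := D.two_le_Jm; omega)

lemma anti_et (a : D.b.support) : D.Anti (D.et a) := by simpa using D.anti_nsmul a 1

lemma cow_et (a : D.b.support) : D.Cow (D.et a) := by simpa using D.cow_nsmul a 1

lemma box_zero : D.Box 0 := fun b => by simp; positivity

variable {D}

lemma Box.neg {η : M} (h : D.Box η) : D.Box (-η) := fun b => by simpa using h b

variable {n : ℕ}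

lemma Good.pos (h : D.Good n) : (0 : ℤ) < n := by exact_mod_cast h.1

lemma Good.dvd (h : D.Good n) (a : D.b.support) {j : ℕ} (h1 : 0 < j) (hj : j ≤ D.Jm) :
    j * D.t a ∣ n := by
  have ht := D.t_pos a
  have := h.2 _ (D.box_nsmul a hj) _ (Sys.Ch.refl _ _) (some a)
    (by simp [cv_et_self]; omega)
  simp only [c_some, map_nsmul, cv_et_self, nsmul_eq_mul, mul_neg, neg_dvd] at this
  exact_mod_cast this

variable (D) in
/-- The time unit of the node `a`. -/
def du (n : ℕ) (a : D.b.support) : ℕ := n / D.t a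

lemma Good.t_du (h : D.Good n) (a : D.b.support) : D.t a * D.du n a = n :=
  Nat.mul_div_cancel' (by simpa using h.dvd a one_pos (by have := D.two_le_Jm; omega))

lemma Good.du_pos (h : D.Good n) (a : D.b.support) : 0 < D.du n a :=
  Nat.pos_of_mul_pos_left (by rw [h.t_du]; exact h.1)

lemma Good.dvd_du (h : D.Good n) (a : D.b.support) {j : ℕ} (h1 : 0 < j) (hj : j ≤ D.Jm) :
    j ∣ D.du n a := by
  have := h.dvd a h1 hj
  have ht := D.t_pos a
  rw [← h.t_du a, mul_comm (D.t a)] at this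
  exact Nat.dvd_of_mul_dvd_mul_right (by omega) this

lemma Good.du_et (h : D.Good n) (a : D.b.support) : D.du n a • D.et a = (n : ℤ) • (-D.ω a) := by
  nth_rewrite 2 [← h.t_du a]
  rw [et]; push_cast; module

/-- Multiples of `n`. -/
def Mult (n : ℕ) (x : M) : Prop := ∃ u, x = (n : ℤ) • u

lemma Good.mult (h : D.Good n) (a : D.b.support) (m : ℕ) : Mult n ((m * D.du n a) • D.et a) :=
  ⟨m • (-D.ω a), by rw [mul_smul, h.du_et, smul_comm]⟩

lemma Good.winv (h : D.Good n) {τ : ℕ} {η : M} (ha : D.Anti η) (hb : D.Box η)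
    (hm : Mult n (τ • η)) : D.WInv (D.F n τ η) := by
  refine winv_of_simple fun j => ?_
  obtain ⟨u, hu⟩ := hm
  have h1 := Sys.sym_neg (S := D.S) h.pos (i := some j) τ (κ := (η, 1)) (u := 0) one_pos
    (by simpa using ha j) (h.2 η hb) le_rfl h.pos
    ⟨D.cv j u, by simpa using congrArg (D.cv j) hu⟩
  simp only [Sys.Sym, neg_zero, zero_smul, ex_zero, one_mul] at h1
  unfold F
  nth_rewrite 2 [← h1]
  rw [Sys.ms, mp_mp, mp_mp]
  exact mp_congr (fun z => (congrArg Prod.fst (D.si_some j z)).symm) _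

section pairing

variable {V : Type*} [AddCommGroup V] [IsAddTorsionFree V] {J : M × ℤ → V}

lemma Good.fwd (h : D.Good n) (hJ : D.S.Alt J) {η ζ : M} (hc : D.Cow η) (ha : D.Anti η)
    {w : M × ℤ ≃+ M × ℤ} (hw : D.S.Desc (T η D.S.rho) w) {f : GA M} (hf : D.WInv f) (σ τ : ℕ)
    (hζ : ∀ α, D.pos α → D.cv α η < 0 → D.cv α ζ ≤ D.t α) (hb : D.Box η) (hb' : D.Box (ζ + η))
    (hd : (n : ℤ) ∣ σ + τ) (hm : Mult n (τ • (ζ + η))) :
    ev J (ex ((n : ℤ) • D.rho, n * D.hv + σ + τ) * em (D.F n τ (ζ + η) * f)) =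
      ev (fun x => J (w (T η x)))
        (ex ((n : ℤ) • D.S.rho) * (D.S.g n σ (-η, 1) * D.S.g n τ (ζ, 1)) * em f) := by
  have e1 : T η (-η, 1) = (0, 1) := by simp
  have e2 : T η (ζ, 1) = (ζ + η, 1) := by simp
  have h1 := Sys.pairing h.pos (hJ.mul hf.inv) (D.cpt_T hc) hw σ τ (κ := (-η, 1)) (ζ := (ζ, 1))
    one_pos one_pos (fun β _ => by rw [e1]; exact D.S.dom _ D.dom_L0 β) (fun β hβ => ?_)
    (h.2 _ hb.neg) (by rw [e2]; exact h.2 _ hb') ?_
  · rw [e1, e2, ← ev_mul, g_L0, g_eq] at h1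
    rw [ev_mul (fun x => J (w (T η x)))]
    have e3 : ∀ x, ev (fun x => J (w (T η x))) (ex x * em f) = ev J (ex (w (T η x)) * em f) := by
      intro x
      have e4 : mp ((T η).trans w).toAddMonoidHom (em f) = em f := by
        nth_rewrite 2 [← hw.inv hf.inv]
        rw [mp_mp, mp_mp]
        exact mp_congr (fun x => by simp) f
      nth_rewrite 2 [← e4]
      rw [show ex (w (T η x)) = mp ((T η).trans w).toAddMonoidHom (ex x) from
        (mp_ex ((T η).trans w).toAddMonoidHom x).symm,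
        ← map_mul, ev_mp]
      rfl
    simp only [e3]
    rw [← h1]
    congr 1
    have : (((n : ℤ) • D.rho, n * D.hv + σ + τ) : M × ℤ) =
        (n : ℤ) • D.S.rho + ((0, (σ : ℤ)) + (0, (τ : ℤ))) := by
      simp [S_rho, add_assoc]
    rw [this, ex_add, ex_add, map_mul]
    ring
  · obtain ⟨⟨α, m⟩, hβ'⟩ := β
    obtain ⟨q, hq⟩ := hc α
    have ht := D.t_pos α
    have h2 : ¬ D.PosR (α, q + m) := by
      intro h2
      have := D.S.co_rho_pos ⟨_, h2⟩
      simp only [S_co, S_rho, T_apply, map_add, map_zsmul, smul_eq_mul, hq] at this hβ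
      linarith
    simp only [PosR, not_or, not_and, not_lt] at h2 hβ'
    have hp : D.pos α := by
      by_contra hp
      have h3 := ha.cv' D hp
      have h4 : 0 ≤ q := by
        by_contra h4
        rw [hq] at h3
        nlinarith
      have h5 : 0 < m := by tauto
      omega
    have h3 : q + m ≤ -1 := by
      have : q + m ≠ 0 := fun e => h2.2 e hp
      omega
    have h4 : 0 ≤ m := by rcases hβ' with h | h <;> omega
    have h5 := hζ α hp (by rw [hq]; nlinarith)
    rw [e2]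
    simp only [S_co, map_add, hq, mul_one]
    nlinarith
  · obtain ⟨u, hu⟩ := hm
    obtain ⟨K, hK⟩ := hd
    refine ⟨(u - K • η, K), ?_⟩
    have : (σ : ℤ) = n * K - τ := by omega
    ext
    · simp only [Prod.fst_add, Prod.smul_fst, smul_sub, ← hu, this]; module
    · simp [hK]

lemma Good.back (h : D.Good n) (hJ : D.S.Alt J) {η : M} (hc : D.Cow η) (ha : D.Anti η)
    {w : M × ℤ ≃+ M × ℤ} (hw : D.S.Desc (T η D.S.rho) w) {f : GA M} (hf : D.WInv f) (σ τ : ℕ)
    (hb : D.Box η) (hd : (n : ℤ) ∣ σ + τ) (hm : Mult n (τ • η)) :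
    ev J (ex ((n : ℤ) • D.rho, n * D.hv + σ + τ) * em (D.F n τ η * f)) =
      ev (fun x => J (w (T η x)))
        (ex ((n : ℤ) • D.S.rho + (0, (τ : ℤ))) * D.S.g n σ (-η, 1) * em f) := by
  have := h.fwd hJ hc ha hw hf σ τ (ζ := 0) (fun α _ _ => by simp) hb (by rwa [zero_add]) hd
    (by rwa [zero_add])
  rw [zero_add, g_L0] at this
  rw [this, ex_add]
  congr 1
  ring

lemma Good.star_step (h : D.Good n) (hJ : D.S.Alt J) (a : D.b.support) (σ : ℕ) {y : M × ℤ}
    (h0 : 0 ≤ D.cv a y.1) (h1 : D.cv a y.1 < n) (h2 : ∀ j : D.b.support, j ≠ a → D.cv j y.1 = n)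
    (hd : ∃ u, y + ((σ + 1 : ℕ) : ℤ) • ((-D.et a, 1) : M × ℤ) = (n : ℤ) • u) :
    ev J (ex y * D.S.g n (σ + 1) (-D.et a, 1)) =
      ev J (ex (y + (-D.et a, 1)) * D.S.g n σ (-D.et a, 1)) := by
  classical
  obtain ⟨u, hu⟩ := hd
  have ht := D.t_pos a
  rw [Sys.one_step h.pos hJ σ (ζ := (-D.et a, 1)) one_pos (h.2 _ (D.box_et a).neg)
    (fun i => ⟨D.S.c i u, by
      have := congrArg (D.S.c i) hu
      rwa [map_add, map_zsmul, map_zsmul, smul_eq_mul, smul_eq_mul] at this⟩)
    (some a) (by simpa using h0) (by simpa using h1) (fun κ => κ = (-D.et a, 1))]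
  · rw [Finset.filter_eq', if_pos ((Sys.mem_chs one_pos).2 (Sys.Ch.refl _ _)),
      Finset.sum_singleton, ex_add, mul_assoc]
  · intro κ hκ hne
    by_contra hcon
    push Not at hcon
    obtain ⟨h3, -, h4⟩ := hcon
    obtain ⟨h5, h6, h7⟩ := D.ch_one (D.cow_et a).neg hκ
    rw [c_some] at h3
    have h8 : D.IsDom (κ.1 - -D.et a) := by
      intro j
      rw [cv_def, map_sub, map_neg, cv_et]
      split_ifs with hj
      · subst hj
        have := Int.le_of_dvd h3 (h6 j)
        omega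
      · simpa using h4 (some j) (by simpa using h2 j hj)
    have h9 : D.IsDom (-D.et a) := (D.anti_et a).dom D
    have h10 := D.B_dom_dom h8 h9
    have h11 := D.B_self_pos (x := κ.1 - -D.et a) fun e =>
      hne (Prod.ext (sub_eq_zero.1 e) h5)
    have h12 := D.B_comm κ.1 (-D.et a)
    simp only [B, map_sub, LinearMap.sub_apply] at h7 h10 h11 h12
    linarith
  · rintro κ - rfl - hκ
    have h3 := hκ.L_le
    have h4 := D.S.L_si (x := (-D.et a, 1)) one_pos (some a)
    rw [c_some, map_neg, cv_et_self, neg_neg, Int.sign_eq_one_of_pos ht] at h4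
    omega

lemma Good.star (h : D.Good n) (hJ : D.S.Alt J) (a : D.b.support) {f : GA M} (hf : D.WInv f)
    (σ θ : ℕ) (τ : ℤ) (hθ : θ ≤ D.du n a) (hd : (n : ℤ) ∣ σ + θ + τ) (hm : Mult n (σ • D.et a)) :
    ev J (ex ((n : ℤ) • D.S.rho + (θ • D.et a, τ)) * D.S.g n (σ + θ) (-D.et a, 1) * em f) =
      ev J (ex ((n : ℤ) • D.S.rho + (0, τ + θ)) * D.S.g n σ (-D.et a, 1) * em f) := by
  rw [ev_mul, ev_mul J (em f)]
  induction θ generalizing τ with
  | zero => simp
  | succ θ ih =>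
    have ht := D.t_pos a
    have h1 : ((θ + 1 : ℕ) : ℤ) * D.t a ≤ n := by
      rw [← h.t_du a, mul_comm]
      exact_mod_cast Nat.mul_le_mul_left _ hθ
    have h2 : 0 < ((θ + 1 : ℕ) : ℤ) * D.t a := by positivity
    rw [← add_assoc, h.star_step (hJ.mul hf.inv) a]
    · have := ih (τ + 1) (by omega) (dvd_cast' hd (by push_cast; ring))
      convert this using 4
      · ext
        · simp only [Prod.fst_add]; module
        · simp [add_assoc]
      · push_cast; ring_nf
    · simp only [S_rho, Prod.fst_add, Prod.smul_fst, map_add, map_zsmul, map_nsmul, cv_rho,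
        cv_et_self, smul_eq_mul, nsmul_eq_mul]
      linarith
    · simp only [S_rho, Prod.fst_add, Prod.smul_fst, map_add, map_zsmul, map_nsmul, cv_rho,
        cv_et_self, smul_eq_mul, nsmul_eq_mul]
      linarith
    · intro j hj
      simp [S_rho, cv_et, hj]
    · obtain ⟨u, hu⟩ := hm
      obtain ⟨K, hK⟩ := hd
      refine ⟨D.S.rho + (-u, K), ?_⟩
      ext
      · simp only [Prod.fst_add, Prod.smul_fst, smul_add, smul_neg, ← hu]; push_cast; module
      · simp only [Prod.snd_add, Prod.smul_snd, smul_eq_mul, mul_add, ← hK]; push_cast; ring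

end pairing

lemma Good.eq_of (h : D.Good n) {f g : GA M} (hf : D.WInv f) (hg : D.WInv g) (τ : ℕ)
    (H : ∀ s : ℕ, (n : ℤ) ∣ s + τ →
      ev D.S.J0 (ex ((n : ℤ) • D.rho, n * D.hv + s + τ) * em f) =
        ev D.S.J0 (ex ((n : ℤ) • D.rho, n * D.hv + s + τ) * em g)) : f = g := by
  refine hf.eq_of_J0 hg (y := (n : ℤ) • D.rho) (fun j => by simpa using h.1) fun K => ?_
  obtain ⟨s, h1, h2⟩ := exists_sigma h.1 τ K
  have := mul_pos h.pos D.hv_pos
  exact ⟨_, by omega, H s h1⟩

lemma ex_desc (η : M) : ∃ w, D.S.Desc (T η D.S.rho) w := Sys.exists_desc D.hv_pos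

lemma Mult.add {x y : M} (hx : Mult n x) (hy : Mult n y) : Mult n (x + y) := by
  obtain ⟨u, rfl⟩ := hx
  obtain ⟨v, rfl⟩ := hy
  exact ⟨u + v, (smul_add _ _ _).symm⟩

lemma Mult.of_dvd {σ τ : ℕ} {η : M} (hd : (n : ℤ) ∣ σ + τ) (h : Mult n (τ • η)) :
    Mult n (σ • η) := by
  obtain ⟨u, hu⟩ := h
  obtain ⟨K, hK⟩ := hd
  refine ⟨K • η - u, ?_⟩
  rw [smul_sub, ← hu, smul_smul, ← hK]; module

lemma Good.F_add (h : D.Good n) {τ : ℕ} {η η' : M} (hc : D.Cow η) (ha : D.Anti η)
    (ha' : D.Anti η') (hb : D.Box η) (hb' : D.Box η') (hb'' : D.Box (η' + η))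
    (hm : Mult n (τ • η)) (hm' : Mult n (τ • η')) :
    D.F n τ (η' + η) = D.F n τ η * D.F n τ η' := by
  have hm'' : Mult n (τ • (η' + η)) := by rw [smul_add]; exact hm'.add hm
  have hf' := h.winv ha' hb' hm'
  refine h.eq_of (h.winv (ha'.add D ha) hb'' hm'') ((h.winv ha hb hm).mul hf') τ fun s hs => ?_
  obtain ⟨w, hw⟩ := ex_desc (D := D) η
  have h1 := h.fwd Sys.alt_J0 hc ha hw winv_one s τ (ζ := η')
    (fun α hα _ => (ha'.cv D hα).trans (D.t_pos α).le) hb hb'' hs hm''
  rw [mul_one] at h1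
  rw [h1, h.back Sys.alt_J0 hc ha hw hf' s τ hb hs hm, D.g_eq n τ η', ex_add]
  congr 1
  simp only [map_one]; ring

lemma Good.F_sum (h : D.Good n) {τ : ℕ} (s : Finset D.b.support) {j : D.b.support → ℕ}
    (hj : ∀ b, j b ≤ D.Jm) (hm : ∀ b ∈ s, Mult n (τ • j b • D.et b)) :
    D.F n τ (∑ b ∈ s, j b • D.et b) = ∏ b ∈ s, D.F n τ (j b • D.et b) ∧
      Mult n (τ • ∑ b ∈ s, j b • D.et b) := by
  induction s using Finset.induction_on with
  | empty => exact ⟨by simp, 0, by simp⟩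
  | insert a s ha ih =>
    obtain ⟨h1, h2⟩ := ih fun b hb => hm b (Finset.mem_insert_of_mem hb)
    have h3 := hm a (Finset.mem_insert_self _ _)
    have h4 := D.box_sum (insert a s) hj
    rw [Finset.sum_insert ha, add_comm] at h4
    rw [Finset.sum_insert ha, Finset.prod_insert ha, add_comm, smul_add,
      h.F_add (D.cow_nsmul a _) (D.anti_nsmul a _) (D.anti_sum s j) (D.box_nsmul a (hj a))
        (D.box_sum s hj) h4 h3 h2, h1]
    exact ⟨rfl, h2.add h3⟩

lemma Good.step_et (h : D.Good n) (a : D.b.support) (j : ℕ) {T : ℕ} {κ : M × ℤ}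
    (hs : D.S.Step n T (j • D.et a, 1) κ) :
    κ = (D.sr a (j • D.et a), 1) ∧ D.du n a ∣ T * j := by
  obtain ⟨b, h1, h2, h3⟩ := D.step_anti (D.cow_nsmul a j) (D.anti_nsmul a j) hs
  rw [map_nsmul, cv_et] at h1 h3
  have hb : b = a := by
    by_contra hb
    simp [hb] at h1
  subst hb
  refine ⟨h2, ?_⟩
  simp only [if_true, nsmul_eq_mul, mul_neg, dvd_neg] at h3
  have h4 : n ∣ T * (j * D.t b) := by exact_mod_cast h3
  have ht := D.t_pos b
  nth_rewrite 1 [← h.t_du b] at h4
  rw [← mul_assoc, mul_comm (D.t b)] at h4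
  exact Nat.dvd_of_mul_dvd_mul_right (by omega) h4

lemma Good.straight (h : D.Good n) (a : D.b.support) (j p τ δ : ℕ) (hj : 0 < j)
    (h1 : j * τ = p * D.du n a) (h2 : j * δ < D.du n a) :
    D.S.g n (τ + δ) (j • D.et a, 1) = ex (δ • (j • D.et a, 1)) * D.S.g n τ (j • D.et a, 1) := by
  refine Sys.g_straight_add one_pos τ δ fun T h3 h4 κ hs => ?_
  obtain ⟨e, rfl⟩ := Nat.exists_eq_add_of_lt h3
  have h5 := (h.step_et a j hs).2
  have h6 : (τ + e + 1) * j = p * D.du n a + (e + 1) * j := by rw [← h1]; ring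
  rw [h6] at h5
  have h7 := Nat.le_of_dvd (by positivity) ((Nat.dvd_add_right (dvd_mul_left _ _)).1 h5)
  have h8 : (e + 1) * j ≤ δ * j := Nat.mul_le_mul_right _ (by omega)
  rw [mul_comm δ] at h8
  omega

lemma Good.step_sr (h : D.Good n) (a : D.b.support) (m : ℕ) :
    D.S.Step n ((m * D.du n a : ℕ) : ℤ) (D.et a, 1) (D.sr a (D.et a), 1) := by
  have ht := D.t_pos a
  have := Sys.step_simple (S := D.S) (N := n) (T := ((m * D.du n a : ℕ) : ℤ)) (κ := (D.et a, 1))
    one_pos (i := some a) (by simp [cv_et_self]; omega) ⟨-m, by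
      rw [c_some, cv_et_self]
      nth_rewrite 2 [← h.t_du a]
      push_cast; ring⟩
  rwa [si_some] at this

lemma Good.split (h : D.Good n) (a : D.b.support) (m : ℕ) :
    D.S.g n ((m + 1) * D.du n a) (D.et a, 1) =
      ex (D.du n a • (D.et a, 1)) * D.S.g n (m * D.du n a) (D.et a, 1) +
        D.S.g n ((m + 1) * D.du n a) (D.sr a (D.et a), 1) := by
  obtain ⟨e, he⟩ := Nat.exists_eq_add_of_lt (h.du_pos a)
  rw [zero_add] at he
  have h1 : (m + 1) * D.du n a = m * D.du n a + e + 1 := by rw [add_mul, one_mul, add_assoc, ← he]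
  have h2 := h.step_sr a (m + 1)
  have h3 := h.straight a 1 m (m * D.du n a) e one_pos (one_mul _) (by omega)
  rw [one_smul] at h3
  rw [h1] at h2 ⊢
  rw [Sys.g_unique one_pos _ (fun κ hκ => ?_) h2, h3, ← mul_assoc, ← ex_add, ← succ_nsmul', ← he]
  have := (h.step_et a 1 (by rwa [one_smul])).1
  rwa [one_smul] at this

variable (D) in
/-- The scaled dual Kirillov-Reshetikhin character. -/
noncomputable def Qf (n : ℕ) (a : D.b.support) (m : ℕ) : GA M := D.F n (m * D.du n a) (D.et a)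

@[simp] lemma Qf_zero (a : D.b.support) : D.Qf n a 0 = 1 := by simp [Qf]

lemma Good.winv_Qf (h : D.Good n) (a : D.b.support) (m : ℕ) : D.WInv (D.Qf n a m) :=
  h.winv (D.anti_et a) (D.box_et a) (h.mult a m)

lemma Good.F_nsmul (h : D.Good n) (a : D.b.support) (j : ℕ) (hj : j ≤ D.Jm) (c r s τ : ℕ)
    (h1 : s + r = j) (h2 : j * τ = (j * c + r) * D.du n a) :
    D.F n τ (j • D.et a) = D.Qf n a c ^ s * D.Qf n a (c + 1) ^ r := by
  induction j generalizing c r s τ with
  | zero =>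
    obtain ⟨rfl, rfl⟩ : s = 0 ∧ r = 0 := by omega
    simp
  | succ j ih =>
    have hd := h.du_pos a
    have key : ∀ c r s τ, s + r = j → (j + 1) * τ = ((j + 1) * c + (r + 1)) * D.du n a →
        D.F n τ ((j + 1) • D.et a) = D.Qf n a c ^ s * D.Qf n a (c + 1) ^ (r + 1) := by
      intro c r s τ h1 h2
      rcases Nat.eq_zero_or_pos j with rfl | hj0
      · obtain ⟨rfl, rfl⟩ : s = 0 ∧ r = 0 := by omega
        simp only [zero_add, one_mul] at h2
        simp [h2, Qf]
      obtain ⟨e, he⟩ := h.dvd_du a hj0 (by omega)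
      have h3 : τ ≤ (c + 1) * D.du n a := by
        apply Nat.le_of_mul_le_mul_left (c := j + 1) _ (by omega)
        rw [h2, ← mul_assoc]
        exact Nat.mul_le_mul_right _ (by nlinarith)
      obtain ⟨θ, hθ⟩ := Nat.exists_eq_add_of_le h3
      have h4 : (j + 1) * θ = s * D.du n a := by nlinarith
      have h5 : θ < D.du n a := by
        apply Nat.lt_of_mul_lt_mul_left (a := j + 1)
        rw [h4]
        exact Nat.mul_lt_mul_of_pos_right (by omega) hd
      have h6 : j * ((j * c + r) * e) = (j * c + r) * D.du n a := by rw [he]; ring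
      have h7 : j * τ = j * ((j * c + r) * e) + θ := by rw [h6]; nlinarith
      obtain ⟨δ, hδ⟩ := Nat.exists_eq_add_of_le
        (Nat.le_of_mul_le_mul_left (h7 ▸ Nat.le_add_right _ θ) hj0)
      have h8 : j * δ = θ := by rw [hδ, mul_add] at h7; omega
      have h9 := ih (by omega) c r s _ h1 h6
      have hf : D.WInv (D.Qf n a c ^ s * D.Qf n a (c + 1) ^ r) :=
        ((h.winv_Qf a c).pow s).mul ((h.winv_Qf a _).pow r)
      have hm : Mult n (τ • (j • D.et a + D.et a)) := by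
        rw [← succ_nsmul, smul_smul, mul_comm, h2]; exact h.mult a _
      have hb : D.Box (j • D.et a + D.et a) := by rw [← succ_nsmul]; exact D.box_nsmul a hj
      rw [succ_nsmul, pow_succ, ← mul_assoc, mul_comm]
      refine h.eq_of (h.winv ((D.anti_nsmul a j).add D (D.anti_et a)) hb hm)
        ((h.winv_Qf a _).mul hf) (τ + θ) fun σ hσ => ?_
      obtain ⟨w, hw⟩ := ex_desc (D := D) (D.et a)
      have hJ := (Sys.alt_J0 (S := D.S)).comp ((D.cpt_T (D.cow_et a)).trans hw.cpt)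
      have e1 := h.fwd Sys.alt_J0 (D.cow_et a) (D.anti_et a) hw winv_one (σ + θ) τ
        (ζ := j • D.et a) (fun α hα _ => ((D.anti_nsmul a j).cv D hα).trans (D.t_pos α).le)
        (D.box_et a) hb (dvd_cast' hσ (by push_cast; ring)) hm
      have hm' : Mult n ((τ + θ) • D.et a) := hθ ▸ h.mult a (c + 1)
      have e2 := h.back Sys.alt_J0 (D.cow_et a) (D.anti_et a) hw hf σ (τ + θ) (D.box_et a) hσ hm'
      have e3 := h.star hJ a hf σ θ τ h5.le (dvd_cast' hσ (by push_cast; ring)) (hm'.of_dvd hσ)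
      have e4 := h.straight a j _ _ δ hj0 h6 (by omega)
      rw [← hδ, D.g_eq n ((j * c + r) * e), h9] at e4
      have e0 : D.F n (τ + θ) (D.et a) = D.Qf n a (c + 1) := by rw [Qf, hθ]
      rw [e0] at e2
      rw [e2]
      rw [mul_one, e4] at e1
      have e5 : (n * D.hv + σ + ((τ + θ : ℕ) : ℤ)) = n * D.hv + ((σ + θ : ℕ) : ℤ) + τ := by
        push_cast; ring
      rw [e5, e1, Nat.cast_add τ θ]
      refine Eq.trans ?_ e3
      congr 1
      have e6 : (n : ℤ) • D.S.rho + (θ • D.et a, (τ : ℤ)) = (n : ℤ) • D.S.rho +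
          (δ • ((j • D.et a, 1) : M × ℤ) + (0, (((j * c + r) * e : ℕ) : ℤ))) := by
        rw [← h8, hδ]
        ext
        · simp only [Prod.fst_add, Prod.smul_fst]; module
        · simp only [Prod.snd_add, Prod.smul_snd]; push_cast; ring
      rw [e6, ex_add, ex_add, map_one]
      ring
    rcases r with _ | r
    · have h3 : τ = c * D.du n a := by
        apply Nat.eq_of_mul_eq_mul_left (show 0 < j + 1 by omega)
        rw [h2]; ring
      rcases c with _ | c
      · simp [h3]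
      · rw [key c j 0 τ (by omega) (by rw [h3]; ring), show s = j + 1 by omega]
        simp
    · exact key c r s τ (by omega) h2

lemma sr_et_add (a : D.b.support) :
    D.sr a (D.et a) + D.et a = ∑ b ∈ Finset.univ.erase a, D.absC a b • D.et b := by
  refine D.ext_simple fun c => ?_
  rw [cv_sum_et, map_add, sr_apply, map_sub, map_zsmul, cv_et_self, cv_et]
  by_cases hc : c = a
  · subst hc; simp; ring
  · have h1 := D.t_sym a c
    rw [if_neg hc, if_pos (by simpa using hc), D.absC_eq hc, smul_eq_mul]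
    linarith

theorem Good.qsystem (h : D.Good n) (a : D.b.support) (m : ℕ) :
    D.Qf n a (m + 1) ^ 2 = D.Qf n a (m + 2) * D.Qf n a m +
      ∏ b ∈ Finset.univ.erase a, ∏ k ∈ Finset.range (D.absC a b),
        D.Qf n b ((D.absC b a * (m + 1) + k) / D.absC a b) := by
  set τ := (m + 1) * D.du n a with hτ
  have h1 : ∀ b, D.absC a b * τ = D.absC b a * (m + 1) * D.du n b := by
    intro b
    have ha := D.t_pos a
    have hb := D.t_pos b
    apply Nat.eq_of_mul_eq_mul_left (Nat.mul_pos (show 0 < D.t a by omega) (show 0 < D.t b by omega))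
    calc _ = (D.t b * D.absC a b) * (m + 1) * (D.t a * D.du n a) := by rw [hτ]; ring
      _ = (D.t a * D.absC b a) * (m + 1) * (D.t b * D.du n b) := by
        rw [absC_sym, h.t_du, h.t_du]
      _ = _ := by ring
  obtain ⟨h2, hm⟩ := h.F_sum (τ := τ) (Finset.univ.erase a) (D.absC_le_Jm a) fun b _ => by
    rw [smul_smul, mul_comm, h1]; exact h.mult b _
  have hb := D.box_sum (Finset.univ.erase a) (D.absC_le_Jm a)
  have ha := D.anti_sum (Finset.univ.erase a) (D.absC a)
  have h3 : ∏ b ∈ Finset.univ.erase a, ∏ k ∈ Finset.range (D.absC a b),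
      D.Qf n b ((D.absC b a * (m + 1) + k) / D.absC a b) =
      D.F n τ (D.sr a (D.et a) + D.et a) := by
    rw [sr_et_add, h2]
    refine Finset.prod_congr rfl fun b _ => ?_
    rcases Nat.eq_zero_or_pos (D.absC a b) with h0 | h0
    · simp [h0]
    · have h4 := Nat.div_add_mod (D.absC b a * (m + 1)) (D.absC a b)
      have h5 := Nat.mod_lt (D.absC b a * (m + 1)) h0
      obtain ⟨s, hs⟩ := Nat.exists_eq_add_of_lt h5
      have hs' : s + 1 + D.absC b a * (m + 1) % D.absC a b = D.absC a b := by omega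
      rw [h.F_nsmul b _ (D.absC_le_Jm a b) (D.absC b a * (m + 1) / D.absC a b)
        (D.absC b a * (m + 1) % D.absC a b) (s + 1) τ hs' (by rw [h1, h4]),
        ← prod_range_add_div _ _ _ _ (Nat.succ_pos s), hs', h4]
  rw [← sr_et_add] at hm hb ha
  rw [h3]
  refine h.eq_of ((h.winv_Qf a _).pow 2) (((h.winv_Qf a _).mul (h.winv_Qf a _)).add
    (h.winv ha hb hm)) (τ + D.du n a) fun σ hσ => ?_
  obtain ⟨w, hw⟩ := ex_desc (D := D) (D.et a)
  have hJ : D.S.Alt fun x => D.S.J0 (w (T (D.et a) x)) :=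
    (Sys.alt_J0 (S := D.S)).comp ((D.cpt_T (D.cow_et a)).trans hw.cpt)
  have hσ' : (n : ℤ) ∣ ((σ + D.du n a : ℕ) : ℤ) + τ := dvd_cast' hσ (by push_cast; ring)
  have hτ' : τ + D.du n a = (m + 2) * D.du n a := by rw [hτ]; ring
  have hm' : Mult n ((τ + D.du n a) • D.et a) := hτ' ▸ h.mult a (m + 2)
  have e1 := h.back Sys.alt_J0 (D.cow_et a) (D.anti_et a) hw (h.winv_Qf a (m + 1))
    (σ + D.du n a) τ (D.box_et a) hσ' (h.mult a _)
  have e2 := h.back Sys.alt_J0 (D.cow_et a) (D.anti_et a) hw (h.winv_Qf a m) σ (τ + D.du n a)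
    (D.box_et a) hσ hm'
  have e3 := h.star hJ a (h.winv_Qf a m) σ (D.du n a) τ le_rfl
    (dvd_cast' hσ (by push_cast; ring)) (hm'.of_dvd hσ)
  have e4 := h.fwd Sys.alt_J0 (D.cow_et a) (D.anti_et a) hw winv_one (σ + D.du n a) τ
    (ζ := D.sr a (D.et a)) (fun α hα _ => by
      by_cases hα' : α = a
      · subst hα'; simp [cv_et_self]
      · rw [← cv_pm]
        exact ((D.anti_et a).cv D (D.pos_pm hα a hα')).trans (D.t_pos α).le)
    (D.box_et a) hb hσ' hm
  have e5 : (n * D.hv + σ + ((τ + D.du n a : ℕ) : ℤ)) =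
      n * D.hv + ((σ + D.du n a : ℕ) : ℤ) + τ := by push_cast; ring
  have e6 := h.split a m
  rw [← hτ, D.g_eq n τ (D.et a), D.g_eq n (m * D.du n a)] at e6
  rw [map_add, mul_add, map_add]
  nth_rewrite 2 [Qf]
  rw [← hτ', e2, e5, Nat.cast_add τ, mul_one] at *
  rw [e4, sq]
  nth_rewrite 1 [Qf]
  rw [← hτ, e1]
  refine Eq.trans ?_ (congrArg (· + _) e3)
  rw [← map_add]
  congr 1
  have e7 : (n : ℤ) • D.S.rho + (D.du n a • D.et a, (τ : ℤ)) = (n : ℤ) • D.S.rho +
      (D.du n a • ((D.et a, 1) : M × ℤ) + (0, ((m * D.du n a : ℕ) : ℤ))) := by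
    rw [hτ]
    ext
    · simp
    · simp only [Prod.snd_add, Prod.smul_snd]; push_cast; ring
  rw [e7, ex_add, ex_add, ex_add, map_one]
  simp only [Qf, ← hτ]
  linear_combination (ex ((n : ℤ) • D.S.rho) * D.S.g n (σ + D.du n a) (-D.et a, 1)) * e6

end SimpleDatum

end Pool.Agent.Lib.MP_4354a3_al
end
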